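import Mathlib

/-!
Bi-infinite ternary words, squares, markers and the abstract marker lemmas.
-/

namespace Pool.Agent.Lib.MP_42179e_co

abbrev Lt := ZMod 3

/-- A square of period `n` starts at `s`. -/
def Sq (w : ℤ → Lt) (s : ℤ) (n : ℕ) : Prop :=
  ∀ i : ℤ, s ≤ i → i < s + n → w (i + n) = w i

def SF (w : ℤ → Lt) : Prop := ∀ (s : ℤ) (n : ℕ), 0 < n → ¬ Sq w s n

/-- No square of period at most `K` inside `[lo, hi)`. -/
def NoSq (w : ℤ → Lt) (lo hi : ℤ) (K : ℕ) : Prop :=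
  ∀ (s : ℤ) (n : ℕ), 0 < n → n ≤ K → lo ≤ s → s + 2 * n ≤ hi → ¬ Sq w s n

def dv (b : Bool) : Lt := if b then 1 else 2

/-- The `m` differences of consecutive letters starting at `s` are given by the bits of `c`. -/
def Mark (w : ℤ → Lt) (s : ℤ) (m c : ℕ) : Prop :=
  ∀ i : ℕ, i < m → w (s + i + 1) - w (s + i) = dv (c.testBit i)

theorem Sq.congr {w u : ℤ → Lt} {s t : ℤ} {n : ℕ} {g : Lt} (h : Sq w s n)
    (e : ∀ i : ℤ, s ≤ i → i < s + 2 * n → w i = u (i - s + t) + g) : Sq u t n := by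
  intro i h1 h2
  have a := e (i - t + s) (by omega) (by omega)
  have b := e (i - t + s + n) (by omega) (by omega)
  have c := h (i - t + s) (by omega) (by omega)
  rw [a, b] at c
  have e1 : i - t + s - s + t = i := by ring
  have e2 : i - t + s + n - s + t = i + n := by ring
  rw [e1, e2] at c
  exact add_right_cancel c

theorem Mark.congr {w u : ℤ → Lt} {s t : ℤ} {m c : ℕ} {g : Lt} (h : Mark w s m c)
    (e : ∀ i : ℤ, s ≤ i → i ≤ s + m → w i = u (i - s + t) + g) : Mark u t m c := by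
  intro i hi
  have a := e (s + i) (by omega) (by omega)
  have b := e (s + i + 1) (by omega) (by omega)
  have c := h i hi
  rw [a, b] at c
  have e1 : s + i - s + t = t + i := by ring
  have e2 : s + i + 1 - s + t = t + i + 1 := by ring
  rw [e1, e2] at c
  rw [← c]; ring

theorem Mark.fwd {w : ℤ → Lt} {s a : ℤ} {n m c : ℕ} (h : Sq w s n) (hm : Mark w a m c)
    (h1 : s ≤ a) (h2 : a + m + 1 ≤ s + n) : Mark w (a + n) m c := by
  refine hm.congr (g := 0) ?_
  intro i i1 i2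
  have := h i (by omega) (by omega)
  rw [add_zero, ← this]; congr 1; ring

theorem Mark.bwd {w : ℤ → Lt} {s a : ℤ} {n m c : ℕ} (h : Sq w s n) (hm : Mark w a m c)
    (h1 : s + n ≤ a) (h2 : a + m + 1 ≤ s + 2 * n) : Mark w (a - n) m c := by
  refine hm.congr (g := 0) ?_
  intro i i1 i2
  have := h (i - n) (by omega) (by omega)
  rw [add_zero]
  have e1 : i - n + n = i := by ring
  have e2 : i - a + (a - n) = i - n := by ring
  rw [e1] at this
  rw [e2, this]

theorem SF.add {w : ℤ → Lt} (h : SF w) (g : Lt) : SF (fun i => w i + g) := by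
  intro s n hn hs
  exact h s n hn (hs.congr (t := s) (g := g) (fun i _ _ => by simp))

theorem SF.shift {w : ℤ → Lt} (h : SF w) (t : ℤ) : SF (fun i => w (i + t)) := by
  intro s n hn hs
  exact h (s + t) n hn (hs.congr (t := s + t) (g := 0) (fun i _ _ => by
    simp only [add_zero]; congr 1; ring))

theorem SF.neg {w : ℤ → Lt} (h : SF w) : SF (fun i => - w i) := by
  intro s n hn hs
  exact h s n hn (fun i a b => neg_injective (hs i a b))

theorem SF.ne {w : ℤ → Lt} (h : SF w) (i : ℤ) : w (i + 1) ≠ w i := by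
  intro e
  refine h i 1 one_pos (fun j a b => ?_)
  have : j = i := by omega
  subst this; exact e

/-- A square whose period is a multiple of `p` gives a square in every residue class. -/
theorem Sq.sub {w : ℤ → Lt} {s : ℤ} {p j : ℕ} (hp : 0 < p) (h : Sq w s (p * j)) (r : ℤ) :
    ∃ t : ℤ, Sq (fun k => w (p * k + r)) t j := by
  refine ⟨(s - r + p - 1) / p, fun k k1 k2 => ?_⟩
  have hp' : (0 : ℤ) < p := by exact_mod_cast hp
  have a := Int.emod_add_mul_ediv (s - r + p - 1) p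
  have b := Int.emod_nonneg (s - r + p - 1) hp'.ne'
  have c := Int.emod_lt_of_pos (s - r + p - 1) hp'
  set t := (s - r + p - 1) / p
  have k1' : (p : ℤ) * t ≤ p * k := by nlinarith
  have k2' : (p : ℤ) * (k + 1) ≤ p * (t + j) := by nlinarith
  have := h (p * k + r) (by omega) (by push_cast; nlinarith)
  simp only
  rw [← this]; congr 1; push_cast; ring

theorem not_sq_of_dvd {w : ℤ → Lt} {s : ℤ} {p n : ℕ} (hp : 0 < p) (hn : 0 < n) (r : ℤ)
    (hx : SF (fun k => w (p * k + r))) (hd : (p : ℤ) ∣ (n : ℤ)) : ¬ Sq w s n := by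
  intro h
  obtain ⟨j, rfl⟩ : p ∣ n := by exact_mod_cast hd
  obtain ⟨t, ht⟩ := h.sub hp r
  exact hx t j (Nat.pos_of_mul_pos_left hn) ht

theorem mono_of_step {l : ℤ → ℤ} (h : ∀ n, l n < l (n + 1)) : StrictMono l :=
  strictMono_int_of_lt_succ h

theorem step_le {l : ℤ → ℤ} (h : ∀ n, l n < l (n + 1)) (n : ℤ) (k : ℕ) : l n + k ≤ l (n + k) := by
  induction k with
  | zero => simp
  | succ k ih =>
    have := h (n + k)
    push_cast
    rw [← add_assoc, ← add_assoc]; omega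

/-- Every integer lies between two consecutive values of a strictly increasing sequence. -/
theorem exists_between_seq {l : ℤ → ℤ} (h : ∀ n, l n < l (n + 1)) (s : ℤ) :
    ∃ n, l n ≤ s ∧ s < l (n + 1) := by
  have hm := mono_of_step h
  have ex : ∃ n, l n ≤ s := by
    refine ⟨0 - ((l 0 - s).toNat : ℕ), ?_⟩
    have := step_le h (0 - ((l 0 - s).toNat : ℕ)) (l 0 - s).toNat
    simp only [sub_add_cancel] at this
    omega
  have bd : ∃ b, ∀ n, l n ≤ s → n ≤ b := by
    refine ⟨((s - l 0).toNat : ℕ), fun n hn => ?_⟩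
    by_contra hc
    have h1 := step_le h 0 ((s - l 0).toNat + 1)
    have h2 : l (0 + (((s - l 0).toNat + 1 : ℕ) : ℤ)) ≤ l n := hm.monotone (by push_cast; omega)
    push_cast at h1 h2
    omega
  obtain ⟨n, hn, hmax⟩ := Int.exists_greatest_of_bdd bd ex
  refine ⟨n, hn, ?_⟩
  by_contra hc
  have := hmax (n + 1) (by omega)
  omega

theorem glue {l : ℤ → ℤ} (h : ∀ n, l n < l (n + 1)) (f : ℤ → ℤ → Lt) :
    ∃ w : ℤ → Lt, ∀ n i, l n ≤ i → i < l (n + 1) → w i = f n i := by
  choose g hg using exists_between_seq h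
  refine ⟨fun i => f (g i) i, fun n i h1 h2 => ?_⟩
  have hm := mono_of_step h
  have : g i = n := by
    obtain ⟨a, b⟩ := hg i
    have c1 : g i < n + 1 := hm.lt_iff_lt.mp (by omega)
    have c2 : n < g i + 1 := hm.lt_iff_lt.mp (by omega)
    omega
  simp [this]

/-- The abstract marker lemma. -/
theorem abs_cases {l r : ℤ → ℤ} (h1 : ∀ n, l n < r n) (h2 : ∀ n, r n ≤ l (n + 1)) (s c e : ℤ)
    (hc : s ≤ c) (he : c ≤ e) :
    (∃ n, s ≤ l n ∧ r n ≤ c) ∨ (∃ n, c ≤ l n ∧ r n ≤ e) ∨ (∃ n, l n < s ∧ e < r (n + 1)) ∨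
      (∃ n, l n < s ∧ e < r (n + 2) ∧ l (n + 1) < c ∧ c < r (n + 1)) := by
  have hl : ∀ n, l n < l (n + 1) := fun n => lt_of_lt_of_le (h1 n) (h2 n)
  obtain ⟨n, n1, n2⟩ := exists_between_seq hl (s - 1)
  by_cases a : r (n + 1) ≤ c
  · exact Or.inl ⟨n + 1, by omega, a⟩
  by_cases b : c ≤ l (n + 1)
  · by_cases d : r (n + 1) ≤ e
    · exact Or.inr (Or.inl ⟨n + 1, b, d⟩)
    · exact Or.inr (Or.inr (Or.inl ⟨n, by omega, by omega⟩))
  have := h2 (n + 1)
  have e2 : n + 1 + 1 = n + 2 := by ring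
  rw [e2] at this
  by_cases d : r (n + 2) ≤ e
  · exact Or.inr (Or.inl ⟨n + 2, by omega, d⟩)
  · exact Or.inr (Or.inr (Or.inr ⟨n, by omega, by omega, by omega, by omega⟩))

/-- The label lemma: the shift by the period acts on marker indices as a translation. -/
theorem shift_lemma {l r : ℤ → ℤ} (h1 : ∀ n, l n < r n) (h2 : ∀ n, r n ≤ l (n + 1)) (s d : ℤ)
    (hd : 0 < d)
    (hF : ∀ i, s ≤ l i → r i ≤ s + d → ∃ j, l j = l i + d ∧ r j = r i + d ∧ (j - i) % 2 = 0)
    (hB : ∀ i, s + d ≤ l i → r i ≤ s + 2 * d → ∃ j, l j = l i - d ∧ r j = r i - d)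
    (hex : ∃ i, s ≤ l i ∧ r i ≤ s + d) :
    ∃ i0 k : ℤ, 0 < k ∧ ∀ t, 0 ≤ t → t < 2 * k - 1 →
      s ≤ l (i0 + t) ∧ r (i0 + t) ≤ s + d ∧ l (i0 + t + 2 * k) = l (i0 + t) + d := by
  have hl : ∀ n, l n < l (n + 1) := fun n => lt_of_lt_of_le (h1 n) (h2 n)
  have hm := mono_of_step hl
  have hrl : ∀ a b, a < b → r a ≤ l b := fun a b hab =>
    le_trans (h2 a) (hm.monotone (by omega))
  obtain ⟨n, n1, n2⟩ := exists_between_seq hl (s - 1)
  obtain ⟨i, i1, i2⟩ := hex
  have hin : n + 1 ≤ i := by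
    have : n < i := hm.lt_iff_lt.mp (by omega)
    omega
  have in0 : r (n + 1) ≤ s + d := by
    rcases eq_or_lt_of_le hin with e | e
    · rw [e]; exact i2
    · have := hrl _ _ e; have := h1 i; omega
  obtain ⟨j, j1, j2, j3⟩ := hF (n + 1) (by omega) in0
  have hj : n + 1 < j := hm.lt_iff_lt.mp (by omega)
  refine ⟨n + 1, (j - (n + 1)) / 2, by omega, ?_⟩
  have hk : 2 * ((j - (n + 1)) / 2) = j - (n + 1) := by omega
  rw [hk]
  have inn : ∀ t, 0 ≤ t → t < j - (n + 1) - 1 → s ≤ l (n + 1 + t) ∧ r (n + 1 + t) ≤ s + d := by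
    intro t t0 t1
    have a : l (n + 1) ≤ l (n + 1 + t) := hm.monotone (by omega)
    refine ⟨by omega, ?_⟩
    by_contra hc
    have b := h2 (n + 1 + t)
    have c := hrl (n + 1 + t + 1) j (by omega)
    have c' := h1 (n + 1 + t + 1)
    have c'' := h1 (n + 1)
    obtain ⟨u, u1, u2⟩ := hB (n + 1 + t + 1) (by omega) (by omega)
    have u3 : u < n + 1 := hm.lt_iff_lt.mp (by omega)
    have u4 : l u ≤ l n := hm.monotone (by omega)
    omega
  intro t t0
  induction t, t0 using Int.le_induction with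
  | base =>
    intro t1
    obtain ⟨a, b⟩ := inn 0 le_rfl t1
    refine ⟨a, b, ?_⟩
    have : n + 1 + 0 + (j - (n + 1)) = j := by ring
    rw [this, add_zero]; exact j1
  | succ t t0 ih =>
    intro t1
    obtain ⟨a, b⟩ := inn (t + 1) (by omega) t1
    obtain ⟨a', b', c'⟩ := ih (by omega)
    refine ⟨a, b, ?_⟩
    obtain ⟨u, u1, u2, _⟩ := hF _ a b
    have lt0 : l (n + 1 + t) < l (n + 1 + (t + 1)) := hm (by omega)
    have u3 : n + 1 + t + (j - (n + 1)) < u := hm.lt_iff_lt.mp (by omega)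
    rcases eq_or_lt_of_le (show n + 1 + (t + 1) + (j - (n + 1)) ≤ u by omega) with e | e
    · rw [e]; exact u1
    · exfalso
      have p1 : l (n + 1 + t + (j - (n + 1))) < l (n + 1 + (t + 1) + (j - (n + 1))) :=
        hm (by omega)
      have p2 := hrl _ _ e
      have p3 := h1 (n + 1 + (t + 1) + (j - (n + 1)))
      have p4 := h1 (n + 1 + (t + 1))
      obtain ⟨v, v1, v2⟩ := hB (n + 1 + (t + 1) + (j - (n + 1))) (by omega) (by omega)
      have v3 : n + 1 + t < v := hm.lt_iff_lt.mp (by omega)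
      have v4 : v < n + 1 + (t + 1) := hm.lt_iff_lt.mp (by omega)
      omega

end Pool.Agent.Lib.MP_42179e_co
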