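import Pool.Agent.Lib.MP_42179e_co.Basic

/-!
Words stored as two bit planes, and the bit-parallel checkers.
-/

namespace Pool.Agent.Lib.MP_42179e_co

noncomputable section

def tb (m i : Nat) : Bool := Nat.beq (Nat.land 1 (Nat.shiftRight m i)) 1

theorem tb_eq (m i : Nat) : tb m i = m.testBit i := by
  unfold tb Nat.testBit
  show Nat.beq (1 &&& (m >>> i)) 1 = _
  rw [Nat.one_and_eq_mod_two]
  rcases Nat.mod_two_eq_zero_or_one (m >>> i) with h | h <;> rw [h] <;> rfl

def allB (f : Nat → Bool) (n : Nat) : Bool :=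
  Nat.rec (motive := fun _ => Bool) true (fun k ih => Bool.rec false ih (f k)) n

theorem allB_spec {f : Nat → Bool} {n : Nat} (h : allB f n = true) : ∀ i, i < n → f i = true := by
  induction n with
  | zero => intro i hi; omega
  | succ n ih =>
    have h' : (Bool.rec false (allB f n) (f n) : Bool) = true := h
    cases hf : f n with
    | false => rw [hf] at h'; exact absurd h' (by simp)
    | true =>
      rw [hf] at h'
      intro i hi
      rcases Nat.lt_succ_iff_lt_or_eq.mp hi with a | a
      · exact ih h' i a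
      · rw [a]; exact hf

def anyB (f : Nat → Bool) (n : Nat) : Bool :=
  Nat.rec (motive := fun _ => Bool) false (fun k ih => Bool.rec ih true (f k)) n

theorem anyB_spec {f : Nat → Bool} {n : Nat} (h : anyB f n = true) : ∃ i, i < n ∧ f i = true := by
  induction n with
  | zero => exact absurd h (by simp [anyB])
  | succ n ih =>
    have h' : (Bool.rec (anyB f n) true (f n) : Bool) = true := h
    cases hf : f n with
    | false =>
      rw [hf] at h'
      obtain ⟨i, a, b⟩ := ih h'
      exact ⟨i, by omega, b⟩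
    | true => exact ⟨n, by omega, hf⟩

def allL {α : Type} (f : α → Bool) (l : List α) : Bool :=
  List.rec (motive := fun _ => Bool) true (fun a _ ih => Bool.rec false ih (f a)) l

theorem allL_spec {α : Type} {f : α → Bool} {l : List α} (h : allL f l = true) :
    ∀ a ∈ l, f a = true := by
  induction l with
  | nil => simp
  | cons x l ih =>
    have h' : (Bool.rec false (allL f l) (f x) : Bool) = true := h
    cases hf : f x with
    | false => rw [hf] at h'; exact absurd h' (by simp)
    | true =>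
      rw [hf] at h'
      intro a ha
      rcases List.mem_cons.mp ha with e | e
      · rw [e]; exact hf
      · exact ih h' a e

def anyL {α : Type} (f : α → Bool) (l : List α) : Bool :=
  List.rec (motive := fun _ => Bool) false (fun a _ ih => Bool.rec ih true (f a)) l

theorem anyL_spec {α : Type} {f : α → Bool} {l : List α} (h : anyL f l = true) :
    ∃ a ∈ l, f a = true := by
  induction l with
  | nil => exact absurd h (by simp [anyL])
  | cons x l ih =>
    have h' : (Bool.rec (anyL f l) true (f x) : Bool) = true := h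
    cases hf : f x with
    | false =>
      rw [hf] at h'
      obtain ⟨i, a, b⟩ := ih h'
      exact ⟨i, List.mem_cons_of_mem _ a, b⟩
    | true => exact ⟨x, List.mem_cons_self, hf⟩

def ones (n : Nat) : Nat := Nat.sub (Nat.pow 2 n) 1

theorem ones_bit (n i : Nat) : (ones n).testBit i = decide (i < n) :=
  Nat.testBit_two_pow_sub_one n i

def low (x n : Nat) : Nat := Nat.mod x (Nat.pow 2 n)

theorem low_bit (x n i : Nat) : (low x n).testBit i = (decide (i < n) && x.testBit i) :=
  Nat.testBit_mod_two_pow x n i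

def jn (x n y : Nat) : Nat := Nat.lor (low x n) (Nat.shiftLeft y n)

theorem lor_bit (x y i : Nat) : (Nat.lor x y).testBit i = (x.testBit i || y.testBit i) :=
  Nat.testBit_or x y i
theorem land_bit (x y i : Nat) : (Nat.land x y).testBit i = (x.testBit i && y.testBit i) :=
  Nat.testBit_and x y i
theorem xor_bit (x y i : Nat) : (Nat.xor x y).testBit i = (x.testBit i ^^ y.testBit i) :=
  Nat.testBit_xor x y i
theorem shr_bit (x k i : Nat) : (Nat.shiftRight x k).testBit i = x.testBit (k + i) :=
  Nat.testBit_shiftRight x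
theorem shl_bit (x k i : Nat) :
    (Nat.shiftLeft x k).testBit i = (decide (i ≥ k) && x.testBit (i - k)) :=
  Nat.testBit_shiftLeft x

theorem jn_lt {x n y i : Nat} (h : i < n) : (jn x n y).testBit i = x.testBit i := by
  unfold jn; rw [lor_bit, low_bit, shl_bit]
  have : ¬ i ≥ n := by omega
  simp [h, this]

theorem jn_ge (x n y i : Nat) : (jn x n y).testBit (n + i) = y.testBit i := by
  unfold jn; rw [lor_bit, low_bit, shl_bit]
  simp

structure Wd where
  a : Nat
  b : Nat

def Wd.getN (x : Wd) (i : Nat) : Nat := cond (tb x.a i) 1 (cond (tb x.b i) 2 0)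

def lt2 (a b : Bool) : Lt := cond a 1 (cond b 2 0)

def Wd.get (x : Wd) (i : Nat) : Lt := lt2 (x.a.testBit i) (x.b.testBit i)

theorem Wd.getN_cast (x : Wd) (i : Nat) : ((x.getN i : Nat) : Lt) = x.get i := by
  unfold Wd.getN Wd.get
  rw [tb_eq, tb_eq]
  cases x.a.testBit i <;> cases x.b.testBit i <;> rfl

def Wd.fn (x : Wd) : ℤ → Lt := fun i => x.get i.toNat

@[simp] theorem Wd.fn_nat (x : Wd) (i : Nat) : x.fn (i : ℤ) = x.get i := rfl

def Wd.cat (x : Wd) (n : Nat) (y : Wd) : Wd := ⟨jn x.a n y.a, jn x.b n y.b⟩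

theorem Wd.cat_lt {x y : Wd} {n i : Nat} (h : i < n) : (x.cat n y).get i = x.get i := by
  simp only [Wd.cat, Wd.get, jn_lt h]

theorem Wd.cat_ge (x y : Wd) (n i : Nat) : (x.cat n y).get (n + i) = y.get i := by
  simp only [Wd.cat, Wd.get, jn_ge]

def Wd.drop (x : Wd) (k : Nat) : Wd := ⟨Nat.shiftRight x.a k, Nat.shiftRight x.b k⟩

theorem Wd.drop_get (x : Wd) (k i : Nat) : (x.drop k).get i = x.get (k + i) := by
  simp only [Wd.drop, Wd.get, shr_bit]

def Wd.rot (x : Wd) (n r : Nat) : Wd :=
  cond (Nat.beq r 0) x (cond (Nat.beq r 1)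
    ⟨Nat.xor (ones n) (Nat.lor x.a x.b), x.a⟩
    ⟨Nat.xor (Nat.lor x.a x.b) x.a, Nat.xor (ones n) (Nat.lor x.a x.b)⟩)

theorem Wd.rot_get {x : Wd} {n r i : Nat} (hr : r < 3) (h : i < n) :
    (x.rot n r).get i = x.get i + (r : Lt) := by
  unfold Wd.rot
  interval_cases r
  · simp
  · show Wd.get ⟨_, _⟩ i = _
    simp only [Wd.get, xor_bit, lor_bit, ones_bit, h, decide_true]
    cases x.a.testBit i <;> cases x.b.testBit i <;> rfl
  · show Wd.get ⟨_, _⟩ i = _
    simp only [Wd.get, xor_bit, lor_bit, ones_bit, h, decide_true]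
    cases x.a.testBit i <;> cases x.b.testBit i <;> rfl

/-- agreement of the first `n` letters -/
def Wd.eqB (x y : Wd) (n : Nat) : Bool :=
  Nat.beq (low (Nat.lor (Nat.xor x.a y.a) (Nat.xor x.b y.b)) n) 0

theorem Wd.eqB_spec {x y : Wd} {n : Nat} (h : x.eqB y n = true) (i : Nat) (hi : i < n) :
    x.get i = y.get i := by
  have h1 := congrArg (fun z => z.testBit i) (Nat.eq_of_beq_eq_true h)
  simp only [low_bit, lor_bit, xor_bit, hi, decide_true, Bool.true_and, Nat.zero_testBit] at h1
  unfold Wd.get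
  revert h1
  cases x.a.testBit i <;> cases x.b.testBit i <;> cases y.a.testBit i <;> cases y.b.testBit i <;>
    simp

def rep (y P d : Nat) : Nat :=
  Nat.rec (motive := fun _ => Nat) y
    (fun k acc => Nat.lor acc (Nat.shiftLeft acc (Nat.mul P (Nat.pow 2 k)))) d

theorem rep_bit {y P : Nat} (hP : 0 < P) (hy : ∀ i, P ≤ i → y.testBit i = false) (d i : Nat) :
    (rep y P d).testBit i = (decide (i / P < 2 ^ d) && y.testBit (i % P)) := by
  induction d generalizing i with
  | zero =>
    show y.testBit i = _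
    by_cases h : i < P
    · simp [Nat.div_eq_of_lt h, Nat.mod_eq_of_lt h]
    · have : ¬ i / P < 1 := by
        have := (Nat.le_div_iff_mul_le hP).mpr (show 1 * P ≤ i by omega)
        omega
      rw [hy i (by omega)]; simp [this]
  | succ d ih =>
    show (Nat.lor (rep y P d) (Nat.shiftLeft (rep y P d) (P * 2 ^ d))).testBit i = _
    rw [lor_bit, shl_bit, ih, ih]
    by_cases h : i ≥ P * 2 ^ d
    · obtain ⟨j, rfl⟩ := Nat.exists_eq_add_of_le h
      have e1 : (P * 2 ^ d + j) / P = 2 ^ d + j / P := by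
        rw [Nat.mul_add_div hP]
      have e2 : (P * 2 ^ d + j) % P = j % P := by rw [Nat.mul_add_mod]
      rw [e1, e2, Nat.add_sub_cancel_left, pow_succ]
      generalize j / P = u
      have : ¬ 2 ^ d + u < 2 ^ d := by omega
      have t : (2 ^ d + u < 2 ^ d * 2) ↔ (u < 2 ^ d) := by omega
      simp [this, t]
    · have a : i / P < 2 ^ d := by
        rw [Nat.div_lt_iff_lt_mul hP]; rw [mul_comm]; omega
      have b : i / P < 2 ^ (d + 1) := by rw [pow_succ]; omega
      simp [a, b, h]

theorem one_bit {i : Nat} (h : i ≠ 0) : Nat.testBit 1 i = false := by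
  have := Nat.testBit_two_pow_of_ne (n := 0) (m := i) (Ne.symm h)
  simpa using this

def cmpStep (p D k acc : Nat) : Nat :=
  Nat.land (Nat.lor acc (Nat.shiftRight acc (Nat.mul (Nat.pred p) (Nat.pow 2 k))))
    (rep (ones (Nat.pow 2 (Nat.succ k))) (Nat.mul p (Nat.pow 2 (Nat.succ k))) (Nat.sub D (Nat.succ k)))

def cmpN (p D y n : Nat) : Nat :=
  Nat.rec (motive := fun _ => Nat) (Nat.land y (rep 1 p D)) (fun k acc => cmpStep p D k acc) n

theorem cmpN_spec {p D y : Nat} (hp : 2 ≤ p) (k : Nat) (hk : k ≤ D) :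
    (∀ j r, r < 2 ^ k → j < 2 ^ (D - k) →
      (cmpN p D y k).testBit (p * 2 ^ k * j + r) = y.testBit (p * (2 ^ k * j + r))) ∧
    (∀ i, 2 ^ k ≤ i % (p * 2 ^ k) → (cmpN p D y k).testBit i = false) := by
  induction k with
  | zero =>
    have h1 : ∀ i, p ≤ i → Nat.testBit 1 i = false := by
      intro i hi
      have : i ≠ 0 := by omega
      exact one_bit this
    constructor
    · intro j r hr hj
      have : r = 0 := by omega
      subst this
      show (Nat.land y (rep 1 p D)).testBit _ = _
      rw [land_bit, rep_bit (by omega) h1]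
      simp only [pow_zero, mul_one, add_zero, one_mul, Nat.mul_mod_right]
      rw [Nat.mul_div_cancel_left _ (by omega)]
      simp at hj
      simp [hj]
    · intro i hi
      show (Nat.land y (rep 1 p D)).testBit _ = _
      rw [land_bit, rep_bit (by omega) h1]
      simp only [pow_zero, mul_one] at hi
      have : i % p ≠ 0 := by omega
      have h2 : Nat.testBit 1 (i % p) = false := one_bit this
      simp [h2]
  | succ k ih =>
    obtain ⟨i1, i2⟩ := ih (by omega)
    have pk : 0 < 2 ^ k := by positivity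
    have hP : 0 < p * 2 ^ (k + 1) := by positivity
    have hy : ∀ i, p * 2 ^ (k + 1) ≤ i → (ones (2 ^ (k + 1))).testBit i = false := by
      intro i hi
      rw [ones_bit]
      have : 2 ^ (k + 1) ≤ p * 2 ^ (k + 1) := Nat.le_mul_of_pos_left _ (by omega)
      simp; omega
    have unf : ∀ i, (cmpN p D y (k + 1)).testBit i =
        (((cmpN p D y k).testBit i || (cmpN p D y k).testBit ((p - 1) * 2 ^ k + i)) &&
          (decide (i / (p * 2 ^ (k + 1)) < 2 ^ (D - (k + 1))) &&
            decide (i % (p * 2 ^ (k + 1)) < 2 ^ (k + 1)))) := by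
      intro i
      show (cmpStep p D k (cmpN p D y k)).testBit i = _
      unfold cmpStep
      rw [land_bit, lor_bit, shr_bit]
      have := rep_bit hP hy (D - (k + 1)) i
      rw [ones_bit] at this
      exact congrArg₂ _ rfl this
    obtain ⟨p', rfl⟩ : ∃ p', p = p' + 2 := ⟨p - 2, by omega⟩
    have hD : 2 ^ (D - k) = 2 * 2 ^ (D - (k + 1)) := by
      rw [← pow_succ']; congr 1; omega
    constructor
    · intro j r hr hj
      rw [unf]
      have lt1 : r < (p' + 2) * 2 ^ (k + 1) := by nlinarith
      have d1 : ((p' + 2) * 2 ^ (k + 1) * j + r) / ((p' + 2) * 2 ^ (k + 1)) = j := by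
        rw [Nat.mul_add_div hP, Nat.div_eq_of_lt lt1, add_zero]
      have d2 : ((p' + 2) * 2 ^ (k + 1) * j + r) % ((p' + 2) * 2 ^ (k + 1)) = r := by
        rw [Nat.mul_add_mod, Nat.mod_eq_of_lt lt1]
      rw [d1, d2]
      simp only [hj, hr, decide_true, Bool.and_true]
      have hPk : 0 < (p' + 2) * 2 ^ k := by positivity
      have s1 : p' + 2 - 1 = p' + 1 := by omega
      rw [s1]
      rw [pow_succ] at hr
      by_cases c : r < 2 ^ k
      · have e1 : (p' + 2) * 2 ^ (k + 1) * j + r = (p' + 2) * 2 ^ k * (2 * j) + r := by ring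
        have e2 : (p' + 1) * 2 ^ k + ((p' + 2) * 2 ^ (k + 1) * j + r) =
            (p' + 2) * 2 ^ k * (2 * j) + ((p' + 1) * 2 ^ k + r) := by ring
        rw [e2, i2 ((p' + 2) * 2 ^ k * (2 * j) + ((p' + 1) * 2 ^ k + r)), e1, i1 (2 * j) r c (by omega), Bool.or_false]
        · congr 1; ring
        · rw [Nat.mul_add_mod, Nat.mod_eq_of_lt (by nlinarith)]; nlinarith
      · obtain ⟨r', rfl⟩ := Nat.exists_eq_add_of_le (not_lt.mp c)
        have e1 : (p' + 2) * 2 ^ (k + 1) * j + (2 ^ k + r') =
            (p' + 2) * 2 ^ k * (2 * j) + (2 ^ k + r') := by ring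
        have e2 : (p' + 1) * 2 ^ k + ((p' + 2) * 2 ^ (k + 1) * j + (2 ^ k + r')) =
            (p' + 2) * 2 ^ k * (2 * j + 1) + r' := by ring
        rw [e2, i1 (2 * j + 1) r' (by omega) (by omega), e1, i2, Bool.false_or]
        · congr 1; ring
        · rw [Nat.mul_add_mod, Nat.mod_eq_of_lt (by nlinarith)]; omega
    · intro i hi
      rw [unf]
      have : ¬ i % ((p' + 2) * 2 ^ (k + 1)) < 2 ^ (k + 1) := by omega
      simp [this]

/-- letters at positions `p * i + r`, for `i < n`. -/
def Wd.proj (x : Wd) (p r n : Nat) : Wd :=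
  ⟨cmpN p (Nat.succ (Nat.log2 n)) (Nat.shiftRight x.a r) (Nat.succ (Nat.log2 n)),
   cmpN p (Nat.succ (Nat.log2 n)) (Nat.shiftRight x.b r) (Nat.succ (Nat.log2 n))⟩

theorem Wd.proj_get {x : Wd} {p r n i : Nat} (hp : 2 ≤ p) (hi : i < n) :
    (x.proj p r n).get i = x.get (p * i + r) := by
  have hl : i < 2 ^ (n.log2 + 1) := lt_trans hi Nat.lt_log2_self
  have key : ∀ y, (cmpN p (n.log2 + 1) (Nat.shiftRight y r) (n.log2 + 1)).testBit i =
      y.testBit (p * i + r) := by
    intro y
    have := (cmpN_spec (p := p) (D := n.log2 + 1) (y := Nat.shiftRight y r) hp _ le_rfl).1 0 i hl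
      (by simp)
    simp only [mul_zero, zero_add] at this
    rw [this, shr_bit, add_comm]
  exact congrArg₂ lt2 (key _) (key _)

end

end Pool.Agent.Lib.MP_42179e_co
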