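import Pool.Agent.Lib.MP_42179e_co.Bits

/-!
Blocks of lanes separated by marked positions; bit-parallel square and occurrence checks.
-/

namespace Pool.Agent.Lib.MP_42179e_co

noncomputable section

structure Blk where
  a : Nat
  b : Nat
  x : Nat
  o1 : Nat
  o2 : Nat
  len : Nat

def Blk.nil : Blk := ⟨0, 0, 0, 0, 0, 0⟩

def Blk.one (w : Wd) (n o1 o2 : Nat) : Blk :=
  ⟨low w.a n, low w.b n, Nat.pow 2 n, low o1 n, low o2 n, Nat.succ n⟩

def Blk.app (u v : Blk) : Blk :=
  ⟨jn u.a u.len v.a, jn u.b u.len v.b, jn u.x u.len v.x, jn u.o1 u.len v.o1, jn u.o2 u.len v.o2,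
    Nat.add u.len v.len⟩

def Blk.wd (g : Blk) : Wd := ⟨g.a, g.b⟩

def blkL {α : Type} (f : α → Blk) (l : List α) : Blk :=
  List.rec (motive := fun _ => Blk) Blk.nil (fun a _ ih => (f a).app ih) l

def blkN (f : Nat → Blk) (n : Nat) : Blk :=
  Nat.rec (motive := fun _ => Blk) Blk.nil (fun k ih => (f k).app ih) n

def SubAt (u g : Blk) (off : Nat) : Prop :=
  off + u.len ≤ g.len ∧ ∀ i, i < u.len →
    g.a.testBit (off + i) = u.a.testBit i ∧ g.b.testBit (off + i) = u.b.testBit i ∧
    g.x.testBit (off + i) = u.x.testBit i ∧ g.o1.testBit (off + i) = u.o1.testBit i ∧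
    g.o2.testBit (off + i) = u.o2.testBit i

theorem SubAt.refl (u : Blk) : SubAt u u 0 := ⟨by simp, fun i _ => by simp⟩

theorem SubAt.trans {u v g : Blk} {a b : Nat} (h1 : SubAt u v a) (h2 : SubAt v g b) :
    SubAt u g (b + a) := by
  refine ⟨by have := h1.1; have := h2.1; omega, fun i hi => ?_⟩
  have c := h1.2 i hi
  have d := h2.2 (a + i) (by have := h1.1; omega)
  rw [add_assoc]
  exact ⟨d.1.trans c.1, d.2.1.trans c.2.1, d.2.2.1.trans c.2.2.1, d.2.2.2.1.trans c.2.2.2.1,
    d.2.2.2.2.trans c.2.2.2.2⟩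

theorem subAt_left (u v : Blk) : SubAt u (u.app v) 0 := by
  refine ⟨by simp [Blk.app], fun i hi => ?_⟩
  simp only [Blk.app, zero_add, jn_lt hi, and_self]

theorem subAt_right (u v : Blk) : SubAt v (u.app v) u.len := by
  refine ⟨by simp [Blk.app], fun i _ => ?_⟩
  simp only [Blk.app, jn_ge, and_self]

def Sub (u g : Blk) : Prop := ∃ off, SubAt u g off

theorem Sub.refl (u : Blk) : Sub u u := ⟨0, SubAt.refl u⟩
theorem Sub.trans {u v g : Blk} (h1 : Sub u v) (h2 : Sub v g) : Sub u g := by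
  obtain ⟨a, h1⟩ := h1; obtain ⟨b, h2⟩ := h2; exact ⟨_, h1.trans h2⟩
theorem sub_left (u v : Blk) : Sub u (u.app v) := ⟨_, subAt_left u v⟩
theorem sub_right (u v : Blk) : Sub v (u.app v) := ⟨_, subAt_right u v⟩

theorem sub_blkL {α : Type} (f : α → Blk) {l : List α} {a : α} (h : a ∈ l) :
    Sub (f a) (blkL f l) := by
  induction l with
  | nil => simp at h
  | cons x l ih =>
    rcases List.mem_cons.mp h with e | e
    · rw [e]; exact sub_left _ _
    · exact (ih e).trans (sub_right (f x) _)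

theorem sub_blkN (f : Nat → Blk) {n k : Nat} (h : k < n) : Sub (f k) (blkN f n) := by
  induction n with
  | zero => omega
  | succ n ih =>
    rcases Nat.lt_succ_iff_lt_or_eq.mp h with e | e
    · exact (ih e).trans (sub_right (f n) _)
    · rw [e]; exact sub_left _ _

def SqOK (K : Nat) (g : Blk) : Prop :=
  ∀ s n : Nat, 0 < n → n ≤ K → s + 2 * n ≤ g.len →
    (∀ i, s ≤ i → i < s + 2 * n → g.x.testBit i = false) → ¬ Sq g.wd.fn s n

def OccOK (m c : Nat) (g : Blk) (O : Nat) : Prop :=
  ∀ s : Nat, s + m < g.len → (∀ i, s ≤ i → i ≤ s + m → g.x.testBit i = false) →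
    Mark g.wd.fn s m c → O.testBit s = true

theorem SubAt.get {u g : Blk} {off : Nat} (h : SubAt u g off) {i : Nat} (hi : i < u.len) :
    g.wd.get (off + i) = u.wd.get i := by
  have := h.2 i hi
  simp only [Wd.get, Blk.wd, this.1, this.2.1]

theorem SubAt.fn {u g : Blk} {off : Nat} (h : SubAt u g off) (i : ℤ) (h0 : 0 ≤ i)
    (hi : i < u.len) : u.wd.fn i = g.wd.fn (i + off) := by
  obtain ⟨k, rfl⟩ := Int.eq_ofNat_of_zero_le h0
  have e : (k : ℤ) + off = ((off + k : ℕ) : ℤ) := by push_cast; ring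
  rw [e, Wd.fn_nat, Wd.fn_nat, h.get (by exact_mod_cast hi)]

theorem SqOK.sub {K : Nat} {u g : Blk} (h : SqOK K g) (hs : Sub u g) : SqOK K u := by
  obtain ⟨off, hs⟩ := hs
  intro s n h1 h2 h3 h4 h5
  refine h (off + s) n h1 h2 (by have := hs.1; omega) (fun i a b => ?_) ?_
  · obtain ⟨j, rfl⟩ := Nat.exists_eq_add_of_le (show off ≤ i by omega)
    rw [(hs.2 j (by omega)).2.2.1]; exact h4 j (by omega) (by omega)
  · refine h5.congr (g := 0) (fun i a b => ?_)
    rw [add_zero, hs.fn i (by omega) (by omega)]; congr 1; push_cast; ring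

theorem SqOK.mono {K K' : Nat} {g : Blk} (h : SqOK K g) (hK : K' ≤ K) : SqOK K' g :=
  fun s n h1 h2 => h s n h1 (le_trans h2 hK)

theorem OccOK.subAt {m c O off : Nat} {u g : Blk} (h : OccOK m c g O) (hs : SubAt u g off)
    (s : Nat) (h1 : s + m < u.len) (h2 : ∀ i, s ≤ i → i ≤ s + m → u.x.testBit i = false)
    (h3 : Mark u.wd.fn s m c) : O.testBit (off + s) = true := by
  refine h (off + s) (by have := hs.1; omega) (fun i a b => ?_) ?_
  · obtain ⟨j, rfl⟩ := Nat.exists_eq_add_of_le (show off ≤ i by omega)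
    rw [(hs.2 j (by omega)).2.2.1]; exact h2 j (by omega) (by omega)
  · refine h3.congr (g := 0) (fun i a b => ?_)
    rw [add_zero, hs.fn i (by omega) (by omega)]; congr 1; push_cast; ring

theorem OccOK.sub1 {m c : Nat} {u g : Blk} (h : OccOK m c g g.o1) (hs : Sub u g) :
    OccOK m c u u.o1 := by
  obtain ⟨off, hs⟩ := hs
  intro s h1 h2 h3
  rw [← (hs.2 s (by omega)).2.2.2.1]; exact h.subAt hs s h1 h2 h3

theorem OccOK.sub2 {m c : Nat} {u g : Blk} (h : OccOK m c g g.o2) (hs : Sub u g) :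
    OccOK m c u u.o2 := by
  obtain ⟨off, hs⟩ := hs
  intro s h1 h2 h3
  rw [← (hs.2 s (by omega)).2.2.2.2]; exact h.subAt hs s h1 h2 h3

theorem one_get (w : Wd) {n o1 o2 i : Nat} (hi : i < n) :
    (Blk.one w n o1 o2).wd.get i = w.get i := by
  simp only [Blk.one, Blk.wd, Wd.get, low_bit, hi, decide_true, Bool.true_and]

theorem one_fn (w : Wd) {n o1 o2 : Nat} (i : ℤ) (h0 : 0 ≤ i) (hi : i < n) :
    w.fn i = (Blk.one w n o1 o2).wd.fn i := by
  obtain ⟨k, rfl⟩ := Int.eq_ofNat_of_zero_le h0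
  rw [Wd.fn_nat, Wd.fn_nat, one_get w (by exact_mod_cast hi)]

theorem one_x (w : Wd) {n o1 o2 i : Nat} (hi : i < n) : (Blk.one w n o1 o2).x.testBit i = false :=
  Nat.testBit_two_pow_of_ne (by omega)

theorem SqOK.one {K n o1 o2 : Nat} {w : Wd} (h : SqOK K (Blk.one w n o1 o2)) :
    NoSq w.fn 0 n K := by
  intro s k h1 h2 h3 h4 h5
  obtain ⟨t, rfl⟩ := Int.eq_ofNat_of_zero_le h3
  refine h t k h1 h2 (by show _ ≤ n + 1; omega) (fun i a b => one_x w (by omega)) ?_
  refine h5.congr (g := 0) (fun i a b => ?_)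
  rw [add_zero, one_fn w (n := n) (o1 := o1) (o2 := o2) i (by omega) (by omega)]; congr 1; ring

theorem mark_one {n o1 o2 m c s : Nat} {w : Wd} (h1 : s + m < n) (h : Mark w.fn s m c) :
    Mark (Blk.one w n o1 o2).wd.fn s m c := by
  refine h.congr (g := 0) (fun i a b => ?_)
  rw [add_zero, one_fn w (n := n) (o1 := o1) (o2 := o2) i (by omega) (by omega)]; congr 1; ring

theorem OccOK.one1 {m c n o1 o2 : Nat} {w : Wd}
    (h : OccOK m c (Blk.one w n o1 o2) (Blk.one w n o1 o2).o1) (s : Nat) (h1 : s + m < n)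
    (h3 : Mark w.fn s m c) : o1.testBit s = true := by
  have := h s (by show _ < n + 1; omega) (fun i a b => one_x w (by omega)) (mark_one h1 h3)
  simp only [Blk.one, low_bit, Bool.and_eq_true] at this
  exact this.2

theorem OccOK.one2 {m c n o1 o2 : Nat} {w : Wd}
    (h : OccOK m c (Blk.one w n o1 o2) (Blk.one w n o1 o2).o2) (s : Nat) (h1 : s + m < n)
    (h3 : Mark w.fn s m c) : o2.testBit s = true := by
  have := h s (by show _ < n + 1; omega) (fun i a b => one_x w (by omega)) (mark_one h1 h3)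
  simp only [Blk.one, low_bit, Bool.and_eq_true] at this
  exact this.2

/-! ### the square check -/

def orw (n f : Nat) : Nat → Nat → Nat :=
  Nat.rec (motive := fun _ => Nat → Nat → Nat) (fun m _ => m)
    (fun _ ih m w => Bool.rec (Nat.lor m (Nat.shiftRight m (Nat.sub n w)))
      (ih (Nat.lor m (Nat.shiftRight m w)) (Nat.add w w)) (Nat.ble (Nat.add w w) n)) f

theorem orw_spec (M n f : Nat) : ∀ m w, w ≤ n →
    (∀ s, m.testBit s = true → ∃ i, i < w ∧ M.testBit (s + i) = true) →
    ∀ s, (orw n f m w).testBit s = true → ∃ i, i < n ∧ M.testBit (s + i) = true := by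
  induction f with
  | zero =>
    intro m w hw h s hs
    obtain ⟨i, a, b⟩ := h s hs
    exact ⟨i, by omega, b⟩
  | succ f ih =>
    intro m w hw h s hs
    have hs' : (Bool.rec (Nat.lor m (Nat.shiftRight m (n - w)))
      (orw n f (Nat.lor m (Nat.shiftRight m w)) (w + w)) (Nat.ble (w + w) n) : Nat).testBit s
        = true := hs
    cases hb : Nat.ble (w + w) n with
    | false =>
      rw [hb] at hs'
      simp only [lor_bit, shr_bit, Bool.or_eq_true] at hs'
      rcases hs' with a | a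
      · obtain ⟨i, a, b⟩ := h s a
        exact ⟨i, by omega, b⟩
      · obtain ⟨i, a, b⟩ := h _ a
        exact ⟨n - w + i, by omega, by rw [← b]; congr 1; omega⟩
    | true =>
      rw [hb] at hs'
      refine ih _ _ (Nat.le_of_ble_eq_true hb) ?_ s hs'
      intro t ht
      simp only [lor_bit, shr_bit, Bool.or_eq_true] at ht
      rcases ht with a | a
      · obtain ⟨i, a, b⟩ := h t a
        exact ⟨i, by omega, b⟩
      · obtain ⟨i, a, b⟩ := h _ a
        exact ⟨w + i, by omega, by rw [← b]; congr 1; omega⟩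

def mis (A B X n : Nat) : Nat :=
  Nat.lor (Nat.lor (Nat.xor A (Nat.shiftRight A n)) (Nat.xor B (Nat.shiftRight B n)))
    (Nat.lor X (Nat.shiftRight X n))

def sqLoop (A B X full lo K : Nat) : Bool :=
  allB (fun k => Nat.beq (Nat.land (orw (Nat.add lo k) 16 (mis A B X (Nat.add lo k)) 1) full) full) K

/-- checks the periods `lo, ..., lo + K - 1` -/
def chkSqR (g : Blk) (lo K : Nat) : Bool :=
  Nat.beq (Nat.land g.a g.b) 0 &&
    sqLoop g.a g.b (jn g.x g.len (ones (Nat.mul 2 (Nat.add lo K)))) (ones g.len) lo K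

def chkSq (g : Blk) (K : Nat) : Bool := chkSqR g 1 K

theorem lt2_ne {a b c d : Bool} (h1 : (a && b) = false) (h2 : (c && d) = false)
    (h : ((a ^^ c) || (b ^^ d)) = true) : lt2 c d ≠ lt2 a b := by
  revert h h1 h2
  cases a <;> cases b <;> cases c <;> cases d <;> decide

theorem chkSqR_spec {g : Blk} {lo K : Nat} (h : chkSqR g lo K = true) (s n : Nat) (h0 : 0 < n)
    (h1 : lo ≤ n) (h2 : n < lo + K) (h3 : s + 2 * n ≤ g.len)
    (h4 : ∀ i, s ≤ i → i < s + 2 * n → g.x.testBit i = false) : ¬ Sq g.wd.fn s n := by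
  intro h5
  unfold chkSqR at h
  rw [Bool.and_eq_true] at h
  obtain ⟨hd, hl⟩ := h
  have hd' : ∀ i, (g.a.testBit i && g.b.testBit i) = false := by
    intro i
    have := congrArg (fun z => z.testBit i) (Nat.eq_of_beq_eq_true hd)
    simpa only [land_bit, Nat.zero_testBit] using this
  have e : Nat.add lo (n - lo) = n := by show lo + (n - lo) = n; omega
  have a := allB_spec hl (n - lo) (by omega)
  simp only [e] at a
  have b := congrArg (fun z => z.testBit s) (Nat.eq_of_beq_eq_true a)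
  simp only [land_bit, ones_bit, show s < g.len by omega, decide_true, Bool.and_true] at b
  obtain ⟨i, i1, i2⟩ := orw_spec _ n 16 _ 1 h0 (fun t ht => ⟨0, one_pos, ht⟩) s b
  unfold mis at i2
  simp only [lor_bit, xor_bit, shr_bit] at i2
  rw [jn_lt (by omega), jn_lt (by omega), h4 _ (by omega) (by omega), h4 _ (by omega) (by omega)]
    at i2
  simp only [Bool.or_false] at i2
  have c := h5 ((s + i : ℕ) : ℤ) (by push_cast; omega) (by push_cast; omega)
  have e2 : ((s + i : ℕ) : ℤ) + n = ((n + (s + i) : ℕ) : ℤ) := by push_cast; ring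
  rw [e2, Wd.fn_nat, Wd.fn_nat] at c
  exact lt2_ne (hd' _) (hd' _) i2 c

theorem chkSq_spec {g : Blk} {K : Nat} (h : chkSq g K = true) : SqOK K g :=
  fun s n h1 h2 h3 h4 => chkSqR_spec h s n h1 h1 (by omega) h3 h4

/-! ### difference planes and occurrences -/

def Blk.z (g : Blk) : Nat := Nat.xor (ones g.len) (Nat.lor (Nat.lor g.a g.b) g.x)

def Blk.d1 (g : Blk) : Nat :=
  Nat.lor (Nat.lor (Nat.land g.z (Nat.shiftRight g.a 1)) (Nat.land g.a (Nat.shiftRight g.b 1)))
    (Nat.land g.b (Nat.shiftRight g.z 1))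

def Blk.d2 (g : Blk) : Nat :=
  Nat.lor (Nat.lor (Nat.land g.z (Nat.shiftRight g.b 1)) (Nat.land g.a (Nat.shiftRight g.z 1)))
    (Nat.land g.b (Nat.shiftRight g.a 1))

theorem d_of {g : Blk} {i : Nat} (hd : Nat.land g.a g.b = 0) (h1 : i + 1 < g.len)
    (h2 : g.x.testBit i = false) (h3 : g.x.testBit (i + 1) = false) (b : Bool) :
    g.wd.get (i + 1) - g.wd.get i = dv b ↔ (cond b g.d1 g.d2).testBit i = true := by
  have hd' : ∀ i, (g.a.testBit i && g.b.testBit i) = false := by
    intro i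
    have := congrArg (fun z => z.testBit i) hd
    simpa only [land_bit, Nat.zero_testBit] using this
  have e1 := hd' i
  have e2 := hd' (i + 1)
  have l1 : i < g.len := by omega
  cases b
  · simp only [cond_false, Blk.d2, Blk.z, lor_bit, land_bit, xor_bit, shr_bit, ones_bit,
      add_comm 1 i, h1, l1, h2, h3, decide_true, Wd.get, Blk.wd]
    revert e1 e2
    cases g.a.testBit i <;> cases g.b.testBit i <;> cases g.a.testBit (i + 1) <;>
      cases g.b.testBit (i + 1) <;> decide
  · simp only [cond_true, Blk.d1, Blk.z, lor_bit, land_bit, xor_bit, shr_bit, ones_bit,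
      add_comm 1 i, h1, l1, h2, h3, decide_true, Wd.get, Blk.wd]
    revert e1 e2
    cases g.a.testBit i <;> cases g.b.testBit i <;> cases g.a.testBit (i + 1) <;>
      cases g.b.testBit (i + 1) <;> decide

def occ (D1 D2 full c m : Nat) : Nat :=
  Nat.rec (motive := fun _ => Nat) full
    (fun i acc => Nat.land acc (Nat.shiftRight (cond (tb c i) D1 D2) i)) m

theorem occ_bit {D1 D2 full c m s : Nat} (h0 : full.testBit s = true)
    (h : ∀ i, i < m → (cond (c.testBit i) D1 D2).testBit (s + i) = true) :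
    (occ D1 D2 full c m).testBit s = true := by
  induction m with
  | zero => exact h0
  | succ m ih =>
    show (Nat.land (occ D1 D2 full c m) _).testBit s = true
    rw [land_bit, ih (fun i hi => h i (by omega)), shr_bit, tb_eq, add_comm]
    simpa using h m (by omega)

def chkOcc (g : Blk) (m c O : Nat) : Bool :=
  Nat.beq (Nat.lor (occ g.d1 g.d2 (ones g.len) c m) O) O

theorem chkOcc_spec {g : Blk} {m c O : Nat} (hd : Nat.land g.a g.b = 0)
    (h : chkOcc g m c O = true) : OccOK m c g O := by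
  intro s h1 h2 h3
  have a := congrArg (fun z => z.testBit s) (Nat.eq_of_beq_eq_true h)
  simp only [lor_bit] at a
  rw [occ_bit] at a
  · simpa using a.symm
  · rw [ones_bit]; simp; omega
  · intro i hi
    rw [← d_of hd (by omega) (h2 _ (by omega) (by omega)) (h2 _ (by omega) (by omega))]
    have := h3 i hi
    have e1 : (s : ℤ) + i + 1 = ((s + i + 1 : ℕ) : ℤ) := by push_cast; ring
    have e2 : (s : ℤ) + i = ((s + i : ℕ) : ℤ) := by push_cast; ring
    rw [e1, e2] at this
    exact this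

/-- the marker with code `c` occurs at `s` -/
def markB (g : Blk) (s m c : Nat) : Bool :=
  Nat.beq (low (Nat.lor (Nat.land (Nat.shiftRight g.d1 s) c)
    (Nat.land (Nat.shiftRight g.d2 s) (Nat.xor c (ones m)))) m) (ones m)

theorem markB_spec {g : Blk} {s m c : Nat} (hd : Nat.land g.a g.b = 0)
    (h : markB g s m c = true) (h1 : s + m < g.len)
    (h2 : ∀ i, s ≤ i → i ≤ s + m → g.x.testBit i = false) : Mark g.wd.fn s m c := by
  intro i hi
  have a := congrArg (fun z => z.testBit i) (Nat.eq_of_beq_eq_true h)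
  simp only [low_bit, lor_bit, land_bit, shr_bit, xor_bit, ones_bit, hi, decide_true,
    Bool.true_and] at a
  have e1 : (s : ℤ) + i + 1 = ((s + i + 1 : ℕ) : ℤ) := by push_cast; ring
  have e2 : (s : ℤ) + i = ((s + i : ℕ) : ℤ) := by push_cast; ring
  rw [e1, e2, Wd.fn_nat, Wd.fn_nat,
    d_of hd (by omega) (h2 _ (by omega) (by omega)) (h2 _ (by omega) (by omega))]
  revert a
  cases c.testBit i <;> simp

/-- the marker occurs at `s` in the word `w` of length `n` -/
def markW (w : Wd) (n s m c : Nat) : Bool :=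
  Nat.beq (Nat.land (Blk.one w n 0 0).a (Blk.one w n 0 0).b) 0 && Nat.blt (Nat.add s m) n &&
    markB (Blk.one w n 0 0) s m c

theorem markW_spec {w : Wd} {n s m c : Nat} (h : markW w n s m c = true) :
    s + m < n ∧ Mark w.fn s m c := by
  unfold markW at h
  simp only [Bool.and_eq_true] at h
  obtain ⟨⟨h1, h2⟩, h3⟩ := h
  have h2' : s + m < n := Nat.blt_eq.mp h2
  refine ⟨h2', ?_⟩
  have := markB_spec (Nat.eq_of_beq_eq_true h1) h3 (by show _ < n + 1; omega)
    (fun i a b => one_x w (by omega))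
  refine this.congr (g := 0) (fun i a b => ?_)
  rw [add_zero, ← one_fn w (n := n) (o1 := 0) (o2 := 0) i (by omega) (by omega)]; congr 1; ring

theorem chkSqR_disj {g : Blk} {lo K : Nat} (h : chkSqR g lo K = true) : Nat.land g.a g.b = 0 := by
  unfold chkSqR at h
  rw [Bool.and_eq_true] at h
  exact Nat.eq_of_beq_eq_true h.1

end

end Pool.Agent.Lib.MP_42179e_co
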