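import Mathlib

/-!
Definitions for MP_42179e_co: ternary words that are square-free modulo `p` and `q`.
Letters are `Fin 3`, finite words are lists, infinite words are maps from the natural numbers.
-/

namespace Pool.Agent.Lib.MP_42179e_co

/-- A finite word is square-free if it has no factor `u ++ u` with `u` nonempty. -/
def SqFree (w : List (Fin 3)) : Prop :=
  ∀ u : List (Fin 3), u ≠ [] → ¬ (u ++ u) <:+: w

/-- The subsequence modulo `m` of a finite word: its letters at the positions divisible by `m`
(positions are indexed from `0`), in order. -/
def subMod (m : ℕ) (w : List (Fin 3)) : List (Fin 3) :=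
  ((List.range w.length).filter (fun i => decide (m ∣ i))).map (fun i => w.getD i 0)

/-- A finite word is `(p,q)`-good if it and its subsequences modulo `p` and modulo `q` are
square-free. -/
def Good (p q : ℕ) (w : List (Fin 3)) : Prop :=
  SqFree w ∧ SqFree (subMod p w) ∧ SqFree (subMod q w)

/-- An infinite word is square-free if for no position `i` and length `n > 0` the factor of
length `n` at `i` equals the factor of length `n` at `i + n`. -/
def InfSqFree (w : ℕ → Fin 3) : Prop :=
  ∀ i n : ℕ, 0 < n → ∃ j, j < n ∧ w (i + j) ≠ w (i + n + j)

/-- An infinite word is `(p,q)`-good if it and its subsequences modulo `p` and modulo `q` are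
square-free. -/
def InfGood (p q : ℕ) (w : ℕ → Fin 3) : Prop :=
  InfSqFree w ∧ InfSqFree (fun i => w (p * i)) ∧ InfSqFree (fun i => w (q * i))

/-- The number of `(p,q)`-good words of length `n`. -/
noncomputable def count (p q n : ℕ) : ℕ :=
  Set.ncard {w : List (Fin 3) | w.length = n ∧ Good p q w}

end Pool.Agent.Lib.MP_42179e_co
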