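import Mathlib
import Pool.Agent.Lib.MP_42179e_co.Defs

/-!
Existence of the growth rate of `(p,q)`-good words, and the lower bound `1 < l` from a family of
infinite good words with free letters along an arithmetic progression.
-/

namespace Pool.Agent.Lib.MP_42179e_co

open Filter Topology

theorem SqFree.factor {v w : List (Fin 3)} (h : SqFree w) (hv : v <:+: w) : SqFree v :=
  fun u hu hi => h u hu (hi.trans hv)

theorem subMod_append (m : ℕ) (u v : List (Fin 3)) :
    subMod m (u ++ v) = subMod m u ++
      ((List.range v.length).filter (fun i => decide (m ∣ u.length + i))).map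
        (fun i => v.getD i 0) := by
  unfold subMod
  rw [List.length_append, List.range_add, List.filter_append, List.map_append]
  congr 1
  · apply List.map_congr_left
    intro i hi
    have hi' : i < u.length := List.mem_range.1 (List.mem_filter.1 hi).1
    simp [List.getD_eq_getElem?_getD, List.getElem?_append_left hi']
  · rw [List.filter_map, List.map_map]
    apply List.map_congr_left
    intro i _
    simp [List.getD_eq_getElem?_getD, List.getElem?_append_right]

theorem subMod_append_of_dvd {m : ℕ} (u v : List (Fin 3)) (h : m ∣ u.length) :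
    subMod m (u ++ v) = subMod m u ++ subMod m v := by
  rw [subMod_append]
  congr 2
  apply List.filter_congr
  intro i _
  simp [Nat.dvd_add_right h]

theorem Good.left {p q : ℕ} {u v : List (Fin 3)} (h : Good p q (u ++ v)) : Good p q u := by
  refine ⟨h.1.factor (List.prefix_append u v).isInfix, h.2.1.factor ?_, h.2.2.factor ?_⟩
  · rw [subMod_append]; exact (List.prefix_append _ _).isInfix
  · rw [subMod_append]; exact (List.prefix_append _ _).isInfix

theorem Good.right {p q : ℕ} {u v : List (Fin 3)} (h : Good p q (u ++ v))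
    (hd : p * q ∣ u.length) : Good p q v := by
  refine ⟨h.1.factor (List.suffix_append u v).isInfix, h.2.1.factor ?_, h.2.2.factor ?_⟩
  · rw [subMod_append_of_dvd u v ((Dvd.intro q rfl).trans hd)]
    exact (List.suffix_append _ _).isInfix
  · rw [subMod_append_of_dvd u v ((Dvd.intro_left p rfl).trans hd)]
    exact (List.suffix_append _ _).isInfix

theorem sqFree_range {w : ℕ → Fin 3} (h : InfSqFree w) (n : ℕ) :
    SqFree ((List.range n).map w) := by
  intro u hu ⟨s, t, hst⟩
  have hpos : 0 < u.length := List.length_pos_iff.2 hu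
  obtain ⟨j, hj, hne⟩ := h s.length u.length hpos
  apply hne
  have hlen : s.length + (u.length + u.length) + t.length = n := by
    have := congrArg List.length hst
    simpa [add_assoc] using this
  have key : ∀ k, k < n → (s ++ (u ++ u) ++ t)[k]? = some (w k) := by
    intro k hk
    rw [hst]
    simp [hk]
  have e1 := key (s.length + j) (by omega)
  have e2 := key (s.length + u.length + j) (by omega)
  rw [List.append_assoc, List.getElem?_append_right (by omega), List.append_assoc,
    List.getElem?_append_left (by omega)] at e1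
  rw [List.append_assoc, List.getElem?_append_right (by omega), List.append_assoc,
    List.getElem?_append_right (by omega), List.getElem?_append_left (by omega)] at e2
  have a1 : s.length + j - s.length = j := by omega
  have a2 : s.length + u.length + j - s.length - u.length = j := by omega
  rw [a1] at e1
  rw [a2] at e2
  exact Option.some.inj (e1.symm.trans e2)

theorem filter_range_dvd {m : ℕ} (hm : 0 < m) (n : ℕ) :
    ∃ N, (List.range n).filter (fun i => decide (m ∣ i)) = (List.range N).map (fun k => m * k) ∧
      n ≤ m * N ∧ m * N < n + m := by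
  induction n with
  | zero => exact ⟨0, by simp, by simp, by simpa using hm⟩
  | succ n ih =>
    obtain ⟨N, h1, h2, h3⟩ := ih
    by_cases hd : m ∣ n
    · obtain ⟨k, rfl⟩ := hd
      have hk : N = k := by
        have a1 : k ≤ N := Nat.le_of_mul_le_mul_left h2 hm
        have a2 : N < k + 1 := Nat.lt_of_mul_lt_mul_left (a := m) (by rw [Nat.mul_succ]; exact h3)
        omega
      subst hk
      refine ⟨N + 1, ?_, ?_, ?_⟩
      · rw [List.range_succ, List.filter_append, h1, List.range_succ, List.map_append]
        simp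
      · rw [Nat.mul_succ]; omega
      · rw [Nat.mul_succ]; omega
    · refine ⟨N, ?_, ?_, by omega⟩
      · rw [List.range_succ, List.filter_append, h1]
        simp [hd]
      · have : n ≠ m * N := fun e => hd ⟨N, e⟩
        omega

theorem subMod_range {m : ℕ} (hm : 0 < m) (w : ℕ → Fin 3) (n : ℕ) :
    ∃ N, subMod m ((List.range n).map w) = (List.range N).map (fun k => w (m * k)) := by
  obtain ⟨N, h1, -, -⟩ := filter_range_dvd hm n
  refine ⟨N, ?_⟩
  have e : (List.range N).map (fun k => w (m * k))
      = ((List.range N).map (fun k => m * k)).map w := by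
    rw [List.map_map]; rfl
  rw [e, ← h1]
  unfold subMod
  rw [List.length_map, List.length_range]
  apply List.map_congr_left
  intro i hi
  have hi' : i < n := List.mem_range.1 (List.mem_filter.1 hi).1
  simp [List.getD_eq_getElem?_getD, hi']

theorem good_range {p q : ℕ} (hp : 0 < p) (hq : 0 < q) {w : ℕ → Fin 3} (h : InfGood p q w)
    (n : ℕ) : Good p q ((List.range n).map w) := by
  refine ⟨sqFree_range h.1 n, ?_, ?_⟩
  · obtain ⟨N, e⟩ := subMod_range hp w n
    rw [e]; exact sqFree_range h.2.1 N
  · obtain ⟨N, e⟩ := subMod_range hq w n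
    rw [e]; exact sqFree_range h.2.2 N

theorem good_finite (p q n : ℕ) : {w : List (Fin 3) | w.length = n ∧ Good p q w}.Finite :=
  (List.finite_length_eq (Fin 3) n).subset fun _ hw => hw.1

theorem count_add_le {p q a : ℕ} (b : ℕ) (hd : p * q ∣ a) :
    count p q (a + b) ≤ count p q a * count p q b := by
  unfold count
  rw [← Set.ncard_prod]
  refine Set.ncard_le_ncard_of_injOn (fun w => (w.take a, w.drop a)) ?_ ?_
    ((good_finite p q a).prod (good_finite p q b))
  · rintro w ⟨hl, hg⟩
    have hw : Good p q (w.take a ++ w.drop a) := by rwa [List.take_append_drop]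
    have ht : (w.take a).length = a := by simp [hl]
    exact ⟨⟨ht, hw.left⟩, ⟨by simp [hl], hw.right (by rwa [ht])⟩⟩
  · intro w _ w' _ e
    have e1 : w.take a = w'.take a := congrArg Prod.fst e
    have e2 : w.drop a = w'.drop a := congrArg Prod.snd e
    rw [← List.take_append_drop a w, ← List.take_append_drop a w', e1, e2]

theorem count_succ_le (p q n : ℕ) : count p q (n + 1) ≤ count p q n * 3 := by
  have h3 : (Set.univ : Set (Fin 3)).ncard = 3 := by simp [Set.ncard_univ]
  unfold count
  refine le_of_le_of_eq ?_ ((Set.ncard_prod (s := {w : List (Fin 3) | w.length = n ∧ Good p q w})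
    (t := (Set.univ : Set (Fin 3)))).trans (by rw [h3]))
  refine Set.ncard_le_ncard_of_injOn (fun w => (w.take n, w.getD n 0)) ?_ ?_
    ((good_finite p q n).prod Set.finite_univ)
  · rintro w ⟨hl, hg⟩
    have hw : Good p q (w.take n ++ w.drop n) := by rwa [List.take_append_drop]
    exact ⟨⟨by simp [hl], hw.left⟩, Set.mem_univ _⟩
  · rintro w ⟨hl, -⟩ w' ⟨hl', -⟩ e
    have e1 : w.take n = w'.take n := congrArg Prod.fst e
    have e2 : w.getD n 0 = w'.getD n 0 := congrArg Prod.snd e
    apply List.ext_getElem (by rw [hl, hl'])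
    intro i h1 h2
    by_cases hi : i < n
    · have := congrArg (fun l => l[i]?) e1
      simp only [List.getElem?_take, hi, if_true] at this
      rw [List.getElem?_eq_getElem h1, List.getElem?_eq_getElem h2] at this
      exact Option.some.inj this
    · have hin : i = n := by omega
      subst hin
      rw [List.getD_eq_getElem _ _ h1, List.getD_eq_getElem _ _ h2] at e2
      exact e2

theorem count_add_le_pow (p q n r : ℕ) : count p q (n + r) ≤ count p q n * 3 ^ r := by
  induction r with
  | zero => simp
  | succ r ih =>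
    calc count p q (n + (r + 1)) = count p q (n + r + 1) := by rw [add_assoc]
      _ ≤ count p q (n + r) * 3 := count_succ_le p q _
      _ ≤ count p q n * 3 ^ r * 3 := Nat.mul_le_mul_right 3 ih
      _ = count p q n * 3 ^ (r + 1) := by ring

theorem pow_le_count {p q K c : ℕ} (hp : 0 < p) (hq : 0 < q) (hK : 0 < K)
    (h : ∀ z : ℕ → Fin 3, ∃ w : ℕ → Fin 3, InfGood p q w ∧ ∀ i, w (K * i + c) = z i) (m : ℕ) :
    3 ^ m ≤ count p q (K * m + c) := by
  classical
  choose W hW using h
  have h3 : (Set.univ : Set (Fin m → Fin 3)).ncard = 3 ^ m := by simp [Set.ncard_univ]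
  unfold count
  rw [← h3]
  let ext : (Fin m → Fin 3) → ℕ → Fin 3 := fun z i => if hi : i < m then z ⟨i, hi⟩ else 0
  refine Set.ncard_le_ncard_of_injOn
    (fun z => (List.range (K * m + c)).map (W (ext z))) ?_ ?_ (good_finite p q _)
  · intro z _
    exact ⟨by simp, good_range hp hq (hW _).1 _⟩
  · intro z _ z' _ e
    funext i
    have hi : K * (i : ℕ) + c < K * m + c := by
      have := Nat.mul_lt_mul_of_pos_left i.2 hK
      omega
    have := congrArg (fun l => l[K * (i : ℕ) + c]?) e
    simp only [List.getElem?_map, List.getElem?_range hi, Option.map_some, Option.some.injEq,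
      (hW _).2] at this
    simpa [ext, i.2] using this

theorem count_pos {p q : ℕ} (hp : 0 < p) (hq : 0 < q) {w : ℕ → Fin 3} (h : InfGood p q w)
    (n : ℕ) : 0 < count p q n := by
  unfold count
  rw [Set.ncard_pos (good_finite p q n)]
  exact ⟨(List.range n).map w, by simp, good_range hp hq h n⟩

theorem tendsto_div_div {M : ℕ} (hM : 0 < M) (d : ℕ) :
    Tendsto (fun n : ℕ => (((n / M + d : ℕ) : ℝ)) / (n : ℝ)) atTop (𝓝 (1 / (M : ℝ))) := by
  have hM' : (0 : ℝ) < M := by exact_mod_cast hM
  have t0 : ∀ x : ℝ, Tendsto (fun n : ℕ => 1 / (M : ℝ) + x / (n : ℝ)) atTop (𝓝 (1 / (M : ℝ))) := by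
    intro x
    have := (tendsto_const_div_atTop_nhds_zero_nat x).const_add (1 / (M : ℝ))
    simpa using this
  refine tendsto_of_tendsto_of_tendsto_of_le_of_le' (t0 ((d : ℝ) - 1)) (t0 d) ?_ ?_
  · filter_upwards [eventually_gt_atTop 0] with n hn
    have hn' : (0 : ℝ) < n := by exact_mod_cast hn
    have a : n < M * (n / M + 1) := Nat.lt_mul_div_succ n hM
    have a' : (n : ℝ) < M * (((n / M : ℕ) : ℝ) + 1) := by exact_mod_cast a
    rw [le_div_iff₀ hn', add_mul, div_mul_cancel₀ _ hn'.ne']
    push_cast
    have : 1 / (M : ℝ) * n ≤ ((n / M : ℕ) : ℝ) + 1 := by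
      rw [one_div, inv_mul_le_iff₀ hM']; exact a'.le
    linarith
  · filter_upwards [eventually_gt_atTop 0] with n hn
    have hn' : (0 : ℝ) < n := by exact_mod_cast hn
    have a : M * (n / M) ≤ n := Nat.mul_div_le n M
    have a' : (M : ℝ) * ((n / M : ℕ) : ℝ) ≤ n := by exact_mod_cast a
    rw [div_le_iff₀ hn', add_mul, div_mul_cancel₀ _ hn'.ne']
    push_cast
    have : ((n / M : ℕ) : ℝ) ≤ 1 / (M : ℝ) * n := by
      rw [one_div, le_inv_mul_iff₀ hM']; exact a'
    linarith

theorem growth (p q K c : ℕ) (hp : 0 < p) (hq : 0 < q) (hK : 0 < K)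
    (h : ∀ z : ℕ → Fin 3, ∃ w : ℕ → Fin 3, InfGood p q w ∧ ∀ i, w (K * i + c) = z i) :
    ∃ l : ℝ, 1 < l ∧ Filter.Tendsto (fun n : ℕ => ((count p q n : ℕ) : ℝ) ^ (1 / (n : ℝ)))
      Filter.atTop (nhds l) := by
  obtain ⟨w0, hw0, -⟩ := h (fun _ => 0)
  have pos : ∀ n, (0 : ℝ) < count p q n := fun n => by exact_mod_cast count_pos hp hq hw0 n
  have one : ∀ n, (1 : ℝ) ≤ count p q n := fun n => by exact_mod_cast count_pos hp hq hw0 n
  set M := p * q with hMdef
  have hM : 0 < M := Nat.mul_pos hp hq
  let a : ℕ → ℝ := fun n => Real.log (count p q n)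
  have a0 : ∀ n, 0 ≤ a n := fun n => Real.log_nonneg (one n)
  have l3 : (0 : ℝ) < Real.log 3 := Real.log_pos (by norm_num)
  have astep : ∀ n r, r ≤ M → a (n + r) ≤ a n + M * Real.log 3 := by
    intro n r hr
    have e : (count p q (n + r) : ℝ) ≤ count p q n * 3 ^ r := by
      exact_mod_cast count_add_le_pow p q n r
    have := Real.log_le_log (pos _) e
    rw [Real.log_mul (pos _).ne' (by positivity), Real.log_pow] at this
    have hr' : (r : ℝ) ≤ M := by exact_mod_cast hr
    have : (r : ℝ) * Real.log 3 ≤ M * Real.log 3 := mul_le_mul_of_nonneg_right hr' l3.le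
    simp only [a]
    linarith
  let u : ℕ → ℝ := fun k => a (M * k)
  have hsub : Subadditive u := by
    intro k l
    have e : (count p q (M * k + M * l) : ℝ) ≤ count p q (M * k) * count p q (M * l) := by
      exact_mod_cast count_add_le (M * l) (Dvd.intro k rfl)
    have := Real.log_le_log (pos _) e
    rw [Real.log_mul (pos _).ne' (pos _).ne'] at this
    simp only [u, a, Nat.mul_add]
    exact this
  have hbdd : BddBelow (Set.range fun n : ℕ => u n / n) := by
    refine ⟨0, ?_⟩
    rintro _ ⟨n, rfl⟩
    exact div_nonneg (a0 _) (Nat.cast_nonneg n)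
  have hlim := hsub.tendsto_lim hbdd
  set L := hsub.lim
  have tdiv : ∀ d : ℕ, Tendsto (fun n : ℕ => n / M + d) atTop atTop := fun d =>
    tendsto_atTop_mono (fun n => Nat.le_add_right _ _) (Nat.tendsto_div_const_atTop hM.ne')
  have tu : ∀ d : ℕ, Tendsto (fun n : ℕ => u (n / M + d) / (n : ℝ)) atTop
      (𝓝 (L * (1 / (M : ℝ)))) := by
    intro d
    have := (hlim.comp (tdiv d)).mul (tendsto_div_div hM d)
    refine this.congr' ?_
    filter_upwards [(tdiv d).eventually (eventually_gt_atTop 0)] with n hn
    have hn' : (((n / M + d : ℕ) : ℝ)) ≠ 0 := by exact_mod_cast hn.ne'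
    simp only [Function.comp]
    rw [div_mul_div_comm, mul_comm (((n / M + d : ℕ) : ℝ)) (n : ℝ), mul_div_mul_right _ _ hn']
  have tz := tendsto_const_div_atTop_nhds_zero_nat ((M : ℝ) * Real.log 3)
  have ta : Tendsto (fun n : ℕ => a n / (n : ℝ)) atTop (𝓝 (L * (1 / (M : ℝ)))) := by
    have lo := (tu 1).sub tz
    have hi := (tu 0).add tz
    rw [sub_zero] at lo
    rw [add_zero] at hi
    refine tendsto_of_tendsto_of_tendsto_of_le_of_le lo hi ?_ ?_
    · intro n
      have e : M * (n / M + 1) = n + (M - n % M) := by
        have h1 := Nat.div_add_mod n M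
        have h2 := Nat.mod_lt n hM
        rw [Nat.mul_succ]; omega
      have := astep n (M - n % M) (Nat.sub_le _ _)
      rw [← e] at this
      simp only [u]
      rw [← sub_div]
      exact div_le_div_of_nonneg_right (by linarith) (Nat.cast_nonneg n)
    · intro n
      have e : M * (n / M + 0) + n % M = n := by
        have h1 := Nat.div_add_mod n M
        simpa using h1
      have := astep (M * (n / M + 0)) (n % M) (Nat.mod_lt n hM).le
      rw [e] at this
      simp only [u]
      rw [← add_div]
      exact div_le_div_of_nonneg_right this (Nat.cast_nonneg n)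
  have hK' : (0 : ℝ) < K := by exact_mod_cast hK
  have hLpos : Real.log 3 / ((K : ℝ) + c) ≤ L * (1 / (M : ℝ)) := by
    have tl : Tendsto (fun m : ℕ => K * m + c) atTop atTop :=
      tendsto_atTop_mono (fun m => by
        have := Nat.le_mul_of_pos_left m hK
        simp only [id]; omega) tendsto_id
    refine ge_of_tendsto (ta.comp tl) ?_
    filter_upwards [eventually_ge_atTop 1] with m hm
    have hm' : (1 : ℝ) ≤ m := by exact_mod_cast hm
    have e : ((3 : ℝ)) ^ m ≤ count p q (K * m + c) := by
      exact_mod_cast pow_le_count hp hq hK h m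
    have e' := Real.log_le_log (by positivity) e
    rw [Real.log_pow] at e'
    simp only [Function.comp]
    have hc : (0 : ℝ) ≤ c := Nat.cast_nonneg c
    have hden : (0 : ℝ) < ((K * m + c : ℕ) : ℝ) := by push_cast; positivity
    rw [div_le_div_iff₀ (by positivity) hden]
    push_cast
    have f1 : (K : ℝ) * m + c ≤ m * (K + c) := by nlinarith
    calc Real.log 3 * ((K : ℝ) * m + c) ≤ Real.log 3 * (m * (K + c)) :=
          mul_le_mul_of_nonneg_left f1 l3.le
      _ = (m * Real.log 3) * (K + c) := by ring
      _ ≤ a (K * m + c) * (K + c) := mul_le_mul_of_nonneg_right e' (by positivity)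
  refine ⟨Real.exp (L * (1 / (M : ℝ))), ?_, ?_⟩
  · exact Real.one_lt_exp_iff.2 (lt_of_lt_of_le (by positivity) hLpos)
  · have := (Real.continuous_exp.tendsto _).comp ta
    refine this.congr fun n => ?_
    simp only [Function.comp, a]
    rw [Real.rpow_def_of_pos (pos n), mul_one_div]

end Pool.Agent.Lib.MP_42179e_co
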