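import Pool.Agent.Lib.MP_42179e_co.Morph

/-!
Existence of bi-infinite square-free words, and the lists of short square-free words.
-/

namespace Pool.Agent.Lib.MP_42179e_co

noncomputable section

def leech : Mor := ⟨13, ⟨2634, 1188⟩, ⟨2634, 1188⟩⟩

theorem leech_good : leech.Good :=
  Mor.good_of (sh := 13) (r := 1) (m := 6) (K := 16) (by decide +kernel)
    (chkSq_spec (by decide +kernel))

def iter : Nat → ℤ → Lt
  | 0 => fun i => (i : Lt)
  | k + 1 => leech.app (iter k)

theorem iter_nosq (k : Nat) : ∀ s n, 0 < n → n ≤ k + 1 → ¬ Sq (iter k) s n := by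
  induction k with
  | zero =>
    intro s n h1 h2 h
    have : n = 1 := by omega
    subst this
    have := h s le_rfl (by omega)
    simp [iter] at this
  | succ k ih =>
    intro s n h1 h2 h
    obtain ⟨j, t, e, hj⟩ := leech_good.sq (iter k) (fun j e => ih j 1 one_pos (by omega)
      (fun i a b => by
        have : i = j := by omega
        subst this; exact e)) s n h1 h
    have e' : n = 13 * j := e
    exact ih t j (by omega) (by omega) hj

theorem exists_SF : ∃ v, SF v := by
  have key : ∀ i : ℤ, ∃ c : Lt, {k : ℕ | iter k i = c} ∈ Filter.hyperfilter ℕ := by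
    intro i
    obtain ⟨c, hc⟩ := Ultrafilter.eq_pure_of_finite ((Filter.hyperfilter ℕ).map (fun k => iter k i))
    refine ⟨c, ?_⟩
    have : {c} ∈ (Filter.hyperfilter ℕ).map (fun k => iter k i) := by rw [hc]; simp
    exact this
  choose v hv using key
  refine ⟨v, fun s n hn hs => ?_⟩
  have h1 : (⋂ i ∈ Finset.Ico s (s + 2 * n), {k : ℕ | iter k i = v i}) ∈
      (Filter.hyperfilter ℕ : Filter ℕ) :=
    (Filter.biInter_finset_mem _).mpr (fun i _ => hv i)
  have h2 : {k : ℕ | n ≤ k} ∈ (Filter.hyperfilter ℕ : Filter ℕ) :=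
    Nat.hyperfilter_le_atTop (Filter.mem_atTop n)
  obtain ⟨k, k1, k2⟩ := Filter.nonempty_of_mem (Filter.inter_mem h1 h2)
  simp only [Set.mem_iInter, Set.mem_ofPred_eq, Finset.mem_Ico] at k1 k2
  refine iter_nosq k s n hn (by omega) (hs.congr (g := 0) (fun i a b => ?_))
  rw [add_zero, sub_add_cancel, k1 i ⟨a, b⟩]

/-- admissible known initial differences of the label word -/
def tOK (i0 f n c : Nat) : Bool :=
  markW (cond (Nat.beq f 0) ⟨2634, 1188⟩ ⟨1188, 2634⟩) 13 i0 n c

theorem exists_T {i0 f n c : Nat} (h : tOK i0 f n c = true) :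
    ∃ T, SF T ∧ T 0 = 0 ∧ Mark T 0 n c := by
  obtain ⟨v, hv⟩ := exists_SF
  obtain ⟨h1, h2⟩ := markW_spec h
  have hs := leech_good.sf hv
  have e : ∀ j : ℤ, 0 ≤ j → j < 13 → leech.app v j = (⟨2634, 1188⟩ : Wd).fn j + v 0 := by
    intro j a b
    obtain ⟨k, rfl⟩ := Int.eq_ofNat_of_zero_le a
    have := leech.app_eq v 0 (j := k) (by show k < 13; omega)
    rw [mul_zero, zero_add] at this
    rw [this, Wd.fn_nat, add_comm]
    unfold Mor.sel
    split_ifs <;> rfl
  cases hf : Nat.beq f 0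
  · rw [hf] at h2
    refine ⟨fun i => - leech.app v (i + i0) + leech.app v i0, ((hs.shift i0).neg).add _, by simp,
      h2.congr (g := - v 0 - leech.app v i0 + v 0 + v 0) (fun i a b => ?_)⟩
    have n1 : ∀ k : Nat, (⟨1188, 2634⟩ : Wd).get k = - (⟨2634, 1188⟩ : Wd).get k := by
      intro k
      have := congrArg (fun z => z.testBit k) (show Nat.land 2634 1188 = 0 by decide)
      simp only [land_bit, Nat.zero_testBit] at this
      unfold Wd.get
      revert this
      cases Nat.testBit 2634 k <;> cases Nat.testBit 1188 k <;> decide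
    simp only [add_zero, sub_add_cancel, cond_false]
    rw [e i (by omega) (by omega)]
    unfold Wd.fn
    rw [n1]; ring
  · rw [hf] at h2
    refine ⟨fun i => leech.app v (i + i0) + - leech.app v i0, (hs.shift i0).add _, by simp,
      h2.congr (g := - v 0 + leech.app v i0) (fun i a b => ?_)⟩
    simp only [add_zero, sub_add_cancel, cond_true]
    rw [e i (by omega) (by omega)]; ring

def idM : Mor := ⟨1, ⟨0, 0⟩, ⟨0, 0⟩⟩

def labW (c n : Nat) : Wd := idM.blocks n c 0

theorem labW_get {v : ℤ → Lt} {i0 : ℤ} {n c : Nat} (h : Mark v i0 n c) (j : Nat) (hj : j ≤ n) :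
    (labW c n).get j = v (i0 + j) - v i0 := by
  have := Mor.blocks_get (H := idM) (sh := 1) ⟨le_rfl, fun _ _ => rfl⟩ v (- v i0) n c 0 i0
    (by norm_num) h (by simp) j (by show j < n * 1 + 1; omega)
  rw [labW, this]
  have e := idM.app_eq v (i0 + j) (j := 0) Nat.one_pos
  have e1 : ((idM.M : ℕ) : ℤ) = 1 := rfl
  rw [e1] at e ⊢
  simp only [one_mul, Nat.cast_zero, add_zero] at e ⊢
  rw [e]
  have : (idM.sel (v (i0 + j + 1) - v (i0 + j))).get 0 = 0 := by
    unfold Mor.sel; split_ifs <;> rfl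
  rw [this]; ring

def hasSq (c n : Nat) : Bool :=
  anyB (fun k => Nat.ble (Nat.mul 2 (Nat.succ k)) (Nat.succ n) &&
    ((labW c n).drop (Nat.sub (Nat.succ n) (Nat.mul 2 (Nat.succ k)))).eqB
      ((labW c n).drop (Nat.sub (Nat.succ n) (Nat.succ k))) (Nat.succ k)) (Nat.div (Nat.succ n) 2)

theorem hasSq_spec {v : ℤ → Lt} {i0 : ℤ} {n c : Nat} (hv : SF v) (h : Mark v i0 n c) :
    hasSq c n = false := by
  by_contra hc
  obtain ⟨k, _, k2⟩ := anyB_spec (Bool.of_not_eq_false hc)
  simp only [Bool.and_eq_true, Nat.ble_eq] at k2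
  obtain ⟨a, b⟩ := k2
  have a' : 2 * (k + 1) ≤ n + 1 := a
  refine hv (i0 + (n + 1 - 2 * (k + 1) : ℕ)) (k + 1) (by omega) (fun i i1 i2 => ?_)
  obtain ⟨u, hu⟩ := Int.eq_ofNat_of_zero_le (show 0 ≤ i - (i0 + (n + 1 - 2 * (k + 1) : ℕ)) by omega)
  have := Wd.eqB_spec b u (by omega)
  rw [Wd.drop_get, Wd.drop_get] at this
  have t2 : (labW c n).get (n + 1 - 2 * (k + 1) + u) = (labW c n).get (n + 1 - (k + 1) + u) := this
  rw [labW_get h _ (by omega), labW_get h _ (by omega)] at t2
  have e1 : i0 + ((n + 1 - 2 * (k + 1) + u : ℕ) : ℤ) = i := by omega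
  have e2 : i0 + ((n + 1 - (k + 1) + u : ℕ) : ℤ) = i + (k + 1 : ℕ) := by omega
  rw [e1, e2] at t2
  exact (sub_left_injective t2).symm

def nextL (n : Nat) (l : List Nat) : List Nat :=
  List.rec (motive := fun _ => List Nat) [] (fun c _ ih =>
    cond (hasSq (jn c n 0) (Nat.succ n))
      (cond (hasSq (jn c n 1) (Nat.succ n)) ih (jn c n 1 :: ih))
      (jn c n 0 :: cond (hasSq (jn c n 1) (Nat.succ n)) ih (jn c n 1 :: ih))) l

theorem mem_nextL {n c : Nat} {l : List Nat} (h : c ∈ l) (b : Bool)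
    (hb : hasSq (jn c n (cond b 1 0)) (n + 1) = false) : jn c n (cond b 1 0) ∈ nextL n l := by
  induction l with
  | nil => simp at h
  | cons x l ih =>
    show _ ∈ cond (hasSq (jn x n 0) (n + 1))
      (cond (hasSq (jn x n 1) (n + 1)) (nextL n l) (jn x n 1 :: nextL n l))
      (jn x n 0 :: cond (hasSq (jn x n 1) (n + 1)) (nextL n l) (jn x n 1 :: nextL n l))
    rcases List.mem_cons.mp h with e | e
    · subst e
      cases b
      · simp only [cond_false] at hb ⊢
        rw [hb]; simp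
      · simp only [cond_true] at hb ⊢
        rw [hb]
        cases hasSq (jn c n 0) (n + 1) <;> simp
    · have := ih e
      cases hasSq (jn x n 0) (n + 1) <;> cases hasSq (jn x n 1) (n + 1) <;> simp [this]

def sfl0 : List Nat :=
  [0]

def sfl1 : List Nat :=
  [0, 1]

def sfl2 : List Nat :=
  [0, 2, 1, 3]

def sfl3 : List Nat :=
  [0, 4, 6, 1, 3, 7]

def sfl4 : List Nat :=
  [0, 8, 12, 6, 14, 1, 9, 3, 7, 15]

def sfl5 : List Nat :=
  [16, 24, 12, 28, 6, 14, 30, 1, 17, 25, 3, 19, 7, 15]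

def sfl6 : List Nat :=
  [48, 24, 56, 12, 28, 60, 6, 38, 14, 30, 33, 49, 25, 57, 3, 35, 51, 7, 39, 15]

def sfl7 : List Nat :=
  [48, 112, 24, 56, 120, 12, 28, 60, 6, 70, 14, 78, 30, 97, 49, 113, 57, 121, 67, 99, 115, 7, 71,
   103, 15, 79]

def sfl8 : List Nat :=
  [48, 112, 240, 24, 56, 120, 12, 140, 28, 156, 60, 134, 198, 14, 142, 206, 30, 158, 97, 225, 49,
   113, 241, 57, 121, 195, 99, 227, 115, 243, 135, 199, 231, 15, 143, 207]

def sfl9 : List Nat :=
  [48, 112, 240, 24, 280, 56, 312, 120, 268, 396, 28, 284, 412, 60, 316, 390, 198, 454, 270, 398,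
   462, 30, 286, 414, 97, 225, 481, 49, 113, 241, 57, 313, 121, 195, 451, 99, 227, 483, 115, 243,
   391, 199, 455, 231, 487, 271, 399, 463]

def sfl10 : List Nat :=
  [48, 560, 112, 624, 240, 536, 792, 56, 568, 824, 120, 632, 780, 396, 908, 540, 796, 924, 60,
   572, 828, 390, 902, 198, 454, 966, 782, 398, 910, 462, 974, 542, 798, 926, 97, 225, 481, 49,
   561, 113, 625, 241, 57, 569, 825, 121, 633, 195, 451, 963, 99, 227, 483, 115, 627, 243, 391,
   903, 199, 455, 967, 231, 487, 783, 399, 911, 463, 975]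

def sfl11 : List Nat :=
  [1072, 1584, 112, 1136, 1648, 240, 1264, 1560, 792, 1816, 1080, 1848, 120, 1144, 1656, 780,
   1804, 396, 908, 1932, 1564, 796, 924, 1948, 1084, 1596, 1852, 390, 902, 1926, 198, 454, 966,
   782, 1806, 398, 1934, 462, 974, 1566, 798, 1822, 926, 1950, 97, 1121, 225, 1249, 481, 1073,
   1585, 113, 1649, 241, 1265, 1081, 1593, 1849, 121, 1145, 1657, 195, 451, 963, 99, 1123, 1251,
   483, 115, 1139, 1651, 243, 1267, 391, 903, 1927, 199, 967, 231, 1255, 487, 783, 1807, 399, 911,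
   1935, 463, 975]

def sfl12 : List Nat :=
  [3120, 1584, 3632, 2160, 3696, 240, 2288, 3312, 1560, 3608, 792, 1816, 3864, 3128, 1848, 3896,
   2168, 3192, 3704, 780, 1804, 3852, 396, 908, 1932, 1564, 3612, 796, 924, 1948, 3132, 1596,
   3644, 1852, 3900, 390, 902, 1926, 198, 2246, 2502, 966, 782, 1806, 3854, 398, 1934, 462, 2510,
   974, 1566, 3614, 798, 1822, 3870, 926, 1950, 2145, 3169, 225, 2273, 3297, 481, 2529, 3121,
   1585, 3633, 2161, 3697, 241, 2289, 3313, 3129, 1593, 1849, 3897, 2169, 3193, 3705, 195, 2243,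
   451, 2499, 963, 2147, 3171, 3299, 483, 2531, 2163, 3187, 3699, 243, 2291, 3315, 391, 903, 1927,
   199, 2247, 967, 231, 2279, 3303, 487, 2535, 783, 1807, 3855, 399, 1935, 463, 2511, 975]

def sfl13 : List Nat :=
  [3120, 7216, 1584, 3632, 7728, 6256, 3696, 7792, 4336, 6384, 7408, 1560, 3608, 7704, 792, 1816,
   3864, 3128, 7224, 1848, 3896, 6264, 3192, 7288, 3704, 7800, 780, 1804, 3852, 396, 4492, 5004,
   1932, 1564, 3612, 7708, 796, 924, 5020, 1948, 3132, 7228, 1596, 3644, 7740, 1852, 3900, 390,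
   4486, 902, 4998, 1926, 4294, 6342, 6598, 966, 5062, 782, 1806, 3854, 398, 4494, 1934, 462,
   4558, 6606, 974, 5070, 1566, 3614, 7710, 798, 3870, 926, 5022, 1950, 6241, 3169, 7265, 4321,
   7393, 481, 4577, 6625, 3121, 7217, 1585, 3633, 7729, 6257, 3697, 7793, 4337, 6385, 7409, 3129,
   7225, 1593, 1849, 3897, 6265, 3193, 7289, 3705, 7801, 4291, 6339, 451, 4547, 6595, 963, 5059,
   6243, 3171, 7267, 7395, 483, 4579, 6627, 6259, 3187, 3699, 7795, 4339, 6387, 7411, 391, 4487,
   903, 4999, 1927, 4295, 6343, 967, 5063, 4327, 6375, 7399, 487, 4583, 6631, 783, 1807, 3855,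
   399, 4495, 1935, 463, 4559, 6607, 975, 5071]

def sfl14 : List Nat :=
  [3120, 7216, 15408, 1584, 3632, 7728, 6256, 14448, 3696, 7792, 12528, 6384, 14576, 7408, 15600,
   1560, 3608, 7704, 792, 8984, 10008, 3864, 3128, 7224, 15416, 1848, 10040, 3896, 6264, 14456,
   3192, 7288, 15480, 3704, 7800, 780, 8972, 1804, 9996, 3852, 8588, 12684, 13196, 1932, 10124,
   1564, 3612, 7708, 796, 8988, 924, 9116, 13212, 1948, 10140, 3132, 7228, 15420, 1596, 7740,
   1852, 10044, 3900, 8582, 12678, 902, 9094, 13190, 1926, 10118, 12486, 6342, 14534, 14790, 966,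
   9158, 13254, 782, 8974, 1806, 9998, 3854, 8590, 12686, 1934, 10126, 8654, 12750, 14798, 974,
   9166, 13262, 1566, 3614, 7710, 798, 8990, 3870, 926, 9118, 13214, 1950, 10142, 6241, 14433,
   3169, 7265, 15457, 12513, 7393, 15585, 8673, 12769, 14817, 3121, 7217, 15409, 1585, 3633, 7729,
   6257, 14449, 3697, 7793, 12529, 6385, 14577, 7409, 15601, 3129, 7225, 15417, 1593, 1849, 10041,
   3897, 6265, 14457, 3193, 7289, 15481, 3705, 7801, 12483, 6339, 14531, 8643, 14787, 963, 9155,
   13251, 6243, 14435, 3171, 7267, 15459, 7395, 15587, 8675, 12771, 14819, 6259, 14451, 3187,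
   3699, 7795, 12531, 6387, 14579, 7411, 15603, 8583, 12679, 903, 9095, 13191, 1927, 10119, 12487,
   6343, 14535, 967, 9159, 13255, 12519, 6375, 7399, 15591, 8679, 12775, 14823, 783, 8975, 1807,
   9999, 3855, 8591, 12687, 1935, 10127, 8655, 12751, 14799, 975, 9167, 13263]

def sfl15 : List Nat :=
  [3120, 7216, 15408, 1584, 17968, 20016, 7728, 6256, 14448, 30832, 3696, 20080, 7792, 12528,
   6384, 14576, 30960, 7408, 15600, 1560, 17944, 3608, 19992, 7704, 17176, 25368, 26392, 3864,
   20248, 3128, 7224, 15416, 1848, 18232, 26424, 3896, 20280, 6264, 14456, 3192, 15480, 3704,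
   20088, 7800, 17164, 25356, 1804, 18188, 26380, 3852, 20236, 24972, 12684, 29068, 29580, 1932,
   18316, 26508, 1564, 17948, 3612, 19996, 7708, 17180, 25372, 17308, 25500, 29596, 1948, 18332,
   26524, 3132, 7228, 1596, 17980, 7740, 1852, 18236, 26428, 3900, 20284, 24966, 12678, 29062,
   17286, 29574, 1926, 18310, 26502, 12486, 28870, 6342, 14534, 30918, 14790, 31174, 17350, 25542,
   29638, 17166, 25358, 1806, 18190, 26382, 3854, 20238, 24974, 12686, 29070, 1934, 18318, 26510,
   25038, 12750, 14798, 31182, 17358, 25550, 29646, 1566, 17950, 3614, 19998, 17182, 25374, 3870,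
   20254, 17310, 25502, 29598, 1950, 18334, 26526, 6241, 14433, 30817, 3169, 7265, 15457, 12513,
   28897, 7393, 15585, 12769, 29153, 14817, 31201, 3121, 7217, 15409, 1585, 17969, 20017, 7729,
   6257, 14449, 30833, 3697, 20081, 7793, 12529, 28913, 6385, 14577, 30961, 7409, 15601, 3129,
   7225, 15417, 1593, 17977, 1849, 18233, 26425, 3897, 20281, 6265, 14457, 30841, 3193, 15481,
   3705, 20089, 7801, 12483, 28867, 6339, 14531, 30915, 25027, 14787, 31171, 25539, 29635, 6243,
   14435, 30819, 3171, 7267, 15459, 7395, 15587, 25059, 12771, 29155, 14819, 31203, 6259, 14451,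
   30835, 3187, 3699, 20083, 7795, 12531, 28915, 6387, 14579, 30963, 7411, 15603, 24967, 12679,
   29063, 17287, 29575, 18311, 26503, 12487, 28871, 6343, 14535, 30919, 17351, 25543, 29639,
   12519, 28903, 6375, 7399, 15591, 25063, 12775, 29159, 14823, 31207, 17167, 25359, 1807, 18191,
   26383, 20239, 24975, 12687, 29071, 1935, 18319, 26511, 25039, 12751, 14799, 31183, 17359,
   25551, 29647]

def sfl16 : List Nat :=
  [3120, 35888, 7216, 39984, 15408, 34352, 50736, 52784, 7728, 40496, 6256, 14448, 30832, 3696,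
   36464, 52848, 7792, 40560, 12528, 6384, 30960, 7408, 40176, 15600, 34328, 50712, 3608, 36376,
   52760, 7704, 40472, 49944, 25368, 58136, 59160, 3864, 36632, 53016, 3128, 35896, 7224, 39992,
   15416, 34616, 51000, 59192, 3896, 36664, 53048, 6264, 14456, 3192, 35960, 15480, 3704, 36472,
   52856, 7800, 40568, 49932, 25356, 58124, 34572, 59148, 3852, 36620, 53004, 24972, 57740, 12684,
   29068, 61836, 29580, 62348, 34700, 51084, 59276, 34332, 50716, 3612, 36380, 52764, 7708, 40476,
   49948, 25372, 58140, 50076, 25500, 29596, 62364, 34716, 51100, 59292, 3132, 35900, 7228, 39996,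
   34364, 50748, 7740, 40508, 34620, 51004, 59196, 3900, 36668, 53052, 24966, 57734, 12678, 29062,
   61830, 50054, 29574, 62342, 51078, 59270, 12486, 28870, 61638, 6342, 14534, 30918, 14790,
   31174, 50118, 25542, 58310, 29638, 62406, 49934, 25358, 58126, 34574, 59150, 36622, 53006,
   24974, 57742, 12686, 29070, 61838, 34702, 51086, 59278, 25038, 57806, 12750, 14798, 31182,
   50126, 25550, 58318, 29646, 62414, 34334, 50718, 3614, 36382, 52766, 49950, 25374, 58142, 3870,
   36638, 53022, 50078, 25502, 29598, 62366, 34718, 51102, 59294, 6241, 14433, 30817, 3169, 35937,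
   40033, 15457, 12513, 28897, 61665, 7393, 40161, 15585, 12769, 29153, 61921, 14817, 31201, 3121,
   35889, 7217, 39985, 15409, 34353, 50737, 52785, 7729, 40497, 6257, 14449, 30833, 3697, 36465,
   52849, 7793, 40561, 12529, 28913, 6385, 30961, 7409, 40177, 15601, 3129, 35897, 7225, 39993,
   15417, 34361, 50745, 34617, 51001, 59193, 3897, 36665, 53049, 6265, 14457, 3193, 35961, 15481,
   3705, 36473, 52857, 7801, 40569, 12483, 28867, 61635, 6339, 14531, 30915, 25027, 57795, 14787,
   31171, 25539, 58307, 29635, 62403, 6243, 14435, 30819, 3171, 35939, 40035, 15459, 7395, 40163,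
   15587, 25059, 57827, 12771, 29155, 61923, 14819, 31203, 6259, 14451, 30835, 3187, 35955, 3699,
   36467, 52851, 7795, 40563, 12531, 28915, 61683, 6387, 30963, 7411, 40179, 15603, 24967, 57735,
   12679, 29063, 61831, 50055, 29575, 62343, 51079, 59271, 12487, 28871, 61639, 6343, 14535,
   30919, 50119, 25543, 58311, 29639, 62407, 12519, 28903, 61671, 6375, 7399, 40167, 15591, 25063,
   57831, 12775, 29159, 61927, 14823, 31207, 49935, 25359, 58127, 34575, 59151, 53007, 24975,
   57743, 12687, 29071, 61839, 34703, 51087, 59279, 25039, 57807, 12751, 14799, 31183, 50127,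
   25551, 58319, 29647, 62415]

def sfl (n : Nat) : List Nat :=
  [sfl0, sfl1, sfl2, sfl3, sfl4, sfl5, sfl6, sfl7, sfl8, sfl9, sfl10, sfl11, sfl12, sfl13, sfl14, sfl15, sfl16].getD n []

theorem sfl_step : allB (fun n => List.beq (nextL n (sfl n)) (sfl (Nat.succ n))) 16 = true := by
  decide +kernel

theorem sfl_spec {v : ℤ → Lt} (hv : SF v) (i0 : ℤ) (n : Nat) (hn : n ≤ 16) :
    ∃ c ∈ sfl n, Mark v i0 n c := by
  induction n with
  | zero => exact ⟨0, by decide, fun i hi => by omega⟩
  | succ n ih =>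
    obtain ⟨c, c1, c2⟩ := ih (by omega)
    obtain ⟨b, hb⟩ := dv_cases (sub_ne_zero.mpr (hv.ne (i0 + n)))
    have mk : Mark v i0 (n + 1) (jn c n (cond b 1 0)) := by
      intro i hi
      rcases Nat.lt_succ_iff_lt_or_eq.mp hi with e | e
      · rw [jn_lt e]; exact c2 i e
      · subst e
        have := jn_ge c i (cond b 1 0) 0
        rw [add_zero] at this
        rw [this, hb]; cases b <;> rfl
    refine ⟨_, ?_, mk⟩
    have e := allB_spec sfl_step n (by omega)
    have e' : nextL n (sfl n) = sfl (n + 1) := by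
      have : (nextL n (sfl n) == sfl (n + 1)) = true := e
      exact eq_of_beq this
    rw [← e']
    exact mem_nextL c1 b (hasSq_spec hv mk)

/-! ### decoding of difference codes (no property of it is used) -/

def add3 (x y : Wd) : Wd :=
  ⟨Nat.xor (Nat.lor x.b y.b) (Nat.xor (Nat.lor x.a y.b) (Nat.lor x.b y.a)),
   Nat.xor (Nat.lor x.a y.a) (Nat.xor (Nat.lor x.a y.b) (Nat.lor x.b y.a))⟩

def decStep (n k : Nat) (x : Wd) : Wd :=
  add3 x ⟨low (Nat.shiftLeft x.a (Nat.pow 2 k)) n, low (Nat.shiftLeft x.b (Nat.pow 2 k)) n⟩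

/-- the word of length `n` whose letter `i` is the previous letter plus 1 or 2 according to bit `i`
of `d`, the letter before the word being `f`. -/
def dec (f d n : Nat) : Wd :=
  (Nat.rec (motive := fun _ => Wd) ⟨low d n, Nat.xor (low d n) (ones n)⟩
    (fun k x => decStep n k x) (Nat.succ (Nat.log2 n))).rot n f

end

end Pool.Agent.Lib.MP_42179e_co
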