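import Pool.Agent.Lib.MP_42179e_co.DD0
import Pool.Agent.Lib.MP_42179e_co.DD1
import Pool.Agent.Lib.MP_42179e_co.DD2
import Pool.Agent.Lib.MP_42179e_co.DD3
import Pool.Agent.Lib.MP_42179e_co.DD4
import Pool.Agent.Lib.MP_42179e_co.DD5
import Pool.Agent.Lib.MP_42179e_co.DD6
import Pool.Agent.Lib.MP_42179e_co.DD7

namespace Pool.Agent.Lib.MP_42179e_co

theorem dr_3 : DR 3 4 120 :=
  dr_3_4.trans (dr_3_80)

theorem dr_4 : DR 4 5 168 :=
  dr_4_5.trans (dr_4_82.trans (dr_4_135))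

theorem dr_5 : DR 5 6 200 :=
  dr_5_6.trans (dr_5_79.trans (dr_5_138.trans (dr_5_172)))

theorem dr_6 : DR 6 7 246 :=
  dr_6_7.trans (dr_6_80.trans (dr_6_150.trans (dr_6_211)))

theorem dr_7 : DR 7 8 280 :=
  dr_7_8.trans (dr_7_79.trans (dr_7_149.trans (dr_7_193.trans (dr_7_226.trans (dr_7_254)))))

theorem dr_8 : DR 8 9 328 :=
  dr_8_9.trans (dr_8_81.trans (dr_8_151.trans (dr_8_195.trans (dr_8_228.trans (dr_8_256.trans (dr_8_282.trans (dr_8_306)))))))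

theorem dr_9 : DR 9 10 72 :=
  dr_9_10.trans (dr_9_50)

theorem dr_10 : DR 10 11 70 :=
  dr_10_11

theorem dr_11 : DR 11 12 66 :=
  dr_11_12

theorem dr_12 : DR 12 13 60 :=
  dr_12_13

theorem dr_13 : DR 13 14 65 :=
  dr_13_14

theorem dr_14 : DR 14 15 56 :=
  dr_14_15

theorem dr_15 : DR 15 16 60 :=
  dr_15_16

theorem dr_16 : DR 16 17 64 :=
  dr_16_17

theorem dr_17 : DR 17 18 51 :=
  dr_17_18

theorem dr_18 : DR 18 19 54 :=
  dr_18_19

theorem dr_19 : DR 19 20 57 :=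
  dr_19_20

theorem dr_20 : DR 20 21 60 :=
  dr_20_21

theorem dr_21 : DR 21 22 63 :=
  dr_21_22

theorem dr_22 : DR 22 23 66 :=
  dr_22_23

theorem dr_23 : DR 23 24 69 :=
  dr_23_24

theorem dr_24 : DR 24 25 72 :=
  dr_24_25

theorem dr_25 : DR 25 26 75 :=
  dr_25_26

theorem dr_26 : DR 26 27 78 :=
  dr_26_27

theorem dr_27 : DR 27 28 54 :=
  dr_27_28

theorem dr_28 : DR 28 29 56 :=
  dr_28_29

theorem dr_29 : DR 29 30 58 :=
  dr_29_30

theorem dr_30 : DR 30 31 60 :=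
  dr_30_31

theorem dr_31 : DR 31 32 62 :=
  dr_31_32

theorem dr_32 : DR 32 33 64 :=
  dr_32_33

theorem dr_33 : DR 33 34 66 :=
  dr_33_34

theorem dr_34 : DR 34 35 68 :=
  dr_34_35

theorem dr_35 : DR 35 36 70 :=
  dr_35_36

theorem dr_36 : DR 36 37 72 :=
  dr_36_37

theorem dr_37 : DR 37 38 74 :=
  dr_37_38

theorem dr_38 : DR 38 39 76 :=
  dr_38_39

theorem dr_39 : DR 39 40 78 :=
  dr_39_40

theorem dr_40 : DR 40 41 80 :=
  dr_40_41

theorem dr_41 : DR 41 42 82 :=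
  dr_41_42

theorem dr_42 : DR 42 43 84 :=
  dr_42_43

theorem dr_43 : DR 43 44 86 :=
  dr_43_44

theorem dr_44 : DR 44 45 88 :=
  dr_44_45

end Pool.Agent.Lib.MP_42179e_co
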