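import Pool.Agent.Lib.MP_42179e_co.TP

/-!
Pairs `(p,q)` settled by one explicit block code.
-/

namespace Pool.Agent.Lib.MP_42179e_co

noncomputable section

def D (p q : ℕ) : Prop :=
  ∃ K : ℕ, 0 < K ∧ ∃ c : ℤ, ∀ v, SF v → ∃ w, SF w ∧ SF (fun k => w (p * k)) ∧
    SF (fun k => w (q * k)) ∧ ∀ i : ℤ, w (p * (K * i + c)) = v i

structure DE where
  q : Nat
  M : Nat
  o : Nat
  sh : Nat
  r : Nat
  m : Nat
  shx : Nat
  rx : Nat
  mx : Nat
  shy : Nat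
  ry : Nat
  my : Nat
  f1 : Nat
  d1 : Nat
  f2 : Nat
  d2 : Nat

def DE.H (e : DE) : Mor :=
  ⟨e.M, dec e.f1 e.d1 e.M, (dec e.f1 e.d1 e.M).cat e.sh (dec e.f2 e.d2 (Nat.sub e.M e.sh))⟩

def DE.X (e : DE) (p : Nat) : Mor := e.H.proj p (Nat.mod e.o p)

def DE.chk (p Kw Kx Ky : Nat) (e : DE) : Bool :=
  Nat.ble 2 e.q && Nat.beq (Nat.mod e.M p) 0 && Nat.beq (Nat.mod e.M e.q) 0 &&
  e.H.chk e.sh e.r e.m Kw && (e.X p).chk e.shx e.rx e.mx Kx && (e.X e.q).chk e.shy e.ry e.my Ky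

def exc (p q : Nat) : Bool :=
  Nat.beq q (Nat.mul 2 p) || Nat.beq (Nat.mul 2 q) (Nat.mul 3 p) ||
  anyL (fun pq : Nat × Nat => Nat.beq p pq.1 && Nat.beq q pq.2)
    [(3,4),(3,5),(3,7),(3,8),(3,10),(4,5),(4,7),(4,9),(4,10),(4,14),(6,7),(5,6),(5,8)]

def chkD (p lo n Kw Kx Ky : Nat) (l : List DE) : Bool :=
  Nat.ble 2 p && allL (DE.chk p Kw Kx Ky) l &&
  chkSq (blkL (fun e : DE => e.H.lanes e.sh e.r e.m) l) Kw &&
  chkSq (blkL (fun e : DE => (e.X p).lanes e.shx e.rx e.mx) l) Kx &&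
  chkSq (blkL (fun e : DE => (e.X e.q).lanes e.shy e.ry e.my) l) Ky &&
  allB (fun k => exc p (Nat.add lo k) || anyL (fun e : DE => Nat.beq e.q (Nat.add lo k)) l) n

theorem proj_shift {H : Mor} {p o : Nat} (hp : 2 ≤ p) (hM : 0 < H.M) (hd : H.M % p = 0)
    (v : ℤ → Lt) (k : ℤ) :
    H.app v (p * k + o) = (H.proj p (Nat.mod o p)).app v (k + (o / p : ℕ)) := by
  rw [Mor.app_proj (r := Nat.mod o p) hp (Nat.mod_lt _ (by omega)) hM hd]
  congr 1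
  have := Nat.div_add_mod o p
  have e : (o : ℤ) = p * (o / p : ℕ) + (o % p : ℕ) := by exact_mod_cast this.symm
  show _ = (p : ℤ) * (k + (o / p : ℕ)) + (o % p : ℕ)
  rw [mul_add, add_assoc, ← e]

theorem D_of {H : Mor} {p q o : Nat} (hp : 2 ≤ p) (hq : 2 ≤ q) (dp : H.M % p = 0)
    (dq : H.M % q = 0) (g : H.Good) (gx : (H.proj p (Nat.mod o p)).Good)
    (gy : (H.proj q (Nat.mod o q)).Good) : D p q := by
  refine ⟨_, gx.pos, -(o / p : ℕ), fun v hv => ?_⟩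
  have hv' := hv.add (- (H.proj p (Nat.mod o p)).h1.get 0)
  refine ⟨fun i => H.app (fun i => v i + - (H.proj p (Nat.mod o p)).h1.get 0) (i + o),
    (g.sf hv').shift _, ?_, ?_, fun i => ?_⟩
  · simp only [proj_shift hp g.pos dp]
    exact (gx.sf hv').shift _
  · simp only [proj_shift hq g.pos dq]
    exact (gy.sf hv').shift _
  · simp only [proj_shift hp g.pos dp]
    rw [neg_add_cancel_right, gx.col]; ring

def DR (p lo hi : ℕ) : Prop := ∀ q, lo ≤ q → q < hi → exc p q = false → D p q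

theorem DR.trans {p a b c : ℕ} (h1 : DR p a b) (h2 : DR p b c) : DR p a c := by
  intro q q1 q2
  by_cases h : q < b
  · exact h1 q q1 h
  · exact h2 q (by omega) q2

theorem chkD_spec {p lo n Kw Kx Ky : Nat} {l : List DE} (h : chkD p lo n Kw Kx Ky l = true) :
    DR p lo (lo + n) := by
  intro q q1 q2 hx
  unfold chkD at h
  simp only [Bool.and_eq_true, Nat.ble_eq] at h
  obtain ⟨⟨⟨⟨⟨hp, h1⟩, h2⟩, h3⟩, h4⟩, h5⟩ := h
  obtain ⟨k, rfl⟩ := Nat.exists_eq_add_of_le q1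
  have a := allB_spec h5 k (by omega)
  have e0 : Nat.add lo k = lo + k := rfl
  rw [e0, hx, Bool.false_or] at a
  obtain ⟨e, e1, e2⟩ := anyL_spec a
  have b := allL_spec h1 e e1
  unfold DE.chk at b
  simp only [Bool.and_eq_true, Nat.ble_eq, Nat.beq_eq] at b
  obtain ⟨⟨⟨⟨⟨b1, b2⟩, b3⟩, b4⟩, b5⟩, b6⟩ := b
  rw [← Nat.eq_of_beq_eq_true e2]
  exact D_of (H := e.H) (o := e.o) hp b1 b2 b3
    (Mor.good_of b4 ((chkSq_spec h2).sub
      (sub_blkL (fun e : DE => e.H.lanes e.sh e.r e.m) e1)))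
    (Mor.good_of b5 ((chkSq_spec h3).sub
      (sub_blkL (fun e : DE => (e.X p).lanes e.shx e.rx e.mx) e1)))
    (Mor.good_of b6 ((chkSq_spec h4).sub
      (sub_blkL (fun e : DE => (e.X e.q).lanes e.shy e.ry e.my) e1)))

end

end Pool.Agent.Lib.MP_42179e_co
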