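import Pool.Agent.Lib.MP_42179e_co.FrApp

/-!
The two-level frame construction for a small modulus `p` and all large `q`.
-/

namespace Pool.Agent.Lib.MP_42179e_co

noncomputable section

def mapL {α β : Type} (f : α → β) (l : List α) : List β :=
  List.rec (motive := fun _ => List β) [] (fun a _ ih => f a :: ih) l

theorem mapL_eq {α β : Type} (f : α → β) (l : List α) : mapL f l = l.map f := by
  induction l with
  | nil => rfl
  | cons a l ih => show f a :: mapL f l = _; rw [ih]; rfl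

structure EC where
  p : Nat
  g : Nat
  rp : Nat
  a : Nat
  b : Nat
  sP : Nat
  sS : Nat
  ne0 : Nat
  j0 : Nat
  FW : Fr
  shx : Nat
  mSx : Nat
  mPx : Nat
  cSx : Nat
  cPx : Nat
  nbx : Nat

def EC.FX (C : EC) : Fr :=
  ⟨C.FW.H.proj C.p C.rp, C.shx, Nat.succ C.a, C.b, C.mSx, C.mPx, C.cSx, C.cPx, C.FW.nt, C.FW.tc,
    C.nbx⟩

def EC.L (C : EC) (ne : Nat) : Nat :=
  Nat.add (Nat.add (Nat.add C.sP (Nat.mul C.p (Nat.pred ne))) 1) C.sS

def EC.chk0 (C : EC) : Bool :=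
  Nat.ble 1 C.g && Nat.beq (Nat.mod (Nat.div C.FW.H.M C.p) C.g) 0 &&
  Nat.beq (Nat.mod (Nat.add C.b C.ne0) C.g) (Nat.mod (Nat.succ C.a) C.g) &&
  Nat.ble 2 C.p && Nat.blt C.rp C.p && Nat.blt C.sP C.p && Nat.blt C.sS C.p &&
  Nat.beq (Nat.mod C.FW.H.M C.p) 0 && Nat.ble 1 C.ne0 &&
  Nat.beq C.FW.al (Nat.add (Nat.add (Nat.add (Nat.mul C.p C.a) C.rp) 1) C.sS) &&
  Nat.beq (Nat.add C.FW.be C.sP) (Nat.add (Nat.mul C.p C.b) C.rp) && C.FW.chk && C.FX.chk

def EC.chkE (C : EC) (ne la jL jR la' jL' jR' : Nat) (tab : List (List Wd)) : Bool :=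
  C.FW.chkT la jL jR (C.L ne) tab &&
  C.FX.chkT la' jL' jR' ne (mapL (mapL (fun e => e.proj C.p C.sP ne)) tab) &&
  Nat.ble (Nat.add C.j0 (Nat.mul C.p C.g)) (C.L ne) &&
  allB (fun a => allB (fun d => allB (fun c =>
    anyL (fun e => Nat.beq (e.getN (Nat.add C.j0 d)) c) (tbN tab 0 a)) 3) (Nat.mul C.p C.g)) 3

def EC.EOK (C : EC) (ne : Nat) : Prop :=
  C.j0 + C.p * C.g ≤ C.L ne ∧ ∀ T, C.FW.TP T → ∀ (a c : Lt) (d : ℕ), d < C.p * C.g → ∃ e : Wd,
    C.FW.TileOK T (C.L ne) 0 a e ∧ C.FX.TileOK T ne 0 a (e.proj C.p C.sP ne) ∧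
      e.get (C.j0 + d) = c

theorem EC.eok_of {C : EC} (hW : C.FW.OK) (hX : C.FX.OK) {ne la jL jR la' jL' jR' : Nat}
    {tab : List (List Wd)} (h : C.chkE ne la jL jR la' jL' jR' tab = true) : C.EOK ne := by
  unfold EC.chkE at h
  simp only [Bool.and_eq_true, Nat.ble_eq] at h
  obtain ⟨⟨⟨h1, h2⟩, h3⟩, h4⟩ := h
  refine ⟨h3, fun T hT a c d hd => ?_⟩
  obtain ⟨e, e1, e2⟩ := anyL_spec
    (allB_spec (allB_spec (allB_spec h4 a.val (val_lt a)) d hd) c.val (val_lt c))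
  refine ⟨e, ?_, ?_, getN_eq e2⟩
  · have := Fr.chkT_spec hW h1 hT (b := 0) (by norm_num) (val_lt a) e1
    rwa [cast_val, Nat.cast_zero] at this
  · have := Fr.chkT_spec hX h2 (T := T) hT (b := 0) (by norm_num) (val_lt a)
      (e := e.proj C.p C.sP ne) (by
        rw [mapL_eq]
        have : (List.map (mapL fun e => e.proj C.p C.sP ne) tab).getD (3 * 0 + a.val) [] =
            mapL (fun e => e.proj C.p C.sP ne) (tab.getD (3 * 0 + a.val) []) :=
          List.getD_map (d := []) _ _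
        rw [this, mapL_eq]
        exact List.mem_map_of_mem e1)
    rwa [cast_val, Nat.cast_zero] at this

theorem EC.oks {C : EC} (h0 : C.chk0 = true) (g1 : C.FW.H.Good) (g2 : C.FX.H.Good) :
    C.FW.OK ∧ C.FX.OK := by
  unfold EC.chk0 at h0
  simp only [Bool.and_eq_true] at h0
  exact ⟨Fr.ok_of g1 h0.1.2, Fr.ok_of g2 h0.2⟩

theorem EC.two {C : EC} (h0 : C.chk0 = true) (hW : C.FW.OK) (hX : C.FX.OK) {T : ℤ → Lt}
    (hT : C.FW.TP T) (hE : ∀ i, i ≤ C.FW.H.M / C.p / C.g → C.EOK (C.ne0 + C.g * i)) {q : ℕ}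
    (hq : C.p * (C.FW.H.M / C.p + C.b + C.ne0) ≤ q + C.p * (C.a + 1)) : Two C.p q := by
  intro y
  unfold EC.chk0 at h0
  simp only [Bool.and_eq_true, Nat.ble_eq, Nat.blt_eq, Nat.beq_eq] at h0
  obtain ⟨⟨⟨⟨⟨⟨⟨⟨⟨⟨⟨⟨g1, g2⟩, g3⟩, p2⟩, hrp⟩, hsP⟩, hsS⟩, hM⟩, hne⟩, hal⟩, hbe⟩, _⟩, _⟩ := h0
  have hal' : C.FW.al = C.p * C.a + C.rp + 1 + C.sS := hal
  have hbe' : C.FW.be + C.sP = C.p * C.b + C.rp := hbe
  obtain ⟨m, hm⟩ := Nat.dvd_of_mod_eq_zero hM
  have em : C.FW.H.M / C.p = m := by rw [hm, Nat.mul_div_cancel_left _ (by omega)]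
  have emx : C.FX.H.M = m := em
  rw [em] at hE hq
  have m0 : 0 < m := by rw [← emx]; exact hX.good.pos
  set p := C.p with hp
  have p0 : (0 : ℤ) < p := by omega
  have main : ∃ (t : ℕ) (κ : ℤ → ℤ) (δ ι : ℤ → ℕ), ∀ n : ℤ, δ n < p * C.g ∧
      q * n + C.sP - C.j0 = p * κ n + δ n ∧ C.EOK (C.ne0 + ι n) ∧
      κ (n + 1) - (m * (t + 1) + C.b - (C.a + 1)) = κ n + (C.ne0 + ι n : ℕ) := by
    set g := C.g with hg
    have g2' : m % g = 0 := by rw [← em]; exact g2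
    obtain ⟨m', hm'⟩ := Nat.dvd_of_mod_eq_zero g2'
    have em' : m / g = m' := by rw [hm', Nat.mul_div_cancel_left _ (by omega)]
    rw [em'] at hE
    have m0' : 0 < m' := by
      rcases Nat.eq_zero_or_pos m' with a | a
      · rw [a] at hm'; omega
      · exact a
    have xl := hX.len
    rw [emx] at xl
    have xl' : C.FX.mS + C.FX.mP + (C.a + 1) ≤ m + C.b := xl
    obtain ⟨c1, hc1⟩ : ∃ c1, m + C.b + C.ne0 = C.a + 1 + g * c1 := by
      have a1 : (C.a + 1) ≡ m + C.b + C.ne0 [MOD g] := by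
        have a2 : (C.a + 1) ≡ C.b + C.ne0 [MOD g] := Eq.symm g3
        refine a2.trans ?_
        rw [add_assoc, hm']
        exact (Nat.mul_add_mod _ _ _).symm
      obtain ⟨c1, hc1⟩ := (Nat.modEq_iff_dvd' (by omega)).mp a1
      exact ⟨c1, by omega⟩
    have P0 : 0 < p * g := Nat.mul_pos (by omega) g1
    have P0' : (0 : ℤ) < (p * g : ℕ) := by exact_mod_cast P0
    obtain ⟨Q, u, hu, hQ⟩ : ∃ Q u, u < p * g ∧ q = p * g * Q + u :=
      ⟨q / (p * g), q % (p * g), Nat.mod_lt _ P0, (Nat.div_add_mod q (p * g)).symm⟩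
    have hQ1 : c1 ≤ Q := by
      by_contra hc
      have : p * g * (Q + 1) ≤ p * g * c1 := Nat.mul_le_mul_left _ (by omega)
      rw [hc1, mul_add, ← mul_assoc] at hq
      rw [mul_add] at this
      omega
    obtain ⟨t, v, hv, ht⟩ : ∃ t v, v < m' ∧ Q = c1 + (m' * t + v) :=
      ⟨(Q - c1) / m', (Q - c1) % m', Nat.mod_lt _ m0', by rw [Nat.div_add_mod]; omega⟩
    choose κ δ hδ hκ using fun n : ℤ => decomp P0 (q * n + C.sP - C.j0)
    have gap : ∀ n, ∃ i : ℕ, i ≤ m' ∧ κ (n + 1) = κ n + Q + (i - v) := by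
      intro n
      have a1 := hκ n
      have a2 := hκ (n + 1)
      have a3 := hδ n
      have a4 := hδ (n + 1)
      have a5 : (q : ℤ) = (p * g : ℕ) * Q + u := by exact_mod_cast hQ
      generalize p * g = P at *
      have e : (P : ℤ) * (κ (n + 1) - κ n - Q) = u + δ n - δ (n + 1) := by
        rw [mul_add] at a2
        rw [mul_sub, mul_sub]; omega
      have c1 : 0 ≤ κ (n + 1) - κ n - Q := by
        by_contra hc
        have : (P : ℤ) * (κ (n + 1) - κ n - Q) ≤ P * (-1) :=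
          mul_le_mul_of_nonneg_left (by omega) P0'.le
        omega
      have c2 : κ (n + 1) - κ n - Q ≤ 1 := by
        by_contra hc
        have : (P : ℤ) * 2 ≤ P * (κ (n + 1) - κ n - Q) :=
          mul_le_mul_of_nonneg_left (by omega) P0'.le
        omega
      by_cases c : κ (n + 1) - κ n - Q = 0
      · exact ⟨v, by omega, by omega⟩
      · exact ⟨v + 1, by omega, by push_cast; omega⟩
    choose ι hι1 hι2 using gap
    refine ⟨t, fun n => g * κ n, δ, fun n => g * ι n, fun n => ⟨hδ n, ?_, hE _ (hι1 n), ?_⟩⟩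
    · rw [hκ n]; push_cast; ring
    · have a1 : (m : ℤ) + C.b + C.ne0 = C.a + 1 + g * c1 := by exact_mod_cast hc1
      have a2 : (m : ℤ) = g * m' := by exact_mod_cast hm'
      have a3 : (Q : ℤ) = c1 + (m' * t + v) := by exact_mod_cast ht
      simp only [hι2 n, a3]
      push_cast
      linear_combination (-1 : ℤ) * a1 + (-t : ℤ) * a2
  obtain ⟨t, κ, δ, ι, hmain⟩ := main
  have hδ := fun n => (hmain n).1
  have hκ := fun n => (hmain n).2.1
  have hE' := fun n => (hmain n).2.2.1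
  choose e he1 he2 he3 using fun n : ℤ => (hE' n).2 T hT
    (T (n + 1) - (T n + T (t + 1))) (y n - (T n + T (t + 1))) (δ n) (hδ n)
  have eL : ∀ n, (C.L (C.ne0 + ι n) : ℤ) = C.sP + p * (C.ne0 + ι n) - p + 1 + C.sS := by
    intro n
    have : C.L (C.ne0 + ι n) = C.sP + p * (C.ne0 + ι n - 1) + 1 + C.sS := rfl
    rw [this]
    push_cast [Nat.cast_sub (show 1 ≤ C.ne0 + ι n by omega)]
    ring
  have hm' : (C.FW.H.M : ℤ) = p * m := by exact_mod_cast hm
  have hal2 : (C.FW.al : ℤ) = p * C.a + C.rp + 1 + C.sS := by exact_mod_cast hal'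
  have hbe2 : (C.FW.be : ℤ) = p * C.b + C.rp - C.sP := by
    have : (C.FW.be : ℤ) + C.sP = p * C.b + C.rp := by exact_mod_cast hbe'
    omega
  set cw : ℤ := C.FW.H.M * (t + 1) + C.FW.be - C.FW.al with hcw
  set cx : ℤ := m * (t + 1) + C.b - (C.a + 1) with hcx
  have ecw : cw = p * cx + p - C.sP - C.sS - 1 := by
    rw [hcw, hcx, hm', hal2, hbe2]; ring
  have kx : ∀ n, κ (n + 1) - cx = κ n + (C.ne0 + ι n : ℕ) := by
    intro n
    exact (hmain n).2.2.2
  have nxt : ∀ n, p * κ (n + 1) - C.sP - cw = p * κ n - C.sP + C.L (C.ne0 + ι n) := by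
    intro n
    have := kx n
    have e1 : κ (n + 1) = κ n + (C.ne0 + ι n) + cx := by push_cast at this; linarith
    rw [eL, ecw, e1]; ring
  have cx0 : 0 ≤ cx := by
    have a := hX.len
    rw [emx] at a
    have a' : C.FX.mS + C.FX.mP + (C.a + 1) ≤ m + C.b := a
    have : (0 : ℤ) ≤ m * t := by positivity
    rw [hcx, mul_add]; omega
  have cw0 : 0 ≤ cw := by
    have a := hW.len
    have : (0 : ℤ) ≤ C.FW.H.M * t := by positivity
    rw [hcw, mul_add]; omega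
  have L2 : ∀ n, 2 ≤ C.L (C.ne0 + ι n) := fun n => by
    obtain ⟨_, _, _, a, _⟩ := he1 n
    exact a
  obtain ⟨w, w1, w2⟩ := C.FW.build T (fun n => p * κ n - C.sP - cw) (fun n => p * κ n - C.sP) T
    (fun n => T n + T (t + 1)) e (fun n => by omega)
    (fun n => by have := nxt n; have := L2 n; omega)
  simp only [nxt] at w2
  have sysW : C.FW.Sys T (t + 1) w (fun n => p * κ n - C.sP - cw) (fun n => p * κ n - C.sP) T :=
    ⟨by omega, w1, fun n => by simp [hcw], fun n => ⟨_, 0, _, T n + T (t + 1), e n, he1 n, nxt n,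
      by ring, by ring, fun j a b => w2 n j a (by omega)⟩⟩
  have sysX : C.FX.Sys T (t + 1) (fun k => w (p * k)) (fun n => κ n - cx) κ T := by
    refine ⟨by omega, fun n i a b => ?_, fun n => ?_, fun n => ⟨_, 0, _, T n + T (t + 1), _,
      he2 n, kx n, by ring, by ring, fun j a b => ?_⟩⟩
    · have a1 : (p : ℤ) * (κ n - cx) ≤ p * i := mul_le_mul_of_nonneg_left a p0.le
      have a2 : (p : ℤ) * (i + 1) ≤ p * κ n := mul_le_mul_of_nonneg_left b p0.le
      rw [mul_sub] at a1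
      rw [mul_add] at a2
      rw [w1 n _ (by omega) (by omega)]
      show _ = (C.FW.H.proj p C.rp).app T _ + _
      rw [Mor.app_proj p2 hrp hW.good.pos hM]
      congr 2
      show _ = (p : ℤ) * (i - (κ n - cx) + (C.a + 1 : ℕ)) + C.rp
      rw [ecw, hal2]; push_cast; ring
    · rw [emx]
      show _ = (m : ℤ) * (t + 1) + C.b - (C.a + 1 : ℕ)
      rw [hcx]; push_cast; ring
    · obtain ⟨j, rfl⟩ := Int.eq_ofNat_of_zero_le a
      have a2 : (p : ℤ) * (j + 1) ≤ p * (C.ne0 + ι n) :=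
        mul_le_mul_of_nonneg_left (by push_cast at b; omega) p0.le
      rw [mul_add] at a2
      have := w2 n (p * j + C.sP : ℕ) (by positivity) (by rw [eL]; push_cast; omega)
      rw [Wd.fn_nat] at this
      rw [Wd.fn_nat, Wd.proj_get p2 (by omega), ← this]
      congr 1; push_cast; ring
  refine ⟨w, sysW.sf hW hT.1 hT.1, sysX.sf hX hT.1 hT.1, fun l => ?_⟩
  have := w2 l (C.j0 + δ l : ℕ) (by positivity) (by
    have : C.j0 + p * C.g ≤ C.L (C.ne0 + ι l) := (hE' l).1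
    have := hδ l
    omega)
  rw [Wd.fn_nat, he3 l] at this
  have e1 : (q : ℤ) * l = p * κ l - C.sP + (C.j0 + δ l : ℕ) := by
    have := hκ l
    push_cast; omega
  rw [e1, this]; ring

end

end Pool.Agent.Lib.MP_42179e_co
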