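import Pool.Agent.Lib.MP_42179e_co.Defs

/-!
A certificate checker for the non-existence of infinite `(p,q)`-good words.
A context is a base-four number: a leading digit `1`, then the last letters of a sequence,
the newest letter being the lowest digit.
-/

set_option autoImplicit false

namespace Pool.Agent.Lib.MP_42179e_co

namespace FinChk

/-- Code of the last `l` letters before position `m`. -/
def enc (u : ℕ → Fin 3) : ℕ → ℕ → ℕ
  | _, 0 => 1
  | m, l + 1 => 4 * enc u (m - 1) l + (u (m - 1) : ℕ)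

def Rep (u : ℕ → Fin 3) (m W : ℕ) : Prop := ∃ l, l ≤ m ∧ W = enc u m l

lemma enc_lt (u : ℕ → Fin 3) (l : ℕ) : ∀ m, enc u m l < 2 * 4 ^ l := by
  induction l with
  | zero => intro m; simp [enc]
  | succ l ih =>
    intro m
    have h1 := ih (m - 1)
    have h2 := (u (m - 1)).isLt
    rw [enc, pow_succ]
    omega

lemma enc_mod (u : ℕ → Fin 3) (k : ℕ) : ∀ l m, k ≤ l →
    enc u m l % 4 ^ k + 4 ^ k = enc u m k := by
  induction k with
  | zero => intro l m _; simp [enc, Nat.mod_one]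
  | succ k ih =>
    intro l m h
    obtain ⟨l, rfl⟩ : ∃ l', l = l' + 1 := ⟨l - 1, by omega⟩
    have h1 := ih l (m - 1) (by omega)
    have h2 := (u (m - 1)).isLt
    rw [enc, enc, ← h1, pow_succ', Nat.mod_mul]
    have e1 : (4 * enc u (m - 1) l + (u (m - 1) : ℕ)) % 4 = u (m - 1) := by omega
    have e2 : (4 * enc u (m - 1) l + (u (m - 1) : ℕ)) / 4 = enc u (m - 1) l := by omega
    rw [e1, e2]
    omega

lemma enc_div (u : ℕ → Fin 3) (k : ℕ) : ∀ l m, k ≤ l →
    enc u m l / 4 ^ k = enc u (m - k) (l - k) := by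
  induction k with
  | zero => intro l m _; simp
  | succ k ih =>
    intro l m h
    obtain ⟨l, rfl⟩ : ∃ l', l = l' + 1 := ⟨l - 1, by omega⟩
    have h1 := ih l (m - 1) (by omega)
    have h2 := (u (m - 1)).isLt
    have e2 : (4 * enc u (m - 1) l + (u (m - 1) : ℕ)) / 4 = enc u (m - 1) l := by omega
    rw [enc, pow_succ', ← Nat.div_div_eq_div_mul, e2, h1]
    congr 1 <;> omega

lemma enc_inj (u : ℕ → Fin 3) (k : ℕ) : ∀ m m', enc u m k = enc u m' k →
    ∀ i, i < k → u (m - 1 - i) = u (m' - 1 - i) := by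
  induction k with
  | zero => intro m m' _ i hi; omega
  | succ k ih =>
    intro m m' h i hi
    have h2 := (u (m - 1)).isLt
    have h3 := (u (m' - 1)).isLt
    rw [enc, enc] at h
    rcases i with _ | i
    · exact Fin.ext (by simp only [Nat.sub_zero]; omega)
    · have := ih (m - 1) (m' - 1) (by omega) i (by omega)
      convert this using 2 <;> omega

lemma le_of_shift (u : ℕ → Fin 3) (m l k : ℕ) (h : enc u m l / 4 ^ k ≠ 0) : k ≤ l := by
  by_contra hc
  apply h
  apply Nat.div_eq_of_lt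
  have h1 := enc_lt u l m
  have h2 : 4 ^ (l + 1) ≤ 4 ^ k := Nat.pow_le_pow_right (by norm_num) (by omega)
  rw [pow_succ] at h2
  omega

lemma Rep.step {u : ℕ → Fin 3} {m W : ℕ} (h : Rep u m W) : Rep u (m + 1) (4 * W + u m) := by
  obtain ⟨l, hl, rfl⟩ := h
  exact ⟨l + 1, by omega, by simp [enc]⟩

lemma shl (s : ℕ) : Nat.shiftLeft 1 (Nat.mul 2 s) = 4 ^ s := by
  change 1 <<< (2 * s) = _
  rw [Nat.shiftLeft_eq, one_mul, pow_mul]
  norm_num

lemma shr (W s : ℕ) : Nat.shiftRight W (Nat.mul 2 s) = W / 4 ^ s := by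
  change W >>> (2 * s) = _
  rw [Nat.shiftRight_eq_div_pow, pow_mul]
  norm_num

/-- The context `W` ends with a square of period `k`. -/
noncomputable def sq (W k : ℕ) : Bool :=
  Nat.rec false (fun _ _ => Nat.rec false (fun _ _ =>
    Nat.beq (Nat.mod W (Nat.shiftLeft 1 (Nat.mul 2 k)))
      (Nat.mod (Nat.shiftRight W (Nat.mul 2 k)) (Nat.shiftLeft 1 (Nat.mul 2 k))))
    (Nat.shiftRight W (Nat.mul 2 (Nat.mul 2 k)))) k

lemma sq_sound {u : ℕ → Fin 3} {m W k : ℕ} (hu : InfSqFree u) (h : Rep u m W)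
    (hs : sq W k = true) : False := by
  obtain ⟨l, hl, rfl⟩ := h
  rcases k with _ | k
  · exact Bool.noConfusion hs
  set K := k + 1 with hK
  have h1 : enc u m l / 4 ^ (2 * K) ≠ 0 ∧
      enc u m l % 4 ^ K = enc u m l / 4 ^ K % 4 ^ K := by
    have e : sq (enc u m l) K = Nat.rec false (fun _ _ =>
        Nat.beq (Nat.mod (enc u m l) (Nat.shiftLeft 1 (Nat.mul 2 K)))
          (Nat.mod (Nat.shiftRight (enc u m l) (Nat.mul 2 K)) (Nat.shiftLeft 1 (Nat.mul 2 K))))
        (Nat.shiftRight (enc u m l) (Nat.mul 2 (Nat.mul 2 K))) := rfl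
    rw [e, shl, shr, shr] at hs
    change Nat.rec false _ (enc u m l / 4 ^ (2 * K)) = true at hs
    rcases h0 : enc u m l / 4 ^ (2 * K) with _ | y
    · rw [h0] at hs
      exact Bool.noConfusion hs
    · rw [h0] at hs
      exact ⟨by omega, Nat.eq_of_beq_eq_true hs⟩
  have h2 := le_of_shift u m l _ h1.1
  have h3 := enc_mod u K l m (by omega)
  have h4 := enc_mod u K (l - K) (m - K) (by omega)
  rw [← enc_div u K l m (by omega), ← h1.2, h3] at h4
  obtain ⟨j, hj, hne⟩ := hu (m - 2 * K) K (by omega)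
  have h5 := enc_inj u K _ _ h4 (K - 1 - j) (by omega)
  apply hne
  convert h5.symm using 2 <;> omega

/-- The context `T` is a truncation of the context `W`. -/
noncomputable def sub (W T : ℕ) : Bool :=
  Nat.rec false (fun _ _ =>
    Nat.beq (Nat.add (Nat.mod W (Nat.shiftLeft 1 (Nat.mul 2 (Nat.div (Nat.log2 T) 2))))
      (Nat.shiftLeft 1 (Nat.mul 2 (Nat.div (Nat.log2 T) 2)))) T)
    (Nat.shiftRight W (Nat.mul 2 (Nat.div (Nat.log2 T) 2)))

lemma sub_sound {u : ℕ → Fin 3} {m W T : ℕ} (h : Rep u m W) (hs : sub W T = true) :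
    Rep u m T := by
  obtain ⟨l, hl, rfl⟩ := h
  unfold sub at hs
  rw [shl, shr] at hs
  generalize Nat.div (Nat.log2 T) 2 = s at hs
  rcases h0 : enc u m l / 4 ^ s with _ | y
  · rw [h0] at hs
    exact Bool.noConfusion hs
  · rw [h0] at hs
    have h1 : enc u m l % 4 ^ s + 4 ^ s = T := Nat.eq_of_beq_eq_true hs
    have h2 := le_of_shift u m l s (by omega)
    exact ⟨s, by omega, by rw [← h1, enc_mod u s l m h2]⟩

/-- Table of contexts already refuted. -/
inductive TB
  | nil
  | cons (f W X Y : ℕ) (tl : TB)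

noncomputable def look (t : TB) : ℕ → ℕ → ℕ → ℕ → ℕ → Bool :=
  TB.rec (fun _ _ _ _ _ => false) (fun f' W' X' Y' _ ih j f W X Y =>
    Nat.rec (Bool.rec false (Bool.rec false (Bool.rec false (sub Y Y') (sub X X')) (sub W W'))
      (Nat.beq f f')) (fun j' _ => ih j' f W X Y) j) t

noncomputable def force (n : ℕ) (k : ℕ → ℕ) : ℕ := Nat.rec (k 0) (fun y _ => k y.succ) n

lemma force_eq (n : ℕ) (k : ℕ → ℕ) : force n k = k n := by cases n <;> rfl

noncomputable def forceB (n : ℕ) (k : ℕ → Bool) : Bool := Nat.rec (k 0) (fun y _ => k y.succ) n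

lemma forceB_eq (n : ℕ) (k : ℕ → Bool) : forceB n k = k n := by cases n <;> rfl

/-- Check of one child; the value is the rest of the hints, `0` meaning failure. -/
noncomputable def step (b : Bool) (t : TB) (r : ℕ → ℕ → ℕ → ℕ → ℕ → ℕ) (f W X Y H : ℕ) : ℕ :=
  Nat.rec 0 (fun y₁ _ =>
    Nat.rec (Bool.rec 0 (Bool.rec 0 (Nat.shiftRight H 16)
      (sq W (Nat.shiftRight (Nat.land H 65535) 3))) b) (fun y₂ _ =>
    Nat.rec (Bool.rec 0 (Nat.shiftRight H 16) (sq X (Nat.shiftRight (Nat.land H 65535) 3)))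
      (fun y₃ _ =>
    Nat.rec (Bool.rec 0 (Nat.shiftRight H 16) (sq Y (Nat.shiftRight (Nat.land H 65535) 3)))
      (fun y₄ _ =>
    Nat.rec (Bool.rec 0 (Nat.shiftRight H 16)
      (look t (Nat.shiftRight (Nat.land H 65535) 3) f W X Y))
      (fun _ _ => r f W X Y (Nat.shiftRight H 16)) y₄) y₃) y₂) y₁) (Nat.land H 7)

/-- `4 X + c` if the new position is a multiple, `X` otherwise. -/
noncomputable def ext (z X c : ℕ) : ℕ := Nat.rec (Nat.add (Nat.mul 4 X) c) (fun _ _ => X) z

noncomputable def go (b : Bool) (p q L : ℕ) (t : TB) (n : ℕ) : ℕ → ℕ → ℕ → ℕ → ℕ → ℕ :=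
  Nat.rec (fun _ _ _ _ _ => 0) (fun _ r f W X Y H =>
    force W fun W => force X fun X => force Y fun Y =>
    force (Nat.mod (Nat.succ f) L) fun g =>
    force (Nat.mod f p) fun zp => force (Nat.mod f q) fun zq =>
    force (step b t r g (Nat.add (Nat.mul 4 W) 0) (ext zp X 0) (ext zq Y 0) H) fun H₁ =>
    force (step b t r g (Nat.add (Nat.mul 4 W) 1) (ext zp X 1) (ext zq Y 1) H₁) fun H₂ =>
    step b t r g (Nat.add (Nat.mul 4 W) 2) (ext zp X 2) (ext zq Y 2) H₂) n

noncomputable def fld (E s n : ℕ) : ℕ := Nat.mod (Nat.shiftRight E s) (Nat.shiftLeft 1 n)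

noncomputable def run (b : Bool) (p q L f₀ W₀ X₀ Y₀ : ℕ) (es : List ℕ) : TB → Bool :=
  List.rec (fun t => look t 0 f₀ W₀ X₀ Y₀) (fun E _ ih t =>
    forceB (fld E 0 8) fun f => forceB (fld E 8 12) fun a => forceB (fld E 20 12) fun a' =>
    forceB (fld E 32 12) fun a'' =>
    forceB (fld E 44 a) fun W => forceB (fld E (Nat.add 44 a) a') fun X =>
    forceB (fld E (Nat.add (Nat.add 44 a) a') a'') fun Y =>
    Nat.rec false (fun _ _ => ih (TB.cons f W X Y t))
      (go b p q L t 64 f W X Y (Nat.shiftRight E (Nat.add (Nat.add (Nat.add 44 a) a') a'')))) es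

section Sound

variable {b : Bool} {p q L : ℕ} {w : ℕ → Fin 3}

/-- The context cannot occur in the word `w`. -/
def Dead (p q L : ℕ) (w : ℕ → Fin 3) (f W X Y : ℕ) : Prop :=
  ∀ n, n % L = f → Rep w n W → Rep (fun i => w (p * i)) ((n + p - 1) / p) X →
    Rep (fun i => w (q * i)) ((n + q - 1) / q) Y → False

def AllDead (p q L : ℕ) (w : ℕ → Fin 3) : TB → Prop
  | TB.nil => True
  | TB.cons f W X Y tl => Dead p q L w f W X Y ∧ AllDead p q L w tl

lemma look_sound (t : TB) : AllDead p q L w t → ∀ j f W X Y, look t j f W X Y = true →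
    Dead p q L w f W X Y := by
  induction t with
  | nil => intro _ j f W X Y h; exact Bool.noConfusion h
  | cons f' W' X' Y' tl ih =>
    intro ht j f W X Y h
    rcases j with _ | j
    · have e : look (TB.cons f' W' X' Y' tl) 0 f W X Y =
          Bool.rec false (Bool.rec false (Bool.rec false (sub Y Y') (sub X X')) (sub W W'))
            (Nat.beq f f') := rfl
      rw [e] at h
      rcases h1 : Nat.beq f f' <;> rw [h1] at h
      · exact Bool.noConfusion h
      rcases h2 : sub W W' <;> rw [h2] at h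
      · exact Bool.noConfusion h
      rcases h3 : sub X X' <;> rw [h3] at h
      · exact Bool.noConfusion h
      intro n hn hW hX hY
      exact ht.1 n (hn.trans (Nat.eq_of_beq_eq_true h1)) (sub_sound hW h2) (sub_sound hX h3)
        (sub_sound hY h)
    · exact ih ht.2 j f W X Y h

lemma brec_ne {c : Bool} {x : ℕ} (h : (Bool.rec 0 x c : ℕ) ≠ 0) : c = true := by
  cases c
  · exact absurd rfl h
  · rfl

lemma step_zero (t : TB) (r : ℕ → ℕ → ℕ → ℕ → ℕ → ℕ) (f W X Y : ℕ) :
    step b t r f W X Y 0 = 0 := rfl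

lemma step_sound (hw : b = true → InfSqFree w) (hx : InfSqFree fun i => w (p * i))
    (hy : InfSqFree fun i => w (q * i)) (t : TB) (ht : AllDead p q L w t)
    (r : ℕ → ℕ → ℕ → ℕ → ℕ → ℕ)
    (hr : ∀ f W X Y H, r f W X Y H ≠ 0 → Dead p q L w f W X Y) (f W X Y H : ℕ)
    (h : step b t r f W X Y H ≠ 0) : Dead p q L w f W X Y := by
  unfold step at h
  generalize Nat.land H 7 = y at h
  rcases y with _ | _ | _ | _ | _ | y
  · exact absurd rfl h
  · cases b
    · exact absurd rfl h
    · exact fun n _ hW _ _ => sq_sound (hw rfl) hW (brec_ne h)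
  · exact fun n _ _ hX _ => sq_sound hx hX (brec_ne h)
  · exact fun n _ _ _ hY => sq_sound hy hY (brec_ne h)
  · exact look_sound t ht _ f W X Y (brec_ne h)
  · exact hr _ _ _ _ _ h

lemma ext_sound {m n X : ℕ} (hm : 0 < m) (h : Rep (fun i => w (m * i)) ((n + m - 1) / m) X) :
    Rep (fun i => w (m * i)) ((n + 1 + m - 1) / m) (ext (n % m) X (w n)) := by
  obtain ⟨k, r, hr, rfl⟩ : ∃ k r, r < m ∧ n = m * k + r :=
    ⟨n / m, n % m, Nat.mod_lt _ hm, (Nat.div_add_mod n m).symm⟩
  have e0 : (m * k + r) % m = r := by rw [Nat.mul_add_mod, Nat.mod_eq_of_lt hr]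
  have e1 : (m * k + r + 1 + m - 1) / m = k + 1 := by
    rw [Nat.div_eq_iff hm]
    constructor
    · rw [add_mul, mul_comm k m]
      omega
    · rw [add_mul, mul_comm k m]
      omega
  rw [e0, e1]
  rcases r with _ | r
  · have e2 : (m * k + 0 + m - 1) / m = k := by
      rw [Nat.div_eq_iff hm]
      constructor
      · rw [mul_comm k m]
        omega
      · rw [mul_comm k m]
        omega
    rw [e2] at h
    exact h.step
  · have e2 : (m * k + (r + 1) + m - 1) / m = k + 1 := by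
      rw [Nat.div_eq_iff hm]
      constructor
      · rw [add_mul, mul_comm k m]
        omega
      · rw [add_mul, mul_comm k m]
        omega
    rw [e2] at h
    exact h

lemma go_sound (hp : 0 < p) (hq : 0 < q) (hpL : p ∣ L) (hqL : q ∣ L)
    (hw : b = true → InfSqFree w) (hx : InfSqFree fun i => w (p * i))
    (hy : InfSqFree fun i => w (q * i)) (t : TB) (ht : AllDead p q L w t) (k : ℕ) :
    ∀ f W X Y H, go b p q L t k f W X Y H ≠ 0 → Dead p q L w f W X Y := by
  induction k with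
  | zero => intro f W X Y H h; exact absurd rfl h
  | succ k ih =>
    intro f W X Y H h
    have e : go b p q L t (k + 1) f W X Y H =
        force W fun W => force X fun X => force Y fun Y =>
        force (Nat.mod (Nat.succ f) L) fun g =>
        force (Nat.mod f p) fun zp => force (Nat.mod f q) fun zq =>
        force (step b t (go b p q L t k) g (Nat.add (Nat.mul 4 W) 0) (ext zp X 0) (ext zq Y 0) H)
          fun H₁ =>
        force (step b t (go b p q L t k) g (Nat.add (Nat.mul 4 W) 1) (ext zp X 1) (ext zq Y 1) H₁)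
          fun H₂ =>
        step b t (go b p q L t k) g (Nat.add (Nat.mul 4 W) 2) (ext zp X 2) (ext zq Y 2) H₂ := rfl
    rw [e] at h
    simp only [force_eq] at h
    have h2 : step b t (go b p q L t k) (Nat.mod (Nat.succ f) L) (Nat.add (Nat.mul 4 W) 1)
        (ext (Nat.mod f p) X 1) (ext (Nat.mod f q) Y 1)
        (step b t (go b p q L t k) (Nat.mod (Nat.succ f) L) (Nat.add (Nat.mul 4 W) 0)
          (ext (Nat.mod f p) X 0) (ext (Nat.mod f q) Y 0) H) ≠ 0 := by
      intro h0
      rw [h0] at h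
      exact h (step_zero _ _ _ _ _ _)
    have h1 : step b t (go b p q L t k) (Nat.mod (Nat.succ f) L) (Nat.add (Nat.mul 4 W) 0)
        (ext (Nat.mod f p) X 0) (ext (Nat.mod f q) Y 0) H ≠ 0 := by
      intro h0
      rw [h0] at h2
      exact h2 (step_zero _ _ _ _ _ _)
    have d0 := step_sound hw hx hy t ht _ ih _ _ _ _ _ h1
    have d1 := step_sound hw hx hy t ht _ ih _ _ _ _ _ h2
    have d2 := step_sound hw hx hy t ht _ ih _ _ _ _ _ h
    intro n hn hW hX hY
    have ep : Nat.mod f p = n % p := by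
      change f % p = _
      rw [← hn, Nat.mod_mod_of_dvd _ hpL]
    have eq : Nat.mod f q = n % q := by
      change f % q = _
      rw [← hn, Nat.mod_mod_of_dvd _ hqL]
    have eg : (n + 1) % L = Nat.mod (Nat.succ f) L := by
      change _ = (f + 1) % L
      rw [← hn, Nat.mod_add_mod]
    rw [ep, eq] at d0 d1 d2
    have a1 := hW.step
    have a2 := ext_sound hp hX
    have a3 := ext_sound hq hY
    have hc : (w n : ℕ) = 0 ∨ (w n : ℕ) = 1 ∨ (w n : ℕ) = 2 := by
      have := (w n).isLt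
      omega
    rcases hc with hc | hc | hc <;> rw [hc] at a1 a2 a3
    · exact d0 (n + 1) eg a1 a2 a3
    · exact d1 (n + 1) eg a1 a2 a3
    · exact d2 (n + 1) eg a1 a2 a3

lemma run_sound (hp : 0 < p) (hq : 0 < q) (hpL : p ∣ L) (hqL : q ∣ L)
    (hw : b = true → InfSqFree w) (hx : InfSqFree fun i => w (p * i))
    (hy : InfSqFree fun i => w (q * i)) (f₀ W₀ X₀ Y₀ : ℕ) (es : List ℕ) :
    ∀ t, AllDead p q L w t → run b p q L f₀ W₀ X₀ Y₀ es t = true →
      Dead p q L w f₀ W₀ X₀ Y₀ := by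
  induction es with
  | nil => intro t ht h; exact look_sound t ht 0 _ _ _ _ h
  | cons E es ih =>
    intro t ht h
    have e : run b p q L f₀ W₀ X₀ Y₀ (E :: es) t =
        forceB (fld E 0 8) fun f => forceB (fld E 8 12) fun a => forceB (fld E 20 12) fun a' =>
        forceB (fld E 32 12) fun a'' =>
        forceB (fld E 44 a) fun W => forceB (fld E (Nat.add 44 a) a') fun X =>
        forceB (fld E (Nat.add (Nat.add 44 a) a') a'') fun Y =>
        Nat.rec false (fun _ _ => run b p q L f₀ W₀ X₀ Y₀ es (TB.cons f W X Y t))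
          (go b p q L t 64 f W X Y
            (Nat.shiftRight E (Nat.add (Nat.add (Nat.add 44 a) a') a''))) := rfl
    rw [e] at h
    simp only [forceB_eq] at h
    generalize hg : go b p q L t 64 _ _ _ _ _ = g at h
    rcases g with _ | g
    · exact Bool.noConfusion h
    · exact ih (TB.cons _ _ _ _ t)
        (And.intro (go_sound hp hq hpL hqL hw hx hy t ht 64 _ _ _ _ _ (by rw [hg]; omega)) ht) h

end Sound

lemma sqfree_comp {u : ℕ → Fin 3} (σ : Fin 3 → Fin 3) (hσ : Function.Injective σ)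
    (h : InfSqFree u) : InfSqFree fun i => σ (u i) := by
  intro i n hn
  obtain ⟨j, hj, hne⟩ := h i n hn
  exact ⟨j, hj, fun e => hne (hσ e)⟩

lemma exists_perm (a c : Fin 3) (h : a ≠ c) :
    ∃ σ : Fin 3 → Fin 3, Function.Injective σ ∧ σ a = 0 ∧ σ c = 1 := by
  revert a c
  decide

/-- Main soundness statement; `X₀` is `1` (nothing known) or `4` (the first letter is `0`). -/
theorem no_good (p q L X₀ : ℕ) (es : List ℕ) (hp : 0 < p) (hq : 2 ≤ q) (hpL : p ∣ L)
    (hqL : q ∣ L) (hX : X₀ = 1 ∨ (X₀ = 4 ∧ 2 ≤ p))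
    (h : run true p q L (2 % L) 17 X₀ 4 es TB.nil = true) : ¬ ∃ w, InfGood p q w := by
  rintro ⟨w, h1, h2, h3⟩
  obtain ⟨j, hj, hne⟩ := h1 0 1 one_pos
  have hj0 : j = 0 := by omega
  subst hj0
  obtain ⟨σ, hσ, s0, s1⟩ := exists_perm (w 0) (w 1) (by simpa using hne)
  have key : ∀ m, 2 ≤ m → Rep (fun i => σ (w (m * i))) ((2 + m - 1) / m) 4 := by
    intro m hm
    have e : (2 + m - 1) / m = 1 := by
      rw [Nat.div_eq_iff (by omega)]
      omega
    rw [e]
    exact ⟨1, le_rfl, by simp [enc, s0]⟩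
  refine run_sound (w := fun i => σ (w i)) (b := true) hp (by omega) hpL hqL
    (fun _ => sqfree_comp σ hσ h1) (sqfree_comp σ hσ h2) (sqfree_comp σ hσ h3) _ _ _ _ es TB.nil
    trivial h 2 rfl ⟨2, le_rfl, by simp [enc, s0, s1]⟩ ?_ (key q hq)
  rcases hX with rfl | ⟨rfl, hp2⟩
  · exact ⟨0, Nat.zero_le _, rfl⟩
  · exact key p hp2

theorem no_pair (p q L : ℕ) (es : List ℕ) (hp : 0 < p) (hq : 0 < q) (hpL : p ∣ L)
    (hqL : q ∣ L) (h : run false p q L 0 1 1 1 es TB.nil = true) (w : ℕ → Fin 3)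
    (hx : InfSqFree fun i => w (p * i)) (hy : InfSqFree fun i => w (q * i)) : False :=
  run_sound (b := false) hp hq hpL hqL (fun e => Bool.noConfusion e) hx hy _ _ _ _ es TB.nil
    trivial h 0 (Nat.zero_mod L) ⟨0, le_rfl, rfl⟩ ⟨0, Nat.zero_le _, rfl⟩ ⟨0, Nat.zero_le _, rfl⟩

end FinChk

end Pool.Agent.Lib.MP_42179e_co
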