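import Pool.Agent.Lib.MP_42179e_co.FinA
import Pool.Agent.Lib.MP_42179e_co.FinB
import Pool.Agent.Lib.MP_42179e_co.FinC
import Pool.Agent.Lib.MP_42179e_co.FinD
import Pool.Agent.Lib.MP_42179e_co.FinE

/-!
The pairs `(p,q)` without an infinite good word.
-/

set_option autoImplicit false

namespace Pool.Agent.Lib.MP_42179e_co

open FinChk

theorem fin_list : ∀ pq ∈ ([(1,2),(3,4),(3,5),(3,7),(3,8),(3,10),(4,5),(4,7),(4,9),(4,10),(4,14),
    (6,7)] : List (ℕ × ℕ)), ¬ ∃ w, InfGood pq.1 pq.2 w := by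
  intro pq h
  simp only [List.mem_cons, List.not_mem_nil, or_false] at h
  rcases h with rfl | rfl | rfl | rfl | rfl | rfl | rfl | rfl | rfl | rfl | rfl | rfl
  exacts [no_1_2, no_3_4, no_3_5, no_3_7, no_3_8, no_3_10, no_4_5, no_4_7, no_4_9, no_4_10,
    no_4_14, no_6_7]

theorem fin_two (q : ℕ) : ¬ ∃ w, InfGood 2 q w := by
  rintro ⟨w, h1, h2, -⟩
  exact no_1_2 ⟨w, h1, by simpa using h1, h2⟩

theorem fin_t2t (t : ℕ) (_ht : 0 < t) : ¬ ∃ w, InfGood t (2 * t) w := by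
  rintro ⟨w, -, h2, h3⟩
  refine no_1_2 ⟨fun i => w (t * i), h2, by simpa using h2, ?_⟩
  have e : (fun i => w (t * (2 * i))) = fun i => w (2 * t * i) := by
    funext i
    congr 1
    ring
  change InfSqFree fun i => w (t * (2 * i))
  rw [e]
  exact h3

theorem fin_2t3t (t : ℕ) (_ht : 0 < t) : ¬ ∃ w, InfGood (2 * t) (3 * t) w := by
  rintro ⟨w, -, h2, h3⟩
  have e : ∀ a, (fun i => w (t * (a * i))) = fun i => w (a * t * i) := by
    intro a
    funext i
    congr 1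
    ring
  refine no_pair 2 3 6 es_2_3 (by norm_num) (by norm_num) (by norm_num) (by norm_num) run_2_3
    (fun i => w (t * i)) ?_ ?_
  · rw [e]
    exact h2
  · rw [e]
    exact h3

end Pool.Agent.Lib.MP_42179e_co
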