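import Pool.Agent.Lib.MP_42179e_co.Frame

/-!
Applications of frames: filling with one extra event per period, arbitrary prescribed letters,
two forbidden letters per period, and the two-level construction for small moduli.
-/

namespace Pool.Agent.Lib.MP_42179e_co

noncomputable section

def Compat (p q : ℕ) (x y : ℤ → Lt) : Prop :=
  (∀ k l : ℤ, p * k = q * l → x k = y l) ∧
    ∀ k l : ℤ, p * k + 1 = q * l ∨ p * k = q * l + 1 → x k ≠ y l

def Fill (p q : ℕ) : Prop :=
  ∀ x, SF x → ∀ y, Compat p q x y → ∃ w, SF w ∧ (∀ k, w (p * k) = x k) ∧ ∀ l, w (q * l) = y l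

def E1 (p : ℕ) : Prop := ∀ z : ℤ → Lt, ∃ w, SF w ∧ ∀ k, w (p * k) = z k

def Triple (q : ℕ) : Prop :=
  ∀ k1 : ℕ, 1 ≤ k1 → 2 * k1 ≤ q → ∀ z, SF z → ∀ c1 c2 : ℤ → Lt,
    ∃ x, SF x ∧ ∀ n, x (q * n) = z n ∧ x (q * n + k1) ≠ c1 n ∧ x (q * n - k1) ≠ c2 n

def Two (p q : ℕ) : Prop :=
  ∀ y : ℤ → Lt, ∃ w, SF w ∧ SF (fun k => w (p * k)) ∧ ∀ l, w (q * l) = y l

def tb3 (tab : List (List Wd)) (b a : Lt) : List Wd := tab.getD (3 * b.val + a.val) []

def tbN (tab : List (List Wd)) (b a : Nat) : List Wd := tab.getD (Nat.add (Nat.mul 3 b) a) []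

theorem val_lt (b : Lt) : b.val < 3 := ZMod.val_lt b
theorem cast_val (b : Lt) : ((b.val : ℕ) : Lt) = b := ZMod.natCast_zmod_val b
theorem val_cast {b : ℕ} (h : b < 3) : ((b : Lt)).val = b := ZMod.val_cast_of_lt h

theorem getN_eq {e : Wd} {d : Nat} {c : Lt} (h : Nat.beq (e.getN d) c.val = true) : e.get d = c := by
  rw [← Wd.getN_cast, Nat.eq_of_beq_eq_true h, cast_val]

theorem getN_lt (e : Wd) (d : Nat) : e.getN d < 3 := by
  unfold Wd.getN
  cases tb e.a d <;> cases tb e.b d <;> simp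

theorem getN_ne {e : Wd} {d : Nat} {c : Lt} (h : Nat.beq (e.getN d) c.val = false) :
    e.get d ≠ c := by
  intro hc
  rw [← hc, ← Wd.getN_cast, val_cast (getN_lt e d), Nat.beq_refl] at h
  exact absurd h (by simp)

structure FC where
  F : Fr
  L : Nat
  j : Nat
  la : Nat
  jL : Nat
  jR : Nat
  tab : List (List Wd)

def FC.chk (C : FC) : Bool :=
  C.F.chkT C.la C.jL C.jR C.L C.tab && Nat.blt C.j C.L &&
  allB (fun b => allB (fun a => anyL (fun _ => true) (tbN C.tab b a) &&
    allL (fun e => Nat.beq (e.getN C.j) 0) (tbN C.tab b a)) 3) 3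

structure FC.OK (C : FC) (T : ℤ → Lt) : Prop where
  F : C.F.OK
  hT : SF T
  j : C.j < C.L
  ne : ∀ b a, ∃ e, e ∈ tb3 C.tab b a
  tile : ∀ b a, ∀ e ∈ tb3 C.tab b a, C.F.TileOK T C.L b a e ∧ e.get C.j = 0

theorem FC.ok_of {C : FC} (hF : C.F.OK) (h : C.chk = true) {T : ℤ → Lt} (hT : C.F.TP T) :
    C.OK T := by
  unfold FC.chk at h
  simp only [Bool.and_eq_true] at h
  obtain ⟨⟨h1, h2⟩, h3⟩ := h
  have key : ∀ b a : Lt, _ := fun b a =>
    allB_spec (allB_spec h3 b.val (val_lt b)) a.val (val_lt a)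
  simp only [Bool.and_eq_true] at key
  refine ⟨hF, hT.1, Nat.blt_eq.mp h2, fun b a => ?_, fun b a e he => ⟨?_, ?_⟩⟩
  · obtain ⟨e, he, _⟩ := anyL_spec (key b a).1
    exact ⟨e, he⟩
  · have := Fr.chkT_spec hF h1 hT (val_lt b) (val_lt a) he
    rwa [cast_val, cast_val] at this
  · exact getN_eq (c := 0) (allL_spec (key b a).2 e he)

/-- uniform frames with prescribed rotations and tiles -/
theorem FC.OK.build {C : FC} {T : ℤ → Lt} (h : C.OK T) {k : ℤ} (hk : 1 ≤ k) {p : ℕ}
    (hp : (p : ℤ) = C.F.H.M * k + C.F.be - C.F.al + C.L) (ρ z : ℤ → Lt) (e : ℤ → Wd)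
    (he : ∀ n, e n ∈ tb3 C.tab (ρ n + T k - z n) (ρ (n + 1) - z n)) :
    ∃ w, C.F.Sys T k w (fun n => p * (n - 1) - C.j + C.L) (fun n => p * n - C.j) ρ ∧
      (∀ n, w (p * n) = z n) ∧
      ∀ n (d : ℕ), d < C.L → w (p * n - C.j + d) = (e n).get d + z n := by
  have hl := h.F.len
  have c : (C.F.H.M : ℤ) * 1 ≤ C.F.H.M * k := mul_le_mul_of_nonneg_left hk (by positivity)
  have hj := h.j
  obtain ⟨w, w1, w2⟩ := C.F.build T (fun n => p * (n - 1) - C.j + C.L) (fun n => p * n - C.j) ρ z e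
    (fun n => by simp only [mul_sub]; omega) (fun n => by simp only [add_sub_cancel_right]; omega)
  have w3 : ∀ n (d : ℕ), d < C.L → w (p * n - C.j + d) = (e n).get d + z n := fun n d hd =>
    w2 n d (by omega) (by simp only [add_sub_cancel_right]; omega)
  refine ⟨w, ⟨hk, w1, fun n => by simp only [mul_sub]; omega, fun n => ?_⟩, fun n => ?_, w3⟩
  · refine ⟨C.L, _, _, z n, e n, (h.tile _ _ _ (he n)).1, by simp, by ring, by ring,
      fun j a b => w2 n j a (by simp only [add_sub_cancel_right]; omega)⟩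
  · have := w3 n C.j hj
    rw [sub_add_cancel, (h.tile _ _ _ (he n)).2, zero_add] at this
    exact this

theorem FC.OK.e1 {C : FC} {T : ℤ → Lt} (h : C.OK T) {k : ℤ} (hk : 1 ≤ k) {p : ℕ}
    (hp : (p : ℤ) = C.F.H.M * k + C.F.be - C.F.al + C.L) : E1 p := by
  intro z
  choose e he using fun n => h.ne (T n + T k - z n) (T (n + 1) - z n)
  obtain ⟨w, w1, w2, _⟩ := h.build hk hp T z e he
  exact ⟨w, w1.sf h.F h.hT h.hT, w2⟩

def FC.chkA (C : FC) (mid : Nat) : Bool :=
  Nat.ble mid C.L && allB (fun d => allB (fun c =>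
    cond (Nat.blt d mid)
      (anyB (fun b => allB (fun a => anyL (fun e => Nat.beq (e.getN d) c) (tbN C.tab b a)) 3) 3)
      (anyB (fun a => allB (fun b => anyL (fun e => Nat.beq (e.getN d) c) (tbN C.tab b a)) 3) 3) ||
    (Nat.beq d C.j && !(Nat.beq c 0)) ||
    ((Nat.beq (Nat.succ d) C.j || Nat.beq d (Nat.succ C.j)) && Nat.beq c 0)) 3) C.L

theorem uniq_mul {q : ℕ} {p a l l' : ℤ} (hq : p ≤ q) (h1 : a ≤ q * l) (h2 : q * l < a + p)
    (h3 : a ≤ q * l') (h4 : q * l' < a + p) : l = l' := by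
  rcases lt_trichotomy l l' with h | h | h
  · have : (q : ℤ) * (l + 1) ≤ q * l' := mul_le_mul_of_nonneg_left h (by positivity)
    rw [mul_add] at this; omega
  · exact h
  · have : (q : ℤ) * (l' + 1) ≤ q * l := mul_le_mul_of_nonneg_left h (by positivity)
    rw [mul_add] at this; omega

theorem FC.OK.fill {C : FC} {T : ℤ → Lt} (h : C.OK T) {mid : Nat} (hA : C.chkA mid = true)
    {k : ℤ} (hk : 1 ≤ k) {p : ℕ} (hp : (p : ℤ) = C.F.H.M * k + C.F.be - C.F.al + C.L)
    {q : ℕ} (hq : p ≤ q) : Fill p q := by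
  intro x hx y hc
  unfold FC.chkA at hA
  simp only [Bool.and_eq_true, Nat.ble_eq] at hA
  obtain ⟨hmid, hA⟩ := hA
  have hl := h.F.len
  have c0 : (C.F.H.M : ℤ) * 1 ≤ C.F.H.M * k := mul_le_mul_of_nonneg_left hk (by positivity)
  have hj := h.j
  have hq' : (p : ℤ) ≤ q := by exact_mod_cast hq
  have cov : ∀ (n l : ℤ) (d : ℕ), d < C.L → q * l = p * n - C.j + d →
      (d < mid → ∃ b, ∀ a, ∃ e ∈ tb3 C.tab b a, e.get d = y l - x n) ∧
      (mid ≤ d → ∃ a, ∀ b, ∃ e ∈ tb3 C.tab b a, e.get d = y l - x n) := by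
    intro n l d hd hl
    have a := allB_spec (allB_spec hA d hd) (y l - x n).val (val_lt _)
    simp only [Bool.or_eq_true, Bool.and_eq_true, Nat.beq_eq, Bool.not_eq_true'] at a
    rcases a with (a | ⟨a, b⟩) | ⟨a, b⟩
    · constructor
      · intro hm
        rw [Nat.blt_eq.mpr hm, cond_true] at a
        obtain ⟨b, b1, b2⟩ := anyB_spec a
        refine ⟨b, fun a => ?_⟩
        obtain ⟨e, e1, e2⟩ := anyL_spec (allB_spec b2 a.val (val_lt a))
        exact ⟨e, by rw [tb3, val_cast b1]; exact e1, getN_eq e2⟩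
      · intro hm
        have : Nat.blt d mid = false := by
          cases hb : Nat.blt d mid
          · rfl
          · have := Nat.blt_eq.mp hb; omega
        rw [this, cond_false] at a
        obtain ⟨b, b1, b2⟩ := anyB_spec a
        refine ⟨b, fun a => ?_⟩
        obtain ⟨e, e1, e2⟩ := anyL_spec (allB_spec b2 a.val (val_lt a))
        exact ⟨e, by rw [tb3, val_cast b1]; exact e1, getN_eq e2⟩
    · exfalso
      have := hc.1 n l (by omega)
      rw [this, sub_self] at b
      exact absurd b (by decide)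
    · exfalso
      have e : y l - x n = 0 := by rw [← cast_val (y l - x n), b]; rfl
      exact hc.2 n l (by omega) (sub_eq_zero.mp e).symm
  have exρ : ∀ n : ℤ, ∃ r : Lt, ∀ l : ℤ,
      (∀ d : ℕ, mid ≤ d → d < C.L → q * l = p * (n - 1) - C.j + d →
        ∀ b, ∃ e ∈ tb3 C.tab b (r - x (n - 1)), e.get d = y l - x (n - 1)) ∧
      (p * (n - 1) - C.j + C.L ≤ q * l → q * l < p * n - C.j →
        C.F.H.app T (q * l - (p * (n - 1) - C.j + C.L) + C.F.al) + r = y l) ∧
      (∀ d : ℕ, d < mid → q * l = p * n - C.j + d →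
        ∀ a, ∃ e ∈ tb3 C.tab (r + T k - x n) a, e.get d = y l - x n) := by
    intro n
    have pn : (p : ℤ) * (n - 1) = p * n - p := by ring
    by_cases ex : ∃ l0 : ℤ, p * (n - 1) - C.j + mid ≤ q * l0 ∧ q * l0 < p * (n - 1) - C.j + mid + p
    · obtain ⟨l0, a1, a2⟩ := ex
      have un : ∀ l : ℤ, p * (n - 1) - C.j + mid ≤ q * l → q * l < p * (n - 1) - C.j + mid + p →
          l = l0 := fun l b1 b2 => uniq_mul hq' b1 b2 a1 a2
      by_cases c1 : q * l0 < p * (n - 1) - C.j + C.L
      · obtain ⟨d0, hd0⟩ := Int.eq_ofNat_of_zero_le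
          (show 0 ≤ q * l0 - (p * (n - 1) - C.j) by omega)
        obtain ⟨a, ha⟩ := (cov (n - 1) l0 d0 (by omega) (by omega)).2 (by omega)
        refine ⟨a + x (n - 1), fun l => ⟨fun d d1 d2 d3 => ?_, fun d1 d2 => ?_, fun d d1 d2 => ?_⟩⟩
        · have := un l (by omega) (by omega)
          subst this
          have : d = d0 := by omega
          subst this
          rw [add_sub_cancel_right]; exact ha
        · have := un l (by omega) (by omega)
          subst this; omega
        · have := un l (by omega) (by omega)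
          subst this; omega
      by_cases c2 : q * l0 < p * n - C.j
      · refine ⟨y l0 - C.F.H.app T (q * l0 - (p * (n - 1) - C.j + C.L) + C.F.al),
          fun l => ⟨fun d d1 d2 d3 => ?_, fun d1 d2 => ?_, fun d d1 d2 => ?_⟩⟩
        · have := un l (by omega) (by omega)
          subst this; omega
        · have := un l (by omega) (by omega)
          subst this; ring
        · have := un l (by omega) (by omega)
          subst this; omega
      · obtain ⟨d0, hd0⟩ := Int.eq_ofNat_of_zero_le (show 0 ≤ q * l0 - (p * n - C.j) by omega)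
        obtain ⟨b, hb⟩ := (cov n l0 d0 (by omega) (by omega)).1 (by omega)
        refine ⟨b + x n - T k, fun l => ⟨fun d d1 d2 d3 => ?_, fun d1 d2 => ?_, fun d d1 d2 => ?_⟩⟩
        · have := un l (by omega) (by omega)
          subst this; omega
        · have := un l (by omega) (by omega)
          subst this; omega
        · have := un l (by omega) (by omega)
          subst this
          have : d = d0 := by omega
          subst this
          have e : b + x n - T k + T k - x n = b := by ring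
          rw [e]; exact hb
    · refine ⟨0, fun l => ⟨fun d d1 d2 d3 => ?_, fun d1 d2 => ?_, fun d d1 d2 => ?_⟩⟩ <;>
        exact absurd ⟨l, by omega, by omega⟩ ex
  choose ρ hρ using exρ
  have exe : ∀ n : ℤ, ∃ e ∈ tb3 C.tab (ρ n + T k - x n) (ρ (n + 1) - x n),
      ∀ (l : ℤ) (d : ℕ), d < C.L → q * l = p * n - C.j + d → e.get d = y l - x n := by
    intro n
    by_cases ex : ∃ (l0 : ℤ) (d0 : ℕ), d0 < C.L ∧ q * l0 = p * n - C.j + d0
    · obtain ⟨l0, d0, a1, a2⟩ := ex
      have un : ∀ (l : ℤ) (d : ℕ), d < C.L → q * l = p * n - C.j + d → l = l0 ∧ d = d0 := by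
        intro l d b1 b2
        have := uniq_mul (a := p * n - C.j) (l := l) (l' := l0) hq' (by omega) (by omega)
          (by omega) (by omega)
        subst this
        exact ⟨rfl, by omega⟩
      have : ∃ e ∈ tb3 C.tab (ρ n + T k - x n) (ρ (n + 1) - x n), e.get d0 = y l0 - x n := by
        by_cases c : d0 < mid
        · exact (hρ n l0).2.2 d0 c a2 _
        · have := (hρ (n + 1) l0).1 d0 (by omega) a1 (by rw [add_sub_cancel_right]; exact a2)
          rw [add_sub_cancel_right] at this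
          exact this _
      obtain ⟨e, e1, e2⟩ := this
      refine ⟨e, e1, fun l d b1 b2 => ?_⟩
      obtain ⟨rfl, rfl⟩ := un l d b1 b2
      exact e2
    · obtain ⟨e, he⟩ := h.ne (ρ n + T k - x n) (ρ (n + 1) - x n)
      exact ⟨e, he, fun l d b1 b2 => absurd ⟨l, d, b1, b2⟩ ex⟩
  choose e he1 he2 using exe
  obtain ⟨w, w1, w2, w3⟩ := h.build hk hp ρ x e he1
  have p0 : 0 < p := by omega
  refine ⟨w, fun s d hd hs => ?_, w2, fun l => ?_⟩
  · refine not_sq_of_dvd p0 hd 0 ?_ (w1.dvd h.F h.hT (p := p) (c := -C.j) (fun n => by ring) hd hs) hs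
    simp only [add_zero, w2]; exact hx
  · obtain ⟨n, d, d1, d2⟩ := decomp p0 (q * l + C.j)
    by_cases c : d < C.L
    · have e1 : (q : ℤ) * l = p * n - C.j + d := by omega
      rw [e1, w3 n d c, he2 n l d c e1]; ring
    · have pn : (p : ℤ) * (n + 1) = p * n + p := by ring
      have := (hρ (n + 1) l).2.1 (by rw [add_sub_cancel_right]; omega) (by omega)
      rw [← this]
      exact w1.core (n + 1) _ (by simp only [add_sub_cancel_right]; omega) (by omega)

def dg (x k c : Nat) : Nat :=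
  Nat.mod (Nat.shiftRight x (Nat.mul 2 (Nat.add (Nat.mul 3 k) c))) 4

def FC.chkB (C : FC) (fr fl : Nat) : Bool :=
  Nat.blt (Nat.add (Nat.mul 2 C.j) C.F.al) (Nat.add (Nat.add C.F.H.M C.F.be) C.L) &&
  Nat.ble (Nat.add C.L C.F.al) (Nat.add (Nat.add C.F.H.M C.F.be) (Nat.mul 2 C.j)) &&
  allB (fun k => allB (fun c1 => allB (fun c2 => allB (fun b => allB (fun a =>
    (Nat.blt (Nat.add C.j (Nat.succ k)) C.L && Nat.beq a (dg fr (Nat.succ k) c1)) ||
    (Nat.ble (Nat.succ k) C.j && Nat.beq b (dg fl (Nat.succ k) c2)) ||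
    anyL (fun e =>
      (Nat.ble C.L (Nat.add C.j (Nat.succ k)) || !(Nat.beq (e.getN (Nat.add C.j (Nat.succ k))) c1)) &&
      (Nat.blt C.j (Nat.succ k) || !(Nat.beq (e.getN (Nat.sub C.j (Nat.succ k))) c2)))
      (tbN C.tab b a)) 3) 3) 3) 3) C.L

theorem avoid2 (a b : Lt) : ∃ r, r ≠ a ∧ r ≠ b := by revert a b; decide

theorem FC.OK.triple {C : FC} {T : ℤ → Lt} (h : C.OK T) {fr fl : Nat} (hB : C.chkB fr fl = true)
    {k : ℤ} (hk : 1 ≤ k) {q : ℕ} (hq : (q : ℤ) = C.F.H.M * k + C.F.be - C.F.al + C.L) :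
    Triple q := by
  intro k1 k11 k12 z hz c1 c2
  unfold FC.chkB at hB
  simp only [Bool.and_eq_true, Nat.ble_eq, Nat.blt_eq] at hB
  obtain ⟨⟨b1, b2⟩, hB⟩ := hB
  have b1' : 2 * C.j + C.F.al < C.F.H.M + C.F.be + C.L := b1
  have b2' : C.L + C.F.al ≤ C.F.H.M + C.F.be + 2 * C.j := b2
  have hl := h.F.len
  have c0 : (C.F.H.M : ℤ) * 1 ≤ C.F.H.M * k := mul_le_mul_of_nonneg_left hk (by positivity)
  have hj := h.j
  choose ρ hρ1 hρ2 using fun n : ℤ => avoid2
    (if C.j + k1 < C.L then (dg fr k1 (c1 (n - 1) - z (n - 1)).val : Lt) + z (n - 1)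
      else c1 (n - 1) - C.F.H.app T (q * (n - 1) + k1 - (q * (n - 1) - C.j + C.L) + C.F.al))
    (if k1 ≤ C.j then (dg fl k1 (c2 n - z n).val : Lt) + z n - T k
      else c2 n - C.F.H.app T (q * n - k1 - (q * (n - 1) - C.j + C.L) + C.F.al))
  have exe : ∀ n : ℤ, ∃ e ∈ tb3 C.tab (ρ n + T k - z n) (ρ (n + 1) - z n),
      (C.j + k1 < C.L → e.get (C.j + k1) ≠ c1 n - z n) ∧
      (k1 ≤ C.j → e.get (C.j - k1) ≠ c2 n - z n) := by
    intro n
    by_cases c : k1 ≤ C.L
    · obtain ⟨k0, rfl⟩ : ∃ k0, k1 = k0 + 1 := ⟨k1 - 1, by omega⟩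
      have a := allB_spec (allB_spec (allB_spec (allB_spec (allB_spec hB k0 (by omega))
        (c1 n - z n).val (val_lt _)) (c2 n - z n).val (val_lt _)) (ρ n + T k - z n).val (val_lt _))
        (ρ (n + 1) - z n).val (val_lt _)
      simp only [Bool.or_eq_true, Bool.and_eq_true, Nat.beq_eq, Nat.ble_eq, Nat.blt_eq] at a
      rcases a with (⟨a1, a2⟩ | ⟨a1, a2⟩) | a
      · exfalso
        have t := hρ1 (n + 1)
        rw [if_pos (show C.j + (k0 + 1) < C.L from a1), add_sub_cancel_right, ← a2, cast_val] at t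
        exact t (by ring)
      · exfalso
        have t := hρ2 n
        rw [if_pos (show k0 + 1 ≤ C.j from a1), ← a2, cast_val] at t
        exact t (by ring)
      · obtain ⟨e, e1, e2⟩ := anyL_spec a
        simp only [Bool.or_eq_true, Bool.and_eq_true, Nat.ble_eq, Nat.blt_eq,
          Bool.not_eq_true'] at e2
        refine ⟨e, e1, fun t => ?_, fun t => ?_⟩
        · rcases e2.1 with u | u
          · have : C.L ≤ C.j + (k0 + 1) := u
            omega
          · exact getN_ne u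
        · rcases e2.2 with u | u
          · have : C.j < k0 + 1 := u
            omega
          · exact getN_ne u
    · obtain ⟨e, he⟩ := h.ne (ρ n + T k - z n) (ρ (n + 1) - z n)
      exact ⟨e, he, fun t => by omega, fun t => by omega⟩
  choose e he1 he2 he3 using exe
  obtain ⟨w, w1, w2, w3⟩ := h.build hk hq ρ z e he1
  have p0 : 0 < q := by omega
  refine ⟨w, fun s d hd hs => ?_, fun n => ⟨w2 n, ?_, ?_⟩⟩
  · refine not_sq_of_dvd p0 hd 0 ?_ (w1.dvd h.F h.hT (p := q) (c := -C.j) (fun n => by ring) hd hs) hs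
    simp only [add_zero, w2]; exact hz
  · by_cases c : C.j + k1 < C.L
    · have e1 : (q : ℤ) * n + k1 = q * n - C.j + (C.j + k1 : ℕ) := by push_cast; ring
      rw [e1, w3 n _ c]
      exact fun t => he2 n c (eq_sub_of_add_eq t)
    · have pn : (q : ℤ) * (n + 1) = q * n + q := by ring
      have t := hρ1 (n + 1)
      rw [if_neg c, add_sub_cancel_right] at t
      rw [w1.core (n + 1) _ (by simp only [add_sub_cancel_right]; omega) (by omega)]
      simp only [add_sub_cancel_right]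
      exact fun u => t (by rw [← u]; ring)
  · by_cases c : k1 ≤ C.j
    · have e1 : (q : ℤ) * n - k1 = q * n - C.j + (C.j - k1 : ℕ) := by omega
      rw [e1, w3 n _ (by omega)]
      exact fun t => he3 n c (eq_sub_of_add_eq t)
    · have pn : (q : ℤ) * (n - 1) = q * n - q := by ring
      have t := hρ2 n
      rw [if_neg c] at t
      rw [w1.core n _ (by omega) (by omega)]
      exact fun u => t (by rw [← u]; ring)

end

end Pool.Agent.Lib.MP_42179e_co
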