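import Pool.Agent.Lib.MP_42179e_co.Ctx

/-!
Frames: words made of rotated factors of a fixed square-free word (cores) and short tiles.
-/

namespace Pool.Agent.Lib.MP_42179e_co

noncomputable section

def OccRev (m c : Nat) (g : Blk) (O : Nat) : Prop :=
  ∀ s : Nat, s + m < g.len → (∀ i, s ≤ i → i ≤ s + m → g.x.testBit i = false) →
    O.testBit s = true → Mark g.wd.fn s m c

theorem occ_rev {D1 D2 full c m s : Nat} (h : (occ D1 D2 full c m).testBit s = true) :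
    ∀ i, i < m → (cond (c.testBit i) D1 D2).testBit (s + i) = true := by
  induction m with
  | zero => intro i hi; omega
  | succ m ih =>
    have h' : (Nat.land (occ D1 D2 full c m) (Nat.shiftRight (cond (tb c m) D1 D2) m)).testBit s
      = true := h
    rw [land_bit, shr_bit, tb_eq, Bool.and_eq_true, add_comm] at h'
    intro i hi
    rcases Nat.lt_succ_iff_lt_or_eq.mp hi with e | e
    · exact ih h'.1 i e
    · rw [e]; exact h'.2

def chkOccEq (g : Blk) (m c O : Nat) : Bool := Nat.beq (occ g.d1 g.d2 (ones g.len) c m) O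

theorem chkOccEq_spec {g : Blk} {m c O : Nat} (hd : Nat.land g.a g.b = 0)
    (h : chkOccEq g m c O = true) : OccOK m c g O ∧ OccRev m c g O := by
  have e := Nat.eq_of_beq_eq_true h
  constructor
  · apply chkOcc_spec hd
    unfold chkOcc
    rw [e]
    have : Nat.lor O O = O := Nat.or_self O
    rw [this]; exact Nat.beq_refl O
  · intro s h1 h2 h3 i hi
    rw [← e] at h3
    have e1 : (s : ℤ) + i + 1 = ((s + i + 1 : ℕ) : ℤ) := by push_cast; ring
    have e2 : (s : ℤ) + i = ((s + i : ℕ) : ℤ) := by push_cast; ring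
    rw [e1, e2, Wd.fn_nat, Wd.fn_nat,
      d_of hd (by omega) (h2 _ (by omega) (by omega)) (h2 _ (by omega) (by omega))]
    exact occ_rev h3 i hi

theorem OccRev.lane {m c O off n o1 o2 s : Nat} {g : Blk} {w : Wd} (h : OccRev m c g O)
    (hs : SubAt (Blk.one w n o1 o2) g off) (h1 : s + m < n) (h2 : O.testBit (off + s) = true) :
    Mark w.fn s m c := by
  have hl : off + (n + 1) ≤ g.len := hs.1
  have := h (off + s) (by omega) (fun i a b => by
    obtain ⟨j, rfl⟩ := Nat.exists_eq_add_of_le (show off ≤ i by omega)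
    rw [(hs.2 j (by show j < n + 1; omega)).2.2.1]; exact one_x w (by omega)) h2
  refine this.congr (g := 0) (fun i a b => ?_)
  push_cast at a b
  rw [add_zero, one_fn w (n := n) (o1 := o1) (o2 := o2) _ (by push_cast; omega)
    (by push_cast; omega), hs.fn _ (by push_cast; omega) (by show _ < ((n + 1 : ℕ) : ℤ); omega)]
  congr 1; push_cast; ring

structure Fr where
  H : Mor
  sh : Nat
  al : Nat
  be : Nat
  mS : Nat
  mP : Nat
  cS : Nat
  cP : Nat
  nt : Nat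
  tc : Nat
  nb : Nat

def Fr.lang (F : Fr) : Blk :=
  blkL (fun c => Blk.one (F.H.blocks F.nb c 0) (Nat.mul F.nb F.H.M) 0 0) (sfl F.nb)

def Fr.chk (F : Fr) : Bool :=
  Nat.ble F.sh F.H.M && F.H.h2.eqB F.H.h1 F.sh && Nat.ble F.be F.sh &&
  Nat.ble 1 F.mS && Nat.ble 1 F.mP &&
  Nat.ble (Nat.add (Nat.add F.mS F.mP) F.al) (Nat.add F.H.M F.be) &&
  Nat.ble (Nat.add F.H.M F.mS) (Nat.mul F.nb F.H.M) &&
  Nat.ble (Nat.add F.H.M F.mP) (Nat.mul F.nb F.H.M) && Nat.ble F.nb 16 &&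
  Nat.beq (Nat.land F.lang.a F.lang.b) 0 && chkOcc F.lang F.mS F.cS 0 && chkOcc F.lang F.mP F.cP 0

structure Fr.OK (F : Fr) : Prop where
  good : F.H.Good
  sh : F.H.Sh F.sh
  be : F.be ≤ F.sh
  mS : 1 ≤ F.mS
  mP : 1 ≤ F.mP
  len : F.mS + F.mP + F.al ≤ F.H.M + F.be
  noS : ∀ T, SF T → ∀ s, ¬ Mark (F.H.app T) s F.mS F.cS
  noP : ∀ T, SF T → ∀ s, ¬ Mark (F.H.app T) s F.mP F.cP

theorem Fr.ok_of {F : Fr} (hg : F.H.Good) (h : F.chk = true) : F.OK := by
  unfold Fr.chk at h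
  simp only [Bool.and_eq_true, Nat.ble_eq] at h
  obtain ⟨⟨⟨⟨⟨⟨⟨⟨⟨⟨⟨h1, h2⟩, h3⟩, h4⟩, h5⟩, h6⟩, h7⟩, h8⟩, h9⟩, h10⟩, h11⟩, h12⟩ := h
  have hs : F.H.Sh F.sh := ⟨h1, Wd.eqB_spec h2⟩
  have hd := Nat.eq_of_beq_eq_true h10
  have key : ∀ m c, F.H.M + m ≤ F.nb * F.H.M → chkOcc F.lang m c 0 = true →
      ∀ T, SF T → ∀ s, ¬ Mark (F.H.app T) s m c := by
    intro m c hm hc T hT s hs'
    obtain ⟨i, j, hj, rfl⟩ := decomp hg.pos s
    obtain ⟨c', c1, c2⟩ := sfl_spec hT i F.nb h9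
    obtain ⟨off, ho⟩ := sub_blkL
      (fun c => Blk.one (F.H.blocks F.nb c 0) (Nat.mul F.nb F.H.M) 0 0) c1
    have e : Nat.mul F.nb F.H.M = F.nb * F.H.M := rfl
    have := (chkOcc_spec hd hc).subAt ho j (by show _ < Nat.mul F.nb F.H.M + 1; omega)
      (fun u a b => one_x _ (by omega)) (mark_one (by omega) (by
        refine hs'.congr (g := T i) (fun u a b => ?_)
        obtain ⟨y, hy⟩ := Int.eq_ofNat_of_zero_le (show 0 ≤ u - (F.H.M * i + j) + j by omega)
        rw [hy, Wd.fn_nat, Mor.blocks_get hs T (- T i) _ c' 0 i (by norm_num) c2 (by simp) y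
          (by omega)]
        have : F.H.M * i + y = u := by omega
        rw [this]; ring))
    simp at this
  exact ⟨hg, hs, h3, h4, h5, h6, key _ _ h7 h11, key _ _ h8 h12⟩

def Fr.TP (F : Fr) (T : ℤ → Lt) : Prop := SF T ∧ T 0 = 0 ∧ Mark T 0 F.nt F.tc

def Fr.V (F : Fr) (T : ℤ → Lt) (k : ℤ) (L : Nat) (b a : Lt) (e : Wd) (i : ℤ) : Lt :=
  if i < 0 then F.H.app T (F.H.M * k + F.be + i) - T k + b
  else if i < L then e.fn i else F.H.app T (F.al + i - L) + a

def Fr.TileOK (F : Fr) (T : ℤ → Lt) (L : Nat) (b a : Lt) (e : Wd) : Prop :=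
  ∃ la : Nat, L + F.mS + 2 * F.mP ≤ la ∧ L + 2 * F.mS + F.mP ≤ la ∧ 2 ≤ L ∧ ∀ k : ℤ,
    NoSq (F.V T k L b a e) (-la) (L + la) (L + F.mS + F.mP) ∧
    (∀ s : ℤ, -la ≤ s → s + F.mS < L + la → Mark (F.V T k L b a e) s F.mS F.cS → s = L - 1) ∧
    (∀ s : ℤ, -la ≤ s → s + F.mP < L + la → Mark (F.V T k L b a e) s F.mP F.cP → s = -F.mP) ∧
    Mark (F.V T k L b a e) (L - 1) F.mS F.cS ∧ Mark (F.V T k L b a e) (-F.mP) F.mP F.cP

def Fr.left (F : Fr) (la jL c b : Nat) : Wd :=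
  (F.H.blocks jL c (Nat.mod (Nat.add (Nat.sub 3 (lab c jL)) b) 3)).drop
    (Nat.sub (Nat.add (Nat.mul jL F.H.M) F.be) la)

def Fr.right (F : Fr) (jR a : Nat) : Wd := (F.H.blocks jR F.tc a).drop F.al

def Fr.lane (F : Fr) (la jL jR L b a : Nat) (e : Wd) (c : Nat) : Blk :=
  Blk.one ((F.left la jL c b).cat la (e.cat L (F.right jR a))) (Nat.add (Nat.add la L) la)
    (Nat.pow 2 (Nat.pred (Nat.add la L))) (Nat.pow 2 (Nat.sub la F.mP))

def Fr.giant (F : Fr) (la jL jR L : Nat) (tab : List (List Wd)) : Blk :=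
  blkN (fun ba => blkL (fun e => blkL (F.lane la jL jR L (Nat.div ba 3) (Nat.mod ba 3) e) (sfl jL))
    (tab.getD ba [])) 9

def chkG (g : Blk) (K mS cS mP cP : Nat) : Bool :=
  chkSq g K && chkOccEq g mS cS g.o1 && chkOccEq g mP cP g.o2

def Fr.chkT (F : Fr) (la jL jR L : Nat) (tab : List (List Wd)) : Bool :=
  Nat.ble (Nat.add (Nat.add L F.mS) (Nat.mul 2 F.mP)) la &&
  Nat.ble (Nat.add (Nat.add L (Nat.mul 2 F.mS)) F.mP) la && Nat.ble 2 L && Nat.ble jL 16 &&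
  Nat.ble la (Nat.add (Nat.mul jL F.H.M) F.be) && Nat.ble (Nat.add F.al la) (Nat.mul jR F.H.M) &&
  Nat.ble jR F.nt &&
  chkG (F.giant la jL jR L tab) (Nat.add (Nat.add L F.mS) F.mP) F.mS F.cS F.mP F.cP

theorem Fr.chkT_spec {F : Fr} (hF : F.OK) {la jL jR L : Nat} {tab : List (List Wd)}
    (h : F.chkT la jL jR L tab = true) {T : ℤ → Lt} (hT : F.TP T) {b a : Nat} (hb : b < 3)
    (ha : a < 3) {e : Wd} (he : e ∈ tab.getD (3 * b + a) []) : F.TileOK T L b a e := by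
  unfold Fr.chkT chkG at h
  simp only [Bool.and_eq_true, Nat.ble_eq] at h
  obtain ⟨⟨⟨⟨⟨⟨⟨h1, h2⟩, h3⟩, h4⟩, h5⟩, h6⟩, h7⟩, ⟨h8, h9⟩, h10⟩ := h
  have h1' : L + F.mS + 2 * F.mP ≤ la := h1
  have h2' : L + 2 * F.mS + F.mP ≤ la := h2
  have h5' : la ≤ jL * F.H.M + F.be := h5
  have h6' : F.al + la ≤ jR * F.H.M := h6
  refine ⟨la, h1, h2, h3, fun k => ?_⟩
  obtain ⟨c, c1, c2⟩ := sfl_spec hT.1 (k - jL) jL h4
  have sub : Sub (F.lane la jL jR L b a e c) (F.giant la jL jR L tab) := by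
    refine Sub.trans ?_ (sub_blkN _ (show 3 * b + a < 9 by omega))
    have e1 : Nat.div (3 * b + a) 3 = b := by show (3 * b + a) / 3 = b; omega
    have e2 : Nat.mod (3 * b + a) 3 = a := by show (3 * b + a) % 3 = a; omega
    rw [e1, e2]
    exact (sub_blkL _ c1).trans (sub_blkL (fun e => blkL (F.lane la jL jR L b a e) (sfl jL)) he)
  have hd := chkSqR_disj h8
  have q1 := ((chkSq_spec h8).sub sub).one
  obtain ⟨q2, q2'⟩ := chkOccEq_spec hd h9
  obtain ⟨q3, q3'⟩ := chkOccEq_spec hd h10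
  have q4 := (q2.sub1 sub).one1
  have q5 := (q3.sub2 sub).one2
  obtain ⟨off, sub'⟩ := sub
  set W := (F.left la jL c b).cat la (e.cat L (F.right jR a)) with hW
  have hbe := hF.be
  have agree : ∀ i : ℤ, -la ≤ i → i < L + la → F.V T k L b a e i = W.fn (i + la) := by
    intro i i1 i2
    obtain ⟨u, hu⟩ := Int.eq_ofNat_of_zero_le (show 0 ≤ i + la by omega)
    rw [hu, Wd.fn_nat, hW]
    unfold Fr.V
    split_ifs with a1 a2
    · rw [Wd.cat_lt (by omega), Fr.left, Wd.drop_get]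
      have e0 : Nat.sub (Nat.add (Nat.mul jL F.H.M) F.be) la = jL * F.H.M + F.be - la := rfl
      rw [e0, Mor.blocks_get hF.sh T (- T k + b) jL c
        (Nat.mod (Nat.add (Nat.sub 3 (lab c jL)) b) 3) (k - jL) (Nat.mod_lt _ (by norm_num)) c2
        _ (jL * F.H.M + F.be - la + u) (by omega)]
      · have : F.H.M * (k - jL) + ((jL * F.H.M + F.be - la + u : ℕ) : ℤ) =
            F.H.M * k + F.be + i := by
          rw [Nat.cast_add, Nat.cast_sub h5']; push_cast; linarith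
        rw [this]; ring
      · have t := c2.lab jL le_rfl
        rw [sub_add_cancel] at t
        rw [cast_mod3, t]
        have l3 := lab_lt c jL
        show ((3 - lab c jL + b : ℕ) : Lt) = _
        rw [Nat.cast_add, Nat.cast_sub l3.le]
        have : ((3 : ℕ) : Lt) = 0 := rfl
        rw [this]; ring
    · obtain ⟨y, rfl⟩ := Int.eq_ofNat_of_zero_le (not_lt.mp a1)
      have : u = la + y := by omega
      rw [this, Wd.cat_ge, Wd.cat_lt (by omega), Wd.fn_nat]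
    · obtain ⟨y, hy⟩ := Nat.exists_eq_add_of_le (show la + L ≤ u by omega)
      rw [hy, add_assoc, Wd.cat_ge, Wd.cat_ge, Fr.right, Wd.drop_get,
        Mor.blocks_get hF.sh T a jR F.tc a 0 ha (hT.2.2.mono h7) (by rw [hT.2.1, zero_add])
          _ (by omega)]
      congr 2; push_cast; omega
  have eL : Nat.add (Nat.add la L) la = la + L + la := rfl
  refine ⟨fun s n n1 n2 n3 n4 hs => ?_, fun s s1 s2 hs => ?_, fun s s1 s2 hs => ?_, ?_, ?_⟩
  · refine q1 (s + la) n n1 n2 (by omega) (by rw [eL]; push_cast; omega) ?_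
    refine hs.congr (g := 0) (fun i a b => ?_)
    rw [agree i (by omega) (by omega), add_zero]; congr 1; ring
  · obtain ⟨u, hu⟩ := Int.eq_ofNat_of_zero_le (show 0 ≤ s + la by omega)
    have := q4 u (by rw [eL]; omega) (by
      refine hs.congr (g := 0) (fun i a b => ?_)
      rw [agree i (by omega) (by omega), add_zero]; congr 1; omega)
    have t : Nat.pred (Nat.add la L) = u := by
      by_contra hc
      exact absurd ((Nat.testBit_two_pow_of_ne hc).symm.trans this) (by simp)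
    have t' : la + L - 1 = u := t
    omega
  · obtain ⟨u, hu⟩ := Int.eq_ofNat_of_zero_le (show 0 ≤ s + la by omega)
    have := q5 u (by rw [eL]; omega) (by
      refine hs.congr (g := 0) (fun i a b => ?_)
      rw [agree i (by omega) (by omega), add_zero]; congr 1; omega)
    have t : Nat.sub la F.mP = u := by
      by_contra hc
      exact absurd ((Nat.testBit_two_pow_of_ne hc).symm.trans this) (by simp)
    have t' : la - F.mP = u := t
    omega
  · have := q2'.lane (s := la + L - 1) sub' (by rw [eL]; omega) (by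
      rw [(sub'.2 _ (by show _ < la + L + la + 1; omega)).2.2.2.1]
      show (low _ _).testBit _ = true
      rw [low_bit, eL, decide_eq_true (by omega), Bool.true_and]
      exact Nat.testBit_two_pow_self)
    refine this.congr (g := 0) (fun i a b => ?_)
    rw [agree _ (by omega) (by omega), add_zero]; congr 1; omega
  · have := q3'.lane (s := la - F.mP) sub' (by rw [eL]; omega) (by
      rw [(sub'.2 _ (by show _ < la + L + la + 1; omega)).2.2.2.2]
      show (low _ _).testBit _ = true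
      rw [low_bit, eL, decide_eq_true (by omega), Bool.true_and]
      exact Nat.testBit_two_pow_self)
    refine this.congr (g := 0) (fun i a b => ?_)
    rw [agree _ (by omega) (by omega), add_zero]; congr 1; omega

structure Fr.Sys (F : Fr) (T : ℤ → Lt) (k : ℤ) (w : ℤ → Lt) (σ τ : ℤ → ℤ) (ρ : ℤ → Lt) : Prop where
  kpos : 1 ≤ k
  core : ∀ n i, σ n ≤ i → i < τ n → w i = F.H.app T (i - σ n + F.al) + ρ n
  len : ∀ n, τ n - σ n = F.H.M * k + F.be - F.al
  tile : ∀ n, ∃ (L : Nat) (b a g : Lt) (e : Wd), F.TileOK T L b a e ∧ σ (n + 1) = τ n + L ∧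
    b + g = ρ n + T k ∧ a + g = ρ (n + 1) ∧ ∀ j : ℤ, 0 ≤ j → j < L → w (τ n + j) = e.fn j + g

def mkL (σ τ : ℤ → ℤ) (mP : Nat) (i : ℤ) : ℤ := if i % 2 = 0 then σ (i / 2) - 1 else τ (i / 2) - mP
def mkR (σ τ : ℤ → ℤ) (mS : Nat) (i : ℤ) : ℤ := if i % 2 = 0 then σ (i / 2) + mS else τ (i / 2) + 1

theorem mkL0 (σ τ : ℤ → ℤ) (m : Nat) (n : ℤ) : mkL σ τ m (2 * n) = σ n - 1 := by
  unfold mkL; rw [if_pos (by omega)]; congr 2; omega
theorem mkL1 (σ τ : ℤ → ℤ) (m : Nat) (n : ℤ) : mkL σ τ m (2 * n + 1) = τ n - m := by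
  unfold mkL; rw [if_neg (by omega)]; congr 2; omega
theorem mkR0 (σ τ : ℤ → ℤ) (m : Nat) (n : ℤ) : mkR σ τ m (2 * n) = σ n + m := by
  unfold mkR; rw [if_pos (by omega)]; congr 2; omega
theorem mkR1 (σ τ : ℤ → ℤ) (m : Nat) (n : ℤ) : mkR σ τ m (2 * n + 1) = τ n + 1 := by
  unfold mkR; rw [if_neg (by omega)]; congr 2; omega

theorem par (i : ℤ) : (∃ n, i = 2 * n) ∨ ∃ n, i = 2 * n + 1 := by
  rcases Int.emod_two_eq_zero_or_one i with h | h
  · exact Or.inl ⟨i / 2, by omega⟩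
  · exact Or.inr ⟨i / 2, by omega⟩

namespace Fr.Sys

variable {F : Fr} {T : ℤ → Lt} {k : ℤ} {w : ℤ → Lt} {σ τ : ℤ → ℤ} {ρ : ℤ → Lt}

theorem gap (hF : F.OK) (h : F.Sys T k w σ τ ρ) (n : ℤ) : σ n + F.mS + F.mP ≤ τ n := by
  have a := h.len n
  have b := hF.len
  have c : (F.H.M : ℤ) * 1 ≤ F.H.M * k := mul_le_mul_of_nonneg_left h.kpos (by positivity)
  omega

theorem win (h : F.Sys T k w σ τ ρ) (n : ℤ) :
    ∃ (L la : Nat) (V : ℤ → Lt) (g : Lt), σ (n + 1) = τ n + L ∧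
    (∀ i, σ n ≤ i → i < τ (n + 1) → w i = V (i - τ n) + g) ∧
    L + F.mS + 2 * F.mP ≤ la ∧ L + 2 * F.mS + F.mP ≤ la ∧ 2 ≤ L ∧
    NoSq V (-la) (L + la) (L + F.mS + F.mP) ∧
    (∀ s : ℤ, -la ≤ s → s + F.mS < L + la → Mark V s F.mS F.cS → s = L - 1) ∧
    (∀ s : ℤ, -la ≤ s → s + F.mP < L + la → Mark V s F.mP F.cP → s = -F.mP) ∧
    Mark V (L - 1) F.mS F.cS ∧ Mark V (-F.mP) F.mP F.cP := by
  obtain ⟨L, b, a, g, e, ⟨la, t1, t2, t3, t4⟩, t5, t6, t7, t8⟩ := h.tile n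
  refine ⟨L, la, F.V T k L b a e, g, t5, fun i i1 i2 => ?_, t1, t2, t3, t4 k⟩
  unfold Fr.V
  split_ifs with a1 a2
  · rw [h.core n i i1 (by omega)]
    have := h.len n
    have e1 : i - σ n + F.al = F.H.M * k + F.be + (i - τ n) := by omega
    rw [e1]
    have : ρ n = b + g - T k := by rw [t6]; ring
    rw [this]; ring
  · have := t8 (i - τ n) (by omega) a2
    rwa [add_sub_cancel] at this
  · rw [h.core (n + 1) i (by omega) i2, ← t7, t5]
    have e1 : i - (τ n + L) + F.al = F.al + (i - τ n) - L := by ring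
    rw [e1]; ring

theorem step (h : F.Sys T k w σ τ ρ) (n : ℤ) : τ n + 2 ≤ σ (n + 1) := by
  obtain ⟨L, la, V, g, a, _, _, _, b, _⟩ := h.win n
  omega

theorem markS (hF : F.OK) (h : F.Sys T k w σ τ ρ) (n : ℤ) : Mark w (σ n - 1) F.mS F.cS := by
  obtain ⟨L, la, V, g, a, b, _, _, c, _, _, _, d, _⟩ := h.win (n - 1)
  rw [sub_add_cancel] at a b
  have g1 := h.gap hF n
  have g2 := h.gap hF (n - 1)
  have := hF.mP
  refine d.congr (g := -g) (fun i i1 i2 => ?_)
  rw [b _ (by omega) (by omega), add_neg_cancel_right]; congr 1; omega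

theorem markP (hF : F.OK) (h : F.Sys T k w σ τ ρ) (n : ℤ) : Mark w (τ n - F.mP) F.mP F.cP := by
  obtain ⟨L, la, V, g, a, b, _, _, c, _, _, _, _, d⟩ := h.win n
  have g1 := h.gap hF n
  have g2 := h.gap hF (n + 1)
  refine d.congr (g := -g) (fun i i1 i2 => ?_)
  rw [b _ (by omega) (by omega), add_neg_cancel_right]; congr 1; omega

theorem occ (hF : F.OK) (hT : SF T) (h : F.Sys T k w σ τ ρ) (s : ℤ) :
    (Mark w s F.mS F.cS → ∃ n, s = σ n - 1) ∧ (Mark w s F.mP F.cP → ∃ n, s = τ n - F.mP) := by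
  obtain ⟨n, n1, n2⟩ := exists_between_seq (l := σ)
    (fun n => by have := h.gap hF n; have := h.step n; omega) s
  obtain ⟨L, la, V, g, a, b, c1, c2, c3, _, d1, d2, _, _⟩ := h.win n
  have g2 := h.gap hF (n + 1)
  have m1 := hF.mS
  have m2 := hF.mP
  constructor
  · intro hm
    by_cases e : s + F.mS < τ n
    · exact absurd (hm.congr (t := s - σ n + F.al) (g := ρ n) (fun i i1 i2 => by
        rw [h.core n i (by omega) (by omega)]; congr 2; ring)) (hF.noS T hT _)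
    · have := d1 (s - τ n) (by omega) (by omega) (hm.congr (g := g) (fun i i1 i2 => by
        rw [b i (by omega) (by omega)]; congr 2; ring))
      exact ⟨n + 1, by omega⟩
  · intro hm
    by_cases e : s + F.mP < τ n
    · exact absurd (hm.congr (t := s - σ n + F.al) (g := ρ n) (fun i i1 i2 => by
        rw [h.core n i (by omega) (by omega)]; congr 2; ring)) (hF.noP T hT _)
    · have := d2 (s - τ n) (by omega) (by omega) (hm.congr (g := g) (fun i i1 i2 => by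
        rw [b i (by omega) (by omega)]; congr 2; ring))
      exact ⟨n, by omega⟩

theorem lr1 (i : ℤ) (hF : F.OK) : mkL σ τ F.mP i < mkR σ τ F.mS i := by
  unfold mkL mkR; split_ifs <;> omega

theorem lr2 (hF : F.OK) (h : F.Sys T k w σ τ ρ) (i : ℤ) :
    mkR σ τ F.mS i ≤ mkL σ τ F.mP (i + 1) := by
  rcases par i with ⟨n, rfl⟩ | ⟨n, rfl⟩
  · rw [mkR0, mkL1]; have := h.gap hF n; omega
  · have e : 2 * n + 1 + 1 = 2 * (n + 1) := by ring
    rw [mkR1, e, mkL0]; have := h.step n; omega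

theorem half (hF : F.OK) (hT : SF T) (h : F.Sys T k w σ τ ρ) {s : ℤ} {d : Nat} (hd : 0 < d)
    (hs : Sq w s d) : (∃ i, s ≤ mkL σ τ F.mP i ∧ mkR σ τ F.mS i ≤ s + d) ∨
      (∃ i, s + d ≤ mkL σ τ F.mP i ∧ mkR σ τ F.mS i ≤ s + 2 * d) := by
  have winsq : ∀ n, σ n ≤ s → s + 2 * d ≤ τ (n + 1) →
      (∀ L : ℤ, σ (n + 1) = τ n + L → d ≤ L + F.mS + F.mP ∧
        τ n - (L + F.mS + 2 * F.mP) ≤ s ∧ s + 2 * d ≤ σ (n + 1) + (L + 2 * F.mS + F.mP)) →
      False := by
    intro n a1 a2 a3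
    obtain ⟨L, la, V, g, a, b, c1, c2, c3, c4, _⟩ := h.win n
    obtain ⟨b1, b2, b3⟩ := a3 L a
    refine c4 (s - τ n) d hd (by omega) (by omega) (by omega) (hs.congr (g := g) (fun i i1 i2 => ?_))
    rw [b i (by omega) (by omega)]; congr 2; ring
  rcases abs_cases (fun i => lr1 i hF) (h.lr2 hF) s (s + d) (s + 2 * d) (by omega) (by omega) with
    a | a | ⟨i, i1, i2⟩ | ⟨i, i1, i2, i3, i4⟩
  · exact Or.inl a
  · exact Or.inr a
  · exfalso
    rcases par i with ⟨n, rfl⟩ | ⟨n, rfl⟩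
    · rw [mkL0] at i1
      rw [mkR1] at i2
      refine hF.good.sf hT (s - σ n + F.al) d hd (hs.congr (g := ρ n) (fun j j1 j2 => ?_))
      rw [h.core n j (by omega) (by omega)]; congr 2; ring
    · have e : 2 * n + 1 + 1 = 2 * (n + 1) := by ring
      rw [mkL1] at i1
      rw [e, mkR0] at i2
      have := h.gap hF n
      have := h.gap hF (n + 1)
      exact winsq n (by omega) (by omega) (fun L hL => by have := h.step n; omega)
  · exfalso
    rcases par i with ⟨n, rfl⟩ | ⟨n, rfl⟩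
    · have e : 2 * n + 2 = 2 * (n + 1) := by ring
      rw [mkL0] at i1
      rw [e, mkR0] at i2
      rw [mkL1] at i3
      rw [mkR1] at i4
      have := h.gap hF (n + 1)
      exact winsq n (by omega) (by omega) (fun L hL => by have := h.step n; omega)
    · have e : 2 * n + 1 + 1 = 2 * (n + 1) := by ring
      have e2 : 2 * n + 1 + 2 = 2 * (n + 1) + 1 := by ring
      rw [mkL1] at i1
      rw [e2, mkR1] at i2
      rw [e, mkL0] at i3
      rw [e, mkR0] at i4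
      have := h.gap hF n
      exact winsq n (by omega) (by omega) (fun L hL => by have := h.step n; omega)

theorem fwd (hF : F.OK) (hT : SF T) (h : F.Sys T k w σ τ ρ) {s : ℤ} {d : Nat} (hs : Sq w s d)
    (i : ℤ) (i1 : s ≤ mkL σ τ F.mP i) (i2 : mkR σ τ F.mS i ≤ s + d) :
    ∃ j, mkL σ τ F.mP j = mkL σ τ F.mP i + d ∧ mkR σ τ F.mS j = mkR σ τ F.mS i + d ∧
      (j - i) % 2 = 0 := by
  rcases par i with ⟨n, rfl⟩ | ⟨n, rfl⟩
  · rw [mkL0] at i1 ⊢
    rw [mkR0] at i2 ⊢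
    obtain ⟨u, hu⟩ := (h.occ hF hT _).1 (Mark.fwd hs (h.markS hF n) i1 (by omega))
    exact ⟨2 * u, by rw [mkL0]; omega, by rw [mkR0]; omega, by omega⟩
  · rw [mkL1] at i1 ⊢
    rw [mkR1] at i2 ⊢
    obtain ⟨u, hu⟩ := (h.occ hF hT _).2 (Mark.fwd hs (h.markP hF n) i1 (by omega))
    exact ⟨2 * u + 1, by rw [mkL1]; omega, by rw [mkR1]; omega, by omega⟩

theorem bwd (hF : F.OK) (hT : SF T) (h : F.Sys T k w σ τ ρ) {s : ℤ} {d : Nat} (hs : Sq w s d)
    (i : ℤ) (i1 : s + d ≤ mkL σ τ F.mP i) (i2 : mkR σ τ F.mS i ≤ s + 2 * d) :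
    ∃ j, mkL σ τ F.mP j = mkL σ τ F.mP i - d ∧ mkR σ τ F.mS j = mkR σ τ F.mS i - d := by
  rcases par i with ⟨n, rfl⟩ | ⟨n, rfl⟩
  · rw [mkL0] at i1 ⊢
    rw [mkR0] at i2 ⊢
    obtain ⟨u, hu⟩ := (h.occ hF hT _).1 (Mark.bwd hs (h.markS hF n) i1 (by omega))
    exact ⟨2 * u, by rw [mkL0]; omega, by rw [mkR0]; omega⟩
  · rw [mkL1] at i1 ⊢
    rw [mkR1] at i2 ⊢
    obtain ⟨u, hu⟩ := (h.occ hF hT _).2 (Mark.bwd hs (h.markP hF n) i1 (by omega))
    exact ⟨2 * u + 1, by rw [mkL1]; omega, by rw [mkR1]; omega⟩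

theorem first (hF : F.OK) (hT : SF T) (h : F.Sys T k w σ τ ρ) {s : ℤ} {d : Nat} (hd : 0 < d)
    (hs : Sq w s d) : ∃ i, s ≤ mkL σ τ F.mP i ∧ mkR σ τ F.mS i ≤ s + d := by
  rcases h.half hF hT hd hs with a | ⟨i, i1, i2⟩
  · exact a
  · obtain ⟨j, j1, j2⟩ := h.bwd hF hT hs i i1 i2
    exact ⟨j, by omega, by omega⟩

/-- uniform frames: the period of a square is a multiple of the frame length -/
theorem dvd (hF : F.OK) (hT : SF T) (h : F.Sys T k w σ τ ρ) {p c : ℤ} (hp : ∀ n, τ n = p * n + c)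
    {s : ℤ} {d : Nat} (hd : 0 < d) (hs : Sq w s d) : p ∣ d := by
  obtain ⟨i, i1, i2⟩ := h.first hF hT hd hs
  obtain ⟨j, j1, _, j3⟩ := h.fwd hF hT hs i i1 i2
  rcases par i with ⟨n, rfl⟩ | ⟨n, rfl⟩
  · obtain ⟨u, rfl⟩ : ∃ u, j = 2 * u := ⟨j / 2, by omega⟩
    rw [mkL0, mkL0] at j1
    have a := h.len n
    have b := h.len u
    rw [hp] at a b
    exact ⟨u - n, by rw [mul_sub]; omega⟩
  · obtain ⟨u, rfl⟩ : ∃ u, j = 2 * u + 1 := ⟨j / 2, by omega⟩
    rw [mkL1, mkL1, hp, hp] at j1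
    exact ⟨u - n, by rw [mul_sub]; omega⟩

/-- square-free rotations give a square-free word -/
theorem sf (hF : F.OK) (hT : SF T) (h : F.Sys T k w σ τ ρ) (hρ : SF ρ) : SF w := by
  intro s d hd hs
  obtain ⟨i0, u, u0, hu⟩ := shift_lemma (fun i => lr1 i hF) (h.lr2 hF) s d (by omega)
    (h.fwd hF hT hs) (h.bwd hF hT hs) (h.first hF hT hd hs)
  obtain ⟨u, rfl⟩ := Int.eq_ofNat_of_zero_le u0.le
  have m1 := hF.mS
  have m2 := hF.mP
  rcases par i0 with ⟨n, rfl⟩ | ⟨n, rfl⟩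
  · refine hρ n u (by omega) (fun j j1 j2 => ?_)
    obtain ⟨a, b, c⟩ := hu (2 * (j - n)) (by omega) (by omega)
    have e1 : 2 * n + 2 * (j - n) = 2 * j := by ring
    have e2 : 2 * j + 2 * (u : ℤ) = 2 * (j + u) := by ring
    rw [e1] at a b c
    rw [e2, mkL0, mkL0] at c
    rw [mkL0] at a
    rw [mkR0] at b
    have t := hs (σ j) (by omega) (by omega)
    have g1 := h.gap hF j
    have g2 := h.gap hF (j + u)
    rw [h.core j (σ j) le_rfl (by omega), h.core (j + u) _ (by omega) (by omega)] at t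
    have e3 : σ j + d - σ (j + u) + F.al = σ j - σ j + F.al := by omega
    rw [e3] at t
    exact add_left_cancel t
  · refine hρ n u (by omega) (fun j j1 j2 => ?_)
    obtain ⟨a, b, c⟩ := hu (2 * (j - n)) (by omega) (by omega)
    have e1 : 2 * n + 1 + 2 * (j - n) = 2 * j + 1 := by ring
    have e2 : 2 * j + 1 + 2 * (u : ℤ) = 2 * (j + u) + 1 := by ring
    rw [e1] at a b c
    rw [e2, mkL1, mkL1] at c
    rw [mkL1] at a
    rw [mkR1] at b
    have t := hs (τ j - 1) (by omega) (by omega)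
    have g1 := h.gap hF j
    have g2 := h.gap hF (j + u)
    have l1 := h.len j
    have l2 := h.len (j + u)
    rw [h.core j (τ j - 1) (by omega) (by omega),
      h.core (j + u) (τ j - 1 + d) (by omega) (by omega)] at t
    have e3 : τ j - 1 + d - σ (j + u) + F.al = τ j - 1 - σ j + F.al := by omega
    rw [e3] at t
    exact add_left_cancel t

end Fr.Sys

/-- building a frame word from its data -/
theorem Fr.build (F : Fr) (T : ℤ → Lt) (σ τ : ℤ → ℤ) (ρ g : ℤ → Lt) (e : ℤ → Wd)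
    (h1 : ∀ n, σ n ≤ τ n) (h2 : ∀ n, τ n < σ (n + 1)) :
    ∃ w : ℤ → Lt, (∀ n i, σ n ≤ i → i < τ n → w i = F.H.app T (i - σ n + F.al) + ρ n) ∧
      ∀ n j, 0 ≤ j → τ n + j < σ (n + 1) → w (τ n + j) = (e n).fn j + g n := by
  obtain ⟨w, hw⟩ := glue (l := σ) (fun n => lt_of_le_of_lt (h1 n) (h2 n))
    (fun n i => if i < τ n then F.H.app T (i - σ n + F.al) + ρ n else (e n).fn (i - τ n) + g n)
  refine ⟨w, fun n i a b => ?_, fun n j a b => ?_⟩
  · rw [hw n i a (lt_trans b (h2 n)), if_pos b]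
  · rw [hw n _ (by have := h1 n; omega) b, if_neg (by omega), add_sub_cancel_left]

end

end Pool.Agent.Lib.MP_42179e_co
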