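import Pool.Agent.Lib.MP_42179e_co.Direct

/-!
Uniform morphisms with three unrelated blocks, and the pair `(5,6)`.
-/

namespace Pool.Agent.Lib.MP_42179e_co

noncomputable section

def R (p q : ℕ) : Prop :=
  ∃ K : ℕ, 0 < K ∧ ∃ c : ℤ, ∀ v, SF v → ∃ w, SF w ∧ SF (fun k => w (p * k)) ∧
    SF (fun k => w (q * k)) ∧ ∀ i : ℤ, w (K * i + c) = v i

structure M3 where
  M : Nat
  h0 : Wd
  h1 : Wd
  h2 : Wd

def M3.sel (H : M3) (a : Nat) : Wd := cond (Nat.beq a 0) H.h0 (cond (Nat.beq a 1) H.h1 H.h2)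

def M3.app (H : M3) (v : ℤ → Lt) (i : ℤ) : Lt := (H.sel (v (i / H.M)).val).get (i % H.M).toNat

theorem M3.app_eq (H : M3) (v : ℤ → Lt) (k : ℤ) {j : Nat} (hj : j < H.M) :
    H.app v (H.M * k + j) = (H.sel (v k).val).get j := by
  have hM : (0 : ℤ) < H.M := by omega
  have e1 : ((H.M : ℤ) * k + j) / H.M = k := by
    rw [add_comm, Int.add_mul_ediv_left _ _ hM.ne', Int.ediv_eq_zero_of_lt (by omega) (by omega),
      zero_add]
  have e2 : ((H.M : ℤ) * k + j) % H.M = j := by
    rw [add_comm, Int.add_mul_emod_self_left, Int.emod_eq_of_lt (by omega) (by omega)]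
  unfold M3.app
  rw [e1, e2, Int.toNat_natCast]

def M3.lane (H : M3) (m : Nat) (ab : Nat × Nat) : Blk :=
  Blk.one ((H.sel ab.1).cat H.M ((H.sel ab.2).cat H.M H.h0)) (Nat.add (Nat.mul 2 H.M) (Nat.succ m))
    (rep 1 H.M 2) 0

def M3.lanes (H : M3) (m : Nat) : Blk :=
  blkL (H.lane m) [(0, 1), (0, 2), (1, 0), (1, 2), (2, 0), (2, 1)]

def M3.chk (H : M3) (m j c : Nat) : Bool :=
  Nat.blt m H.M && Nat.blt j H.M && H.h1.eqB H.h0 (Nat.succ m) && H.h2.eqB H.h0 (Nat.succ m) &&
  allB (fun a => Nat.beq ((H.sel a).getN j) a) 3 && markW H.h0 H.M 0 m c &&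
  chkSq (H.lanes m) (Nat.add H.M (Nat.succ m)) && chkOcc (H.lanes m) m c (H.lanes m).o1

theorem M3.spec {H : M3} {m j c : Nat} (h : H.chk m j c = true) {v : ℤ → Lt} (hv : SF v) :
    SF (H.app v) ∧ ∀ k, H.app v (H.M * k + j) = v k := by
  unfold M3.chk at h
  simp only [Bool.and_eq_true, Nat.blt_eq] at h
  obtain ⟨⟨⟨⟨⟨⟨⟨h1, h2⟩, h3⟩, h4⟩, h5⟩, h6⟩, h7⟩, h8⟩ := h
  have col : ∀ k, H.app v (H.M * k + j) = v k := fun k => by
    rw [H.app_eq v k h2]; exact getN_eq (allB_spec h5 _ (val_lt _))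
  have pre : ∀ a i, i < m + 1 → (H.sel a).get i = H.h0.get i := by
    intro a i hi
    unfold M3.sel
    cases Nat.beq a 0
    · cases Nat.beq a 1
      · exact Wd.eqB_spec h4 i hi
      · exact Wd.eqB_spec h3 i hi
    · rfl
  have lane : ∀ k : ℤ, ∃ W : Wd, (∀ i : ℤ, H.M * k ≤ i → i < H.M * k + (2 * H.M + (m + 1) : ℕ) →
      H.app v i = W.fn (i - H.M * k)) ∧ NoSq W.fn 0 (2 * H.M + (m + 1) : ℕ) (H.M + (m + 1)) ∧
      ∀ s : ℕ, s + m < 2 * H.M + (m + 1) → Mark W.fn s m c → s % H.M = 0 := by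
    intro k
    have mem : ((v k).val, (v (k + 1)).val) ∈ [(0, 1), (0, 2), (1, 0), (1, 2), (2, 0), (2, 1)] := by
      have := hv.ne k
      revert this
      generalize v k = a
      generalize v (k + 1) = b
      revert a b; decide
    have sub := sub_blkL (H.lane m) mem
    refine ⟨_, fun i i1 i2 => ?_, ((chkSq_spec h7).sub sub).one, fun s s1 s2 => ?_⟩
    · obtain ⟨u, hu⟩ := Int.eq_ofNat_of_zero_le (show 0 ≤ i - H.M * k by omega)
      have e : i = H.M * k + u := by omega
      rw [hu, Wd.fn_nat, e]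
      by_cases a : u < H.M
      · rw [Wd.cat_lt a, H.app_eq v k a]
      obtain ⟨u, rfl⟩ := Nat.exists_eq_add_of_le (not_lt.mp a)
      rw [Wd.cat_ge]
      by_cases b : u < H.M
      · rw [Wd.cat_lt b, ← H.app_eq v (k + 1) b]; congr 1; push_cast; ring
      obtain ⟨u, rfl⟩ := Nat.exists_eq_add_of_le (not_lt.mp b)
      rw [Wd.cat_ge, ← pre (v (k + 2)).val u (by omega), ← H.app_eq v (k + 2) (by omega)]
      congr 1; push_cast; ring
    · have := ((chkOcc_spec (chkSqR_disj h7) h8).sub1 sub).one1 s s1 s2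
      rw [rep_bit (by omega) (fun i hi => one_bit (by omega)), Bool.and_eq_true] at this
      by_contra hc
      exact absurd ((one_bit hc).symm.trans this.2) (by simp)
  have mk : ∀ k : ℤ, Mark (H.app v) (H.M * k) m c := by
    intro k
    refine (markW_spec h6).2.congr (g := 0) (fun i a b => ?_)
    obtain ⟨u, rfl⟩ := Int.eq_ofNat_of_zero_le (show 0 ≤ i by omega)
    have e : (u : ℤ) - (0 : ℕ) + H.M * k = H.M * k + u := by push_cast; ring
    rw [e, H.app_eq v k (by omega), pre _ u (by omega), Wd.fn_nat, add_zero]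
  have oc : ∀ s : ℤ, Mark (H.app v) s m c → (H.M : ℤ) ∣ s := by
    intro s hs
    obtain ⟨k, u, hu, rfl⟩ := decomp (M := H.M) (by omega) s
    obtain ⟨W, w1, _, w3⟩ := lane k
    have := w3 u (by omega) (hs.congr (g := 0) (fun i a b => by
      rw [w1 i (by omega) (by omega), add_zero]; congr 1; ring))
    rw [Nat.mod_eq_of_lt hu] at this
    rw [this]; simp
  refine ⟨fun s n hn hs => ?_, col⟩
  refine not_sq_of_dvd (p := H.M) (by omega) hn j (by simp only [col]; exact hv) ?_ hs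
  have win : ∀ k : ℤ, H.M * k < s → s + 2 * n < H.M * (k + 2) + (m + 1) → False := by
    intro k a b
    obtain ⟨W, w1, w2, _⟩ := lane k
    rw [mul_add] at b
    refine w2 (s - H.M * k) n hn (by omega) (by omega) (by omega)
      (hs.congr (g := 0) (fun i i1 i2 => ?_))
    rw [w1 i (by omega) (by omega), add_zero]; congr 1; ring
  rcases abs_cases (l := fun k => H.M * k) (r := fun k => H.M * k + (m + 1)) (fun n => by omega)
    (fun n => by rw [mul_add]; omega) s (s + n) (s + 2 * n) (by omega) (by omega) with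
    ⟨u, u1, u2⟩ | ⟨u, u1, u2⟩ | ⟨u, u1, u2⟩ | ⟨u, u1, u2, _⟩
  · have := dvd_sub (oc _ (Mark.fwd hs (mk u) u1 (by omega))) (oc _ (mk u))
    simpa using this
  · have := dvd_sub (oc _ (mk u)) (oc _ (Mark.bwd hs (mk u) u1 (by omega)))
    simpa using this
  · exact (win u u1 (by rw [mul_add] at u2 ⊢; omega)).elim
  · exact (win u u1 u2).elim

def M3.proj (H : M3) (p : Nat) : M3 :=
  ⟨Nat.div H.M p, H.h0.proj p 0 (Nat.div H.M p), H.h1.proj p 0 (Nat.div H.M p),
    H.h2.proj p 0 (Nat.div H.M p)⟩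

theorem M3.app_proj {H : M3} {p m : Nat} (hp : 2 ≤ p) (m0 : 0 < m) (hm : H.M = p * m)
    (v : ℤ → Lt) (k : ℤ) : H.app v (p * k) = (H.proj p).app v k := by
  have e : (H.proj p).M = m := by
    show H.M / p = m
    rw [hm, Nat.mul_div_cancel_left _ (by omega)]
  obtain ⟨i, j, hj, rfl⟩ := decomp m0 k
  have e2 : (p : ℤ) * (m * i + j) = H.M * i + (p * j + 0 : ℕ) := by
    rw [hm]; push_cast; ring
  rw [e2, H.app_eq v i (by rw [hm]; nlinarith), ← e, M3.app_eq _ v i (by omega)]
  have e3 : Nat.div H.M p = m := e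
  unfold M3.sel
  cases Nat.beq (v i).val 0
  · cases Nat.beq (v i).val 1
    · exact (Wd.proj_get hp (by rw [e3]; exact hj)).symm
    · exact (Wd.proj_get hp (by rw [e3]; exact hj)).symm
  · exact (Wd.proj_get hp (by rw [e3]; exact hj)).symm

def h56 : M3 :=
  ⟨510,
    ⟨0x91112a48892a44548892a4a8911128911291152224a92a2445448a92a4a915112895229112915112a4a91511289522911122a48a8911128911291152224a92a,
     0x22a4a911522911289522911122a4a922a4444a2548a44448a922a24444a4448a44548892a44448a444a4448a44548892a4a89115122a4a922a4444a2548a4444⟩,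
    ⟨0x91112a48892a45444a444a2444a44548892a4a8911122a4a92a245444a922a4a9115229112915112a4a91511289522911122a48a8911128911291152224a92a,
     0x22a4a9115229112291112a48a9111289522911122a4a8911129151229112891112a48892a44448a444a4448a44548892a4a89115122a4a922a4444a2548a4444⟩,
    ⟨0x91112a48892a45444a444a24444a92224a91152224a92a244448a92a4a8915112895229112915112a4a91511289522911122a48a8911128911291152224a92a,
     0x22a4a9115229112291112a48a92a44548a444a2548a44448a92a24444a45448a44548892a44448a444a4448a44548892a4a89115122a4a922a4444a2548a4444⟩⟩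

theorem R_5_6 : R 5 6 := by
  refine ⟨510, by norm_num, 390, fun v hv => ?_⟩
  have a := M3.spec (H := h56) (m := 98) (j := 390) (c := 143122022134780582796069712115) (by decide +kernel) hv
  have b := M3.spec (H := h56.proj 5) (m := 33) (j := 78) (c := 3272555763) (by decide +kernel) hv
  have c := M3.spec (H := h56.proj 6) (m := 17) (j := 65) (c := 6342) (by decide +kernel) hv
  refine ⟨_, a.1, ?_, ?_, a.2⟩
  · simp only [M3.app_proj (H := h56) (p := 5) (m := 102) (by norm_num) (by norm_num) rfl]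
    exact b.1
  · simp only [M3.app_proj (H := h56) (p := 6) (m := 85) (by norm_num) (by norm_num) rfl]
    exact c.1

end

end Pool.Agent.Lib.MP_42179e_co
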