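import Pool.Agent.Lib.MP_42179e_co.No58

namespace Pool.Agent.Lib.MP_42179e_co

open HT

noncomputable def e58_0 : Cx × HT :=
  (⟨25, 6, 4, ⟨18, 8⟩, ⟨2, 5⟩⟩, bs 26)

noncomputable def e58_1 : Cx × HT :=
  (⟨24, 5, 4, ⟨18, 8⟩, ⟨9, 2⟩⟩, bs 25)

noncomputable def e58_2 : Cx × HT :=
  (⟨16, 3, 2, ⟨2, 0⟩, ⟨1, 0⟩⟩, bs 12)

noncomputable def e58_3 : Cx × HT :=
  (⟨25, 5, 3, ⟨18, 8⟩, ⟨5, 2⟩⟩, bs 21)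

noncomputable def e58_4 : Cx × HT :=
  (⟨25, 5, 3, ⟨18, 4⟩, ⟨4, 1⟩⟩, bs 21)

noncomputable def e58_5 : Cx × HT :=
  (⟨25, 4, 3, ⟨2, 8⟩, ⟨1, 2⟩⟩, bs 18)

noncomputable def e58_6 : Cx × HT :=
  (⟨16, 1, 1, ⟨0, 0⟩, ⟨0, 0⟩⟩, bs 2)

noncomputable def e58_7 : Cx × HT :=
  (⟨32, 4, 3, ⟨10, 4⟩, ⟨1, 4⟩⟩, bs 18)

noncomputable def e58_8 : Cx × HT :=
  (⟨35, 5, 3, ⟨2, 20⟩, ⟨2, 0⟩⟩, bs 21)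

noncomputable def e58_9 : Cx × HT :=
  (⟨35, 5, 3, ⟨18, 4⟩, ⟨2, 4⟩⟩, bs 21)

noncomputable def e58_10 : Cx × HT :=
  (⟨10, 7, 5, ⟨18, 40⟩, ⟨4, 17⟩⟩, bs 35)

noncomputable def e58_11 : Cx × HT :=
  (⟨25, 1, 1, ⟨0, 0⟩, ⟨0, 0⟩⟩, bs 2)

noncomputable def e58_12 : Cx × HT :=
  (⟨35, 3, 2, ⟨2, 0⟩, ⟨2, 0⟩⟩, bs 12)

noncomputable def e58_13 : Cx × HT :=
  (⟨10, 6, 4, ⟨10, 36⟩, ⟨9, 2⟩⟩, bs 27)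

noncomputable def e58_14 : Cx × HT :=
  (⟨16, 7, 5, ⟨34, 20⟩, ⟨10, 17⟩⟩, bs 33)

noncomputable def e58_15 : Cx × HT :=
  (⟨10, 6, 4, ⟨18, 8⟩, ⟨5, 8⟩⟩, bs 27)

noncomputable def e58_16 : Cx × HT :=
  (⟨24, 7, 5, ⟨10, 36⟩, ⟨17, 4⟩⟩, bs 35)

noncomputable def e58_17 : Cx × HT :=
  (⟨32, 7, 0, ⟨34, 8⟩, ⟨0, 0⟩⟩, nd (sx 1) (sx 2) (sx 4))

noncomputable def e58_18 : Cx × HT :=
  (⟨30, 7, 1, ⟨34, 8⟩, ⟨0, 1⟩⟩, nd (rf 0 0 17) (rf 0 0 17) (sy 1))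

noncomputable def e58_19 : Cx × HT :=
  (⟨35, 3, 1, ⟨2, 0⟩, ⟨0, 1⟩⟩, nd (sx 1) (sx 2) (sy 1))

noncomputable def e58_20 : Cx × HT :=
  (⟨32, 4, 3, ⟨2, 4⟩, ⟨0, 5⟩⟩, nd (sx 1) (rf 2 1 19) (nd (sy 2) (sx 3) (sx 1)))

noncomputable def e58_21 : Cx × HT :=
  (⟨15, 6, 3, ⟨18, 40⟩, ⟨1, 2⟩⟩, nd (rf 0 1 6) (sy 1) (nd (sx 1) (sx 2) (nd (rf 1 0 16) (sy 2) (sy
  1))))

noncomputable def e58_22 : Cx × HT :=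
  (⟨24, 4, 3, ⟨2, 4⟩, ⟨1, 2⟩⟩, nd (sx 1) (rf 2 1 11) (rf 1 0 4))

noncomputable def e58_23 : Cx × HT :=
  (⟨20, 4, 3, ⟨2, 4⟩, ⟨0, 5⟩⟩, nd (sy 2) (rf 0 0 22) (sy 1))

noncomputable def e58_24 : Cx × HT :=
  (⟨30, 0, 11, ⟨0, 0⟩, ⟨1170, 552⟩⟩, nd (sy 1) (sy 2) (sy 6))

noncomputable def e58_25 : Cx × HT :=
  (⟨10, 5, 9, ⟨2, 20⟩, ⟨292, 138⟩⟩, nd (sx 1) (rf 2 1 21) (nd (sy 1) (nd (nd (nd (sx 1) (nd (rf 0 0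
  24) (sx 1) (rf 0 0 24)) (sx 2)) (sy 1) (rf 0 1 1)) (sx 3) (sx 1)) (rf 1 1 6)))

noncomputable def e58_26 : Cx × HT :=
  (⟨24, 2, 2, ⟨2, 0⟩, ⟨0, 1⟩⟩, nd (sx 1) (nd (sx 2) (sx 1) (nd (nd (rf 0 1 8) (rf 2 0 19) (sx 1))
  (rf 1 1 7) (sy 1))) (rf 1 0 11))

noncomputable def e58_27 : Cx × HT :=
  (⟨30, 4, 5, ⟨2, 4⟩, ⟨4, 18⟩⟩, nd (sy 1) (sy 3) (rf 0 0 20))

noncomputable def e58_28 : Cx × HT :=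
  (⟨20, 2, 3, ⟨2, 0⟩, ⟨2, 0⟩⟩, nd (sy 1) (sy 2) (rf 0 0 26))

noncomputable def e58_29 : Cx × HT :=
  (⟨15, 3, 2, ⟨2, 0⟩, ⟨0, 2⟩⟩, nd (sy 1) (rf 0 0 2) (nd (sx 1) (sx 2) (rf 1 0 28)))

noncomputable def e58_30 : Cx × HT :=
  (⟨20, 14, 1, ⟨8738, 5268⟩, ⟨0, 0⟩⟩, nd (sy 1) (nd (sx 1) (rf 2 0 11) (nd (sx 8) (sx 3) (sx 1)))
  (rf 0 0 26))

noncomputable def e58_31 : Cx × HT :=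
  (⟨30, 4, 3, ⟨2, 4⟩, ⟨2, 0⟩⟩, nd (sy 1) (sy 2) (nd (sx 1) (rf 2 1 19) (rf 1 0 9)))

noncomputable def e58_32 : Cx × HT :=
  (⟨24, 6, 3, ⟨34, 8⟩, ⟨5, 2⟩⟩, nd (sx 1) (sx 2) (nd (sx 4) (rf 2 0 31) (sx 1)))

noncomputable def e58_33 : Cx × HT :=
  (⟨35, 3, 3, ⟨2, 0⟩, ⟨0, 2⟩⟩, nd (sx 1) (sx 2) (sy 2))

noncomputable def e58_34 : Cx × HT :=
  (⟨15, 1, 3, ⟨0, 0⟩, ⟨5, 2⟩⟩, nd (rf 0 0 6) (sy 1) (sy 2))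

noncomputable def e58_35 : Cx × HT :=
  (⟨10, 3, 3, ⟨2, 0⟩, ⟨5, 0⟩⟩, nd (sx 1) (sx 2) (rf 1 1 34))

noncomputable def e58_36 : Cx × HT :=
  (⟨32, 6, 1, ⟨34, 8⟩, ⟨1, 0⟩⟩, nd (sx 1) (sx 2) (nd (sx 4) (sy 1) (sx 1)))

noncomputable def e58_37 : Cx × HT :=
  (⟨5, 5, 3, ⟨18, 8⟩, ⟨1, 2⟩⟩, nd (nd (sx 1) (sx 2) (rf 1 0 13)) (sy 1) (nd (sx 1) (sx 2) (nd (rf 0
  1 34) (nd (rf 2 0 14) (sy 2) (sy 1)) (sx 1))))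

noncomputable def e58_38 : Cx × HT :=
  (⟨32, 3, 3, ⟨2, 0⟩, ⟨5, 0⟩⟩, nd (sx 1) (sx 2) (nd (sy 2) (sy 1) (sx 1)))

noncomputable def e58_39 : Cx × HT :=
  (⟨16, 3, 10, ⟨2, 4⟩, ⟨325, 552⟩⟩, nd (sx 1) (rf 2 1 28) (nd (sy 2) (sy 1) (nd (rf 0 1 5) (nd (sx
  3) (sx 1) (nd (sy 6) (rf 1 1 38) (sy 1))) (sx 1))))

noncomputable def e58_40 : Cx × HT :=
  (⟨20, 6, 5, ⟨34, 8⟩, ⟨18, 9⟩⟩, nd (sy 3) (rf 0 0 32) (sy 1))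

noncomputable def e58_41 : Cx × HT :=
  (⟨20, 36, 2, ⟨22047511074, 36662970516⟩, ⟨2, 0⟩⟩, nd (sy 1) (nd (sx 1) (rf 2 1 11) (nd (nd (sy 2)
  (sy 1) (nd (sx 1) (nd (sx 20) (sx 1) (sy 1)) (sx 2))) (sx 3) (sx 1))) (rf 0 0 26))

noncomputable def e58_42 : Cx × HT :=
  (⟨8, 5, 3, ⟨18, 4⟩, ⟨2, 0⟩⟩, nd (sx 1) (rf 2 1 35) (sx 3))

noncomputable def e58_43 : Cx × HT :=
  (⟨8, 25, 4, ⟨10765386, 4887204⟩, ⟨2, 8⟩⟩, nd (sx 1) (rf 2 1 35) (nd (rf 0 1 29) (nd (sy 1) (sy 2)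
  (nd (sx 3) (sx 1) (nd (rf 1 1 26) (nd (nd (sx 1) (nd (nd (rf 0 0 12) (sx 1) (nd (sy 1) (sx 8) (sx
  1))) (sy 1) (rf 2 1 20)) (nd (rf 1 0 36) (sy 1) (nd (sx 2) (nd (nd (sx 1) (rf 2 1 37) (nd (sy 1)
  (nd (nd (sx 1) (nd (rf 2 1 39) (sy 1) (nd (rf 0 0 40) (sx 1) (rf 1 1 41))) (sx 2)) (sx 3) (sx 1))
  (rf 1 0 42))) (sx 1) (sy 1)) (sx 1)))) (sx 2) (sx 1)) (sy 1)))) (sx 1)))

noncomputable def e58_44 : Cx × HT :=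
  (⟨32, 22, 24, ⟨2237730, 610900⟩, ⟨8954949, 5393042⟩⟩, nd (sx 1) (rf 2 1 33) (nd (nd (sx 1) (nd (sy
  1) (rf 2 1 43) (sy 13)) (sx 2)) (sy 1) (sx 1)))

noncomputable def e58_45 : Cx × HT :=
  (⟨35, 5, 1, ⟨18, 4⟩, ⟨1, 0⟩⟩, nd (sx 1) (sy 1) (sx 3))

noncomputable def e58_46 : Cx × HT :=
  (⟨20, 5, 2, ⟨18, 4⟩, ⟨0, 1⟩⟩, nd (nd (sx 1) (rf 2 1 3) (sx 3)) (rf 0 0 22) (sy 1))

noncomputable def e58_47 : Cx × HT :=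
  (⟨5, 3, 12, ⟨2, 0⟩, ⟨1317, 594⟩⟩, nd (nd (sx 1) (sx 2) (nd (rf 0 1 29) (nd (sy 1) (rf 2 1 6) (nd
  (rf 0 0 46) (sx 1) (nd (rf 1 1 26) (nd (nd (sx 1) (rf 2 1 27) (nd (rf 1 0 36) (sy 1) (sy 8))) (sx
  2) (sx 1)) (sy 1)))) (sx 1))) (sy 1) (sy 2))

noncomputable def e58_48 : Cx × HT :=
  (⟨15, 1, 5, ⟨0, 0⟩, ⟨9, 4⟩⟩, nd (rf 0 1 6) (sy 1) (sy 3))

noncomputable def e58_49 : Cx × HT :=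
  (⟨5, 8, 5, ⟨146, 40⟩, ⟨9, 4⟩⟩, nd (nd (sx 1) (sx 2) (nd (rf 0 1 29) (nd (sy 1) (sy 2) (nd (rf 0 0
  46) (sx 1) (nd (rf 1 1 26) (nd (sx 6) (sx 2) (sx 1)) (sy 1)))) (sx 1))) (sy 1) (sy 3))

noncomputable def e58_50 : Cx × HT :=
  (⟨0, 6, 10, ⟨34, 8⟩, ⟨146, 552⟩⟩, nd (sx 1) (sx 2) (nd (sy 1) (sy 2) (nd (sx 4) (nd (nd (rf 0 0 6)
  (sy 6) (sy 1)) (sx 1) (rf 1 1 29)) (sx 1))))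

noncomputable def e58_51 : Cx × HT :=
  (⟨15, 0, 11, ⟨0, 0⟩, ⟨1170, 552⟩⟩, nd (sy 1) (sy 2) (sy 6))

noncomputable def e58_52 : Cx × HT :=
  (⟨8, 7, 5, ⟨42, 68⟩, ⟨18, 9⟩⟩, nd (sx 1) (sx 4) (nd (rf 0 1 21) (rf 2 0 48) (sx 1)))

noncomputable def e58_53 : Cx × HT :=
  (⟨16, 7, 7, ⟨42, 68⟩, ⟨20, 73⟩⟩, nd (sx 1) (sx 4) (nd (nd (rf 0 1 11) (nd (sx 3) (sx 1) (nd (sy 1)
  (nd (nd (sx 1) (sy 1) (nd (sx 2) (nd (rf 2 0 52) (nd (nd (sx 1) (rf 2 1 29) (rf 2 0 51)) (sx 1)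
  (rf 1 1 35)) (sy 1)) (sx 1))) (sx 2) (sx 1)) (sy 2))) (sx 1)) (rf 1 0 26) (sy 1)))

noncomputable def e58_54 : Cx × HT :=
  (⟨10, 14, 3, ⟨8738, 5268⟩, ⟨4, 2⟩⟩, nd (sx 1) (rf 2 1 21) (nd (sy 1) (nd (sx 8) (sx 3) (sx 1)) (rf
  1 0 6)))

noncomputable def e58_55 : Cx × HT :=
  (⟨35, 1, 11, ⟨0, 0⟩, ⟨325, 552⟩⟩, nd (sx 1) (sy 1) (sy 6))

noncomputable def e58_56 : Cx × HT :=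
  (⟨30, 6, 10, ⟨34, 8⟩, ⟨276, 585⟩⟩, nd (nd (sx 1) (sx 2) (rf 1 0 55)) (rf 0 0 36) (sy 1))

noncomputable def e58_57 : Cx × HT :=
  (⟨32, 5, 11, ⟨18, 8⟩, ⟨328, 546⟩⟩, nd (sx 1) (sx 2) (nd (sy 1) (nd (nd (rf 0 0 42) (sy 1) (nd (sx
  1) (nd (sx 2) (sx 1) (nd (nd (nd (sy 1) (rf 0 1 26) (nd (sx 1) (nd (nd (sy 2) (nd (sx 1) (sx 2)
  (nd (nd (sx 1) (nd (sy 1) (nd (rf 0 0 35) (sx 1) (nd (nd (sy 2) (sy 1) (nd (sx 1) (sx 3) (nd (nd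
  (sx 2) (nd (nd (sy 1) (nd (sx 1) (rf 2 1 12) (nd (nd (sx 1) (nd (sy 1) (sy 2) (nd (nd (sx 1) (sx
  2) (nd (nd (rf 0 1 28) (nd (sy 1) (nd (nd (sx 1) (nd (rf 2 1 38) (sy 1) (sy 13)) (sx 3)) (sx 1)
  (rf 1 1 5)) (sy 2)) (sx 1)) (rf 1 0 53) (sy 1))) (sx 1) (rf 1 1 54))) (sx 2)) (sy 1) (sx 1))) (rf
  0 0 20)) (sx 1) (rf 1 1 56)) (sx 1)) (rf 1 0 26) (sy 1)))) (rf 2 0 29) (sx 1))) (rf 2 1 52)) (sx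
  2)) (sy 1) (sx 1))) (sy 1)) (sx 1) (sx 3)) (rf 1 1 11))) (rf 2 0 40) (sx 1)) (nd (nd (nd (sx 1)
  (nd (nd (sy 1) (rf 0 0 38) (nd (sx 1) (sx 2) (nd (rf 0 1 50) (nd (sx 8) (sx 1) (rf 1 1 49)) (sx
  1)))) (sx 1) (sx 3)) (rf 1 0 5)) (sy 1) (sy 2)) (rf 2 0 28) (sx 1)) (sy 1))) (sx 3))) (sx 1) (rf 1
  1 37)) (sx 1)))

noncomputable def e58_58 : Cx × HT :=
  (⟨30, 5, 2, ⟨18, 4⟩, ⟨0, 2⟩⟩, nd (sy 1) (nd (sx 1) (rf 2 1 12) (sx 3)) (rf 0 0 20))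

noncomputable def e58_59 : Cx × HT :=
  (⟨8, 7, 8, ⟨18, 40⟩, ⟨146, 40⟩⟩, nd (sx 1) (sx 2) (nd (rf 0 1 29) (nd (sy 1) (sy 2) (nd (rf 0 0
  46) (sx 1) (nd (rf 1 1 26) (nd (nd (sx 1) (sx 6) (rf 1 0 56)) (sx 2) (sx 1)) (sy 1)))) (sx 1)))

noncomputable def e58_60 : Cx × HT :=
  (⟨5, 7, 11, ⟨18, 40⟩, ⟨329, 1172⟩⟩, nd (rf 0 0 59) (sy 1) (nd (sx 1) (sx 2) (nd (nd (rf 0 1 6) (nd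
  (sx 1) (nd (nd (rf 0 1 11) (sx 1) (nd (rf 0 1 58) (nd (sy 1) (rf 2 0 57) (nd (nd (sx 1) (sy 8) (sy
  1)) (sx 1) (sx 2))) (sx 1))) (sy 1) (sy 2)) (sx 2)) (sy 1)) (rf 2 0 48) (sx 1))))

noncomputable def e58_61 : Cx × HT :=
  (⟨5, 6, 6, ⟨34, 20⟩, ⟨21, 8⟩⟩, nd (sy 2) (sy 1) (nd (sx 1) (rf 2 1 10) (nd (nd (rf 0 0 6) (sy 4)
  (sy 1)) (sx 3) (sx 1))))

noncomputable def e58_62 : Cx × HT :=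
  (⟨10, 33, 20, ⟨4867641890, 2303232148⟩, ⟨168212, 279714⟩⟩, nd (sx 1) (rf 2 1 21) (nd (sy 1) (nd
  (nd (nd (sx 1) (nd (nd (sy 1) (sy 2) (nd (sx 1) (sx 2) (nd (sx 4) (nd (sx 20) (sx 1) (rf 1 1 60))
  (sx 1)))) (sx 1) (nd (sy 1) (sy 2) (nd (rf 0 1 45) (nd (nd (sx 1) (nd (sy 1) (nd (sx 2) (sx 1) (nd
  (nd (rf 0 0 6) (sy 1) (sy 13)) (rf 2 0 29) (sx 1))) (sy 2)) (rf 1 0 61)) (sx 1) (sy 1)) (sx 1))))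
  (sx 2)) (sy 1) (rf 0 1 1)) (sx 3) (sx 1)) (rf 1 0 6)))

noncomputable def e58_63 : Cx × HT :=
  (⟨0, 36, 5, ⟨22047511074, 36662970516⟩, ⟨18, 4⟩⟩, nd (sx 1) (rf 2 1 49) (nd (sy 1) (nd (nd (sx 1)
  (nd (sy 2) (sy 1) (nd (sx 20) (sx 1) (rf 1 1 30))) (sx 2)) (sx 3) (sx 1)) (sy 3)))

noncomputable def e58_64 : Cx × HT :=
  (⟨16, 9, 7, ⟨74, 164⟩, ⟨69, 40⟩⟩, nd (sx 1) (rf 2 1 28) (nd (sy 2) (sy 1) (nd (rf 0 1 5) (nd (sx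
  3) (sx 1) (nd (nd (nd (sx 1) (nd (rf 0 0 49) (sx 1) (nd (nd (sx 3) (sx 8) (sx 1)) (sy 1) (sy 3)))
  (rf 1 0 50)) (sx 2) (sx 1)) (rf 1 1 38) (sy 1))) (sx 1))))

noncomputable def e58_65 : Cx × HT :=
  (⟨30, 165, 3, ⟨7721601362595799576753544541749913042349141084498,
  26502966793775125419198053407754318828577038570632⟩, ⟨2, 4⟩⟩, nd (sy 1) (rf 0 0 38) (nd (sx 1) (sx
  2) (nd (nd (sx 1) (nd (sy 1) (nd (sx 4) (sx 1) (nd (nd (rf 0 0 6) (sy 1) (nd (sx 1) (sx 3) (nd (nd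
  (sx 2) (nd (rf 0 0 27) (sx 1) (nd (sy 1) (rf 1 1 36) (nd (nd (sx 1) (nd (rf 0 0 37) (sx 1) (nd (nd
  (sx 3) (nd (nd (sy 1) (rf 0 0 64) (nd (sx 1) (rf 2 1 40) (nd (nd (rf 0 0 11) (nd (sx 3) (sx 1) (nd
  (sy 1) (nd (nd (sx 1) (sy 1) (nd (sx 2) (nd (rf 2 0 52) (nd (nd (sx 1) (rf 2 1 29) (nd (nd (nd (sy
  1) (rf 0 1 26) (nd (sx 1) (nd (rf 0 0 56) (sx 1) (nd (rf 1 1 20) (nd (nd (sx 1) (sy 1) (nd (sx 2)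
  (sx 96) (sx 1))) (rf 2 0 12) (sx 1)) (sy 1))) (sx 2))) (sx 3) (sx 1)) (sy 1) (sy 2))) (sx 1) (rf 1
  1 35)) (sy 1)) (sx 1))) (sx 2) (sx 1)) (sy 2))) (sx 1)) (rf 1 0 26) (sy 1)))) (sx 1) (sx 2)) (sx
  1)) (sy 1) (rf 1 1 42))) (sy 1)) (sx 2) (sx 1)))) (sx 1)) (rf 1 0 26) (sy 1)))) (rf 2 0 29) (sx
  1))) (sy 2)) (sx 2)) (rf 2 0 63) (sx 1))))

noncomputable def e58_66 : Cx × HT :=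
  (⟨16, 138, 4, ⟨57530413289336857026469294292851634639122,
  93456240283086660404252385328835433409092⟩, ⟨9, 2⟩⟩, nd (sx 1) (nd (nd (sx 2) (sx 1) (nd (rf 0 1
  27) (nd (sy 1) (nd (nd (sx 1) (sy 1) (nd (rf 0 1 37) (nd (nd (sx 3) (sx 1) (nd (nd (sy 1) (nd (sx
  1) (nd (nd (rf 0 1 11) (sx 1) (nd (sx 3) (nd (sy 1) (sy 2) (nd (nd (sx 1) (nd (sx 2) (sx 1) (nd
  (rf 1 1 52) (sy 1) (nd (nd (sx 1) (nd (nd (nd (sy 1) (nd (sx 1) (sx 2) (nd (rf 0 1 56) (nd (rf 2 0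
  20) (sy 1) (nd (nd (sx 1) (nd (sx 2) (sx 1) (nd (nd (rf 0 1 54) (nd (nd (sy 1) (nd (sx 1) (rf 2 1
  28) (nd (sy 2) (sy 1) (nd (rf 0 1 5) (nd (sx 3) (sx 1) (rf 1 1 65)) (sx 1)))) (rf 0 0 53)) (sx 1)
  (sx 2)) (sx 1)) (sy 1) (sy 2))) (sy 1)) (sx 1) (rf 1 1 12))) (sx 1))) (rf 0 0 26)) (sx 1) (sx 3))
  (sy 2) (sy 1)) (rf 1 0 29)) (rf 2 0 35) (sx 1)))) (sy 1)) (sx 1) (sx 2))) (sx 1))) (sy 1) (rf 2 1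
  26)) (rf 1 0 40)) (rf 0 1 64)) (sx 2) (sx 1))) (rf 2 0 42) (sy 1)) (sx 1))) (sx 1) (sx 2)) (rf 2 0
  36)) (sx 1))) (sy 1) (rf 2 1 26)) (sx 3))

noncomputable def e58_67 : Cx × HT :=
  (⟨5, 112, 5, ⟨2942420395532510715064017748660498, 857269961973083869017203067136580⟩, ⟨17, 4⟩⟩, nd
  (rf 0 0 42) (sy 1) (nd (sx 1) (nd (sx 2) (sx 1) (nd (nd (nd (sy 1) (rf 0 1 26) (nd (sx 1) (nd (nd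
  (sy 2) (nd (sx 1) (sx 2) (nd (nd (sx 1) (nd (sy 1) (nd (rf 0 0 35) (sx 1) (nd (nd (sy 2) (sy 1)
  (nd (sx 1) (sx 3) (nd (nd (sx 2) (nd (nd (sy 1) (nd (sx 1) (rf 2 1 12) (nd (nd (sx 1) (nd (sy 1)
  (sy 2) (nd (nd (sx 1) (sx 2) (nd (nd (rf 0 1 28) (nd (sy 1) (nd (nd (sx 1) (nd (rf 2 1 38) (sy 1)
  (nd (sx 2) (sx 1) (nd (rf 0 1 63) (nd (nd (nd (sx 1) (sx 4) (nd (rf 0 1 29) (nd (sy 1) (rf 2 1 6)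
  (rf 2 0 66)) (sx 1))) (sy 1) (sy 2)) (sx 1) (sx 2)) (sx 1)))) (sx 3)) (sx 1) (rf 1 1 5)) (sy 2))
  (sx 1)) (rf 1 0 53) (sy 1))) (sx 1) (rf 1 1 54))) (sx 2)) (sy 1) (sx 1))) (rf 0 0 20)) (sx 1) (rf
  1 1 56)) (sx 1)) (rf 1 0 26) (sy 1)))) (rf 2 0 29) (sx 1))) (rf 2 1 52)) (sx 2)) (sy 1) (sx 1)))
  (sy 1)) (sx 1) (sx 3)) (rf 1 1 11))) (rf 2 0 40) (sx 1)) (rf 1 1 64) (sy 1))) (sx 3)))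

noncomputable def e58_68 : Cx × HT :=
  (⟨30, 85, 5, ⟨6387158945002286650368594, 10375726975718386802444424⟩, ⟨8, 5⟩⟩, nd (sy 2) (nd (sx
  1) (sx 2) (nd (nd (sx 1) (nd (sy 1) (nd (rf 0 0 35) (sx 1) (nd (nd (sy 2) (sy 1) (nd (sx 1) (sx 3)
  (nd (nd (sx 2) (nd (nd (sy 1) (nd (sx 1) (rf 2 1 12) (nd (nd (sx 1) (nd (sy 1) (sy 2) (nd (nd (sx
  1) (sx 2) (nd (nd (rf 0 1 28) (nd (sy 1) (nd (nd (sx 1) (nd (rf 2 1 38) (sy 1) (nd (sx 2) (sx 1)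
  (nd (rf 0 1 63) (nd (nd (nd (sx 1) (sx 4) (nd (rf 0 1 29) (nd (sy 1) (rf 2 1 6) (nd (sx 3) (sx 1)
  (nd (rf 1 1 26) (nd (nd (sx 1) (rf 2 1 27) (nd (rf 1 0 36) (sy 1) (nd (sx 2) (nd (nd (sx 1) (rf 2
  1 37) (rf 1 0 67)) (sx 1) (sy 1)) (sx 1)))) (sx 2) (sx 1)) (sy 1)))) (sx 1))) (sy 1) (sy 2)) (sx
  1) (sx 2)) (sx 1)))) (sx 3)) (sx 1) (rf 1 1 5)) (sy 2)) (sx 1)) (rf 1 0 53) (sy 1))) (sx 1) (rf 1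
  1 54))) (sx 2)) (sy 1) (sx 1))) (rf 0 0 20)) (sx 1) (rf 1 1 56)) (sx 1)) (rf 1 0 26) (sy 1)))) (rf
  2 0 29) (sx 1))) (rf 2 1 52)) (sx 2)) (sy 1) (sx 1))) (sy 1))

noncomputable def e58_69 : Cx × HT :=
  (⟨16, 58, 9, ⟨163337143562342674, 77305190084266564⟩, ⟨81, 138⟩⟩, nd (sx 1) (nd (nd (sx 2) (sx 1)
  (nd (nd (sy 1) (rf 0 1 20) (nd (sx 1) (nd (nd (sx 1) (sx 2) (nd (sy 1) (nd (nd (sx 1) (nd (nd (rf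
  0 0 28) (sx 1) (nd (sy 1) (sy 2) (nd (nd (sx 1) (sx 3) (nd (rf 1 0 38) (nd (sx 2) (nd (rf 0 0 63)
  (sx 1) (nd (nd (nd (sx 1) (nd (rf 0 0 29) (sx 1) (nd (sy 1) (nd (sx 3) (nd (rf 2 0 26) (sy 1) (nd
  (nd (sx 1) (nd (rf 2 1 36) (nd (sx 2) (sx 1) (nd (nd (sx 1) (nd (sy 1) (rf 2 1 42) (nd (nd (sx 1)
  (sx 2) (nd (rf 1 0 64) (nd (rf 0 1 40) (nd (rf 2 0 26) (sy 1) (nd (nd (sx 1) (rf 2 1 68) (sx 3))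
  (sx 1) (rf 1 0 11))) (sx 1)) (sy 1))) (sx 1) (sx 3))) (rf 1 0 37)) (sy 1) (sx 1))) (sy 1)) (rf 1 0
  27)) (sx 1) (sx 2))) (sx 1)) (rf 1 0 6))) (sx 4)) (sy 2) (sy 1)) (sx 2) (sx 1))) (sx 1)) (sy 1)))
  (rf 2 0 5) (sx 1)))) (sy 1) (rf 2 1 53)) (sx 2)) (rf 2 0 54) (sx 1)) (sy 2))) (sx 1) (sy 1)) (rf 1
  0 12))) (rf 2 0 56) (sx 1))) (sy 1) (rf 2 1 26)) (sx 3))

noncomputable def e58_70 : Cx × HT :=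
  (⟨5, 32, 5, ⟨1151937098, 709117092⟩, ⟨5, 8⟩⟩, nd (sy 2) (sy 1) (nd (sx 1) (nd (sx 2) (sx 1) (nd
  (rf 1 1 53) (nd (nd (nd (sx 1) (nd (nd (sy 1) (rf 0 0 38) (nd (sx 1) (sx 2) (nd (nd (sx 1) (nd (sy
  1) (nd (sx 4) (sx 1) (nd (nd (rf 0 0 6) (sy 1) (nd (sx 1) (sx 3) (nd (nd (sx 2) (nd (rf 0 0 27)
  (sx 1) (nd (sy 1) (rf 1 1 36) (nd (nd (sx 1) (nd (rf 0 0 37) (sx 1) (nd (nd (sx 3) (nd (nd (sy 1)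
  (rf 0 0 64) (nd (sx 1) (rf 2 1 40) (nd (nd (rf 0 0 11) (nd (sx 3) (sx 1) (nd (sy 1) (nd (nd (sx 1)
  (sy 1) (nd (sx 2) (nd (rf 2 0 52) (nd (nd (sx 1) (rf 2 1 29) (nd (rf 1 0 69) (sy 1) (sy 2))) (sx
  1) (rf 1 1 35)) (sy 1)) (sx 1))) (sx 2) (sx 1)) (sy 2))) (sx 1)) (rf 1 0 26) (sy 1)))) (sx 1) (sx
  2)) (sx 1)) (sy 1) (rf 1 1 42))) (sy 1)) (sx 2) (sx 1)))) (sx 1)) (rf 1 0 26) (sy 1)))) (rf 2 0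
  29) (sx 1))) (sy 2)) (sx 2)) (rf 2 0 63) (sx 1)))) (sx 1) (sx 3)) (rf 1 0 5)) (sy 1) (sy 2)) (rf 2
  0 28) (sx 1)) (sy 1))) (rf 1 0 54)))

noncomputable def e58_71 : Cx × HT :=
  (⟨30, 13, 3, ⟨4642, 1352⟩, ⟨4, 1⟩⟩, nd (nd (sx 1) (sx 2) (nd (sy 1) (nd (nd (rf 0 0 42) (sy 1) (nd
  (sx 1) (nd (sx 2) (sx 1) (nd (nd (nd (sy 1) (rf 0 1 26) (nd (sx 1) (nd (nd (sy 2) (nd (sx 1) (sx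
  2) (nd (nd (sx 1) (nd (sy 1) (nd (rf 0 0 35) (sx 1) (nd (nd (sy 2) (sy 1) (nd (sx 1) (sx 3) (nd
  (nd (sx 2) (nd (nd (sy 1) (nd (sx 1) (rf 2 1 12) (nd (nd (sx 1) (rf 2 1 70) (sx 2)) (sy 1) (sx
  1))) (rf 0 0 20)) (sx 1) (rf 1 1 56)) (sx 1)) (rf 1 0 26) (sy 1)))) (rf 2 0 29) (sx 1))) (rf 2 1
  52)) (sx 2)) (sy 1) (sx 1))) (sy 1)) (sx 1) (sx 3)) (rf 1 1 11))) (rf 2 0 40) (sx 1)) (rf 1 1 64)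
  (sy 1))) (sx 3))) (sx 1) (rf 1 1 37)) (sx 1))) (rf 0 0 36) (sy 1))

noncomputable def e58_72 : Cx × HT :=
  (⟨32, 61, 11, ⟨1306647672301692194, 380926165382681172⟩, ⟨1092, 658⟩⟩, nd (sx 1) (nd (sy 1) (sx 1)
  (nd (sx 32) (rf 2 0 47) (sx 1))) (rf 1 0 45))

noncomputable def e58_73 : Cx × HT :=
  (⟨0, 7, 3, ⟨34, 72⟩, ⟨2, 0⟩⟩, nd (sx 1) (sx 2) (nd (sy 1) (sy 2) (nd (sx 4) (nd (nd (rf 0 0 6) (nd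
  (sx 1) (nd (nd (sx 2) (sx 1) (nd (rf 0 1 27) (rf 2 0 71) (sx 1))) (sy 1) (rf 2 1 26)) (sx 3)) (sy
  1)) (sx 1) (rf 1 1 29)) (sx 1))))

noncomputable def e58_74 : Cx × HT :=
  (⟨25, 12, 223, ⟨1098, 676⟩, ⟨3613972379829598157078357314779634197228674938549201998371641173154,
  2226628223108490403730351622840441386218561674245643148448930237001⟩⟩, nd (sx 1) (rf 2 1 71) (nd
  (nd (rf 0 1 12) (nd (sy 1) (sx 1) (nd (nd (sy 2) (nd (sx 1) (rf 2 1 54) (nd (sx 2) (nd (rf 2 0 53)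
  (sy 1) (nd (nd (nd (sx 1) (rf 2 1 5) (nd (nd (sy 1) (nd (sx 1) (nd (rf 0 0 73) (sx 1) (nd (nd (sy
  3) (nd (sx 1) (sx 3) (nd (sx 2) (nd (nd (rf 0 0 30) (sx 1) (nd (sy 1) (rf 1 1 32) (nd (nd (sx 1)
  (nd (rf 2 1 44) (nd (nd (sx 1) (sy 1) (nd (rf 0 1 47) (nd (nd (nd (sx 1) (nd (sy 1) (rf 2 0 6) (nd
  (sx 2) (sx 1) (nd (sy 2) (nd (nd (sx 1) (rf 2 1 58) (nd (nd (sx 2) (nd (sy 1) (sx 1) (sy 120)) (sx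
  1)) (sy 1) (sy 4))) (rf 2 0 11) (sx 1)) (sy 1)))) (sx 3)) (sx 1) (rf 1 1 10)) (sy 2) (sy 1)) (sx
  1))) (sx 1) (rf 1 1 45)) (sy 1)) (sx 4)) (sx 2) (sx 1)))) (sy 1) (sy 2)) (sx 1))) (sy 1)) (rf 2 0
  49) (sx 1))) (sx 2)) (rf 0 1 38)) (sx 3) (sx 1))) (sy 2) (sy 1)) (sx 1) (rf 1 1 28))) (sx 1))) (sy
  1)) (sx 2) (sx 1))) (sx 1)) (rf 1 0 20) (sy 1)))

noncomputable def e58_75 : Cx × HT :=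
  (⟨15, 50, 206, ⟨185999104190762, 638011558741060⟩,
  ⟨27572421110760483986498697775113175943211936481851211535428170,
  16987825188510821561663449270938426103352063554730553805915300⟩⟩, nd (sy 1) (nd (sx 1) (rf 2 1 28)
  (nd (sy 2) (sy 1) (nd (rf 0 1 5) (nd (sx 3) (sx 1) (nd (nd (nd (sx 1) (nd (rf 0 0 49) (sx 1) (nd
  (nd (sx 3) (nd (nd (sy 1) (sy 2) (nd (sx 1) (nd (rf 2 1 32) (nd (sx 2) (sx 1) (nd (nd (rf 0 1 72)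
  (sy 1) (nd (sx 1) (nd (nd (sx 1) (sx 2) (nd (sy 1) (nd (nd (sx 1) (nd (rf 2 1 39) (sy 1) (nd (sx
  4) (sx 1) (nd (rf 1 1 26) (nd (nd (sx 1) (sx 3) (nd (nd (sx 2) (nd (sy 1) (sx 1) (nd (nd (nd (sx
  1) (nd (rf 0 0 29) (sx 1) (nd (sy 1) (nd (sx 3) (nd (rf 2 0 26) (sy 1) (nd (rf 0 0 74) (sx 1) (sx
  2))) (sx 1)) (sy 2))) (rf 1 0 35)) (rf 0 1 52) (sy 1)) (sx 2) (sx 1))) (sx 1)) (sy 1) (sy 2))) (rf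
  2 0 11) (sx 1)) (sy 1)))) (sx 2)) (rf 2 0 62) (sx 1)) (rf 1 0 43))) (sx 1) (sy 1)) (rf 1 0 33)))
  (sx 4) (sx 1))) (sy 1)) (rf 1 0 30))) (sx 1) (sx 2)) (sx 1)) (sy 1) (sy 3))) (rf 1 0 73)) (sx 2)
  (sx 1)) (rf 1 1 38) (sy 1))) (sx 1)))) (rf 0 0 53))

noncomputable def e58_76 : Cx × HT :=
  (⟨0, 23, 190, ⟨2249250, 4753556⟩, ⟨889340034993043092140555219479107734906875481651565187346,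
  259213641182110924707999409041418855336792961955727444548⟩⟩, nd (sx 1) (rf 2 1 49) (nd (sy 1) (nd
  (nd (sx 1) (nd (sy 2) (sy 1) (nd (nd (nd (sx 1) (sx 2) (nd (sx 4) (nd (sy 1) (nd (rf 0 0 45) (sx
  1) (nd (nd (sx 1) (nd (sy 1) (sy 2) (nd (rf 0 0 10) (sx 1) (nd (sx 3) (nd (nd (nd (sy 1) (nd (sx
  1) (rf 2 1 11) (nd (nd (sy 4) (sy 1) (nd (sx 1) (nd (nd (sx 1) (sx 2) (nd (sy 1) (sy 3) (nd (rf 0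
  1 35) (nd (nd (sy 2) (nd (sx 1) (nd (nd (sx 2) (sx 1) (nd (nd (sy 1) (rf 0 1 20) (nd (sx 1) (nd
  (nd (sx 1) (sx 2) (nd (sy 1) (nd (nd (sx 1) (rf 2 1 75) (sx 2)) (rf 2 0 54) (sx 1)) (sy 2))) (sx
  1) (sy 1)) (rf 1 0 12))) (rf 2 0 71) (sx 1))) (sy 1) (rf 2 1 26)) (sx 3)) (sy 1)) (sx 1) (rf 1 1
  29)) (sx 1)))) (sx 1) (sy 1)) (sx 2))) (rf 2 0 58) (sx 1))) (sy 2)) (sx 1) (sx 2)) (rf 2 1 6) (sy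
  1)) (sx 1)))) (rf 1 0 47)) (sy 1) (sx 1))) (rf 2 0 44)) (sx 1))) (rf 0 0 32) (sy 1)) (sx 1) (rf 1
  1 30))) (sx 2)) (sx 3) (sx 1)) (sy 3)))

noncomputable def e58_77 : Cx × HT :=
  (⟨25, 60, 173, ⟨190463082691340586, 309134585764660292⟩,
  ⟨6785125999397606598972741847832548026328090527737161,
  1977643136460196874298091194468832819647163100858516⟩⟩, nd (sx 1) (sx 4) (nd (nd (rf 0 1 33) (nd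
  (sy 1) (sx 1) (nd (nd (rf 0 1 43) (nd (sx 1) (rf 2 1 62) (nd (sx 2) (nd (nd (nd (sy 1) (nd (sx 1)
  (rf 2 1 11) (nd (nd (sy 2) (sy 1) (nd (sx 1) (nd (nd (sx 1) (sx 2) (nd (sy 1) (rf 1 0 52) (nd (rf
  0 1 35) (nd (nd (sy 2) (nd (sx 1) (nd (nd (sx 2) (sx 1) (nd (nd (sy 1) (rf 0 1 20) (nd (sx 1) (nd
  (nd (sx 1) (sx 2) (nd (sy 1) (nd (nd (sx 1) (nd (nd (rf 0 0 28) (sx 1) (nd (sy 1) (sy 2) (nd (nd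
  (sx 1) (sx 3) (nd (rf 1 0 38) (nd (sx 2) (nd (rf 0 0 76) (sx 1) (rf 1 1 73)) (sx 1)) (sy 1))) (rf
  2 0 5) (sx 1)))) (sy 1) (rf 2 1 53)) (sx 2)) (rf 2 0 54) (sx 1)) (sy 2))) (sx 1) (sy 1)) (rf 1 0
  12))) (rf 2 0 71) (sx 1))) (sy 1) (rf 2 1 26)) (sx 3)) (sy 1)) (sx 1) (rf 1 1 29)) (sx 1)))) (sx
  1) (sy 1)) (sx 2))) (sx 3) (sx 1))) (rf 0 0 26)) (sx 1) (sx 4)) (sy 1) (rf 2 0 39)) (sx 1))) (sy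
  1)) (sx 2) (sx 1))) (sx 1)) (sy 1) (rf 1 0 72)))

noncomputable def e58_78 : Cx × HT :=
  (⟨15, 34, 156, ⟨9735283794, 2838121096⟩, ⟨24489229409461618291120552881701733787888685329,
  51766403193646290580541548521671661577820514890⟩⟩, nd (rf 0 1 6) (sy 1) (nd (sx 1) (sx 2) (nd (nd
  (rf 0 1 11) (nd (rf 0 0 58) (sx 1) (nd (sy 1) (nd (nd (sx 1) (sy 1) (nd (sx 2) (nd (sy 3) (nd (nd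
  (sx 1) (rf 2 1 29) (nd (nd (nd (sy 1) (rf 0 1 26) (nd (sx 1) (nd (rf 0 0 71) (sx 1) (nd (rf 1 1
  20) (nd (nd (sx 1) (sy 1) (nd (sx 2) (nd (nd (rf 0 0 54) (sx 1) (nd (nd (sy 1) (rf 0 1 53) (nd (sx
  1) (nd (sy 2) (nd (rf 0 0 5) (sx 1) (nd (sx 3) (nd (nd (nd (sx 1) (rf 2 1 73) (nd (rf 0 1 49) (nd
  (nd (sx 3) (sx 1) (nd (nd (sy 1) (nd (sx 1) (rf 2 1 30) (nd (rf 1 0 32) (sy 1) (nd (sx 2) (rf 2 0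
  77) (sx 1)))) (sy 2)) (sx 2) (sx 1))) (sy 3) (sy 1)) (sx 1))) (sx 1) (sx 2)) (sy 1) (rf 2 0 38))
  (sx 1))) (sy 1)) (rf 1 0 28))) (sx 2) (sx 1))) (sy 2) (sy 1)) (sx 1))) (rf 2 0 12) (sx 1)) (sy
  1))) (sx 2))) (sx 3) (sx 1)) (sy 1) (sy 2))) (sx 1) (rf 1 1 35)) (sy 1)) (sx 1))) (sx 2) (sx 1))
  (sy 4))) (sx 1)) (sy 2) (sy 1))))

noncomputable def e58_79 : Cx × HT :=
  (⟨0, 7, 140, ⟨34, 72⟩, ⟨230227962189842582947818002950962728314004,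
  373675985862146275194100233180263271909922⟩⟩, nd (sx 1) (sx 2) (nd (sy 1) (rf 1 0 52) (nd (rf 0 1
  35) (nd (nd (sy 2) (nd (sx 1) (nd (nd (sx 2) (sx 1) (nd (nd (sy 1) (rf 0 1 20) (nd (sx 1) (nd (nd
  (sx 1) (sx 2) (nd (sy 1) (nd (nd (sx 1) (nd (nd (rf 0 0 28) (sx 1) (nd (sy 1) (sy 2) (nd (nd (sx
  1) (sx 3) (nd (rf 1 0 38) (nd (sx 2) (nd (nd (sx 1) (rf 2 1 49) (nd (sy 1) (nd (nd (sx 1) (nd (sy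
  2) (sy 1) (nd (nd (nd (sx 1) (sx 2) (nd (sx 4) (nd (sy 1) (nd (rf 0 0 45) (sx 1) (nd (nd (sx 1)
  (nd (sy 1) (sy 2) (nd (rf 0 0 10) (sx 1) (nd (sx 3) (rf 2 0 78) (sx 1)))) (rf 1 0 47)) (sy 1) (sx
  1))) (rf 2 0 44)) (sx 1))) (rf 0 0 32) (sy 1)) (sx 1) (rf 1 1 30))) (sx 2)) (sx 3) (sx 1)) (sy
  3))) (sx 1) (rf 1 1 73)) (sx 1)) (sy 1))) (rf 2 0 5) (sx 1)))) (sy 1) (rf 2 1 53)) (sx 2)) (rf 2 0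
  54) (sx 1)) (sy 2))) (sx 1) (sy 1)) (rf 1 0 12))) (rf 2 0 71) (sx 1))) (sy 1) (rf 2 1 26)) (sx 3))
  (sy 1)) (sx 1) (rf 1 1 29)) (sx 1))))

noncomputable def e58_80 : Cx × HT :=
  (⟨25, 44, 123, ⟨4717019436106, 2906236002980⟩, ⟨2850921522996111108353425851289850402,
  1756499955672016776640457175834371401⟩⟩, nd (sx 1) (rf 2 1 71) (nd (nd (rf 0 1 12) (nd (sy 1) (sx
  1) (nd (nd (sy 2) (nd (sx 1) (rf 2 1 54) (nd (sx 2) (nd (rf 2 0 53) (sy 1) (nd (nd (nd (sx 1) (rf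
  2 1 5) (nd (nd (sy 1) (nd (sx 1) (nd (rf 0 0 73) (sx 1) (nd (nd (sy 3) (nd (sx 1) (sx 3) (nd (sx
  2) (nd (nd (rf 0 0 30) (sx 1) (nd (sy 1) (rf 1 1 32) (nd (nd (sx 1) (nd (nd (rf 0 0 33) (sx 1) (nd
  (sy 1) (nd (nd (rf 0 0 43) (sy 1) (nd (sx 1) (nd (sx 2) (sx 1) (nd (nd (nd (sy 1) (rf 0 1 26) (nd
  (sx 1) (nd (nd (sy 2) (nd (sx 1) (sx 2) (nd (rf 0 1 79) (sy 1) (sx 1))) (sy 1)) (sx 1) (sx 3)) (rf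
  1 0 11))) (sx 4) (sx 1)) (rf 1 1 39) (sy 1))) (rf 1 0 62))) (sx 1) (sx 2)) (sx 1))) (rf 2 1 72)
  (sy 1)) (sx 4)) (sx 2) (sx 1)))) (sy 1) (sy 2)) (sx 1))) (sy 1)) (rf 2 0 49) (sx 1))) (sx 2)) (rf
  0 1 38)) (sx 3) (sx 1))) (sy 2) (sy 1)) (sx 1) (rf 1 1 28))) (sx 1))) (sy 1)) (sx 2) (sx 1))) (sx
  1)) (rf 1 0 20) (sy 1)))

noncomputable def e58_81 : Cx × HT :=
  (⟨15, 18, 106, ⟨43306, 148548⟩, ⟨13401031155944952214358956724810,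
  45977802182092278276341045037220⟩⟩, nd (sy 1) (nd (sx 1) (rf 2 1 28) (nd (sy 2) (sy 1) (nd (rf 0 1
  5) (nd (sx 3) (sx 1) (nd (nd (nd (sx 1) (nd (rf 0 0 49) (sx 1) (nd (nd (sx 3) (nd (nd (sy 1) (sy
  2) (nd (sx 1) (nd (rf 2 1 32) (nd (sx 2) (sx 1) (nd (nd (nd (sx 1) (rf 2 1 45) (nd (sy 1) (nd (nd
  (sy 2) (sy 1) (nd (sx 1) (rf 2 1 10) (nd (nd (rf 0 0 6) (nd (sx 1) (nd (nd (rf 0 0 11) (sx 1) (nd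
  (rf 0 1 58) (nd (sy 1) (sy 4) (nd (nd (sx 1) (nd (sx 2) (sx 1) (nd (sy 3) (sy 1) (nd (nd (sx 1)
  (nd (nd (nd (sy 1) (nd (sx 1) (sx 2) (rf 1 0 80)) (rf 0 0 26)) (sx 1) (sx 3)) (sy 2) (sy 1)) (rf 1
  0 29)) (rf 2 0 35) (sx 1)))) (sy 1)) (sx 1) (sx 2))) (sx 1))) (sy 1) (sy 2)) (sx 2)) (sy 1)) (sx
  3) (sx 1)))) (sx 1) (rf 1 1 47)) (sx 1))) (sy 1) (rf 0 1 44)) (sx 4) (sx 1))) (sy 1)) (rf 1 0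
  30))) (sx 1) (sx 2)) (sx 1)) (sy 1) (sy 3))) (rf 1 0 73)) (sx 2) (sx 1)) (rf 1 1 38) (sy 1))) (sx
  1)))) (rf 0 0 53))

noncomputable def e58_82 : Cx × HT :=
  (⟨0, 55, 90, ⟨9660455805145634, 20416369879713940⟩, ⟨701565585053898289128739090,
  204483507628554568700545604⟩⟩, nd (sx 1) (rf 2 1 49) (nd (sy 1) (nd (nd (sx 1) (nd (sy 2) (sy 1)
  (nd (nd (nd (sx 1) (sx 2) (nd (sx 4) (nd (sy 1) (rf 2 0 72) (nd (nd (sx 1) (nd (sx 2) (sx 1) (nd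
  (nd (rf 0 1 62) (nd (nd (sy 1) (rf 0 0 39) (nd (sx 1) (sx 4) (nd (nd (rf 0 1 11) (nd (sx 3) (sx 1)
  (nd (sy 1) (nd (nd (sx 1) (sy 1) (nd (sx 2) (nd (rf 2 0 52) (nd (nd (sx 1) (rf 2 1 29) (nd (nd (nd
  (sy 1) (rf 0 1 26) (nd (sx 1) (nd (rf 0 0 71) (sx 1) (nd (rf 1 1 20) (nd (nd (sx 1) (sy 1) (nd (sx
  2) (nd (nd (rf 0 0 54) (sx 1) (nd (rf 0 1 81) (sx 2) (sx 1))) (sy 2) (sy 1)) (sx 1))) (rf 2 0 12)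
  (sx 1)) (sy 1))) (sx 2))) (sx 3) (sx 1)) (sy 1) (sy 2))) (sx 1) (rf 1 1 35)) (sy 1)) (sx 1))) (sx
  2) (sx 1)) (sy 2))) (sx 1)) (rf 1 0 26) (sy 1)))) (sx 1) (sx 2)) (sx 1)) (sy 1) (rf 1 1 43))) (sy
  1)) (sx 1) (rf 1 1 33))) (sx 1))) (rf 0 0 32) (sy 1)) (sx 1) (rf 1 1 30))) (sx 2)) (sx 3) (sx 1))
  (sy 3)))

noncomputable def e58_83 : Cx × HT :=
  (⟨25, 28, 73, ⟨44345642, 71976004⟩, ⟨2532126972983760201033, 5352520637923418343572⟩⟩, nd (sx 1)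
  (sx 4) (nd (rf 1 0 44) (sy 1) (nd (nd (sx 1) (nd (rf 0 0 47) (sx 1) (nd (nd (nd (sx 1) (sx 3) (nd
  (sy 1) (nd (sx 2) (nd (sy 2) (sy 1) (nd (nd (sx 1) (nd (nd (sx 2) (sx 1) (nd (sy 1) (nd (nd (nd
  (sx 1) (rf 2 1 35) (nd (rf 0 1 29) (nd (sy 1) (sy 2) (nd (sx 3) (sx 1) (nd (rf 1 1 26) (nd (nd (sx
  1) (nd (nd (rf 0 0 12) (sx 1) (nd (sy 1) (nd (nd (sy 2) (sy 1) (nd (sx 1) (nd (sx 2) (sx 1) (nd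
  (rf 1 1 53) (nd (nd (nd (sx 1) (nd (nd (sy 1) (rf 0 0 38) (nd (sx 1) (sx 2) (nd (rf 0 1 73) (rf 2
  0 82) (sx 1)))) (sx 1) (sx 3)) (rf 1 0 5)) (sy 1) (sy 2)) (rf 2 0 28) (sx 1)) (sy 1))) (rf 1 0
  54))) (sx 1) (sx 2)) (sx 1))) (sy 1) (rf 2 1 20)) (rf 1 0 71)) (sx 2) (sx 1)) (sy 1)))) (sx 1)))
  (sy 1) (sy 3)) (sx 1) (sx 2)) (sx 1))) (sy 4) (sy 1)) (rf 1 0 58)) (sx 1) (rf 1 1 11))) (sx 1))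
  (rf 1 1 6))) (rf 2 0 10) (sx 1)) (sy 1) (sy 2))) (sy 1)) (rf 2 0 45) (sx 1))))

noncomputable def e58_84 : Cx × HT :=
  (⟨15, 7, 56, ⟨42, 68⟩, ⟨11902506674439330, 19318595680112916⟩⟩, nd (sy 1) (rf 0 0 39) (nd (sx 1)
  (sx 4) (nd (nd (rf 0 1 11) (nd (sx 3) (sx 1) (nd (sy 1) (nd (nd (sx 1) (sy 1) (nd (sx 2) (nd (rf 2
  0 52) (nd (nd (sx 1) (rf 2 1 29) (nd (nd (nd (sy 1) (rf 0 1 26) (nd (sx 1) (nd (rf 0 0 56) (sx 1)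
  (nd (rf 1 1 20) (nd (nd (sx 1) (sy 1) (nd (sx 2) (nd (nd (rf 0 0 54) (sx 1) (nd (nd (sy 1) (rf 0 1
  53) (nd (sx 1) (nd (sy 2) (nd (rf 0 0 5) (sx 1) (nd (sx 3) (nd (nd (nd (sx 1) (rf 2 1 73) (nd (rf
  0 1 49) (nd (nd (sx 3) (sx 1) (nd (nd (sy 1) (nd (sx 1) (rf 2 1 30) (nd (rf 1 0 32) (sy 1) (nd (sx
  2) (rf 2 0 83) (sx 1)))) (sy 2)) (sx 2) (sx 1))) (sy 3) (sy 1)) (sx 1))) (sx 1) (sx 2)) (sy 1) (rf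
  2 0 38)) (sx 1))) (sy 1)) (rf 1 0 28))) (sx 2) (sx 1))) (sy 2) (sy 1)) (sx 1))) (rf 2 0 12) (sx
  1)) (sy 1))) (sx 2))) (sx 3) (sx 1)) (sy 1) (sy 2))) (sx 1) (rf 1 1 35)) (sy 1)) (sx 1))) (sx 2)
  (sx 1)) (sy 2))) (sx 1)) (rf 1 0 26) (sy 1))))

noncomputable def e58_85 : Cx × HT :=
  (⟨0, 39, 40, ⟨147406857378, 311529081416⟩, ⟨181617838660, 294778376466⟩⟩, nd (sx 1) (sx 2) (nd (sy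
  1) (sy 3) (nd (rf 0 1 35) (nd (nd (sy 2) (nd (sx 1) (nd (nd (sx 2) (sx 1) (nd (nd (sy 1) (rf 0 1
  20) (nd (sx 1) (nd (nd (sx 1) (sx 2) (nd (sy 1) (nd (nd (sx 1) (nd (nd (rf 0 0 28) (sx 1) (nd (sy
  1) (sy 2) (nd (nd (sx 1) (sx 3) (nd (rf 1 0 38) (nd (sx 2) (nd (nd (sx 1) (rf 2 1 49) (nd (sy 1)
  (nd (nd (sx 1) (nd (sy 2) (sy 1) (nd (nd (nd (sx 1) (sx 2) (nd (sx 4) (nd (sy 1) (rf 2 0 72) (nd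
  (nd (sx 1) (nd (sx 2) (sx 1) (nd (nd (rf 0 1 62) (nd (rf 0 0 84) (sx 1) (sx 2)) (sx 1)) (sy 1) (rf
  1 1 43))) (sy 1)) (sx 1) (rf 1 1 33))) (sx 1))) (rf 0 0 32) (sy 1)) (sx 1) (rf 1 1 30))) (sx 2))
  (sx 3) (sx 1)) (sy 3))) (sx 1) (rf 1 1 73)) (sx 1)) (sy 1))) (rf 2 0 5) (sx 1)))) (sy 1) (rf 2 1
  53)) (sx 2)) (rf 2 0 54) (sx 1)) (sy 2))) (sx 1) (sy 1)) (rf 1 0 12))) (rf 2 0 71) (sx 1))) (sy 1)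
  (rf 2 1 26)) (sx 3)) (sy 1)) (sx 1) (rf 1 1 29)) (sx 1))))

noncomputable def e58_86 : Cx × HT :=
  (⟨25, 12, 23, ⟨1098, 676⟩, ⟨1385634, 4753993⟩⟩, nd (sx 1) (rf 2 1 71) (nd (nd (rf 0 1 12) (nd (sy
  1) (sx 1) (nd (nd (sy 2) (nd (sx 1) (rf 2 1 54) (nd (sx 2) (nd (rf 2 0 53) (sy 1) (nd (nd (nd (sx
  1) (rf 2 1 5) (nd (nd (sy 1) (nd (sx 1) (nd (rf 0 0 73) (sx 1) (nd (nd (sy 3) (nd (sx 1) (sx 3)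
  (nd (sx 2) (nd (nd (rf 0 0 30) (sx 1) (nd (sy 1) (rf 1 1 32) (nd (nd (sx 1) (nd (rf 2 1 44) (nd
  (nd (sx 1) (sy 1) (nd (rf 0 1 47) (nd (nd (nd (sx 1) (nd (sy 1) (rf 2 0 6) (nd (sx 2) (sx 1) (nd
  (sy 2) (nd (nd (sx 1) (rf 2 1 58) (nd (nd (sx 2) (nd (sy 1) (sx 1) (rf 1 1 85)) (sx 1)) (sy 1) (sy
  4))) (rf 2 0 11) (sx 1)) (sy 1)))) (sx 3)) (sx 1) (rf 1 1 10)) (sy 2) (sy 1)) (sx 1))) (sx 1) (rf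
  1 1 45)) (sy 1)) (sx 4)) (sx 2) (sx 1)))) (sy 1) (sy 2)) (sx 1))) (sy 1)) (rf 2 0 49) (sx 1))) (sx
  2)) (rf 0 1 38)) (sx 3) (sx 1))) (sy 2) (sy 1)) (sx 1) (rf 1 1 28))) (sx 1))) (sy 1)) (sx 2) (sx
  1))) (sx 1)) (rf 1 0 20) (sy 1)))

noncomputable def e58_87 : Cx × HT :=
  (⟨10, 6, 16, ⟨34, 8⟩, ⟨37140, 10825⟩⟩, nd (sx 1) (sx 2) (nd (rf 1 0 39) (nd (sx 4) (nd (rf 2 0 26)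
  (sy 1) (nd (nd (sx 1) (nd (nd (sx 2) (sx 1) (nd (sy 1) (nd (nd (nd (sx 1) (rf 2 1 35) (nd (rf 0 1
  29) (nd (sy 1) (sy 2) (nd (sx 3) (sx 1) (nd (rf 1 1 26) (nd (rf 0 1 86) (sx 2) (sx 1)) (sy 1))))
  (sx 1))) (sy 1) (rf 0 0 52)) (sx 1) (sx 2)) (sx 1))) (sy 2) (sy 1)) (sx 3)) (sx 1) (rf 1 1 11)))
  (sx 1)) (sy 1)))

noncomputable def e58_88 : Cx × HT :=
  (⟨30, 4, 18, ⟨2, 4⟩, ⟨148562, 43301⟩⟩, nd (nd (sx 1) (nd (sy 1) (sx 1) (nd (rf 0 1 61) (nd (sy 2)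
  (nd (nd (sx 1) (rf 2 1 29) (nd (nd (nd (sy 1) (rf 0 1 26) (nd (sx 1) (nd (nd (nd (sx 1) (sx 2) (nd
  (sy 1) (nd (nd (rf 0 0 42) (sy 1) (sy 13)) (sx 1) (rf 1 1 37)) (sx 1))) (rf 0 0 36) (sy 1)) (sx 1)
  (rf 1 1 27)) (sx 2))) (rf 2 0 46) (sx 1)) (sy 1) (rf 1 1 6))) (sx 1) (sx 2)) (sy 1)) (sx 1))) (rf
  1 0 45)) (sy 2) (sy 1))

noncomputable def e58_89 : Cx × HT :=
  (⟨32, 29, 18, ⟨304227618, 88691284⟩, ⟨42053, 150162⟩⟩, nd (sx 1) (rf 2 1 33) (nd (nd (sx 1) (nd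
  (sy 1) (rf 2 1 43) (nd (rf 0 0 87) (sx 1) (rf 1 1 62))) (sx 2)) (sy 1) (sx 1)))

noncomputable def e58_90 : Cx × HT :=
  (⟨32, 21, 23, ⟨346450, 562312⟩, ⟨4805204, 1345673⟩⟩, nd (sx 1) (sx 2) (nd (rf 0 1 73) (nd (nd (sy
  3) (sy 1) (nd (sx 1) (nd (sx 2) (sx 1) (nd (nd (rf 0 1 30) (nd (sy 1) (nd (nd (sx 1) (sx 4) (nd
  (rf 1 0 89) (sy 1) (nd (nd (sx 1) (nd (rf 0 0 47) (sx 1) (nd (nd (nd (sx 1) (sx 3) (nd (sy 1) (nd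
  (sx 2) (nd (sy 2) (sy 1) (nd (nd (sx 1) (nd (nd (sx 2) (sx 1) (nd (sy 1) (nd (nd (nd (sx 1) (rf 2
  1 35) (nd (rf 0 1 29) (nd (sy 1) (sy 2) (nd (sx 3) (sx 1) (nd (rf 1 1 26) (nd (nd (sx 1) (nd (nd
  (rf 0 0 12) (sx 1) (nd (sy 1) (nd (nd (sy 2) (sy 1) (sy 20)) (sx 1) (sx 2)) (sx 1))) (sy 1) (rf 2
  1 20)) (rf 1 0 71)) (sx 2) (sx 1)) (sy 1)))) (sx 1))) (sy 1) (sy 3)) (sx 1) (sx 2)) (sx 1))) (sy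
  4) (sy 1)) (rf 1 0 58)) (sx 1) (rf 1 0 11))) (sx 1)) (rf 1 0 6))) (rf 2 0 10) (sx 1)) (sy 1) (sy
  2))) (sy 1)) (rf 2 0 45) (sx 1)))) (sx 1) (sx 2)) (rf 2 0 32)) (sx 1)) (sy 2) (sy 1))) (sx 3)))
  (sx 1) (rf 1 1 49)) (sx 1)))

noncomputable def e58_91 : Cx × HT :=
  (⟨32, 4, 8, ⟨2, 4⟩, ⟨68, 146⟩⟩, nd (sx 1) (nd (sy 1) (sx 1) (nd (nd (sy 2) (nd (sx 1) (nd (nd (rf
  0 0 6) (sy 1) (nd (sx 1) (sx 2) (nd (nd (rf 0 0 11) (nd (rf 0 0 58) (sx 1) (nd (sy 1) (nd (nd (sx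
  1) (sy 1) (nd (sx 2) (nd (sy 3) (nd (nd (sx 1) (rf 2 1 29) (nd (nd (nd (sy 1) (rf 0 1 26) (nd (sx
  1) (nd (rf 0 0 71) (sx 1) (nd (rf 1 1 20) (nd (nd (sx 1) (sy 1) (nd (sx 2) (nd (nd (rf 0 0 54) (sx
  1) (nd (nd (sy 1) (rf 0 1 53) (nd (sx 1) (nd (sy 2) (nd (rf 0 0 5) (sx 1) (nd (sx 3) (nd (rf 2 0
  90) (sy 1) (rf 2 0 38)) (sx 1))) (sy 1)) (rf 1 0 28))) (sx 2) (sx 1))) (sy 2) (sy 1)) (sx 1))) (rf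
  2 0 12) (sx 1)) (sy 1))) (sx 2))) (sx 3) (sx 1)) (sy 1) (sy 2))) (sx 1) (rf 1 1 35)) (sy 1)) (sx
  1))) (sx 2) (sx 1)) (sy 4))) (sx 1)) (sy 2) (sy 1)))) (sx 1) (sx 3)) (rf 1 0 10)) (sy 1)) (nd (sy
  2) (nd (nd (sx 1) (rf 2 1 29) (nd (nd (nd (sy 1) (rf 0 1 26) (nd (sx 1) (nd (nd (nd (sx 1) (sx 2)
  (nd (sy 1) (nd (nd (rf 0 0 42) (sy 1) (nd (sx 1) (nd (sx 2) (sx 1) (nd (sy 8) (rf 1 1 64) (sy 1)))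
  (sx 3))) (sx 1) (rf 1 1 37)) (sx 1))) (rf 0 0 36) (sy 1)) (sx 1) (rf 1 1 27)) (sx 2))) (rf 2 0 46)
  (sx 1)) (sy 1) (rf 1 0 6))) (sx 1) (sx 2)) (sy 1)) (sx 1))) (rf 1 0 45))

noncomputable def e58_92 : Cx × HT :=
  (⟨20, 6, 9, ⟨34, 8⟩, ⟨138, 81⟩⟩, nd (nd (sx 1) (sx 2) (nd (sx 4) (nd (sy 1) (rf 2 0 91) (nd (rf 0
  1 55) (sx 1) (rf 1 1 33))) (sx 1))) (rf 0 0 32) (sy 1))

noncomputable def e58_93 : Cx × HT :=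
  (⟨8, 33, 8, ⟨4582871314, 2755938884⟩, ⟨146, 69⟩⟩, nd (sx 1) (nd (sx 2) (sx 1) (nd (nd (rf 0 1 41)
  (rf 2 0 92) (sx 1)) (sy 2) (sy 1))) (sx 3))

noncomputable def e58_94 : Cx × HT :=
  (⟨24, 165, 13, ⟨30904384655188789970981331910459906822770544419362,
  3391906111389759723316519098952614263915893262664⟩, ⟨2196, 4642⟩⟩, nd (sx 1) (sx 2) (nd (sx 4) (nd
  (sy 1) (rf 2 0 91) (nd (nd (sx 1) (nd (sx 2) (sx 1) (nd (nd (nd (sx 1) (nd (sy 1) (rf 2 1 6) (nd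
  (nd (nd (sx 1) (sx 2) (nd (nd (sy 1) (nd (sx 1) (nd (sx 4) (sx 1) (nd (nd (nd (sx 1) (sx 3) (nd
  (sx 2) (nd (sy 1) (rf 2 1 6) (nd (rf 0 0 23) (sx 1) (nd (sy 2) (nd (nd (sx 1) (nd (nd (rf 0 0 12)
  (sx 1) (nd (sy 1) (nd (nd (sy 2) (sy 1) (nd (sx 1) (nd (sx 2) (sx 1) (nd (rf 1 1 53) (nd (nd (nd
  (sx 1) (nd (nd (sy 1) (rf 0 0 38) (nd (sx 1) (sx 2) (sx 96))) (sx 1) (sx 3)) (rf 1 0 5)) (sy 1)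
  (sy 2)) (rf 2 0 28) (sx 1)) (sy 1))) (rf 1 0 25))) (sx 1) (sx 2)) (sx 1))) (sy 1) (rf 2 1 20)) (sx
  4)) (sx 2) (sx 1)) (sy 1)))) (sx 1))) (rf 0 1 93) (sy 1)) (rf 2 0 60) (sx 1))) (sx 2)) (sy 2)) (rf
  2 0 88) (sx 1))) (rf 0 0 1) (sy 1)) (sx 1) (sx 3))) (rf 1 0 21)) (rf 2 0 87) (sx 1)) (sy 1) (rf 1
  1 43))) (sy 1)) (sx 1) (rf 1 1 33))) (sx 1)))

noncomputable def e58_95 : Cx × HT :=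
  (⟨10, 139, 16, ⟨460511217343640178009589491940437358957090,
  185843730390226001861990446411200397346964⟩, ⟨37140, 17570⟩⟩, nd (sx 1) (rf 2 1 21) (nd (sy 1) (nd
  (nd (nd (sx 1) (nd (nd (sy 1) (sy 2) (nd (sx 1) (sx 2) (nd (sx 4) (nd (nd (nd (sx 1) (nd (sx 2)
  (sx 1) (nd (sy 1) (nd (rf 0 1 23) (nd (sy 2) (sy 1) (nd (nd (sx 1) (sx 4) (nd (nd (rf 0 1 12) (nd
  (sy 1) (sx 1) (nd (nd (sy 2) (nd (sx 1) (rf 2 1 25) (nd (sx 2) (nd (rf 2 0 53) (sy 1) (nd (nd (nd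
  (sx 1) (rf 2 1 5) (nd (nd (sy 1) (nd (sx 1) (nd (rf 0 0 73) (sx 1) (nd (nd (sy 3) (nd (sx 1) (sx
  3) (nd (sx 2) (nd (nd (rf 0 0 30) (sx 1) (nd (sy 1) (rf 1 1 32) (rf 1 1 94))) (sy 1) (sy 2)) (sx
  1))) (sy 1)) (rf 2 0 49) (sx 1))) (sx 2)) (rf 0 1 38)) (sx 3) (sx 1))) (sy 2) (sy 1)) (sx 1) (rf 1
  1 28))) (sx 1))) (sy 1)) (sx 2) (sx 1))) (sx 1)) (rf 1 0 20) (sy 1))) (sx 1) (sx 2))) (sx 1)) (rf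
  1 0 6))) (sx 3)) (sy 1) (rf 0 0 93)) (sx 1) (rf 1 1 60)) (sx 1)))) (sx 1) (rf 1 1 88)) (sx 2)) (sy
  1) (rf 0 1 1)) (sx 3) (sx 1)) (rf 1 0 6)))

noncomputable def e58_96 : Cx × HT :=
  (⟨35, 112, 10, ⟨3431075940606297388744275956902186, 1384643691705361022517013895595076⟩, ⟨586,
  164⟩⟩, nd (sx 1) (sx 4) (nd (rf 0 1 60) (nd (rf 2 0 93) (nd (sx 3) (sx 1) (nd (nd (rf 0 0 6) (sy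
  1) (nd (sx 1) (rf 2 1 23) (nd (nd (sx 2) (nd (nd (sy 1) (nd (sx 1) (rf 2 1 12) (nd (nd (sx 1) (nd
  (sy 1) (sy 2) (nd (nd (sx 1) (sx 2) (nd (nd (rf 0 1 28) (nd (sy 1) (nd (nd (sx 1) (nd (rf 2 1 38)
  (sy 1) (nd (sx 2) (sx 1) (nd (nd (sx 1) (nd (sy 1) (sy 3) (nd (nd (sx 1) (sx 2) (nd (sy 2) (nd (nd
  (nd (sx 1) (nd (sx 4) (sx 1) (nd (sy 1) (nd (nd (sx 1) (sy 1) (nd (sx 2) (nd (nd (rf 0 0 95) (sx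
  1) (rf 1 1 87)) (rf 2 0 43) (sy 1)) (sx 1))) (rf 2 0 33) (sx 1)) (rf 1 1 91))) (sx 2)) (sy 1) (rf
  0 1 32)) (rf 2 0 30) (sx 1)) (sy 1))) (sx 1) (sx 3))) (rf 1 0 49)) (rf 2 0 73) (sx 1)))) (sx 3))
  (sx 1) (rf 1 1 5)) (sy 2)) (sx 1)) (rf 1 0 53) (sy 1))) (sx 1) (rf 1 1 25))) (sx 2)) (sy 1) (sx
  1))) (rf 0 0 20)) (sx 1) (sx 4)) (sx 1)) (sy 2) (sy 1)))) (sx 2) (sx 1))) (sy 1)) (sx 1)))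

noncomputable def e58_97 : Cx × HT :=
  (⟨24, 85, 6, ⟨25563507829653452252926498, 10316399423072941769041224⟩, ⟨17, 36⟩⟩, nd (sx 1) (sx 2)
  (nd (sx 4) (nd (rf 2 0 20) (sy 1) (nd (nd (sx 1) (nd (sx 2) (sx 1) (nd (nd (rf 0 1 25) (nd (nd (sy
  1) (nd (sx 1) (rf 2 1 28) (nd (sy 2) (sy 1) (nd (rf 0 1 5) (nd (sx 3) (sx 1) (nd (nd (nd (sx 1)
  (nd (rf 0 0 49) (sx 1) (nd (nd (sx 3) (nd (nd (sy 1) (sy 2) (nd (sx 1) (nd (rf 2 1 32) (nd (sx 2)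
  (sx 1) (nd (nd (rf 0 1 91) (sy 1) (nd (sx 1) (nd (nd (sx 1) (sx 2) (nd (sy 1) (nd (rf 0 1 87) (nd
  (nd (rf 0 0 6) (sy 1) (nd (sx 1) (nd (rf 2 1 1) (nd (sx 2) (sx 1) (nd (rf 0 1 88) (nd (nd (rf 0 0
  96) (sx 1) (sx 2)) (sy 1) (sy 2)) (sx 1))) (sy 1)) (sx 3))) (sx 1) (rf 1 1 21)) (sx 1)) (rf 1 0
  43))) (sx 1) (sy 1)) (rf 1 0 33))) (sx 4) (sx 1))) (sy 1)) (rf 1 0 30))) (sx 1) (sx 2)) (sx 1))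
  (sy 1) (sy 3))) (rf 1 0 73)) (sx 2) (sx 1)) (rf 1 1 38) (sy 1))) (sx 1)))) (rf 0 0 53)) (sx 1) (sx
  2)) (sx 1)) (sy 1) (sy 2))) (sy 1)) (sx 1) (rf 1 1 12))) (sx 1)))

noncomputable def e58_98 : Cx × HT :=
  (⟨10, 59, 6, ⟨41808470710243874, 380925950849852744⟩, ⟨36, 17⟩⟩, nd (sx 1) (sx 2) (nd (nd (rf 0 1
  28) (nd (sy 1) (nd (nd (sx 1) (nd (rf 2 1 38) (sy 1) (nd (sx 2) (sx 1) (nd (nd (sx 1) (nd (sy 1)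
  (sy 3) (nd (nd (sx 1) (sx 2) (nd (sy 2) (nd (nd (nd (sx 1) (nd (sx 4) (sx 1) (nd (sy 1) (nd (nd
  (sx 1) (sy 1) (nd (sx 2) (nd (nd (nd (sx 1) (rf 2 1 21) (nd (sy 1) (nd (nd (nd (sx 1) (nd (nd (sy
  1) (sy 2) (nd (sx 1) (sx 2) (nd (sx 4) (nd (nd (nd (sx 1) (nd (sx 2) (sx 1) (nd (sy 1) (nd (rf 0 1
  23) (nd (sy 2) (sy 1) (rf 2 0 97)) (sx 1)) (rf 1 0 6))) (sx 3)) (sy 1) (rf 0 0 93)) (sx 1) (rf 1 1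
  60)) (sx 1)))) (sx 1) (rf 1 1 88)) (sx 2)) (sy 1) (rf 0 1 1)) (sx 3) (sx 1)) (rf 1 0 6))) (sx 1)
  (rf 1 1 87)) (rf 2 0 43) (sy 1)) (sx 1))) (rf 2 0 33) (sx 1)) (rf 1 1 91))) (sx 2)) (sy 1) (rf 0 1
  32)) (rf 2 0 30) (sx 1)) (sy 1))) (sx 1) (sx 3))) (rf 1 0 49)) (rf 2 0 73) (sx 1)))) (sx 3)) (sx
  1) (rf 1 1 5)) (sy 2)) (sx 1)) (rf 1 0 53) (sy 1)))

noncomputable def e58_99 : Cx × HT :=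
  (⟨35, 32, 9, ⟨2838119498, 311497380⟩, ⟨290, 84⟩⟩, nd (sx 1) (nd (sx 2) (sx 1) (nd (sy 2) (sy 1)
  (nd (nd (sx 1) (nd (nd (nd (sy 1) (nd (sx 1) (sx 2) (nd (nd (nd (sx 1) (nd (sy 1) (sx 1) (sx 18))
  (sx 2)) (sy 1) (sy 3)) (rf 2 0 27) (sx 1))) (rf 0 0 26)) (sx 1) (sx 3)) (rf 2 1 6) (sy 1)) (rf 1 0
  29)) (sx 4) (sx 1)))) (nd (rf 0 1 49) (nd (nd (sx 3) (sx 1) (nd (nd (sy 1) (nd (sx 1) (rf 2 1 30)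
  (nd (rf 1 0 32) (sy 1) (nd (sx 2) (nd (nd (rf 0 0 91) (nd (sx 1) (rf 2 1 33) (nd (nd (sx 1) (nd
  (sy 1) (rf 2 1 43) (nd (rf 0 0 87) (sx 1) (nd (nd (rf 0 1 6) (nd (sx 1) (sx 3) (nd (rf 1 0 1) (sy
  1) (nd (sx 2) (nd (rf 0 0 88) (sx 1) (nd (nd (nd (sx 1) (nd (rf 0 0 60) (sx 1) (nd (rf 1 1 93) (sy
  1) (nd (sx 3) (nd (nd (rf 0 1 6) (nd (sx 1) (nd (nd (sx 2) (sx 1) (nd (nd (sy 1) (rf 0 1 20) (nd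
  (sx 1) (nd (nd (sx 1) (sx 2) (nd (sy 1) (nd (rf 0 1 98) (rf 2 0 25) (sx 1)) (sy 2))) (sx 1) (sy
  1)) (rf 1 0 12))) (sx 4) (sx 1))) (sy 1) (sy 2)) (rf 1 0 23)) (sy 1)) (sx 1) (sx 2)) (sx 1)))) (sx
  4)) (sx 2) (sx 1)) (sy 2) (sy 1))) (sx 1)))) (sy 1)) (rf 2 0 21) (sx 1)))) (sx 2)) (sy 1) (sx 1)))
  (sy 1)) (sx 1) (sx 4)) (sx 1)))) (sy 2)) (sx 2) (sx 1))) (sy 3) (sy 1)) (sx 1)))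

noncomputable def e58_100 : Cx × HT :=
  (⟨8, 18, 4, ⟨69906, 19012⟩, ⟨2, 4⟩⟩, nd (sx 1) (nd (sx 2) (sx 1) (nd (sy 1) (nd (rf 0 1 23) (nd
  (sy 2) (sy 1) (nd (nd (sx 1) (sx 4) (nd (nd (rf 0 1 12) (nd (sy 1) (sx 1) (nd (nd (sy 2) (nd (sx
  1) (rf 2 1 25) (nd (sx 2) (nd (nd (nd (sy 1) (nd (sx 1) (rf 2 0 11) (nd (rf 2 1 24) (sx 3) (sx
  1))) (rf 0 0 26)) (sx 1) (sx 4)) (sy 1) (nd (nd (nd (sx 1) (rf 2 1 5) (nd (nd (sy 1) (nd (sx 1)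
  (rf 2 1 99) (sx 2)) (rf 0 1 38)) (sx 3) (sx 1))) (sy 2) (sy 1)) (sx 1) (rf 1 1 28))) (sx 1))) (sy
  1)) (sx 2) (sx 1))) (sx 1)) (rf 1 0 20) (sy 1))) (sx 1) (sx 2))) (sx 1)) (rf 1 0 6))) (sx 3))

noncomputable def e58_101 : Cx × HT :=
  (⟨5, 7, 7, ⟨18, 40⟩, ⟨73, 20⟩⟩, nd (rf 0 0 59) (sy 1) (nd (sx 1) (sx 2) (nd (nd (rf 0 1 6) (nd (sx
  1) (nd (nd (rf 0 1 11) (sx 1) (nd (rf 0 1 58) (nd (sy 1) (rf 2 0 57) (nd (nd (sx 1) (nd (sx 2) (sx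
  1) (nd (sy 3) (sy 1) (nd (nd (sx 1) (nd (nd (nd (sy 1) (nd (sx 1) (sx 2) (nd (rf 0 1 71) (nd (rf 2
  0 20) (sy 1) (sy 8)) (sx 1))) (rf 0 0 26)) (sx 1) (sx 3)) (sy 2) (sy 1)) (rf 1 0 29)) (rf 2 0 35)
  (sx 1)))) (sy 1)) (sx 1) (sx 2))) (sx 1))) (sy 1) (sy 2)) (sx 2)) (sy 1)) (rf 2 0 48) (sx 1))))

noncomputable def e58_102 : Cx × HT :=
  (⟨32, 5, 3, ⟨18, 8⟩, ⟨1, 2⟩⟩, nd (sx 1) (sx 2) (nd (nd (sx 1) (nd (sy 1) (nd (rf 0 0 35) (sx 1)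
  (nd (nd (sy 2) (sy 1) (nd (sx 1) (sx 3) (nd (nd (sx 2) (nd (nd (sy 1) (nd (sx 1) (rf 2 1 12) (nd
  (nd (sx 1) (nd (sy 1) (sy 2) (nd (nd (sx 1) (sx 2) (nd (nd (rf 0 1 28) (nd (sy 1) (nd (nd (sx 1)
  (nd (rf 2 1 38) (sy 1) (nd (sx 2) (sx 1) (nd (nd (sx 1) (nd (sy 1) (sy 3) (nd (nd (sx 1) (sx 2)
  (nd (sy 2) (nd (nd (nd (sx 1) (nd (sx 4) (sx 1) (nd (sy 1) (rf 1 1 89) (rf 1 1 91))) (sx 2)) (sy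
  1) (rf 0 1 32)) (rf 2 0 30) (sx 1)) (sy 1))) (sx 1) (sx 3))) (rf 1 0 49)) (rf 2 0 73) (sx 1))))
  (sx 3)) (sx 1) (rf 1 1 5)) (sy 2)) (sx 1)) (rf 1 0 53) (sy 1))) (sx 1) (rf 1 1 54))) (sx 2)) (sy
  1) (sx 1))) (rf 0 0 20)) (sx 1) (rf 1 1 71)) (sx 1)) (rf 1 0 26) (sy 1)))) (rf 2 0 29) (sx 1)))
  (rf 2 1 52)) (sx 2)) (sy 1) (sx 1)))

noncomputable def e58_103 : Cx × HT :=
  (⟨20, 4, 2, ⟨2, 4⟩, ⟨2, 0⟩⟩, nd (sy 1) (nd (sx 1) (rf 2 0 11) (nd (nd (sy 2) (sy 1) (rf 0 1 102))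
  (sx 3) (sx 1))) (rf 0 0 26))

noncomputable def e58_104 : Cx × HT :=
  (⟨16, 5, 5, ⟨10, 4⟩, ⟨4, 9⟩⟩, nd (sx 1) (rf 2 1 40) (rf 1 0 103))

noncomputable def e58_105 : Cx × HT :=
  (⟨32, 4, 4, ⟨2, 8⟩, ⟨8, 2⟩⟩, nd (sx 1) (sx 2) (nd (sy 1) (nd (nd (rf 0 0 42) (sy 1) (nd (sx 1) (nd
  (sx 2) (sx 1) (nd (rf 1 1 104) (rf 1 1 64) (sy 1))) (sx 3))) (sx 1) (rf 1 1 37)) (sx 1)))

noncomputable def e58_106 : Cx × HT :=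
  (⟨30, 6, 3, ⟨34, 8⟩, ⟨4, 1⟩⟩, nd (rf 0 0 105) (rf 0 0 36) (sy 1))

noncomputable def e58_107 : Cx × HT :=
  (⟨5, 3, 3, ⟨2, 0⟩, ⟨5, 2⟩⟩, nd (nd (sx 1) (sx 2) (nd (rf 0 1 29) (nd (sy 1) (rf 2 1 6) (nd (rf 0 0
  46) (sx 1) (nd (rf 1 1 26) (nd (nd (sx 1) (rf 2 1 27) (rf 1 0 106)) (sx 2) (sx 1)) (sy 1)))) (sx
  1))) (sy 1) (sy 2))

noncomputable def e58_108 : Cx × HT :=
  (⟨30, 4, 4, ⟨2, 4⟩, ⟨2, 5⟩⟩, nd (nd (sx 1) (nd (sy 1) (sx 1) (nd (rf 0 1 61) (rf 2 0 107) (sx 1)))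
  (rf 1 0 45)) (sy 2) (sy 1))

noncomputable def e58_109 : Cx × HT :=
  (⟨10, 10, 6, ⟨546, 328⟩, ⟨36, 17⟩⟩, nd (sx 1) (sx 2) (nd (nd (rf 0 1 28) (nd (sy 1) (nd (nd (sx 1)
  (nd (rf 2 1 38) (sy 1) (nd (sx 2) (sx 1) (nd (nd (sx 1) (nd (sy 1) (sy 3) (nd (nd (sx 1) (sx 2)
  (nd (sy 2) (nd (nd (nd (sx 1) (nd (sx 4) (sx 1) (nd (sy 1) (nd (nd (sx 1) (sy 1) (nd (sx 2) (nd
  (nd (nd (sx 1) (rf 2 1 21) (nd (sy 1) (nd (nd (nd (sx 1) (nd (nd (sy 1) (sy 2) (nd (sx 1) (sx 2)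
  (nd (sx 4) (nd (nd (rf 0 0 100) (sy 1) (rf 0 0 93)) (sx 1) (rf 1 1 101)) (sx 1)))) (sx 1) (rf 1 1
  108)) (sx 2)) (sy 1) (rf 0 1 1)) (sx 3) (sx 1)) (rf 1 1 6))) (sx 1) (rf 1 1 87)) (rf 2 0 43) (sy
  1)) (sx 1))) (rf 2 0 33) (sx 1)) (rf 1 1 91))) (sx 2)) (sy 1) (rf 0 1 32)) (rf 2 0 103) (sx 1))
  (sy 1))) (sx 1) (sx 3))) (rf 1 0 49)) (rf 2 0 73) (sx 1)))) (sx 3)) (sx 1) (rf 1 1 5)) (sy 2)) (sx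
  1)) (rf 1 0 53) (sy 1)))

noncomputable def e58_110 : Cx × HT :=
  (⟨10, 3, 2, ⟨2, 0⟩, ⟨1, 0⟩⟩, nd (sx 1) (sx 2) (nd (nd (nd (sy 1) (sy 2) (nd (sx 1) (nd (rf 0 0 18)
  (sx 1) (nd (rf 1 1 20) (nd (nd (sx 1) (sy 1) (nd (sx 2) (nd (nd (nd (sx 1) (rf 2 1 21) (nd (sy 1)
  (nd (nd (nd (sx 1) (nd (nd (sy 1) (sy 2) (nd (sx 1) (sx 2) (nd (sx 4) (nd (nd (rf 0 0 100) (sy 1)
  (sy 6)) (sx 1) (rf 1 1 101)) (sx 1)))) (sx 1) (rf 1 1 108)) (sx 2)) (sy 1) (rf 0 1 1)) (sx 3) (sx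
  1)) (rf 1 0 6))) (sx 1) (rf 1 1 109)) (sy 2) (sy 1)) (sx 1))) (rf 2 0 12) (sx 1)) (sy 1))) (sx
  2))) (rf 2 0 23) (sx 1)) (sy 1) (rf 1 0 6)))

noncomputable def e58_111 : Cx × HT :=
  (⟨8, 2, 2, ⟨2, 0⟩, ⟨2, 0⟩⟩, nd (sx 1) (rf 2 1 110) (nd (rf 0 1 29) (nd (sy 1) (rf 2 1 6) (nd (rf 0
  0 46) (sx 1) (nd (rf 1 1 26) (nd (nd (sx 1) (nd (nd (rf 0 0 12) (sx 1) (nd (sy 1) (nd (nd (sy 2)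
  (sy 1) (nd (sx 1) (rf 2 1 109) (nd (rf 0 1 21) (nd (nd (sx 3) (sx 1) (nd (sy 1) (rf 1 1 1) (nd (nd
  (sx 1) (rf 2 1 108) (nd (sy 2) (nd (sx 2) (nd (nd (sx 1) (rf 2 1 101) (nd (sy 1) (nd (nd (sx 1)
  (rf 2 1 51) (sx 2)) (sx 3) (sx 1)) (nd (rf 0 1 110) (sx 3) (sx 1)))) (sx 1) (sx 4)) (sx 1)) (sy
  1))) (sx 2) (sx 1)))) (rf 2 1 6) (sy 1)) (sx 1)))) (sx 1) (sx 2)) (sx 1))) (sy 1) (rf 2 1 20)) (rf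
  1 0 106)) (sx 2) (sx 1)) (sy 1)))) (sx 1)))

noncomputable def e58_112 : Cx × HT :=
  (⟨10, 5, 3, ⟨2, 20⟩, ⟨4, 2⟩⟩, nd (sx 1) (rf 2 1 21) (nd (sy 1) (nd (nd (nd (sx 1) (nd (nd (sy 1)
  (sy 2) (nd (sx 1) (sx 2) (nd (sx 4) (nd (nd (rf 0 0 111) (sy 1) (nd (sx 1) (nd (sx 2) (sx 1) (nd
  (nd (rf 0 1 103) (rf 2 0 92) (sx 1)) (sy 2) (sy 1))) (sx 3))) (sx 1) (rf 1 1 101)) (sx 1)))) (sx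
  1) (rf 1 1 108)) (sx 2)) (sy 1) (rf 0 1 1)) (sx 3) (sx 1)) (rf 1 0 6)))

noncomputable def e58_113 : Cx × HT :=
  (⟨5, 5, 4, ⟨18, 4⟩, ⟨9, 2⟩⟩, nd (rf 0 0 111) (sy 1) (nd (sx 1) (nd (sx 2) (sx 1) (nd (nd (rf 0 1
  103) (nd (sy 1) (nd (nd (sx 1) (sx 4) (nd (nd (rf 0 1 33) (nd (sy 1) (sx 1) (nd (nd (rf 0 1 111)
  (nd (sx 1) (rf 2 1 112) (nd (sx 2) (nd (rf 2 0 104) (sy 1) (rf 2 0 39)) (sx 1))) (sy 1)) (sx 2)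
  (sx 1))) (sx 1)) (sy 1) (rf 1 0 91))) (sx 1) (sx 2)) (rf 2 0 32)) (sx 1)) (sy 2) (sy 1))) (sx 3)))

noncomputable def e58_114 : Cx × HT :=
  (⟨16, 3, 3, ⟨2, 4⟩, ⟨5, 0⟩⟩, nd (sx 1) (rf 2 1 28) (nd (sy 2) (sy 1) (nd (rf 0 1 5) (nd (sx 3) (sx
  1) (nd (nd (nd (sx 1) (nd (rf 0 0 49) (sx 1) (rf 1 1 113)) (rf 1 0 73)) (sx 2) (sx 1)) (rf 1 1 38)
  (sy 1))) (sx 1))))

noncomputable def e58_115 : Cx × HT :=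
  (⟨24, 3, 3, ⟨2, 4⟩, ⟨1, 4⟩⟩, nd (sx 1) (rf 2 1 11) (nd (nd (rf 0 1 105) (sy 1) (rf 0 1 102)) (rf 2
  0 58) (sx 1)))

noncomputable def e58_116 : Cx × HT :=
  (⟨15, 3, 2, ⟨2, 0⟩, ⟨1, 2⟩⟩, nd (rf 0 1 6) (sy 1) (nd (sx 1) (sx 2) (nd (rf 1 0 115) (sy 2) (sy
  1))))

noncomputable def e58_117 : Cx × HT :=
  (⟨30, 4, 2, ⟨2, 4⟩, ⟨2, 1⟩⟩, nd (nd (sx 1) (nd (sy 1) (sx 1) (nd (nd (sy 2) (nd (sx 1) (nd (rf 0 0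
  116) (sx 1) (sx 3)) (rf 1 0 10)) (sy 1)) (rf 2 0 107) (sx 1))) (rf 1 0 45)) (nd (sx 1) (rf 2 1 33)
  (nd (nd (sx 1) (nd (sy 1) (rf 2 1 111) (nd (nd (sx 1) (sx 2) (nd (rf 1 0 114) (rf 1 0 104) (sy
  1))) (sx 1) (rf 1 1 112))) (sx 2)) (sy 1) (sx 1))) (sy 1))

noncomputable def e58_118 : Cx × HT :=
  (⟨5, 2, 1, ⟨2, 0⟩, ⟨1, 0⟩⟩, nd (rf 0 0 111) (sy 1) (nd (sx 1) (nd (sx 2) (sx 1) (nd (nd (rf 0 1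
  103) (nd (sy 1) (nd (nd (sx 1) (nd (rf 2 1 38) (sy 1) (rf 2 1 17)) (rf 1 0 117)) (sx 1) (sx 2))
  (nd (nd (sx 1) (rf 2 1 18) (rf 1 0 31)) (sx 1) (sx 2))) (sx 1)) (rf 1 1 114) (sy 1))) (nd (rf 0 1
  116) (nd (nd (nd (sy 1) (rf 0 0 115) (rf 0 0 26)) (sx 1) (nd (sy 1) (rf 1 1 1) (nd (nd (sx 1) (rf
  2 1 117) (nd (sy 2) (nd (sx 2) (nd (nd (sx 1) (nd (sy 1) (rf 2 1 111) (nd (sx 2) (sx 1) (nd (rf 0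
  1 48) (rf 2 0 116) (sx 1)))) (rf 1 0 113)) (sx 1) (sx 4)) (sx 1)) (sy 1))) (sx 2) (sx 1)))) (rf 2
  1 6) (sy 1)) (sx 1))))

noncomputable def e58_119 : Cx × HT :=
  (⟨0, 1, 1, ⟨0, 0⟩, ⟨0, 0⟩⟩, nd (sx 1) (rf 2 1 118) (rf 1 0 118))

noncomputable def e58_120 : Cx × HT :=
  (⟨39, 0, 0, ⟨0, 0⟩, ⟨0, 0⟩⟩, nd (rf 0 0 119) (rf 2 0 119) (rf 1 0 119))

noncomputable def tab58 : List (Cx × HT) :=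
  [e58_0, e58_1, e58_2, e58_3, e58_4, e58_5, e58_6, e58_7, e58_8, e58_9, e58_10, e58_11, e58_12,
  e58_13, e58_14, e58_15, e58_16, e58_17, e58_18, e58_19, e58_20, e58_21, e58_22, e58_23, e58_24,
  e58_25, e58_26, e58_27, e58_28, e58_29, e58_30, e58_31, e58_32, e58_33, e58_34, e58_35, e58_36,
  e58_37, e58_38, e58_39, e58_40, e58_41, e58_42, e58_43, e58_44, e58_45, e58_46, e58_47, e58_48,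
  e58_49, e58_50, e58_51, e58_52, e58_53, e58_54, e58_55, e58_56, e58_57, e58_58, e58_59, e58_60,
  e58_61, e58_62, e58_63, e58_64, e58_65, e58_66, e58_67, e58_68, e58_69, e58_70, e58_71, e58_72,
  e58_73, e58_74, e58_75, e58_76, e58_77, e58_78, e58_79, e58_80, e58_81, e58_82, e58_83, e58_84,
  e58_85, e58_86, e58_87, e58_88, e58_89, e58_90, e58_91, e58_92, e58_93, e58_94, e58_95, e58_96,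
  e58_97, e58_98, e58_99, e58_100, e58_101, e58_102, e58_103, e58_104, e58_105, e58_106, e58_107,
  e58_108, e58_109, e58_110, e58_111, e58_112, e58_113, e58_114, e58_115, e58_116, e58_117, e58_118,
  e58_119, e58_120]

theorem no_5_8 : ¬ ∃ w, InfGood 5 8 w := by
  rintro ⟨w, hw⟩
  obtain ⟨u, hu⟩ := bi_of_inf (by norm_num) (by norm_num) hw
  have h : chkTab tab58 121 = true := by decide +kernel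
  exact chkTab_spec h 120 (by norm_num) u hu 39
    ⟨rfl, fun i hi => absurd hi (Nat.not_lt_zero i), fun i hi => absurd hi (Nat.not_lt_zero i)⟩

end Pool.Agent.Lib.MP_42179e_co
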