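import Pool.Agent.Lib.MP_42179e_co.DDAll
import Pool.Agent.Lib.MP_42179e_co.DatTA
import Pool.Agent.Lib.MP_42179e_co.DatTB
import Pool.Agent.Lib.MP_42179e_co.DatTC
import Pool.Agent.Lib.MP_42179e_co.DatF
import Pool.Agent.Lib.MP_42179e_co.DatEA
import Pool.Agent.Lib.MP_42179e_co.DatEB
import Pool.Agent.Lib.MP_42179e_co.DatEC
import Pool.Agent.Lib.MP_42179e_co.M3
import Pool.Agent.Lib.MP_42179e_co.No58D
import Pool.Agent.Lib.MP_42179e_co.Finite
import Pool.Agent.Lib.MP_42179e_co.Count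

/-!
The case analysis over all pairs `(p,q)`.
-/

namespace Pool.Agent.Lib.MP_42179e_co

def QQ (p : ℕ) : ℕ :=
  if 45 ≤ p then p else if 27 ≤ p then 2 * p else if 17 ≤ p then 3 * p else
    [0, 0, 0, 120, 168, 200, 246, 280, 328, 72, 70, 66, 60, 65, 56, 60, 64].getD p 0

theorem fill_all (p q : ℕ) (hp : 9 ≤ p) (hq : QQ p ≤ q) : Fill p q := by
  by_cases h : 45 ≤ p
  · exact (fa_all p h).2 q (by rwa [QQ, if_pos h] at hq)
  have h' : p ≤ 44 := by omega
  interval_cases p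
  · exact fill_9 q hq
  · exact fill_10 q hq
  · exact fill_11 q hq
  · exact fill_12 q hq
  · exact fill_13 q hq
  · exact fill_14 q hq
  · exact fill_15 q hq
  · exact fill_16 q hq
  · exact fill_17 q hq
  · exact fill_18 q hq
  · exact fill_19 q hq
  · exact fill_20 q hq
  · exact fill_21 q hq
  · exact fill_22 q hq
  · exact fill_23 q hq
  · exact fill_24 q hq
  · exact fill_25 q hq
  · exact fill_26 q hq
  · exact fill_27 q hq
  · exact fill_28 q hq
  · exact fill_29 q hq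
  · exact fill_30 q hq
  · exact fill_31 q hq
  · exact fill_32 q hq
  · exact fill_33 q hq
  · exact fill_34 q hq
  · exact fill_35 q hq
  · exact fill_36 q hq
  · exact fill_37 q hq
  · exact fill_38 q hq
  · exact fill_39 q hq
  · exact fill_40 q hq
  · exact fill_41 q hq
  · exact fill_42 q hq
  · exact fill_43 q hq
  · exact fill_44 q hq

theorem dr_all (p : ℕ) (hp : 3 ≤ p) (h : p ≤ 44) : DR p (p + 1) (QQ p) := by
  interval_cases p
  · exact dr_3
  · exact dr_4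
  · exact dr_5
  · exact dr_6
  · exact dr_7
  · exact dr_8
  · exact dr_9
  · exact dr_10
  · exact dr_11
  · exact dr_12
  · exact dr_13
  · exact dr_14
  · exact dr_15
  · exact dr_16
  · exact dr_17
  · exact dr_18
  · exact dr_19
  · exact dr_20
  · exact dr_21
  · exact dr_22
  · exact dr_23
  · exact dr_24
  · exact dr_25
  · exact dr_26
  · exact dr_27
  · exact dr_28
  · exact dr_29
  · exact dr_30
  · exact dr_31
  · exact dr_32
  · exact dr_33
  · exact dr_34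
  · exact dr_35
  · exact dr_36
  · exact dr_37
  · exact dr_38
  · exact dr_39
  · exact dr_40
  · exact dr_41
  · exact dr_42
  · exact dr_43
  · exact dr_44

theorem two_all (p q : ℕ) (hp : 3 ≤ p) (h : p ≤ 8) (hq : QQ p ≤ q) : Two p q := by
  interval_cases p
  · exact two_3 q hq
  · exact two_4 q hq
  · exact two_5 q hq
  · exact two_6 q hq
  · exact two_7 q hq
  · exact two_8 q hq

def T0 (p : ℕ) : Prop := ∀ z, SF z → ∃ w, SF w ∧ ∀ k : ℤ, w (p * k) = z k

theorem not_adj {g : ℕ} (hg : 2 ≤ g) {a b : ℤ} (h : g * a + 1 = g * b ∨ g * a = g * b + 1) :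
    False := by
  have : (g : ℤ) ∣ 1 := by
    rcases h with h | h
    · exact ⟨b - a, by rw [mul_sub]; omega⟩
    · exact ⟨a - b, by rw [mul_sub]; omega⟩
  have := Int.le_of_dvd one_pos this
  omega

theorem t0_all (p : ℕ) (hp : 9 ≤ p) : T0 p := by
  intro z hz
  obtain ⟨w, w1, w2, _⟩ := fill_all p (p * QQ p) hp (Nat.le_mul_of_pos_left _ (by omega)) z hz
    (fun l => z (QQ p * l)) ⟨fun k l h => by
      push_cast at h
      rw [mul_assoc] at h
      rw [mul_left_cancel₀ (show (p : ℤ) ≠ 0 by omega) h], fun k l h => by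
      push_cast at h
      rw [mul_assoc] at h
      exact (not_adj (by omega) h).elim⟩
  exact ⟨w, w1, w2⟩

theorem t0_one : T0 1 := fun z hz => ⟨z, hz, fun k => by simp⟩

def XY (a b : ℕ) : Prop :=
  ∃ K : ℕ, 0 < K ∧ ∃ c : ℤ, ∀ v, SF v → ∃ x y, SF x ∧ SF y ∧ (∀ n : ℤ, x (b * n) = y (a * n)) ∧
    ∀ i : ℤ, x (K * i + c) = v i

theorem cop_sol {a b : ℕ} (h : Nat.Coprime a b) (hb : 0 < b) {k l : ℤ} (e : a * k = b * l) :
    ∃ n, k = b * n ∧ l = a * n := by
  have c : IsCoprime (b : ℤ) a := Nat.isCoprime_iff_coprime.mpr h.symm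
  obtain ⟨n, rfl⟩ : (b : ℤ) ∣ k := c.dvd_of_dvd_mul_left ⟨l, e⟩
  refine ⟨n, rfl, mul_left_cancel₀ (show (b : ℤ) ≠ 0 by omega) ?_⟩
  rw [← e]; ring

theorem R_of_XY {g a b : ℕ} (hg : 2 ≤ g) (ha : 0 < a) (hb : 0 < b) (hc : Nat.Coprime a b)
    (hF : Fill (g * a) (g * b)) (h : XY a b ∨ XY b a) : R (g * a) (g * b) := by
  have cp : ∀ x y : ℤ → Lt, (∀ n : ℤ, x (b * n) = y (a * n)) → Compat (g * a) (g * b) x y := by
    intro x y e
    refine ⟨fun k l h => ?_, fun k l h => ?_⟩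
    · push_cast at h
      rw [mul_assoc, mul_assoc] at h
      obtain ⟨n, rfl, rfl⟩ := cop_sol hc hb (mul_left_cancel₀ (show (g : ℤ) ≠ 0 by omega) h)
      exact e n
    · push_cast at h
      rw [mul_assoc, mul_assoc] at h
      exact (not_adj hg h).elim
  rcases h with ⟨K, hK, c, h⟩ | ⟨K, hK, c, h⟩
  · refine ⟨g * a * K, by positivity, (g * a : ℕ) * c, fun v hv => ?_⟩
    obtain ⟨x, y, hx, hy, e, col⟩ := h v hv
    obtain ⟨w, w1, w2, w3⟩ := hF x hx y (cp x y e)
    refine ⟨w, w1, by simp only [w2]; exact hx, by simp only [w3]; exact hy, fun i => ?_⟩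
    rw [← col, ← w2]; congr 1; push_cast; ring
  · refine ⟨g * b * K, by positivity, (g * b : ℕ) * c, fun v hv => ?_⟩
    obtain ⟨y, x, hy, hx, e, col⟩ := h v hv
    obtain ⟨w, w1, w2, w3⟩ := hF x hx y (cp x y (fun n => (e n).symm))
    refine ⟨w, w1, by simp only [w2]; exact hx, by simp only [w3]; exact hy, fun i => ?_⟩
    rw [← col, ← w3]; congr 1; push_cast; ring

theorem bez {p q : ℕ} (hc : Nat.Coprime p q) (hq : 2 ≤ q) :
    ∃ (k : ℕ) (l e : ℤ), 1 ≤ k ∧ 2 * k ≤ q ∧ (e = 1 ∨ e = -1) ∧ (p : ℤ) * k = q * l + e := by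
  obtain ⟨u, v, h⟩ : IsCoprime (p : ℤ) q := Nat.isCoprime_iff_coprime.mpr hc
  obtain ⟨t, k, hk, rfl⟩ := decomp (M := q) (by omega) u
  have e : (p : ℤ) * k = q * (-v - t * p) + 1 := by linear_combination h
  have k0 : k ≠ 0 := by
    rintro rfl
    exact not_adj hq (a := -v - t * p) (b := 0) (Or.inl (by simpa using e.symm))
  by_cases c : 2 * k ≤ q
  · exact ⟨k, _, 1, by omega, c, Or.inl rfl, e⟩
  · refine ⟨q - k, p + v + t * p, -1, by omega, by omega, Or.inr rfl, ?_⟩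
    rw [Nat.cast_sub hk.le]
    linear_combination (-1 : ℤ) * e

theorem R_of_cop {p q : ℕ} (hp : 0 < p) (hq : 2 ≤ q) (hc : Nat.Coprime p q) (hF : Fill p q)
    (h0 : T0 p) (h3 : Triple q) : R p q := by
  refine ⟨p * q, by positivity, 0, fun v hv => ?_⟩
  obtain ⟨y, hy, ey⟩ := h0 v hv
  obtain ⟨k1, l1, e, k11, k12, he, hk⟩ := bez hc hq
  obtain ⟨x, hx, ex⟩ := h3 k1 k11 k12 v hv (fun n => y (p * n + l1)) (fun n => y (p * n - l1))
  have plus : ∀ k l : ℤ, p * k = q * l + e → x k ≠ y l := by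
    intro k l h
    obtain ⟨n, a, b⟩ := cop_sol hc (by omega) (k := k - k1) (l := l - l1) (by linear_combination h - hk)
    rw [sub_eq_iff_eq_add.mp a, sub_eq_iff_eq_add.mp b]
    exact (ex n).2.1
  have minus : ∀ k l : ℤ, p * k = q * l - e → x k ≠ y l := by
    intro k l h
    obtain ⟨n, a, b⟩ := cop_sol hc (by omega) (k := k + k1) (l := l + l1) (by linear_combination h + hk)
    rw [eq_sub_of_add_eq a, eq_sub_of_add_eq b]
    exact (ex n).2.2
  obtain ⟨w, w1, w2, w3⟩ := hF x hx y ⟨fun k l h => by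
    obtain ⟨n, rfl, rfl⟩ := cop_sol hc (by omega) h
    rw [(ex n).1, ey], fun k l h => by
    rcases he with rfl | rfl <;> rcases h with h | h
    · exact minus k l (by omega)
    · exact plus k l h
    · exact plus k l (by omega)
    · exact minus k l (by omega)⟩
  refine ⟨w, w1, by simp only [w2]; exact hx, by simp only [w3]; exact hy, fun i => ?_⟩
  rw [← (ex i).1, ← w2]; congr 1; push_cast; ring

theorem XY_of_T0 {a b : ℕ} (hb : 0 < b) (h1 : T0 a) (h2 : T0 b) : XY a b := by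
  refine ⟨b, hb, 0, fun v hv => ?_⟩
  obtain ⟨x, hx, ex⟩ := h2 v hv
  obtain ⟨y, hy, ey⟩ := h1 v hv
  exact ⟨x, y, hx, hy, fun n => by rw [ex, ey], fun i => by rw [add_zero, ex]⟩

theorem XY_of_E1 {a b : ℕ} (h : E1 b) : XY b a := by
  refine ⟨1, one_pos, 0, fun v hv => ?_⟩
  obtain ⟨y, hy, ey⟩ := h (fun n => v (a * n))
  exact ⟨v, y, hv, hy, fun n => (ey n).symm, fun i => by simp⟩

theorem XY_of_D {g a b : ℕ} (h : D (g * a) (g * b)) : XY a b := by
  obtain ⟨K, hK, c, h⟩ := h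
  refine ⟨K, hK, c, fun v hv => ?_⟩
  obtain ⟨w, _, w2, w3, w4⟩ := h v hv
  refine ⟨_, _, w2, w3, fun n => ?_, w4⟩
  congr 1; push_cast; ring

def xyA (a b : ℕ) : Prop := 0 < a ∧ a < b ∧ Nat.gcd a b = 1 ∧ b ≠ 2 * a ∧ 2 * b ≠ 3 * a

def xyB (g a b : ℕ) : Prop := 3 ≤ g * a ∧ g * a ≤ 44 ∧ g * a + 1 ≤ g * b ∧
  g * b < QQ (g * a) ∧ exc (g * a) (g * b) = false

instance (a b : ℕ) : Decidable (xyA a b) := by unfold xyA; infer_instance

noncomputable instance (g a b : ℕ) : Decidable (xyB g a b) := by unfold xyB; infer_instance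

theorem xy_small : ∀ a, a < 9 → ∀ b, b < 45 → xyA a b →
    (a = 1 ∧ 9 ≤ b) ∨ xyB 1 a b ∨ xyB 2 a b ∨ xyB 3 a b := by
  decide +kernel

theorem xy_all {a b : ℕ} (ha : 0 < a) (hab : a < b) (hc : Nat.Coprime a b) (h1 : b ≠ 2 * a)
    (h2 : 2 * b ≠ 3 * a) : XY a b ∨ XY b a := by
  by_cases c1 : 45 ≤ b
  · exact Or.inr (XY_of_E1 (fa_all b c1).1)
  by_cases c2 : 9 ≤ a
  · exact Or.inl (XY_of_T0 (by omega) (t0_all a c2) (t0_all b (by omega)))
  have t : ∀ g, xyB g a b → XY a b := fun g ⟨a1, a2, a3, a4, a5⟩ =>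
    XY_of_D (dr_all _ a1 a2 _ a3 a4 a5)
  rcases xy_small a (by omega) b (by omega) ⟨ha, hab, hc, h1, h2⟩ with ⟨rfl, h⟩ | h | h | h
  · exact Or.inl (XY_of_T0 (by omega) t0_one (t0_all b h))
  all_goals exact Or.inl (t _ h)

theorem R_of_D {p q : ℕ} (hp : 0 < p) (h : D p q) : R p q := by
  obtain ⟨K, hK, c, h⟩ := h
  refine ⟨p * K, by positivity, p * c, fun v hv => ?_⟩
  obtain ⟨w, w1, w2, w3, w4⟩ := h v hv
  refine ⟨w, w1, w2, w3, fun i => ?_⟩
  rw [← w4]; congr 1; push_cast; ring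

theorem R_of_two {p q : ℕ} (hq : 0 < q) (h : Two p q) : R p q := by
  refine ⟨q, hq, 0, fun v hv => ?_⟩
  obtain ⟨w, w1, w2, w3⟩ := h v
  exact ⟨w, w1, w2, by simp only [w3]; exact hv, fun i => by rw [add_zero, w3]⟩

theorem R_diag {p : ℕ} (hp : 0 < p) (h2 : p ≠ 2) : R p p := by
  have t : ∀ p, 0 < p → T0 p → R p p := fun p hp h => ⟨p, hp, 0, fun v hv => by
    obtain ⟨w, w1, w2⟩ := h v hv
    exact ⟨w, w1, by simp only [w2]; exact hv, by simp only [w2]; exact hv,
      fun i => by rw [add_zero, w2]⟩⟩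
  by_cases c : 9 ≤ p
  · exact t p hp (t0_all p c)
  by_cases c1 : p = 1
  · rw [c1]; exact t 1 one_pos t0_one
  obtain ⟨K, hK, d, h⟩ := R_of_two (p := p) (q := QQ p + 1) (by omega)
    (two_all p _ (by omega) (by omega) (by omega))
  refine ⟨K, hK, d, fun v hv => ?_⟩
  obtain ⟨w, w1, w2, _, w4⟩ := h v hv
  exact ⟨w, w1, w2, w2, w4⟩

theorem qq46 : ∀ p, p < 45 → 9 ≤ p → 46 ≤ QQ p := by decide

theorem R_lt {p q : ℕ} (hp : 0 < p) (hpq : p < q) (hw : ∃ w, InfGood p q w) : R p q := by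
  by_cases c1 : p = 1
  · have q2 : q ≠ 2 := by
      rintro rfl
      rw [c1] at hw
      exact fin_t2t 1 one_pos hw
    obtain ⟨K, hK, d, h⟩ := R_diag (p := q) (by omega) q2
    refine ⟨K, hK, d, fun v hv => ?_⟩
    obtain ⟨w, w1, w2, _, w4⟩ := h v hv
    exact ⟨w, w1, by rw [c1]; simpa using w1, w2, w4⟩
  by_cases c2 : p = 2
  · rw [c2] at hw; exact absurd hw (fin_two q)
  have n1 : q ≠ 2 * p := by
    rintro rfl
    exact fin_t2t p hp hw
  have n2 : 2 * q ≠ 3 * p := by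
    intro e
    obtain ⟨t, rfl⟩ : ∃ t, p = 2 * t := ⟨p / 2, by omega⟩
    have : q = 3 * t := by omega
    rw [this] at hw
    exact fin_2t3t t (by omega) hw
  cases hx : exc p q with
  | true =>
    unfold exc at hx
    simp only [Bool.or_eq_true, Nat.beq_eq] at hx
    rcases hx with (hx | hx) | hx
    · exact absurd hx n1
    · exact absurd hx n2
    obtain ⟨pq, m, e⟩ := anyL_spec hx
    simp only [Bool.and_eq_true, Nat.beq_eq] at e
    obtain ⟨rfl, rfl⟩ := e
    simp only [List.mem_cons, List.not_mem_nil, or_false] at m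
    rcases m with rfl | rfl | rfl | rfl | rfl | rfl | rfl | rfl | rfl | rfl | rfl | rfl | rfl
    all_goals first
      | exact R_5_6
      | exact absurd hw no_5_8
      | exact absurd hw (fin_list _ (by decide))
  | false =>
    by_cases c3 : q < QQ p
    · have : p ≤ 44 := by
        by_contra hc
        rw [QQ, if_pos (by omega)] at c3
        omega
      exact R_of_D hp (dr_all p (by omega) this q hpq c3 hx)
    by_cases c4 : p ≤ 8
    · exact R_of_two (by omega) (two_all p q (by omega) c4 (by omega))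
    have hF := fill_all p q (by omega) (by omega)
    by_cases c5 : Nat.gcd p q = 1
    · have : 46 ≤ q := by
        by_cases c : p < 45
        · have := qq46 p c (by omega); omega
        · omega
      exact R_of_cop hp (by omega) c5 hF (t0_all p (by omega)) (fb_all q this)
    have g0 : 0 < Nat.gcd p q := Nat.gcd_pos_of_pos_left _ hp
    obtain ⟨a, b, hc, ea, eb⟩ := Nat.exists_coprime p q
    generalize Nat.gcd p q = g at *
    rw [mul_comm] at ea eb
    subst ea eb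
    have ab : a < b := lt_of_mul_lt_mul_left hpq (Nat.zero_le g)
    have a0 : 0 < a := Nat.pos_of_mul_pos_left hp
    exact R_of_XY (by omega) a0 (by omega) hc hF (xy_all a0 ab hc
      (fun e => n1 (by rw [e]; ring)) (fun e => n2 (by
        rw [mul_left_comm, e, mul_left_comm])))

theorem R_all {p q : ℕ} (hp : 0 < p) (hq : 0 < q) (hw : ∃ w, InfGood p q w) : R p q := by
  rcases lt_trichotomy p q with h | h | h
  · exact R_lt hp h hw
  · subst h
    refine R_diag hp ?_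
    rintro rfl
    exact fin_two 2 hw
  · obtain ⟨w, w1, w2, w3⟩ := hw
    obtain ⟨K, hK, c, h⟩ := R_lt hq h ⟨w, w1, w3, w2⟩
    refine ⟨K, hK, c, fun v hv => ?_⟩
    obtain ⟨w, w1, w2, w3, w4⟩ := h v hv
    exact ⟨w, w1, w3, w2, w4⟩

theorem inf_of_SF {u : ℤ → Lt} (h : SF u) : InfSqFree (fun n : ℕ => u n) := by
  intro i n hn
  by_contra hc
  refine h i n hn (fun j a b => ?_)
  obtain ⟨k, rfl⟩ : ∃ k : ℕ, j = i + k := ⟨(j - i).toNat, by omega⟩
  by_contra hne
  refine hc ⟨k, by omega, fun e => hne ?_⟩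
  have e1 : ((i + n + k : ℕ) : ℤ) = i + k + n := by push_cast; ring
  have e2 : ((i + k : ℕ) : ℤ) = i + k := by push_cast; ring
  simp only [e1, e2] at e
  exact e.symm

theorem main (p q : ℕ) (hp : 0 < p) (hq : 0 < q) (hw : ∃ w, InfGood p q w) :
    ∃ l : ℝ, 1 < l ∧ Filter.Tendsto (fun n : ℕ => ((count p q n : ℕ) : ℝ) ^ (1 / (n : ℝ)))
      Filter.atTop (nhds l) := by
  obtain ⟨K, hK, c, h⟩ := R_all hp hq hw
  have a : (1 : ℤ) * c.natAbs ≤ K * c.natAbs :=
    mul_le_mul_of_nonneg_right (by omega) (by positivity)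
  obtain ⟨c', hc'⟩ := Int.eq_ofNat_of_zero_le (show 0 ≤ K * c.natAbs + c by omega)
  refine growth p q (K * 45) c' hp hq (by positivity) (fun z => ?_)
  obtain ⟨v, hv, ev⟩ := (fa_all 45 le_rfl).1 (fun k => z k.toNat)
  obtain ⟨w, w1, w2, w3, w4⟩ := h _ (hv.shift (-c.natAbs))
  refine ⟨fun n : ℕ => w n, ⟨inf_of_SF w1, ?_, ?_⟩, fun i => ?_⟩
  · simpa using inf_of_SF w2
  · simpa using inf_of_SF w3
  · have e : ((K * 45 * i + c' : ℕ) : ℤ) = K * ((45 : ℕ) * i + c.natAbs) + c := by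
      push_cast at hc' ⊢
      rw [← hc']; ring
    show w _ = _
    rw [e, w4, add_neg_cancel_right, ev, Int.toNat_natCast]

end Pool.Agent.Lib.MP_42179e_co
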