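import Pool.Agent.Lib.MP_42179e_co.Blk

/-!
Uniform rotation-equivariant block codes with two variants and their certificates.
-/

namespace Pool.Agent.Lib.MP_42179e_co

noncomputable section

structure Mor where
  M : Nat
  h1 : Wd
  h2 : Wd

def Mor.sel (H : Mor) (d : Lt) : Wd := if d = 1 then H.h1 else H.h2

def Mor.app (H : Mor) (v : ℤ → Lt) (i : ℤ) : Lt :=
  v (i / H.M) + (H.sel (v (i / H.M + 1) - v (i / H.M))).get (i % H.M).toNat

theorem Mor.app_eq (H : Mor) (v : ℤ → Lt) (k : ℤ) {j : Nat} (hj : j < H.M) :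
    H.app v (H.M * k + j) = v k + (H.sel (v (k + 1) - v k)).get j := by
  have hM : (0 : ℤ) < H.M := by omega
  have e1 : ((H.M : ℤ) * k + j) / H.M = k := by
    rw [add_comm, Int.add_mul_ediv_left _ _ hM.ne', Int.ediv_eq_zero_of_lt (by omega) (by omega),
      zero_add]
  have e2 : ((H.M : ℤ) * k + j) % H.M = j := by
    rw [add_comm, Int.add_mul_emod_self_left, Int.emod_eq_of_lt (by omega) (by omega)]
  unfold Mor.app
  rw [e1, e2, Int.toNat_natCast]

theorem decomp {M : Nat} (hM : 0 < M) (i : ℤ) : ∃ (k : ℤ) (j : Nat), j < M ∧ i = M * k + j := by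
  have hM' : (0 : ℤ) < M := by omega
  have a := Int.emod_nonneg i hM'.ne'
  have b := Int.emod_lt_of_pos i hM'
  refine ⟨i / M, (i % M).toNat, by omega, ?_⟩
  have := Int.mul_ediv_add_emod i M
  omega

def lab (c n : Nat) : Nat :=
  Nat.rec (motive := fun _ => Nat) 0
    (fun i acc => Nat.mod (Nat.add acc (cond (tb c i) 1 2)) 3) n

theorem lab_lt (c n : Nat) : lab c n < 3 := by
  cases n with
  | zero => exact Nat.zero_lt_succ 2
  | succ n => exact Nat.mod_lt _ (by norm_num)

theorem cast_cond (b : Bool) : ((cond b 1 2 : Nat) : Lt) = dv b := by cases b <;> rfl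

theorem cast_mod3 (a : Nat) : ((Nat.mod a 3 : Nat) : Lt) = (a : Lt) := ZMod.natCast_mod a 3

theorem Mark.lab {v : ℤ → Lt} {i0 : ℤ} {n c : Nat} (h : Mark v i0 n c) (i : Nat) (hi : i ≤ n) :
    v (i0 + i) = v i0 + (lab c i : Lt) := by
  induction i with
  | zero => simp [Pool.Agent.Lib.MP_42179e_co.lab]
  | succ i ih =>
    have e : (Pool.Agent.Lib.MP_42179e_co.lab c (i + 1) : Lt) =
        Pool.Agent.Lib.MP_42179e_co.lab c i + dv (c.testBit i) := by
      show ((Nat.mod (Nat.add _ _) 3 : Nat) : Lt) = _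
      rw [cast_mod3, tb_eq, ← cast_cond]; exact Nat.cast_add _ _
    have := h i (by omega)
    rw [e, ← add_assoc, ← ih (by omega), ← this]
    push_cast
    rw [← add_assoc]; ring

theorem Mark.tail {v : ℤ → Lt} {i0 : ℤ} {n c : Nat} (h : Mark v i0 n c) (k m : Nat)
    (hk : k + m ≤ n) : Mark v (i0 + k) m (Nat.shiftRight c k) := by
  intro i hi
  rw [shr_bit, ← h (k + i) (by omega)]
  push_cast
  simp only [add_assoc]

theorem Mark.low {v : ℤ → Lt} {i0 : ℤ} {n c : Nat} (h : Mark v i0 n c) (m : Nat)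
    (hk : m ≤ n) : Mark v i0 m (low c m) := by
  intro i hi
  rw [low_bit, ← (by simp [hi] : c.testBit i = (decide (i < m) && c.testBit i))]
  exact h i (by omega)

theorem Mark.mono {v : ℤ → Lt} {i0 : ℤ} {n c : Nat} (h : Mark v i0 n c) {m : Nat}
    (hk : m ≤ n) : Mark v i0 m c := fun i hi => h i (by omega)

theorem dv_cases {d : Lt} (h : d ≠ 0) : ∃ b, d = dv b := by
  revert d; decide

theorem exists_code {v : ℤ → Lt} (hv : ∀ j, v (j + 1) ≠ v j) (i0 : ℤ) (n : Nat) :
    ∃ c, c < 2 ^ n ∧ Mark v i0 n c := by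
  induction n with
  | zero => exact ⟨0, by simp, fun i hi => by omega⟩
  | succ n ih =>
    obtain ⟨c, c1, c2⟩ := ih
    obtain ⟨b, hb⟩ := dv_cases (sub_ne_zero.mpr (hv (i0 + n)))
    refine ⟨jn c n (cond b 1 0), ?_, fun i hi => ?_⟩
    · apply Nat.lt_pow_two_of_testBit
      intro i hi
      obtain ⟨k, rfl⟩ := Nat.exists_eq_add_of_le (show n ≤ i by omega)
      rw [jn_ge]
      cases b
      · simp
      · exact one_bit (by omega)
    · rcases Nat.lt_succ_iff_lt_or_eq.mp hi with e | e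
      · rw [jn_lt e]; exact c2 i e
      · subst e
        have := jn_ge c i (cond b 1 0) 0
        rw [add_zero] at this
        rw [this, hb]; cases b <;> rfl

def Mor.blocks (H : Mor) (n : Nat) : Nat → Nat → Wd :=
  Nat.rec (motive := fun _ => Nat → Nat → Wd) (fun _ r => H.h1.rot H.M r)
    (fun _ ih c r => ((cond (tb c 0) H.h1 H.h2).rot H.M r).cat H.M
      (ih (Nat.shiftRight c 1) (Nat.mod (Nat.add r (cond (tb c 0) 1 2)) 3))) n

def Mor.Sh (H : Mor) (sh : Nat) : Prop := sh ≤ H.M ∧ ∀ j, j < sh → H.h2.get j = H.h1.get j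

theorem Mor.sel_dv (H : Mor) (b : Bool) : H.sel (dv b) = cond b H.h1 H.h2 := by
  cases b
  · exact if_neg (by decide)
  · exact if_pos rfl

theorem Mor.Sh.sel {H : Mor} {sh : Nat} (hs : H.Sh sh) (d : Lt) {j : Nat} (hj : j < sh) :
    (H.sel d).get j = H.h1.get j := by
  unfold Mor.sel
  split_ifs
  · rfl
  · exact hs.2 j hj

theorem Mor.blocks_get {H : Mor} {sh : Nat} (hs : H.Sh sh) (v : ℤ → Lt) (g : Lt) (n : Nat) :
    ∀ (c r : Nat) (i0 : ℤ), r < 3 → Mark v i0 n c → (r : Lt) = v i0 + g →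
      ∀ j, j < n * H.M + sh → (H.blocks n c r).get j = H.app v (H.M * i0 + j) + g := by
  induction n with
  | zero =>
    intro c r i0 hr _ hg j hj
    have hj' : j < sh := by omega
    have := hs.1
    show (H.h1.rot H.M r).get j = _
    rw [Wd.rot_get hr (by omega), H.app_eq v i0 (by omega), hs.sel _ hj', hg]; ring
  | succ n ih =>
    intro c r i0 hr hm hg j hj
    show (((cond (tb c 0) H.h1 H.h2).rot H.M r).cat H.M (H.blocks n _ _)).get j = _
    have d0 := hm 0 (by omega)
    simp only [Nat.cast_zero, add_zero] at d0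
    by_cases h : j < H.M
    · rw [Wd.cat_lt h, Wd.rot_get hr h, H.app_eq v i0 h, d0, H.sel_dv, tb_eq, hg]; ring
    · obtain ⟨k, rfl⟩ := Nat.exists_eq_add_of_le (not_lt.mp h)
      rw [Wd.cat_ge, ih _ (Nat.mod (Nat.add r (cond (tb c 0) 1 2)) 3) (i0 + 1)
        (Nat.mod_lt _ (by norm_num))
        (by simpa using hm.tail 1 n (by omega)) _ k (by rw [Nat.succ_mul] at hj; omega)]
      · congr 2; push_cast; ring
      · rw [cast_mod3]
        show ((r + _ : Nat) : Lt) = _
        rw [Nat.cast_add, cast_cond, tb_eq, ← d0, hg]; ring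

def Mor.lw (H : Mor) (r m : Nat) : Nat :=
  Nat.add (Nat.add H.M (cond (Nat.beq r 1) H.M (Nat.div H.M r))) (Nat.succ m)

def Mor.nb (H : Mor) (sh r m : Nat) : Nat := cond (Nat.ble (H.lw r m) (Nat.add H.M sh)) 1 2

def Mor.lanes (H : Mor) (sh r m : Nat) : Blk :=
  blkN (fun c => Blk.one (H.blocks (H.nb sh r m) c 0) (H.lw r m) 0 0) (Nat.pow 2 (H.nb sh r m))

def Mor.code (H : Mor) (h : Wd) (r m t : Nat) : Nat :=
  low (Nat.shiftRight (Blk.one h H.M 0 0).d1 (Nat.mul (Nat.div H.M r) t)) m

def Mor.allow (H : Mor) (r m t : Nat) : Nat :=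
  Nat.lor (Nat.shiftLeft (rep 1 (Nat.succ (H.lw r m)) 2) (Nat.mul (Nat.div H.M r) t))
    (rep (Nat.shiftLeft (ones (Nat.sub (Nat.succ (H.lw r m)) H.M)) H.M) (Nat.succ (H.lw r m)) 2)

def Mor.need (H : Mor) (r m : Nat) : Nat :=
  Nat.add (Nat.sub H.M (Nat.mul (Nat.div H.M r) (Nat.pred r))) (Nat.div m 2)

def Mor.chk (H : Mor) (sh r m K : Nat) : Bool :=
  Nat.ble 1 r && Nat.ble (Nat.succ m) (Nat.div H.M r) && Nat.ble 1 sh && Nat.ble sh H.M &&
  H.h2.eqB H.h1 sh && Nat.ble (H.lw r m) (Nat.add (Nat.mul 2 H.M) sh) &&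
  Nat.ble (H.need r m) K &&
  Nat.beq (Nat.land (H.lanes sh r m).a (H.lanes sh r m).b) 0 &&
  allB (fun t =>
    markW H.h1 H.M (Nat.mul (Nat.div H.M r) t) m (H.code H.h1 r m t) &&
    chkOcc (H.lanes sh r m) m (H.code H.h1 r m t) (H.allow r m t) &&
    (Nat.ble (Nat.add (Nat.mul (Nat.div H.M r) t) (Nat.succ m)) sh ||
      (markW H.h2 H.M (Nat.mul (Nat.div H.M r) t) m (H.code H.h2 r m t) &&
        chkOcc (H.lanes sh r m) m (H.code H.h2 r m t) (H.allow r m t)))) r

structure Mor.Good (H : Mor) : Prop where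
  pos : 0 < H.M
  col : ∀ v k, H.app v (H.M * k) = v k + H.h1.get 0
  sq : ∀ v : ℤ → Lt, (∀ j, v (j + 1) ≠ v j) → ∀ s n, 0 < n → Sq (H.app v) s n →
    ∃ j t, n = H.M * j ∧ Sq v t j

theorem Mor.Good.sf {H : Mor} (h : H.Good) {v : ℤ → Lt} (hv : SF v) : SF (H.app v) := by
  intro s n hn hs
  obtain ⟨j, t, e, hj⟩ := h.sq v hv.ne s n hn hs
  refine hv t j (Nat.pos_of_ne_zero ?_) hj
  rintro rfl
  omega

theorem subAt_blkN {f : Nat → Blk} {W : Nat} (hf : ∀ k, (f k).len = W) {n k : Nat} (h : k < n) :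
    SubAt (f k) (blkN f n) (W * (n - 1 - k)) := by
  induction n with
  | zero => omega
  | succ n ih =>
    rcases Nat.lt_succ_iff_lt_or_eq.mp h with e | e
    · have := (ih e).trans (subAt_right (f n) _)
      rw [hf] at this
      have e2 : W * (n + 1 - 1 - k) = W + W * (n - 1 - k) := by
        have : n + 1 - 1 - k = (n - 1 - k) + 1 := by omega
        rw [this]; ring
      rw [e2]; exact this
    · subst e
      have : W * (k + 1 - 1 - k) = 0 := by simp
      rw [this]; exact subAt_left (f k) _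

theorem Mor.good_of {H : Mor} {sh r m K : Nat} (h : H.chk sh r m K = true)
    (hq : SqOK K (H.lanes sh r m)) : H.Good := by
  unfold Mor.chk at h
  simp only [Bool.and_eq_true, Nat.ble_eq] at h
  obtain ⟨⟨⟨⟨⟨⟨⟨⟨hr, hm⟩, hsh1⟩, hsh2⟩, hsh3⟩, hlw⟩, hK⟩, hd⟩, hall⟩ := h
  have hd' := Nat.eq_of_beq_eq_true hd
  have hs : H.Sh sh := ⟨hsh2, Wd.eqB_spec hsh3⟩
  have hM : 0 < H.M := by omega
  set k := H.M / r with hk
  have hm' : m + 1 ≤ k := hm
  have hkr : k * r ≤ H.M := Nat.div_mul_le_self _ _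
  have hlwe : H.lw r m = H.M + (if r = 1 then H.M else k) + (m + 1) := by
    unfold Mor.lw
    by_cases e : r = 1
    · subst e; simp
    · have : Nat.beq r 1 = false := by
        cases hb : Nat.beq r 1
        · rfl
        · exact absurd (Nat.eq_of_beq_eq_true hb) e
      rw [this, if_neg e]; rfl
  have hnb : (H.nb sh r m = 1 ∨ H.nb sh r m = 2) ∧ H.lw r m ≤ H.nb sh r m * H.M + sh := by
    unfold Mor.nb
    cases hb : Nat.ble (H.lw r m) (Nat.add H.M sh)
    · exact ⟨Or.inr rfl, hlw⟩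
    · refine ⟨Or.inl rfl, ?_⟩
      have := Nat.le_of_ble_eq_true hb
      simpa using this
  have col : ∀ v k, H.app v (H.M * k) = v k + H.h1.get 0 := by
    intro v k
    have := H.app_eq v k hM
    rw [Nat.cast_zero, add_zero] at this
    rw [this, hs.sel _ (by omega)]
  refine ⟨hM, col, fun v hv s n hn hsq => ?_⟩
  -- lanes
  have lane : ∀ i : ℤ, ∃ c, c < 2 ^ H.nb sh r m ∧ ∀ j : ℤ, H.M * i ≤ j → j < H.M * i + H.lw r m →
      H.app v j = (H.blocks (H.nb sh r m) c 0).fn (j - H.M * i) + v i := by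
    intro i
    obtain ⟨c, c1, c2⟩ := exists_code hv i (H.nb sh r m)
    refine ⟨c, c1, fun j j1 j2 => ?_⟩
    obtain ⟨u, hu⟩ := Int.eq_ofNat_of_zero_le (show 0 ≤ j - H.M * i by omega)
    rw [hu, Wd.fn_nat, Mor.blocks_get hs v (- v i) _ c 0 i (by norm_num) c2 (by simp) u
      (by omega)]
    have : H.M * i + u = j := by omega
    rw [this]; ring
  have occl : ∀ (t c : Nat), t < r → OccOK m c (H.lanes sh r m) (H.allow r m t) →
      ∀ s : ℤ, Mark (H.app v) s m c → s % H.M = k * t := by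
    intro t c ht ho s hs
    obtain ⟨i, j, hj, rfl⟩ := decomp hM s
    obtain ⟨c', c1, c2⟩ := lane i
    have hkt : k * t < H.M := by nlinarith
    have hlw2 : H.M + m < H.lw r m := by rw [hlwe]; omega
    have mk : Mark (H.blocks (H.nb sh r m) c' 0).fn j m c := by
      refine hs.congr (g := v i) (fun u a b => ?_)
      rw [c2 u (by omega) (by omega)]; congr 2; ring
    have sub := subAt_blkN (f := fun c => Blk.one (H.blocks (H.nb sh r m) c 0) (H.lw r m) 0 0)
      (W := H.lw r m + 1) (fun _ => rfl) c1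
    have := ho.subAt sub j (by show _ < H.lw r m + 1; omega) (fun u a b => one_x _ (by omega))
      (mark_one (by omega) mk)
    generalize 2 ^ H.nb sh r m - 1 - c' = z at this
    unfold Mor.allow at this
    rw [lor_bit, shl_bit, rep_bit (by omega) (fun i hi => one_bit (by omega)),
      rep_bit (by omega)] at this
    · have e2 : ((H.lw r m + 1) * z + j) % (H.lw r m).succ = j := by
        rw [Nat.succ_eq_add_one, Nat.mul_add_mod, Nat.mod_eq_of_lt (by omega)]
      rw [e2, shl_bit] at this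
      have nj : ¬ j ≥ H.M := by omega
      simp only [nj, decide_false, Bool.false_and, Bool.and_false, Bool.or_false,
        Bool.and_eq_true, decide_eq_true_eq] at this
      obtain ⟨a1, _, a3⟩ := this
      have a4 : ((H.lw r m + 1) * z + j - k * t) % (H.lw r m + 1) = 0 := by
        by_contra hc
        have := one_bit hc
        exact absurd (this.symm.trans a3) (by simp)
      have a1' : k * t ≤ (H.lw r m + 1) * z + j := a1
      obtain ⟨y, hy⟩ := Nat.dvd_of_mod_eq_zero a4
      have e3 : (H.lw r m + 1) * z + j = (H.lw r m + 1) * y + k * t := by omega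
      have e4 : j = k * t := by
        have := congrArg (fun x => x % (H.lw r m + 1)) e3
        simp only [Nat.mul_add_mod] at this
        rwa [Nat.mod_eq_of_lt (by omega), Nat.mod_eq_of_lt (by omega)] at this
      rw [add_comm, Int.add_mul_emod_self_left, Int.emod_eq_of_lt (by omega) (by omega), e4]
      push_cast; rfl
    · intro i hi
      rw [shl_bit, ones_bit]
      have : ¬ i - H.M < Nat.sub (H.lw r m).succ H.M := by
        show ¬ i - H.M < (H.lw r m + 1) - H.M
        have : H.lw r m + 1 ≤ i := hi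
        omega
      rw [decide_eq_false this, Bool.and_false]
  have mkl : ∀ (i : ℤ) (t : Nat), t < r → ∃ c, OccOK m c (H.lanes sh r m) (H.allow r m t) ∧
      Mark (H.app v) (H.M * i + k * t) m c := by
    intro i t ht
    have a := allB_spec hall t ht
    simp only [Bool.and_eq_true, Bool.or_eq_true, Nat.ble_eq] at a
    obtain ⟨⟨a1, a2⟩, a3⟩ := a
    have tr : ∀ (h : Wd) (c : Nat), k * t + m < H.M → Mark h.fn (k * t : ℕ) m c →
        (∀ j, j ≤ k * t + m → (H.sel (v (i + 1) - v i)).get j = h.get j) →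
        Mark (H.app v) (H.M * i + k * t) m c := by
      intro h c b1 b2 b3
      refine b2.congr (g := - v i) (fun u u1 u2 => ?_)
      obtain ⟨j, rfl⟩ := Int.eq_ofNat_of_zero_le (show 0 ≤ u by omega)
      have e : (j : ℤ) - (k * t : ℕ) + (H.M * i + k * t) = H.M * i + j := by push_cast; ring
      rw [e, H.app_eq v i (by omega), b3 j (by omega), Wd.fn_nat]; ring
    obtain ⟨b1, b2⟩ := markW_spec a1
    by_cases e : v (i + 1) - v i = 1
    · exact ⟨_, chkOcc_spec hd' a2, tr _ _ b1 b2 (fun j _ => by rw [Mor.sel, if_pos e])⟩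
    rcases a3 with a3 | ⟨a3, a4⟩
    · have a3' : k * t + (m + 1) ≤ sh := a3
      exact ⟨_, chkOcc_spec hd' a2, tr _ _ b1 b2 (fun j hj => hs.sel _ (by omega))⟩
    · obtain ⟨b3, b4⟩ := markW_spec a3
      exact ⟨_, chkOcc_spec hd' a4, tr _ _ b3 b4 (fun j _ => by rw [Mor.sel, if_neg e])⟩
  have fin : (H.M : ℤ) ∣ n → ∃ j t, n = H.M * j ∧ Sq v t j := by
    intro hdv
    obtain ⟨j, rfl⟩ : H.M ∣ n := by exact_mod_cast hdv
    obtain ⟨t, ht⟩ := hsq.sub hM 0
    refine ⟨j, t, rfl, ht.congr (g := H.h1.get 0) (fun i _ _ => ?_)⟩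
    simp only [add_zero, col, sub_add_cancel]
  -- marker positions
  have hr0 : 0 < r := hr
  choose bi bt hbt hb using decomp hr0
  set l : ℤ → ℤ := fun n => H.M * bi n + k * bt n with hl
  have stp : ∀ n, (bi (n + 1) = bi n ∧ bt (n + 1) = bt n + 1) ∨
      (bi (n + 1) = bi n + 1 ∧ bt (n + 1) = 0 ∧ bt n + 1 = r) := by
    intro n
    have a1 := hb n
    have a2 := hb (n + 1)
    have a3 := hbt n
    have a4 := hbt (n + 1)
    have c1 : bi n ≤ bi (n + 1) := by
      by_contra hc
      have : (r : ℤ) * (bi (n + 1) + 1) ≤ r * bi n := by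
        apply mul_le_mul_of_nonneg_left <;> omega
      rw [mul_add] at this
      omega
    have c2 : bi (n + 1) ≤ bi n + 1 := by
      by_contra hc
      have : (r : ℤ) * (bi n + 2) ≤ r * bi (n + 1) := by
        apply mul_le_mul_of_nonneg_left <;> omega
      rw [mul_add] at this
      omega
    rcases eq_or_lt_of_le c1 with e | e
    · left
      rw [← e] at a2
      exact ⟨e.symm, by omega⟩
    · right
      have e' : bi (n + 1) = bi n + 1 := by omega
      rw [e', mul_add] at a2
      exact ⟨e', by omega, by omega⟩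
  obtain ⟨r', hr'⟩ : ∃ r', r = r' + 1 := ⟨r - 1, by omega⟩
  have hkr' : k * r' + k ≤ H.M := by rw [hr'] at hkr; linarith
  have gap : ∀ n, l n + k ≤ l (n + 1) ∧ l (n + 1) ≤ l n + (H.M - k * r') := by
    intro n
    simp only [hl]
    rcases stp n with ⟨a, b⟩ | ⟨a, b, c⟩
    · rw [a, b]; push_cast
      have : ((k * r' + k : ℕ) : ℤ) ≤ H.M := by exact_mod_cast hkr'
      push_cast at this
      constructor <;> linarith
    · have c' : bt n = r' := by omega
      rw [a, b, c']; push_cast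
      have : ((k * r' + k : ℕ) : ℤ) ≤ H.M := by exact_mod_cast hkr'
      push_cast at this
      constructor <;> linarith
  have win : ∀ n', l n' < s → s + 2 * n < l (n' + 2) + (m + 1) → False := by
    intro n' w1 w2
    obtain ⟨c, c1, c2⟩ := lane (bi n')
    have nsq := (hq.sub (sub_blkN
      (fun c => Blk.one (H.blocks (H.nb sh r m) c 0) (H.lw r m) 0 0) c1)).one
    have g1 := gap n'
    have g2 := gap (n' + 1)
    have e2 : n' + 1 + 1 = n' + 2 := by ring
    rw [e2] at g2
    have lo : H.M * bi n' ≤ l n' := by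
      simp only [hl]
      have : (0 : ℤ) ≤ k * bt n' := by positivity
      omega
    have hi : l (n' + 2) + (m + 1) ≤ H.M * bi n' + H.lw r m := by
      rw [hlwe]
      have t1 := stp n'
      have t2 := stp (n' + 1)
      rw [e2] at t2
      have b2 := hbt (n' + 2)
      have b3 : k * bt (n' + 2) ≤ k * r' := Nat.mul_le_mul_left _ (by omega)
      have b4 : ((k * bt (n' + 2) : ℕ) : ℤ) ≤ H.M := by exact_mod_cast (by omega)
      push_cast at b4
      simp only [hl]
      split_ifs with e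
      · have z1 : bt (n' + 2) = 0 := by omega
        have z2 : bi (n' + 2) ≤ bi n' + 2 := by omega
        have : (H.M : ℤ) * bi (n' + 2) ≤ H.M * (bi n' + 2) := by
          apply mul_le_mul_of_nonneg_left z2; positivity
        rw [z1]; push_cast; linarith
      · rcases t1 with ⟨a, b⟩ | ⟨a, b, c⟩ <;> rcases t2 with ⟨a', b'⟩ | ⟨a', b', c'⟩
        · rw [a', a]; push_cast
          have : (0 : ℤ) ≤ k := by positivity
          linarith
        · rw [a', a, b']; push_cast
          have : (0 : ℤ) ≤ k := by positivity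
          linarith
        · rw [a', a, b', b]; push_cast; linarith
        · omega
    have hneed : H.M - k * r' + m / 2 ≤ K := by
      have : H.need r m = H.M - k * r' + m / 2 := by
        have : Nat.pred r = r' := by rw [hr']; rfl
        unfold Mor.need; rw [this]; rfl
      omega
    have cst : ((H.M - k * r' : ℕ) : ℤ) = H.M - k * r' := by
      rw [Nat.cast_sub (by omega)]; push_cast; rfl
    refine nsq (s - H.M * bi n') n hn (by omega) (by omega) (by omega) ?_
    refine hsq.congr (g := v (bi n')) (fun i a b => ?_)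
    rw [c2 i (by omega) (by omega)]; congr 2; ring
  have lmod : ∀ n', l n' % H.M = k * bt n' := by
    intro n'
    simp only [hl]
    have b3 : k * bt n' ≤ k * r' := Nat.mul_le_mul_left _ (by have := hbt n'; omega)
    have b4 : ((k * bt n' : ℕ) : ℤ) < H.M := by exact_mod_cast (by omega)
    push_cast at b4
    rw [add_comm, Int.add_mul_emod_self_left, Int.emod_eq_of_lt (by positivity) b4]
  rcases abs_cases (l := l) (r := fun n => l n + (m + 1)) (fun n => by omega)
    (fun n => by have := (gap n).1; omega) s (s + n) (s + 2 * n) (by omega) (by omega) with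
    ⟨u, u1, u2⟩ | ⟨u, u1, u2⟩ | ⟨u, u1, u2⟩ | ⟨u, u1, u2, _⟩
  · obtain ⟨c, c1, c2⟩ := mkl (bi u) (bt u) (hbt u)
    have := occl _ _ (hbt u) c1 _ (Mark.fwd hsq c2 u1 (by simp only [hl] at u2; omega))
    apply fin
    have e := lmod u
    simp only [hl] at e
    have := Int.ModEq.dvd (e.trans this.symm)
    simpa using this
  · obtain ⟨c, c1, c2⟩ := mkl (bi u) (bt u) (hbt u)
    have := occl _ _ (hbt u) c1 _ (Mark.bwd hsq c2 u1 (by simp only [hl] at u2; omega))
    apply fin
    have e := lmod u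
    simp only [hl] at e
    have := Int.ModEq.dvd (this.trans e.symm)
    simpa using this
  · exfalso
    have := (gap (u + 1)).1
    have e2 : u + 1 + 1 = u + 2 := by ring
    rw [e2] at this
    exact win u u1 (by omega)
  · exact (win u u1 u2).elim

def Mor.proj (H : Mor) (p r : Nat) : Mor :=
  ⟨Nat.div H.M p, H.h1.proj p r (Nat.div H.M p), H.h2.proj p r (Nat.div H.M p)⟩

theorem Mor.app_proj {H : Mor} {p r : Nat} (hp : 2 ≤ p) (hr : r < p) (hM : 0 < H.M)
    (hd : H.M % p = 0) (v : ℤ → Lt) (k : ℤ) : (H.proj p r).app v k = H.app v (p * k + r) := by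
  obtain ⟨m, hm⟩ := Nat.dvd_of_mod_eq_zero hd
  have e : (H.proj p r).M = m := by
    show H.M / p = m
    rw [hm, Nat.mul_div_cancel_left _ (by omega)]
  have m0 : 0 < m := by
    rcases Nat.eq_zero_or_pos m with a | a
    · rw [a] at hm; omega
    · exact a
  obtain ⟨i, j, hj, rfl⟩ := decomp m0 k
  have e2 : (p : ℤ) * (m * i + j) + r = H.M * i + (p * j + r : ℕ) := by
    rw [hm]; push_cast; ring
  rw [e2, H.app_eq v i (by rw [hm]; nlinarith), ← e, Mor.app_eq _ v i (by omega)]
  congr 1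
  have e3 : Nat.div H.M p = m := e
  unfold Mor.sel
  split_ifs
  · exact Wd.proj_get hp (by rw [e3]; exact hj)
  · exact Wd.proj_get hp (by rw [e3]; exact hj)

end

end Pool.Agent.Lib.MP_42179e_co
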