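import Pool.Agent.Lib.MP_42179e_co.Bits
import Pool.Agent.Lib.MP_42179e_co.Defs

/-!
A checker refuting contexts for the pair `(5,8)`.
-/

namespace Pool.Agent.Lib.MP_42179e_co

noncomputable section

theorem bi_of_inf {p q : ℕ} (hp : 0 < p) (hq : 0 < q) {w : ℕ → Fin 3} (h : InfGood p q w) :
    ∃ u : ℤ → Lt, SF u ∧ SF (fun k => u (p * k)) ∧ SF (fun k => u (q * k)) := by
  let F : ℕ → ℤ → Lt := fun k i => w (i + p * q * k).toNat
  have key : ∀ i : ℤ, ∃ c : Lt, {k : ℕ | F k i = c} ∈ Filter.hyperfilter ℕ := by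
    intro i
    obtain ⟨c, hc⟩ := Ultrafilter.eq_pure_of_finite ((Filter.hyperfilter ℕ).map (fun k => F k i))
    refine ⟨c, ?_⟩
    have : {c} ∈ (Filter.hyperfilter ℕ).map (fun k => F k i) := by rw [hc]; simp
    exact this
  choose v hv using key
  have main : ∀ m r : ℕ, 0 < r → m * r = p * q → InfSqFree (fun i => w (m * i)) →
      SF (fun k => v (m * k)) := by
    intro m r hr hm hw s n hn hs
    have h1 : (⋂ i ∈ Finset.Ico s (s + 2 * n), {k : ℕ | F k (m * i) = v (m * i)}) ∈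
        (Filter.hyperfilter ℕ : Filter ℕ) :=
      (Filter.biInter_finset_mem _).mpr (fun i _ => hv _)
    have h2 : {k : ℕ | s.natAbs ≤ k} ∈ (Filter.hyperfilter ℕ : Filter ℕ) :=
      Nat.hyperfilter_le_atTop (Filter.mem_atTop _)
    obtain ⟨k, k1, k2⟩ := Filter.nonempty_of_mem (Filter.inter_mem h1 h2)
    simp only [Set.mem_iInter, Set.mem_setOf_eq, Finset.mem_Ico] at k1 k2
    have k3 : k ≤ r * k := Nat.le_mul_of_pos_left _ hr
    obtain ⟨a, ha⟩ := Int.eq_ofNat_of_zero_le (show 0 ≤ s + (r * k : ℕ) by omega)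
    have e : ∀ j : ℕ, j < 2 * n → v (m * (s + j)) = w (m * (a + j)) := by
      intro j hj
      rw [← k1 (s + j) ⟨by omega, by omega⟩]
      show w _ = _
      congr 1
      have : (m : ℤ) * (s + j) + p * q * k = ((m * (a + j) : ℕ) : ℤ) := by
        have hm' : (p : ℤ) * q = m * r := by exact_mod_cast hm.symm
        push_cast at ha ⊢
        rw [hm', ← ha]; ring
      rw [this, Int.toNat_natCast]
    obtain ⟨j, j1, j2⟩ := hw a n hn
    have := hs (s + j) (by omega) (by omega)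
    have e2 : s + j + n = s + (n + j : ℕ) := by push_cast; ring
    simp only [e2] at this
    rw [e j (by omega), e (n + j) (by omega), ← add_assoc] at this
    exact j2 this.symm
  refine ⟨v, ?_, main p q hq rfl h.2.1, main q p hp (mul_comm _ _) h.2.2⟩
  have := main 1 (p * q) (Nat.mul_pos hp hq) (one_mul _) (by simpa using h.1)
  simpa using this

def G58 (w : ℤ → Lt) : Prop := SF w ∧ SF (fun k => w (5 * k)) ∧ SF (fun k => w (8 * k))

structure Cx where
  t : Nat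
  lx : Nat
  ly : Nat
  X : Wd
  Y : Wd

def Cx.At (c : Cx) (w : ℤ → Lt) (N : ℤ) : Prop :=
  N % 40 = c.t ∧ (∀ i : ℕ, i < c.lx → c.X.get i = w (5 * (N / 5 - i))) ∧
    ∀ i : ℕ, i < c.ly → c.Y.get i = w (8 * (N / 8 - i))

def Cx.Dead (c : Cx) : Prop := ∀ w, G58 w → ∀ N, ¬ c.At w N

inductive HT
  | sx (k : Nat)
  | sy (k : Nat)
  | rf (r s i : Nat)
  | bs (n : Nat)
  | nd (a b c : HT)

def push (a : Nat) (x : Wd) : Wd :=
  Wd.cat ⟨cond (Nat.beq a 1) 1 0, cond (Nat.beq a 2) 1 0⟩ 1 x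

theorem push_zero {a : Nat} (ha : a < 3) (x : Wd) : (push a x).get 0 = (a : Lt) := by
  rw [push, Wd.cat_lt one_pos]
  interval_cases a <;> rfl

theorem push_succ (a : Nat) (x : Wd) (i : Nat) : (push a x).get (i + 1) = x.get i := by
  rw [push, add_comm, Wd.cat_ge]

theorem push_spec {a n : Nat} (ha : a < 3) {x : Wd} {u : ℤ → Lt} {k : ℤ}
    (h : ∀ i : ℕ, i < n → x.get i = u (k - i)) (hu : u (k + 1) = a) :
    ∀ i : ℕ, i < n + 1 → (push a x).get i = u (k + 1 - i) := by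
  intro i hi
  cases i with
  | zero => rw [push_zero ha, ← hu]; simp
  | succ i => rw [push_succ, h i (by omega)]; congr 1; push_cast; ring

def sqE (x : Wd) (n k : Nat) : Bool :=
  Nat.ble 1 k && Nat.ble (Nat.mul 2 k) n && x.eqB (x.drop k) k

theorem sqE_spec {x : Wd} {n k : Nat} (h : sqE x n k = true) {u : ℤ → Lt} (hu : SF u) {c : ℤ}
    (hx : ∀ i : ℕ, i < n → x.get i = u (c - i)) : False := by
  unfold sqE at h
  simp only [Bool.and_eq_true, Nat.ble_eq] at h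
  obtain ⟨⟨h1, h2⟩, h3⟩ := h
  have h2' : 2 * k ≤ n := h2
  refine hu (c - 2 * k + 1) k h1 (fun i a b => ?_)
  obtain ⟨j, hj⟩ := Int.eq_ofNat_of_zero_le (show 0 ≤ c - (i + k) by omega)
  have := Wd.eqB_spec h3 j (by omega)
  rw [Wd.drop_get, hx _ (by omega), hx _ (by omega)] at this
  have e1 : i + k = c - j := by omega
  have e2 : i = c - (k + j : ℕ) := by omega
  rw [e1, this, ← e2]

def Cx.step (c : Cx) (a : Nat) : Cx :=
  cond (Nat.blt (Nat.sub 5 (Nat.mod c.t 5)) (Nat.sub 8 (Nat.mod c.t 8)))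
    ⟨Nat.mod (Nat.add c.t (Nat.sub 5 (Nat.mod c.t 5))) 40, Nat.succ c.lx, c.ly, push a c.X, c.Y⟩
    (cond (Nat.blt (Nat.sub 8 (Nat.mod c.t 8)) (Nat.sub 5 (Nat.mod c.t 5)))
      ⟨Nat.mod (Nat.add c.t (Nat.sub 8 (Nat.mod c.t 8))) 40, c.lx, Nat.succ c.ly, c.X, push a c.Y⟩
      ⟨Nat.mod (Nat.add c.t (Nat.sub 8 (Nat.mod c.t 8))) 40, Nat.succ c.lx, Nat.succ c.ly,
        push a c.X, push a c.Y⟩)

theorem Cx.step_spec {c : Cx} {w : ℤ → Lt} {N : ℤ} (h : c.At w N) :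
    ∃ (a : Nat) (N' : ℤ), a < 3 ∧ (c.step a).At w N' := by
  obtain ⟨h1, h2, h3⟩ := h
  have m5 : Nat.sub 5 (Nat.mod c.t 5) = 5 - c.t % 5 := rfl
  have m8 : Nat.sub 8 (Nat.mod c.t 8) = 8 - c.t % 8 := rfl
  have cv : ∀ b : Lt, ((b.val : ℕ) : Lt) = b := fun b => ZMod.natCast_zmod_val b
  unfold Cx.step
  rw [m5, m8]
  cases e1 : Nat.blt (5 - c.t % 5) (8 - c.t % 8)
  · have e1' : ¬ 5 - c.t % 5 < 8 - c.t % 8 := fun t => by rw [Nat.blt_eq.mpr t] at e1; simp at e1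
    cases e2 : Nat.blt (8 - c.t % 8) (5 - c.t % 5)
    · have e2' : ¬ 8 - c.t % 8 < 5 - c.t % 5 := fun t => by
        rw [Nat.blt_eq.mpr t] at e2; simp at e2
      refine ⟨(w (8 * (N / 8 + 1))).val, 8 * (N / 8 + 1), ZMod.val_lt _, ?_, ?_, ?_⟩
      · show _ = (((c.t + (8 - c.t % 8)) % 40 : ℕ) : ℤ)
        omega
      · have a : 8 * (N / 8 + 1) / 5 = N / 5 + 1 := by omega
        have b : 8 * (N / 8 + 1) = 5 * (N / 5 + 1) := by omega
        rw [a]
        exact push_spec (u := fun k => w (5 * k)) (ZMod.val_lt _) h2 (by rw [cv, b])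
      · have a : 8 * (N / 8 + 1) / 8 = N / 8 + 1 := by omega
        rw [a]
        exact push_spec (u := fun k => w (8 * k)) (ZMod.val_lt _) h3 (by rw [cv])
    · have e2' := Nat.blt_eq.mp e2
      refine ⟨(w (8 * (N / 8 + 1))).val, 8 * (N / 8 + 1), ZMod.val_lt _, ?_, ?_, ?_⟩
      · show _ = (((c.t + (8 - c.t % 8)) % 40 : ℕ) : ℤ)
        omega
      · have a : 8 * (N / 8 + 1) / 5 = N / 5 := by omega
        rw [a]; exact h2
      · have a : 8 * (N / 8 + 1) / 8 = N / 8 + 1 := by omega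
        rw [a]
        exact push_spec (u := fun k => w (8 * k)) (ZMod.val_lt _) h3 (by rw [cv])
  · have e1' := Nat.blt_eq.mp e1
    refine ⟨(w (5 * (N / 5 + 1))).val, 5 * (N / 5 + 1), ZMod.val_lt _, ?_, ?_, ?_⟩
    · show _ = (((c.t + (5 - c.t % 5)) % 40 : ℕ) : ℤ)
      omega
    · have a : 5 * (N / 5 + 1) / 5 = N / 5 + 1 := by omega
      rw [a]
      exact push_spec (u := fun k => w (5 * k)) (ZMod.val_lt _) h2 (by rw [cv])
    · have a : 5 * (N / 5 + 1) / 8 = N / 8 := by omega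
      rw [a]; exact h3

def trf (r s : Nat) (x : Wd) (n : Nat) : Wd :=
  cond (Nat.beq s 0) (x.rot n r)
    ⟨Nat.xor (Nat.lor (x.rot n r).a (x.rot n r).b) (x.rot n r).a, (x.rot n r).a⟩

def trl (r s : Nat) (a : Lt) : Lt := cond (Nat.beq s 0) (a + r) (-(a + r))

theorem trf_get {r s n i : Nat} {x : Wd} (hr : r < 3) (hi : i < n) :
    (trf r s x n).get i = trl r s (x.get i) := by
  unfold trf trl
  rw [← Wd.rot_get hr hi]
  cases Nat.beq s 0
  · simp only [cond_false, Wd.get, xor_bit, lor_bit]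
    cases (x.rot n r).a.testBit i <;> cases (x.rot n r).b.testBit i <;> rfl
  · rfl

theorem SF.trl {u : ℤ → Lt} (h : SF u) (r s : Nat) : SF (fun i => trl r s (u i)) := by
  unfold Pool.Agent.Lib.MP_42179e_co.trl
  cases Nat.beq s 0
  · exact (h.add _).neg
  · exact h.add _

def Cx.ref (c e : Cx) (r s : Nat) : Bool :=
  Nat.blt r 3 && Nat.beq c.t e.t && Nat.ble e.lx c.lx && Nat.ble e.ly c.ly &&
    (trf r s c.X e.lx).eqB e.X e.lx && (trf r s c.Y e.ly).eqB e.Y e.ly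

theorem Cx.ref_spec {c e : Cx} {r s : Nat} (h : c.ref e r s = true) (he : e.Dead) : c.Dead := by
  unfold Cx.ref at h
  simp only [Bool.and_eq_true, Nat.ble_eq, Nat.blt_eq, Nat.beq_eq] at h
  obtain ⟨⟨⟨⟨⟨h1, h2⟩, h3⟩, h4⟩, h5⟩, h6⟩ := h
  intro w hw N ⟨a1, a2, a3⟩
  refine he (fun i => trl r s (w i)) ⟨hw.1.trl r s, hw.2.1.trl r s, hw.2.2.trl r s⟩ N
    ⟨by rw [← h2]; exact a1, fun i hi => ?_, fun i hi => ?_⟩
  · rw [← Wd.eqB_spec h5 i hi, trf_get h1 hi, a2 i (by omega)]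
  · rw [← Wd.eqB_spec h6 i hi, trf_get h1 hi, a3 i (by omega)]

def Cx.confl (c : Cx) (e a : Nat) : Bool :=
  (Nat.beq (Nat.mod e 5) (Nat.mod c.t 5) && Nat.blt (Nat.div e 5) c.lx &&
    !(Nat.beq (c.X.getN (Nat.div e 5)) a)) ||
  (Nat.beq (Nat.mod e 8) (Nat.mod c.t 8) && Nat.blt (Nat.div e 8) c.ly &&
    !(Nat.beq (c.Y.getN (Nat.div e 8)) a))

def Cx.fill (c : Cx) (e : Nat) : Wd → Nat → Bool :=
  Nat.rec (motive := fun _ => Wd → Nat → Bool) (fun _ _ => false)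
    (fun e ih W n => allB (fun a => c.confl e a ||
      anyB (fun k => sqE (push a W) (Nat.succ n) (Nat.succ k)) (Nat.div (Nat.succ n) 2) ||
      ih (push a W) (Nat.succ n)) 3) e

theorem Cx.fill_spec {c : Cx} {w : ℤ → Lt} (hw : SF w) {N : ℤ} (h : c.At w N) (e : Nat) :
    ∀ (W : Wd) (n : Nat), c.fill e W n = true →
      (∀ i : ℕ, i < n → W.get i = w (N - e - i)) → False := by
  induction e with
  | zero => intro W n a; exact absurd a (by simp [Cx.fill])
  | succ e ih =>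
    intro W n a b
    have cv : (((w (N - e)).val : ℕ) : Lt) = w (N - e) := ZMod.natCast_zmod_val _
    have lt : (w (N - e)).val < 3 := ZMod.val_lt _
    have a0 : allB (fun a => c.confl e a ||
      anyB (fun k => sqE (push a W) (n + 1) (k + 1)) (Nat.div (n + 1) 2) ||
      c.fill e (push a W) (n + 1)) 3 = true := a
    have a' := allB_spec a0 _ lt
    have e0 : N - (e + 1 : ℕ) + 1 = N - e := by push_cast; ring
    have ps := push_spec (u := w) lt b (by rw [e0, cv])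
    rw [e0] at ps
    have gn : ∀ (x : Wd) (i : Nat), x.get i = w (N - e) → Nat.beq (x.getN i) (w (N - e)).val = true := by
      intro x i hx
      rw [← hx, ← Wd.getN_cast, ZMod.val_cast_of_lt, Nat.beq_refl]
      unfold Wd.getN
      cases tb x.a i <;> cases tb x.b i <;> simp
    obtain ⟨h1, h2, h3⟩ := h
    simp only [Bool.or_eq_true] at a'
    rcases a' with (a' | a') | a'
    · unfold Cx.confl at a'
      simp only [Bool.or_eq_true, Bool.and_eq_true, Nat.beq_eq, Nat.blt_eq,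
        Bool.not_eq_true'] at a'
      rcases a' with ⟨⟨b1, b2⟩, b3⟩ | ⟨⟨b1, b2⟩, b3⟩
      · have b1' : e % 5 = c.t % 5 := b1
        rw [gn _ _ (by
          rw [h2 _ b2]; congr 1
          show 5 * (N / 5 - (e / 5 : ℕ)) = _
          omega)] at b3
        exact absurd b3 (by simp)
      · have b1' : e % 8 = c.t % 8 := b1
        rw [gn _ _ (by
          rw [h3 _ b2]; congr 1
          show 8 * (N / 8 - (e / 8 : ℕ)) = _
          omega)] at b3
        exact absurd b3 (by simp)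
    · obtain ⟨k, _, k2⟩ := anyB_spec a'
      exact sqE_spec k2 hw ps
    · exact ih _ _ a' ps

def chkH (tab : List (Cx × HT)) (n : Nat) (t : HT) : Cx → Bool :=
  HT.rec (motive := fun _ => Cx → Bool) (fun k c => sqE c.X c.lx k) (fun k c => sqE c.Y c.ly k)
    (fun r s i c => Nat.blt i n && c.ref (tab.getD i (⟨0, 0, 0, ⟨0, 0⟩, ⟨0, 0⟩⟩, HT.sx 0)).1 r s)
    (fun e c => c.fill e ⟨0, 0⟩ 0)
    (fun _ _ _ i0 i1 i2 c => i0 (c.step 0) && i1 (c.step 1) && i2 (c.step 2)) t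

theorem chkH_spec {tab : List (Cx × HT)} {n : Nat}
    (hn : ∀ i, i < n → (tab.getD i (⟨0, 0, 0, ⟨0, 0⟩, ⟨0, 0⟩⟩, HT.sx 0)).1.Dead) (t : HT) :
    ∀ c : Cx, chkH tab n t c = true → c.Dead := by
  induction t with
  | sx k => exact fun c h w hw N a => sqE_spec h hw.2.1 a.2.1
  | sy k => exact fun c h w hw N a => sqE_spec h hw.2.2 a.2.2
  | rf r s i =>
    intro c h
    have h' : (Nat.blt i n && c.ref (tab.getD i (⟨0, 0, 0, ⟨0, 0⟩, ⟨0, 0⟩⟩, HT.sx 0)).1 r s) =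
      true := h
    rw [Bool.and_eq_true] at h'
    exact Cx.ref_spec h'.2 (hn i (Nat.blt_eq.mp h'.1))
  | bs e => exact fun c h w hw N a => Cx.fill_spec hw.1 a e _ _ h (fun i hi => by omega)
  | nd a b d i0 i1 i2 =>
    intro c h w hw N hc
    have h' : (chkH tab n a (c.step 0) && chkH tab n b (c.step 1) && chkH tab n d (c.step 2)) =
      true := h
    simp only [Bool.and_eq_true] at h'
    obtain ⟨x, N', x1, x2⟩ := Cx.step_spec hc
    interval_cases x
    · exact i0 _ h'.1.1 w hw N' x2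
    · exact i1 _ h'.1.2 w hw N' x2
    · exact i2 _ h'.2 w hw N' x2

def chkTab (tab : List (Cx × HT)) (n : Nat) : Bool :=
  allB (fun i => chkH tab i (tab.getD i (⟨0, 0, 0, ⟨0, 0⟩, ⟨0, 0⟩⟩, HT.sx 0)).2
    (tab.getD i (⟨0, 0, 0, ⟨0, 0⟩, ⟨0, 0⟩⟩, HT.sx 0)).1) n

theorem chkTab_spec {tab : List (Cx × HT)} {n : Nat} (h : chkTab tab n = true) (i : Nat) :
    i < n → (tab.getD i (⟨0, 0, 0, ⟨0, 0⟩, ⟨0, 0⟩⟩, HT.sx 0)).1.Dead := by
  induction i using Nat.strong_induction_on with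
  | _ i ih => exact fun hi => chkH_spec (fun j hj => ih j hj (by omega)) _ _ (allB_spec h i hi)

end

end Pool.Agent.Lib.MP_42179e_co
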