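import Pool.Agent.Lib.MP_42179e_co.Ep

/-!
Filling an arbitrary square-free word placed at the multiples of `p`, with junctions determined by
the local context, and one prescribed letter every `q` positions.
-/

namespace Pool.Agent.Lib.MP_42179e_co

noncomputable section

structure TC where
  p : Nat
  o : Nat
  ka : Nat
  nd : Nat
  lam : Nat
  mS : Nat
  mP : Nat
  r0 : Nat
  r1 : Nat
  j0 : Nat
  J : List Wd
  MS : List Nat
  MP : List Nat

def TC.jw (C : TC) (c : Nat) : Wd := C.J.getD (low c C.nd) ⟨0, 0⟩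

def TC.len (C : TC) (r : Nat) : Nat := Nat.add (Nat.mul C.p r) C.lam

def TC.win (C : TC) (r c : Nat) (m : Wd) : Wd :=
  (C.jw c).cat C.lam (m.cat (Nat.sub (Nat.mul C.p r) C.lam)
    ((C.jw (Nat.shiftRight c r)).rot C.lam (lab c r)))

def TC.chk0 (C : TC) : Bool :=
  Nat.blt C.o C.p && Nat.ble C.ka (Nat.succ C.nd) && Nat.ble C.nd 16 &&
  Nat.ble (Nat.add (Nat.add C.mS C.mP) 2) C.lam && Nat.ble 1 C.r0 && Nat.ble 1 C.r1 &&
  allL (fun c => anyL (fun m => markW (C.jw c) C.lam 0 C.mS m) C.MS &&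
    anyL (fun m => markW (C.jw c) C.lam (Nat.sub (Nat.pred C.lam) C.mP) C.mP m) C.MP) (sfl C.nd)

def TC.lane (C : TC) (r c : Nat) (m : Wd) : Blk :=
  Blk.one (C.win r c m) (C.len r) (rep 1 C.p 5)
    (Nat.shiftLeft (rep 1 C.p 5) (Nat.mod (Nat.sub (Nat.pred C.lam) C.mP) C.p))

def TC.giant (C : TC) (r : Nat) (prs : List (Nat × List Wd)) : Blk :=
  blkL (fun ct => blkL (C.lane r ct.1) ct.2) prs

def TC.xok (C : TC) (r c : Nat) (m : Wd) : Bool :=
  allB (fun i => Nat.beq ((C.win r c m).getN (Nat.add (Nat.mul C.p i) C.o))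
    (lab c (Nat.add C.ka i))) r

def TC.exempt (C : TC) (r c d cc : Nat) : Bool :=
  anyB (fun i =>
    (Nat.beq (Nat.add d (Nat.mul C.p C.ka)) (Nat.add (Nat.mul C.p i) C.o) &&
      !(Nat.beq cc (lab c i))) ||
    ((Nat.beq (Nat.add d (Nat.mul C.p C.ka)) (Nat.succ (Nat.add (Nat.mul C.p i) C.o)) ||
      Nat.beq (Nat.succ (Nat.add d (Nat.mul C.p C.ka))) (Nat.add (Nat.mul C.p i) C.o)) &&
      Nat.beq cc (lab c i))) (Nat.succ (Nat.add r C.nd))

def chkG2 (g : Blk) (K mS mP : Nat) (MS MP : List Nat) : Bool :=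
  chkSq g K && allL (fun m => chkOcc g mS m g.o1) MS && allL (fun m => chkOcc g mP m g.o2) MP

def TC.chkP (C : TC) (r : Nat) (ev : Bool) (prs : List (Nat × List Wd)) : Bool :=
  List.beq (mapL Prod.fst prs) (sfl (Nat.add r C.nd)) &&
  chkG2 (C.giant r prs) (Nat.div (C.len r) 2) C.mS C.mP C.MS C.MP &&
  allL (fun ct => allL (C.xok r ct.1) ct.2 && anyL (fun _ => true) ct.2 &&
    (!ev || allB (fun d => allB (fun cc =>
      anyL (fun m => Nat.beq ((C.win r ct.1 m).getN (Nat.add C.j0 d)) cc) ct.2 ||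
        C.exempt r ct.1 (Nat.add C.j0 d) cc) 3) C.p)) prs

def TC.chkR (C : TC) (r : Nat) (ev : Bool) (tabs : List (List Wd)) : Bool :=
  Nat.ble (Nat.add r C.nd) 16 && Nat.ble C.lam (Nat.mul C.p r) &&
  (!ev || Nat.ble (Nat.add C.j0 C.p) (Nat.mul C.p r)) &&
  C.chkP r ev (List.zip (sfl (Nat.add r C.nd)) tabs)

structure TC.TOK (C : TC) (r c : Nat) (m : Wd) : Prop where
  lam : C.lam ≤ C.p * r
  sq : NoSq (C.win r c m).fn 0 (C.p * r + C.lam : ℕ) ((C.p * r + C.lam) / 2)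
  oS : ∀ u ∈ C.MS, ∀ s : ℕ, s + C.mS < C.p * r + C.lam → Mark (C.win r c m).fn s C.mS u →
    s % C.p = 0
  oP : ∀ u ∈ C.MP, ∀ s : ℕ, s + C.mP < C.p * r + C.lam → Mark (C.win r c m).fn s C.mP u →
    s % C.p = (C.lam - 1 - C.mP) % C.p
  x : ∀ i, i < r → (C.win r c m).get (C.p * i + C.o) = (lab c (C.ka + i) : Lt)

def TC.PlainOK (C : TC) (r : Nat) : Prop :=
  ∀ x, SF x → ∀ k : ℤ, ∃ c m, Mark x k (r + C.nd) c ∧ C.TOK r c m

def TC.EvOK (C : TC) (r : Nat) : Prop :=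
  C.j0 + C.p ≤ C.p * r ∧ ∀ x, SF x → ∀ (k : ℤ) (d : ℕ) (y : Lt), d < C.p →
    (∀ i : ℤ, C.j0 + d + C.p * C.ka = C.p * i + C.o → y = x (k + i)) →
    (∀ i : ℤ, C.j0 + d + C.p * C.ka = C.p * i + C.o + 1 ∨
      C.j0 + d + C.p * C.ka + 1 = C.p * i + C.o → y ≠ x (k + i)) →
    ∃ c m, Mark x k (r + C.nd) c ∧ C.TOK r c m ∧ (C.win r c m).get (C.j0 + d) + x k = y

theorem TC.chkR_spec {C : TC} (hp : 0 < C.p) {r : Nat} {ev : Bool} {tabs : List (List Wd)}
    (h : C.chkR r ev tabs = true) : C.PlainOK r ∧ (ev = true → C.EvOK r) := by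
  unfold TC.chkR TC.chkP chkG2 at h
  simp only [Bool.and_eq_true, Nat.ble_eq] at h
  obtain ⟨⟨⟨h1, h2⟩, h3⟩, ⟨h4, ⟨h5, h6⟩, h7⟩, h8⟩ := h
  set prs := List.zip (sfl (Nat.add r C.nd)) tabs
  have hd := chkSqR_disj h5
  have h4' : mapL Prod.fst prs = sfl (r + C.nd) := by
    have : (mapL Prod.fst prs == sfl (r + C.nd)) = true := h4
    exact eq_of_beq this
  have r1 := rep_bit (y := 1) hp (fun i hi => one_bit (by omega)) 5
  have tok : ∀ ct ∈ prs, ∀ m ∈ ct.2, C.TOK r ct.1 m := by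
    intro ct c1 m c2
    have sub : Sub (C.lane r ct.1 m) (C.giant r prs) :=
      (sub_blkL _ c2).trans (sub_blkL (fun ct : Nat × List Wd => blkL (C.lane r ct.1) ct.2) c1)
    have a := allL_spec h8 ct c1
    simp only [Bool.and_eq_true] at a
    refine ⟨h2, ((chkSq_spec h5).sub sub).one, fun u hu s s1 s2 => ?_, fun u hu s s1 s2 => ?_,
      fun i hi => ?_⟩
    · have := ((chkOcc_spec hd (allL_spec h6 u hu)).sub1 sub).one1 s s1 s2
      rw [r1, Bool.and_eq_true] at this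
      by_contra hc
      exact absurd ((one_bit hc).symm.trans this.2) (by simp)
    · have := ((chkOcc_spec hd (allL_spec h7 u hu)).sub2 sub).one2 s s1 s2
      rw [shl_bit, r1] at this
      simp only [Bool.and_eq_true, decide_eq_true_eq] at this
      obtain ⟨t1, _, t3⟩ := this
      have t1' : (C.lam - 1 - C.mP) % C.p ≤ s := t1
      have t4 : (s - (C.lam - 1 - C.mP) % C.p) % C.p = 0 := by
        by_contra hc
        exact absurd ((one_bit hc).symm.trans t3) (by simp)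
      obtain ⟨y, hy⟩ := Nat.dvd_of_mod_eq_zero t4
      have : s = C.p * y + (C.lam - 1 - C.mP) % C.p := by omega
      rw [this, Nat.mul_add_mod, Nat.mod_mod]
    · have := allB_spec (allL_spec a.1.1 m c2) i hi
      rw [← Wd.getN_cast]
      exact congrArg _ (Nat.eq_of_beq_eq_true this)
  have ctx : ∀ x, SF x → ∀ k : ℤ, ∃ ct ∈ prs, Mark x k (r + C.nd) ct.1 := by
    intro x hx k
    obtain ⟨c, c1, c2⟩ := sfl_spec hx k (r + C.nd) h1
    rw [← h4', mapL_eq] at c1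
    obtain ⟨ct, t1, t2⟩ := List.mem_map.mp c1
    exact ⟨ct, t1, by rw [t2]; exact c2⟩
  refine ⟨fun x hx k => ?_, fun he => ⟨?_, fun x hx k d y hd e1 e2 => ?_⟩⟩
  · obtain ⟨ct, c1, c2⟩ := ctx x hx k
    have a := allL_spec h8 ct c1
    simp only [Bool.and_eq_true] at a
    obtain ⟨m, m1, _⟩ := anyL_spec a.1.2
    exact ⟨_, m, c2, tok ct c1 m m1⟩
  · rw [he] at h3
    simpa using h3
  · obtain ⟨ct, c1, c2⟩ := ctx x hx k
    have a := allL_spec h8 ct c1
    simp only [Bool.and_eq_true, he, Bool.not_true, Bool.false_or] at a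
    have b := allB_spec (allB_spec a.2 d hd) (y - x k).val (val_lt _)
    rw [Bool.or_eq_true] at b
    rcases b with b | b
    · obtain ⟨m, m1, m2⟩ := anyL_spec b
      refine ⟨_, m, c2, tok ct c1 m m1, ?_⟩
      have := getN_eq m2
      exact eq_sub_iff_add_eq.mp this
    · exfalso
      obtain ⟨i, i1, i2⟩ := anyB_spec b
      have i1' : i ≤ r + C.nd := Nat.lt_succ_iff.mp i1
      have l := c2.lab i i1'
      simp only [Bool.or_eq_true, Bool.and_eq_true, Nat.beq_eq, Bool.not_eq_true'] at i2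
      rcases i2 with ⟨u1, u2⟩ | ⟨u1, u2⟩
      · have u1' : C.j0 + d + C.p * C.ka = C.p * i + C.o := u1
        have := e1 i (by exact_mod_cast u1')
        rw [this, l, add_sub_cancel_left, val_cast (lab_lt _ _), Nat.beq_refl] at u2
        exact absurd u2 (by simp)
      · have u1' : C.j0 + d + C.p * C.ka = C.p * i + C.o + 1 ∨
          C.j0 + d + C.p * C.ka + 1 = C.p * i + C.o := u1
        apply e2 i (by exact_mod_cast u1')
        rw [l, ← u2, cast_val]; ring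

theorem dv_inj {a b : Bool} (h : dv a = dv b) : a = b := by
  revert h; cases a <;> cases b <;> decide

theorem low_eq_of_mark {v : ℤ → Lt} {i : ℤ} {n c c' : Nat} (h : Mark v i n c) (h' : Mark v i n c') :
    low c n = low c' n := by
  apply Nat.eq_of_testBit_eq
  intro j
  rw [low_bit, low_bit]
  by_cases e : j < n
  · rw [dv_inj ((h j e).symm.trans (h' j e))]
  · simp [e]

def TC.Tile (C : TC) (x w : ℤ → Lt) (k : ℤ) (r n : Nat) : Prop :=
  ∃ c m, Mark x (k - C.ka) (r + C.nd) c ∧ C.TOK r c m ∧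
    ∀ j : ℕ, j < n → w (C.p * k - C.o + j) = (C.win r c m).get j + x (k - C.ka)

theorem TC.Tile.ext {C : TC} {x w : ℤ → Lt} {k : ℤ} {r r' : Nat}
    (h : C.Tile x w k r (C.p * r)) (h' : C.Tile x w (k + r) r' (C.p * r')) :
    C.Tile x w k r (C.p * r + C.lam) := by
  obtain ⟨c, m, a1, a2, a3⟩ := h
  obtain ⟨c', m', b1, b2, b3⟩ := h'
  refine ⟨c, m, a1, a2, fun j hj => ?_⟩
  by_cases e : j < C.p * r
  · exact a3 j e
  · obtain ⟨u, rfl⟩ := Nat.exists_eq_add_of_le (not_lt.mp e)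
    have l1 := a2.lam
    have l2 := b2.lam
    have := b3 u (by omega)
    have e1 : (C.p : ℤ) * k - C.o + (C.p * r + u : ℕ) = C.p * (k + r) - C.o + u := by
      push_cast; ring
    rw [e1, this, TC.win, TC.win, Wd.cat_lt (by omega)]
    have e2 : C.p * r + u = C.lam + (Nat.sub (Nat.mul C.p r) C.lam + u) := by
      show _ = C.lam + (C.p * r - C.lam + u); omega
    rw [e2, Wd.cat_ge, Wd.cat_ge, Wd.rot_get (lab_lt _ _) (by omega)]
    have e3 : k + r - C.ka = k - C.ka + r := by ring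
    rw [e3] at b1 ⊢
    have e4 : C.jw c' = C.jw (Nat.shiftRight c r) := by
      unfold TC.jw
      rw [low_eq_of_mark (b1.mono (Nat.le_add_left _ _)) (a1.tail r C.nd le_rfl)]
    rw [e4, a1.lab r (by omega)]; ring

theorem TC.sf_of {C : TC} (h0 : C.chk0 = true) {x w : ℤ → Lt} (hx : SF x)
    (cov : ∀ i : ℤ, ∃ (k : ℤ) (r : ℕ), k ≤ i ∧ i < k + r ∧ C.Tile x w k r (C.p * r + C.lam)) :
    SF w ∧ ∀ k, w (C.p * k) = x k := by
  unfold TC.chk0 at h0
  simp only [Bool.and_eq_true, Nat.ble_eq, Nat.blt_eq] at h0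
  obtain ⟨⟨⟨⟨⟨⟨ho, hka⟩, hnd⟩, hl⟩, _⟩, _⟩, hJ⟩ := h0
  have hl' : C.mS + C.mP + 2 ≤ C.lam := hl
  have hka' : C.ka ≤ C.nd + 1 := hka
  have p0 : 0 < C.p := by omega
  have wx : ∀ k, w (C.p * k) = x k := by
    intro i
    obtain ⟨k, r, k1, k2, c, m, a1, a2, a3⟩ := cov i
    obtain ⟨u, hu⟩ := Int.eq_ofNat_of_zero_le (show 0 ≤ i - k by omega)
    have u1 : u < r := by omega
    have := a3 (C.p * u + C.o) (by nlinarith)
    have e1 : (C.p : ℤ) * k - C.o + (C.p * u + C.o : ℕ) = C.p * i := by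
      push_cast; rw [← hu]; ring
    rw [e1, a2.x u u1, add_comm, ← a1.lab _ (by omega)] at this
    rw [this]; congr 1; push_cast; omega
  have loc : ∀ s : ℤ, ∃ (k : ℤ) (r u : ℕ), u < C.p * r ∧ s = C.p * k - C.o + u ∧
      C.Tile x w k r (C.p * r + C.lam) := by
    intro s
    obtain ⟨i, j, hj, e⟩ := decomp p0 (s + C.o)
    obtain ⟨k, r, k1, k2, t⟩ := cov i
    obtain ⟨u, hu⟩ := Int.eq_ofNat_of_zero_le (show 0 ≤ i - k by omega)
    have u1 : u + 1 ≤ r := by omega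
    refine ⟨k, r, C.p * u + j, by nlinarith, ?_, t⟩
    push_cast; rw [← hu]; linarith [mul_sub (C.p : ℤ) i k]
  have tr : ∀ {k : ℤ} {W : Wd} {g : Lt} {n : ℕ},
      (∀ j : ℕ, j < n → w (C.p * k - C.o + j) = W.get j + g) →
      ∀ i : ℤ, C.p * k - C.o ≤ i → i < C.p * k - C.o + n → w i = W.fn (i - (C.p * k - C.o)) + g := by
    intro k W g n h i i1 i2
    obtain ⟨u, hu⟩ := Int.eq_ofNat_of_zero_le (show 0 ≤ i - (C.p * k - C.o) by omega)
    rw [hu, Wd.fn_nat, ← h u (by omega)]; congr 1; omega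
  have occS : ∀ u ∈ C.MS, ∀ s, Mark w s C.mS u → (C.p : ℤ) ∣ s + C.o := by
    intro u hu s hs
    obtain ⟨k, r, j, j1, rfl, c, m, a1, a2, a3⟩ := loc s
    have := a2.oS u hu j (by omega) (hs.congr (g := x (k - C.ka)) (fun i i1 i2 => by
      rw [tr a3 i (by omega) (by omega)]; congr 2; ring))
    obtain ⟨y, hy⟩ := Nat.dvd_of_mod_eq_zero this
    exact ⟨k + y, by rw [hy]; push_cast; ring⟩
  have occP : ∀ u ∈ C.MP, ∀ s, Mark w s C.mP u → (C.p : ℤ) ∣ s + C.o - (C.lam - 1 - C.mP : ℕ) := by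
    intro u hu s hs
    obtain ⟨k, r, j, j1, rfl, c, m, a1, a2, a3⟩ := loc s
    have := a2.oP u hu j (by omega) (hs.congr (g := x (k - C.ka)) (fun i i1 i2 => by
      rw [tr a3 i (by omega) (by omega)]; congr 2; ring))
    have t : (C.p : ℤ) ∣ (j : ℤ) - (C.lam - 1 - C.mP : ℕ) :=
      (Nat.modEq_iff_dvd.mp (show (C.lam - 1 - C.mP) ≡ j [MOD C.p] from this.symm))
    obtain ⟨y, hy⟩ := t
    exact ⟨k + y, by rw [mul_add, ← hy]; ring⟩
  refine ⟨fun s d hd hs => ?_, wx⟩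
  refine not_sq_of_dvd p0 hd 0 (by simp only [add_zero, wx]; exact hx) ?_ hs
  obtain ⟨k, r, j, j1, rfl, c, m, a1, a2, a3⟩ := loc s
  by_cases ins : j + 2 * d ≤ C.p * r + C.lam
  · exfalso
    refine a2.sq j d hd (by omega) (by omega) (by omega) (hs.congr (g := x (k - C.ka))
      (fun i i1 i2 => ?_))
    rw [tr a3 i (by omega) (by omega)]; congr 2; ring
  obtain ⟨c0, c1, c2⟩ := sfl_spec hx (k - C.ka + r) C.nd hnd
  have e4 : C.jw c0 = C.jw (Nat.shiftRight c r) := by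
    unfold TC.jw
    rw [low_eq_of_mark c2 (a1.tail r C.nd le_rfl)]
  have jw : ∀ i : ℤ, 0 ≤ i → i < C.lam → (C.jw c0).fn i =
      w (i + (C.p * k - C.o + (C.p * r : ℕ))) + - (lab c r + x (k - C.ka)) := by
    intro i i1 i2
    obtain ⟨u, rfl⟩ := Int.eq_ofNat_of_zero_le i1
    have := a3 (C.p * r + u) (by omega)
    have l1 := a2.lam
    have e2 : C.p * r + u = C.lam + (Nat.sub (Nat.mul C.p r) C.lam + u) := by
      show _ = C.lam + (C.p * r - C.lam + u); omega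
    rw [TC.win] at this
    conv_rhs at this => rw [e2, Wd.cat_ge, Wd.cat_ge, Wd.rot_get (lab_lt _ _) (by omega), ← e4]
    have e3 : (u : ℤ) + (C.p * k - C.o + (C.p * r : ℕ)) = C.p * k - C.o + (C.p * r + u : ℕ) := by
      push_cast; ring
    rw [e3, this, Wd.fn_nat]; ring
  have a := allL_spec hJ c0 c1
  rw [Bool.and_eq_true] at a
  by_cases hf : C.p * r + C.mS + 1 ≤ j + d
  · obtain ⟨u, u1, u2⟩ := anyL_spec a.1
    have mk : Mark w (C.p * k - C.o + (C.p * r : ℕ)) C.mS u :=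
      (markW_spec u2).2.congr (fun i i1 i2 => by
        rw [jw i (by omega) (by omega)]; congr 2; push_cast; ring)
    have d1 := occS u u1 _ mk
    have d2 := occS u u1 _ (Mark.fwd hs mk (by omega) (by omega))
    have := dvd_sub d2 d1
    simpa using this
  · obtain ⟨u, u1, u2⟩ := anyL_spec a.2
    have e5 : Nat.sub (Nat.pred C.lam) C.mP = C.lam - 1 - C.mP := rfl
    rw [e5] at u2
    have mk : Mark w (C.p * k - C.o + (C.p * r : ℕ) + (C.lam - 1 - C.mP : ℕ)) C.mP u :=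
      (markW_spec u2).2.congr (fun i i1 i2 => by
        rw [jw i (by omega) (by omega)]; congr 2; ring)
    have d1 := occP u u1 _ mk
    have d2 := occP u u1 _ (Mark.bwd hs mk (by omega) (by omega))
    have := dvd_sub d1 d2
    simpa using this

theorem TC.fill {C : TC} (h0 : C.chk0 = true) (hP : C.PlainOK C.r0)
    (hE : ∀ i, i < C.r0 → C.EvOK (C.r1 + i)) {q : ℕ} (hq : C.p * C.r1 ≤ q) : Fill C.p q := by
  intro x hx y hc
  have h0' := h0
  unfold TC.chk0 at h0'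
  simp only [Bool.and_eq_true, Nat.ble_eq, Nat.blt_eq] at h0'
  obtain ⟨⟨⟨⟨⟨⟨ho, _⟩, _⟩, _⟩, hr0⟩, hr1⟩, _⟩ := h0'
  have p0 : 0 < C.p := by omega
  have p0' : (0 : ℤ) < C.p := by omega
  choose κ δ hδ hκ using fun n : ℤ => decomp p0 (q * n + C.o - C.j0)
  have gap : ∀ n, ∃ i t : ℕ, i < C.r0 ∧ κ (n + 1) = κ n + (C.r1 + i : ℕ) + C.r0 * t := by
    intro n
    have a1 := hκ n
    have a2 := hκ (n + 1)
    have a3 := hδ n
    have a4 := hδ (n + 1)
    have a5 : (C.p : ℤ) * C.r1 ≤ q := by exact_mod_cast hq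
    have c1 : 0 ≤ κ (n + 1) - κ n - C.r1 := by
      by_contra hc
      have : (C.p : ℤ) * (κ (n + 1) - κ n - C.r1) ≤ C.p * (-1) :=
        mul_le_mul_of_nonneg_left (by omega) p0'.le
      rw [mul_sub, mul_sub] at this
      rw [mul_add] at a2
      omega
    obtain ⟨z, hz⟩ := Int.eq_ofNat_of_zero_le c1
    refine ⟨z % C.r0, z / C.r0, Nat.mod_lt _ hr0, ?_⟩
    have := Nat.mod_add_div z C.r0
    have e : (z : ℤ) = (z % C.r0 : ℕ) + C.r0 * (z / C.r0 : ℕ) := by exact_mod_cast this.symm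
    rw [Nat.cast_add]; omega
  choose ι t hι ht using gap
  choose cP mP hP1 hP2 using fun k : ℤ => hP x hx (k - C.ka)
  choose cE mE hE1 hE2 hE3 using fun n : ℤ => (hE (ι n) (hι n)).2 x hx (κ n - C.ka) (δ n) (y n)
    (hδ n) (fun i hi => (hc.1 _ n (by
      have := hκ n
      rw [mul_add, mul_sub]; omega)).symm)
    (fun i hi => (hc.2 _ n (by
      have := hκ n
      rw [mul_add, mul_sub]; omega)).symm)
  have r0' : (0 : ℤ) < C.r0 := by omega
  have stp : ∀ n, κ n + (C.r1 + ι n : ℕ) ≤ κ (n + 1) := fun n => by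
    have := ht n
    have : (0 : ℤ) ≤ C.r0 * t n := by positivity
    omega
  have mono : ∀ a b : ℤ, a ≤ b → (C.p : ℤ) * a ≤ C.p * b := fun a b h =>
    mul_le_mul_of_nonneg_left h p0'.le
  obtain ⟨w, hw⟩ := glue (l := fun n => C.p * κ n - C.o) (fun n => by
      have := mono _ _ (show κ n + 1 ≤ κ (n + 1) by have := stp n; omega)
      rw [mul_add] at this
      omega)
    (fun n i => if i < C.p * (κ n + (C.r1 + ι n : ℕ)) - C.o then
      (C.win (C.r1 + ι n) (cE n) (mE n)).fn (i - (C.p * κ n - C.o)) + x (κ n - C.ka) else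
      (fun k => (C.win C.r0 (cP k) (mP k)).fn (i - (C.p * k - C.o)) + x (k - C.ka))
        (κ n + (C.r1 + ι n : ℕ) + C.r0 *
          ((i - (C.p * (κ n + (C.r1 + ι n : ℕ)) - C.o)) / (C.p * C.r0 : ℕ))))
  have wE : ∀ n (j : ℕ), j < C.p * (C.r1 + ι n) → w (C.p * κ n - C.o + j) =
      (C.win (C.r1 + ι n) (cE n) (mE n)).get j + x (κ n - C.ka) := by
    intro n j hj
    have a := mono _ _ (stp n)
    have hj' : (j : ℤ) < C.p * (C.r1 + ι n : ℕ) := by exact_mod_cast hj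
    rw [mul_add] at a
    rw [hw n _ (by omega) (by omega), if_pos (by rw [mul_add]; omega), add_sub_cancel_left,
      Wd.fn_nat]
  have tE : ∀ n, C.Tile x w (κ n) (C.r1 + ι n) (C.p * (C.r1 + ι n)) := fun n =>
    ⟨_, _, hE1 n, hE2 n, wE n⟩
  have tP : ∀ n (u : ℕ), u < t n →
      C.Tile x w (κ n + (C.r1 + ι n : ℕ) + C.r0 * u) C.r0 (C.p * C.r0) := by
    intro n u hu
    refine ⟨_, _, hP1 _, hP2 _, fun j hj => ?_⟩
    have hj' : (j : ℤ) < C.p * C.r0 := by exact_mod_cast hj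
    have a1 : (C.r0 : ℤ) * (u + 1) ≤ C.r0 * t n := mul_le_mul_of_nonneg_left (by omega) r0'.le
    have a2 := mono (κ n + (C.r1 + ι n : ℕ) + C.r0 * u + C.r0) (κ (n + 1)) (by
      rw [ht n]; linarith)
    have a3 : (0 : ℤ) ≤ C.p * (C.r0 * u) := by positivity
    have a4 : (0 : ℤ) ≤ C.p * (C.r1 + ι n : ℕ) := by positivity
    simp only [mul_add] at a2
    rw [hw n _ (by simp only [mul_add]; omega) (by simp only [mul_add]; omega),
      if_neg (by simp only [mul_add]; omega)]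
    have e : (C.p * (κ n + (C.r1 + ι n : ℕ) + C.r0 * u) - C.o + j -
        (C.p * (κ n + (C.r1 + ι n : ℕ)) - C.o)) / (C.p * C.r0 : ℕ) = u := by
      have : C.p * (κ n + (C.r1 + ι n : ℕ) + C.r0 * u) - C.o + j -
        (C.p * (κ n + (C.r1 + ι n : ℕ)) - C.o) = j + (C.p * C.r0 : ℕ) * u := by push_cast; ring
      have z : ((C.p * C.r0 : ℕ) : ℤ) ≠ 0 := by positivity
      rw [this, Int.add_mul_ediv_left _ _ z, Int.ediv_eq_zero_of_lt (by omega) (by omega), zero_add]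
    simp only [e]
    rw [add_sub_cancel_left, Wd.fn_nat]
  have tA : ∀ n (u : ℕ), u ≤ t n →
      ∃ r, C.Tile x w (κ n + (C.r1 + ι n : ℕ) + C.r0 * u) r (C.p * r) := by
    intro n u hu
    rcases Nat.lt_or_eq_of_le hu with a | a
    · exact ⟨_, tP n u a⟩
    · rw [a, ← ht n]; exact ⟨_, tE (n + 1)⟩
  obtain ⟨s1, s2⟩ := TC.sf_of (w := w) h0 hx (fun i => by
    obtain ⟨n, n1, n2⟩ := exists_between_seq (l := κ) (fun n => by have := stp n; omega) i
    by_cases c : i < κ n + (C.r1 + ι n : ℕ)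
    · obtain ⟨r, hr⟩ := tA n 0 (Nat.zero_le _)
      exact ⟨κ n, _, n1, c, (tE n).ext (by simpa using hr)⟩
    · obtain ⟨u, v, hv, e⟩ := decomp (show 0 < C.r0 from hr0) (i - (κ n + (C.r1 + ι n : ℕ)))
      have u0 : 0 ≤ u := by
        by_contra hc
        have : (C.r0 : ℤ) * u ≤ C.r0 * (-1) := mul_le_mul_of_nonneg_left (by omega) r0'.le
        omega
      obtain ⟨u, rfl⟩ := Int.eq_ofNat_of_zero_le u0
      have u1 : u < t n := by
        by_contra hc
        have : (C.r0 : ℤ) * t n ≤ C.r0 * u := mul_le_mul_of_nonneg_left (by omega) r0'.le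
        have := ht n
        omega
      obtain ⟨r, hr⟩ := tA n (u + 1) u1
      refine ⟨_, C.r0, by omega, by omega, (tP n u u1).ext (r' := r) ?_⟩
      have e2 : κ n + (C.r1 + ι n : ℕ) + C.r0 * u + C.r0 =
          κ n + (C.r1 + ι n : ℕ) + C.r0 * (u + 1 : ℕ) := by push_cast; ring
      rw [e2]; exact hr)
  refine ⟨w, s1, s2, fun l => ?_⟩
  have := wE l (C.j0 + δ l) (by have := (hE (ι l) (hι l)).1; have := hδ l; omega)
  rw [hE3 l] at this
  rw [← this]; congr 1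
  have := hκ l
  push_cast; omega

end

end Pool.Agent.Lib.MP_42179e_co
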